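import Pool.Agent.P.MP_e4219a_lc.Bund

/-! A norm residue symbol that is nontrivial at two given places only. -/

namespace Pool.Agent.P.MP_e4219a_lc

open NumberField IsDedekindDomain Finset
open Pool.Agent.P.MP_b8021b_nt Pool.Agent.P.MP_b8021b_nt.VE Pool.Agent.P.MP_b8021b_nt.VC
open scoped Classical

namespace BExP

variable {L M : Type} [Field L] [NumberField L] [Field M] [NumberField M] [Algebra L M]

/-- a character that kills the norms from a quadratic extension is quadratic -/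
theorem sq_one {N : ℕ} {χ : Ideal (𝓞 L) →* ℂ} (h2 : Module.finrank L M = 2)
    (hM : IsTriv N (nrm M χ)) {I : Ideal (𝓞 L)} (hI : Cop N I) : χ I ^ 2 = 1 := by
  have e : Ideal.relNorm (𝓞 L) (I.map (algebraMap (𝓞 L) (𝓞 M))) = I ^ 2 := by
    rw [Ideal.relNorm_algebraMap, ← h2, IsFractionRing.finrank_eq (𝓞 L) L (𝓞 M) M]
  have h1 := hM (I.map (algebraMap (𝓞 L) (𝓞 M))) ((cop_rel (E := L)).1 (by
    rw [e, pow_two]
    exact cop_mul.2 ⟨hI, hI⟩))
  rwa [nrm_apply, e, map_pow] at h1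

/-- valuations of the quotient in a ray equivalence -/
theorem od_ray {I J : Ideal (𝓞 L)} {α β : 𝓞 L} (hI : I ≠ ⊥) (hJ : J ≠ ⊥) (ha : α ≠ 0)
    (hb : β ≠ 0) (e : I * Ideal.span {α} = J * Ideal.span {β}) (v : Pl L) :
    od v ((β : L) / α) = cnt v I - cnt v J := by
  have h1 := congrArg (cnt v) e
  rw [cnt_mul v hI (by simpa using ha), cnt_mul v hJ (by simpa using hb)] at h1
  rw [od_div v (by simpa using hb) (by simpa using ha), od_coe v ha, od_coe v hb]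
  omega

end BExP

theorem p_bex (h : T2) (hI : Z_Idx) : Z_BEx := by
  intro L _ _ n b p q hL hn h2 hb hod hpq hp hq lp lq
  have hℓ : El 2 := Or.inl rfl
  have hn0 : n ≠ 0 := by omega
  have hns : ¬ ∃ z : L, b = z ^ 2 := by
    rintro ⟨z, rfl⟩
    exact lp (LP.pow_self p two_ne_zero fun e => hb (by rw [e]; simp))
  obtain ⟨M, _, _, _, _, β, hK, -⟩ := h.kum L 2 b hL hℓ hns
  have kp := h.kp L M 2 b β hL hℓ hK
  have n2 : ∀ v : Pl L, ¬ Dv n v → ¬ Dv 2 v := fun v hv a => hv (a.of_dvd h2)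
  have ev : ∀ v : Pl L, ¬ Dv n v → ((2 : ℕ) : ℤ) ∣ od v b := fun v hv => by
    rw [hod v hv]; exact dvd_zero _
  have hram : ∀ 𝔓 : Ideal (𝓞 M), 𝔓.IsMaximal → RamP L 𝔓 → (n : 𝓞 M) ∈ 𝔓 := by
    intro 𝔓 m r
    obtain ⟨v, -, -, u, -⟩ := (h.ex L M).1 ⟨𝔓, m.isPrime,
      Ring.ne_bot_of_isMaximal_of_not_isField m (RingOfIntegers.not_isField M)⟩
    have hv : Dv n v := by
      by_contra hv
      exact ((kp v).1 𝔓 m r u).1.elim (n2 v hv) fun a => a (ev v hv)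
    have h3 : (n : 𝓞 L) ∈ 𝔓.comap (algebraMap (𝓞 L) (𝓞 M)) := u ▸ hv
    simpa using Ideal.mem_comap.1 h3
  obtain ⟨j, χ, hj, hχ, hnt, hM, -⟩ := h.fi L M n hL (hK.fin ▸ hℓ) hn hram
  have hN : 2 ≤ n ^ j := hn.trans (Nat.le_self_pow (by omega) n)
  have cop : ∀ v : Pl L, ¬ Dv n v → Cop (n ^ j) v.asIdeal := fun v hv =>
    (cop_prime_iff v).2 fun a => hv ((dv_pow v hj).1 a)
  have neg : ∀ v : Pl L, ¬ Dv n v → ¬ LP 2 v b → χ v.asIdeal = -1 := fun v hv lv =>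
    (sq_eq_one_iff.1 (BExP.sq_one hK.fin hM (cop v hv))).resolve_left
      (h.ar L M 2 (n ^ j) b β χ v hL hℓ hK hN hχ hnt hM (fun a => hv ((dv_pow v hj).1 a))
        (n2 v hv) (ev v hv) lv)
  obtain ⟨A, cA, α, γ, ha, hg, a1, g1, e⟩ := hI L M (n ^ j) χ (p.asIdeal * q.asIdeal) hL hK.fin hN
    hχ hnt hM (cop_mul.2 ⟨cop p hp, cop q hq⟩) (by
      rw [map_mul, neg p hp lp, neg q hq lq]; norm_num)
  have A0 : A ≠ ⊥ := Cop_ne_bot hN cA
  have N0 : Ideal.relNorm (𝓞 L) A ≠ ⊥ := Cop_ne_bot hN (cop_rel.2 cA)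
  have o0 := BExP.od_ray (mul_ne_zero p.ne_bot q.ne_bot) N0 ha hg e
  simp only [fun v : Pl L => cnt_mul v p.ne_bot q.ne_bot] at o0
  have ha' : (α : L) ≠ 0 := by simpa using ha
  have c0 : (γ : L) / α ≠ 0 := div_ne_zero (by simpa using hg) ha'
  have one0 : One n ((γ : L) / α) :=
    One.of_dvd ⟨γ, α, g1, a1, div_mul_cancel₀ _ ha'⟩ (dvd_pow_self n (by omega))
  have evN : ∀ v : Pl L, ¬ Dv n v → ¬ LP 2 v b → 2 ∣ cnt v (Ideal.relNorm (𝓞 L) A) :=
    fun v hv lv => ((kp v).2.2 (n2 v hv) (ev v hv) lv).1 A A0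
  obtain ⟨z, z0, z1, z2⟩ := (h.wa L).2.2.1 {p, q}
    (fun v => (cnt v (Ideal.relNorm (𝓞 L) A) / 2 : ℕ)) n hn0 (by
      intro v hv
      rcases mem_insert.1 hv with rfl | hv
      · exact hp
      · rw [mem_singleton.1 hv]; exact hq)
  have oc : ∀ v : Pl L, od v ((γ : L) / α * z ^ 2) = od v ((γ : L) / α) + 2 * od v z := fun v => by
    rw [od_mul v c0 (pow_ne_zero _ z0), od_pow]; rfl
  refine ⟨(γ : L) / α * z ^ 2, mul_ne_zero c0 (pow_ne_zero _ z0), one0.mul (z1.pow 2), ?_, ?_,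
    fun v h1 h3 => ?_⟩
  · have := evN p hp lp
    rw [oc, o0, z2 p (by simp), cnt_self, cnt_ne p hpq]
    omega
  · have := evN q hq lq
    rw [oc, o0, z2 q (by simp), cnt_self, cnt_ne q hpq.symm]
    omega
  · by_cases hv : Dv n v
    · left
      rw [oc, one0.od_eq hv]
      omega
    · by_cases lv : LP 2 v b
      · exact Or.inr ⟨n2 v hv, lv⟩
      · left
        have := evN v hv lv
        rw [oc, o0, cnt_ne v h1, cnt_ne v h3]
        omega

end Pool.Agent.P.MP_e4219a_lc
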