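import Pool.Agent.P.MP_e4219a_lc.Bund

/-! The valuation rings are Diophantine. -/

namespace Pool.Agent.P.MP_e4219a_lc

open NumberField Finset
open Pool.Agent.P.MP_b8021b_nt Pool.Agent.P.MP_b8021b_nt.VE Pool.Agent.P.MP_b8021b_nt.VC
open scoped Classical

namespace BFixP

theorem dio_cond {K ι : Type} [Field K] (b c : K) {g : (ι → K) → K} (hg : PolyF g) :
    Dio fun x => Cond b c (g x) := by
  have hg' : PolyF fun z : ι ⊕ Fin 4 → K => g fun i => z (.inl i) := hg.comp fun _ => PolyF.var _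
  have h : Dio fun x => ∃ y : Fin 4 → K,
      c = y 0 ^ 2 + g x * y 1 ^ 2 - b * (y 2 ^ 2 + g x * y 3 ^ 2) ∧ y 0 * y 1 = b * y 2 * y 3 :=
    Dio.exF ((Dio.eq (PolyF.const _) ((((PolyF.var _).pow 2).add (hg'.mul ((PolyF.var _).pow 2))).sub
      ((PolyF.const _).mul (((PolyF.var _).pow 2).add (hg'.mul ((PolyF.var _).pow 2)))))).and
      (Dio.eq ((PolyF.var _).mul (PolyF.var _))
        (((PolyF.const _).mul (PolyF.var _)).mul (PolyF.var _))))
  exact h.congr fun x => ⟨fun ⟨r₀, r₁, s₀, s₁, h⟩ => ⟨![r₀, r₁, s₀, s₁], h⟩,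
    fun ⟨y, h⟩ => ⟨_, _, _, _, h⟩⟩

variable {L : Type} [Field L] [NumberField L]

theorem odd_g (w : Pl L) {c y : L} (hc : c ≠ 0) (hy : y ≠ 0) (h1 : Odd (od w c))
    (h2 : od w (4 * c) + 2 * od w y < 0) : Odd (od w (1 + 4 * c * y ^ 2)) := by
  have h4 : (4 : L) ≠ 0 := by norm_num
  have e1 : od w (4 * c * y ^ 2) = od w (4 * c) + 2 * od w y := by
    rw [od_mul w (mul_ne_zero h4 hc) (pow_ne_zero 2 hy), od_pow]
    rfl
  have e2 : od w (4 * c) = 2 * od w 2 + od w c := by
    rw [od_mul w h4 hc, show (4 : L) = 2 ^ 2 by norm_num, od_pow]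
    rfl
  have e3 : vl w (1 + 4 * c * y ^ 2) = vl w (4 * c * y ^ 2) :=
    Valuation.map_add_eq_of_lt_right _ (by
      rw [map_one]
      exact (od_neg_iff w _).1 (e1 ▸ h2))
  rw [od_eq_of_vl w e3, e1, e2]
  exact ((even_two_mul _).add_odd h1).add_even (even_two_mul _)

theorem od_add (w : Pl L) {a ρ : L} (hρ : ρ ≠ 0) (h : vl w a ≠ vl w ρ) :
    a + ρ ≠ 0 ∧ od w (a + ρ) ≤ od w ρ := by
  have e : vl w ρ ≤ vl w (a + ρ) := by
    rw [Valuation.map_add_of_distinct_val _ h]
    exact le_max_right _ _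
  have h0 : a + ρ ≠ 0 := fun e' => by
    rw [e', map_zero] at e
    exact vl_ne w hρ (le_zero_iff.1 e)
  exact ⟨h0, (vl_le_iff w hρ h0).1 e⟩

/-- the elements with a pole at `v` -/
theorem pole (h : T1) (hC : Z_Cond) (v : Pl L) (hL : Om L) : Dio1 fun x : L => 1 < vl v x := by
  obtain ⟨w1, -, w3, -, -, -, w7, -⟩ := h.wa L
  obtain ⟨⟨δ₀, hδ₀⟩, r2, -⟩ := h.res L v
  obtain ⟨c1, c2⟩ := hC L
  have m0 : Ideal.absNorm v.asIdeal ≠ 0 := by simpa [Ideal.absNorm_eq_zero_iff] using v.ne_bot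
  have m1 := dv_absNorm v
  generalize Ideal.absNorm v.asIdeal = m at m0 m1
  obtain ⟨δ, hδ⟩ := w1 (finite_dv L m0).toFinset (fun w => if w = v then δ₀ else 0) 1
    fun w _ => by
      split_ifs
      · exact vl_coe_le w _
      · simp
  have d0 : ∀ w, Dv m w → vl w (δ - if w = v then (δ₀ : L) else 0) < 1 := fun w hw =>
    (vl_lt_one_iff w).2 (by simpa using hδ w (by simpa using hw))
  obtain ⟨b1, -, b3⟩ := r2 δ₀ δ hδ₀ (by simpa using d0 v m1)
  have b0 : (1 + 4 * δ : L) ≠ 0 := fun e => by simp [e] at b1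
  have v4 : ∀ w : Pl L, vl w 4 ≤ 1 := fun w => by simpa using vl_nat_le w 4
  obtain ⟨n', n0, n1, n2⟩ := w7 m (1 + 4 * δ) m0 fun w hw => by
    by_cases e : w = v
    · rw [e, b1]
    · have := d0 w hw
      rw [if_neg e, sub_zero] at this
      refine vl_of_near w ?_
      rw [add_sub_cancel_left, map_mul]
      exact (mul_le_of_le_one_left' (v4 w)).trans_lt this
  have n3 : ¬ Dv (n' * (m + 1)) v :=
    not_dv_of_coprime v (Nat.Coprime.mul_right n1.symm (by simp)) m1
  have n4 : 2 ≤ n' * (m + 1) := by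
    have := Nat.mul_le_mul (Nat.pos_of_ne_zero n0) (show 2 ≤ m + 1 by omega)
    omega
  have n5 : ∀ w : Pl L, 1 + 4 * δ ∈ w.asIdeal → Dv (n' * (m + 1)) w := fun w hw => by
    by_contra e
    have e1 := n2 w fun e' => e (e'.of_dvd (dvd_mul_right _ _))
    have e2 := (vl_coe_lt w _).2 hw
    have e3 : ((1 + 4 * δ : 𝓞 L) : L) = 1 + 4 * δ := by
      push_cast
      rfl
    rw [e3, (od_eq_zero_iff w b0).1 e1] at e2
    exact lt_irrefl _ e2
  generalize n' * (m + 1) = n at n3 n4 n5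
  obtain ⟨c, c0, c3, c4⟩ := w3 {v} (fun _ => 1) n (by omega) (by simpa using n3)
  replace c4 : od v c = 1 := c4 v (mem_singleton_self v)
  have hS : {w : Pl L | Odd (od w c)}.Finite := (finite_od c).subset fun w hw e => by
    rw [Set.mem_ofPred_eq, e] at hw
    exact absurd hw (by decide)
  obtain ⟨B, hB⟩ := (hS.image fun w => od w (4 * c)).bddAbove
  obtain ⟨J, J2, hJ⟩ : ∃ J : ℕ, 2 ≤ J ∧ ∀ w, Odd (od w c) → od w (4 * c) < J :=
    ⟨B.toNat + 2, by omega, fun w hw => by
      have := hB (Set.mem_image_of_mem _ hw)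
      push_cast
      omega⟩
  obtain ⟨ρ, ρ0, -, hρ⟩ := w3 hS.toFinset (fun w => if w = v then 0 else -(J + 1)) 1 one_ne_zero
    fun w _ => (vl_nat_eq w).1 (by simp)
  have hv : Odd (od v c) := c4 ▸ odd_one
  have ρ1 : vl v ρ = 1 := (od_eq_zero_iff v ρ0).1 (by simpa using hρ v (by simpa using hv))
  refine Dio.congr (dio_cond (1 + 4 * δ : L) c (g := fun x : Unit → L =>
    1 + 4 * c * (x () ^ J + ρ) ^ 2) ((PolyF.const _).add ((PolyF.const _).mul
      ((((PolyF.var _).pow _).add (PolyF.const _)).pow _)))) fun z => ?_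
  generalize z () = x
  constructor
  · intro hx
    have key : ∀ w, Odd (od w c) → Odd (od w (1 + 4 * c * (x ^ J + ρ) ^ 2)) := fun w hw => by
      have a0 := hJ w hw
      by_cases e : w = v
      · subst e
        have a1 : vl w (x ^ J + ρ) = vl w (x ^ J) := Valuation.map_add_eq_of_lt_left _ (by
          rw [ρ1, map_pow]
          exact one_lt_pow₀ hx (by omega))
        have x0 : x ≠ 0 := fun e => by simp [e] at hx
        have a2 : x ^ J + ρ ≠ 0 := fun e => by
          rw [e, map_zero] at a1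
          exact vl_ne w (pow_ne_zero J x0) a1.symm
        have a3 := (od_neg_iff w x).2 hx
        refine odd_g w c0 a2 hw ?_
        rw [od_eq_of_vl w a1, od_pow]
        nlinarith
      · have a1 : od w ρ = -(J + 1) := by simpa [e] using hρ w (by simpa using hw)
        obtain ⟨a2, a3⟩ := od_add w (a := x ^ J) ρ0 fun e' => by
          have a4 := od_eq_of_vl w e'
          rw [od_pow, a1] at a4
          have a5 : (J : ℤ) ∣ 1 := ⟨-(od w x) - 1, by linear_combination a4⟩
          have := Int.le_of_dvd one_pos a5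
          omega
        refine odd_g w c0 a2 hw ?_
        omega
    refine c2 hL n δ c _ n4 n5 b0 c0 c3 ⟨v, key v hv⟩ fun w => ?_
    rcases Int.even_or_odd (od w c) with e | e
    · exact Or.inl e.two_dvd
    · exact Or.inr (Or.inr (key w e))
  · intro hx
    by_contra e
    rw [not_lt] at e
    have a1 : vl v (x ^ J + ρ) ≤ 1 := Valuation.map_add_le _ (by
      rw [map_pow]
      exact pow_le_one' e J) ρ1.le
    have a2 : vl v c < 1 := (od_pos_iff v c0).1 (by omega)
    have a3 := b3 c (c1 _ c _ v c0 hx (LP.of_near ?_))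
    · omega
    · have a4 : vl v 4 = vl v ((2 : ℕ) : L) ^ 2 := by
        rw [← map_pow]
        norm_num
      rw [add_sub_cancel_left, map_mul, map_mul, map_pow, a4]
      refine (mul_le_of_le_one_right' (pow_le_one' a1 2)).trans_lt ?_
      exact mul_lt_of_lt_one_right (pow_pos (vl_pos v (by norm_num)) 2) a2

end BFixP

theorem p_bfix (h : T1) (hC : Z_Cond) : Z_BFix := by
  intro L _ _ v hL
  obtain ⟨π, h0, h1⟩ := exists_od_one v
  have hD : Dio1 fun x : L => x = 0 ∨ ∃ y, 1 < vl v y ∧ y * (x * π) = 1 :=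
    Dio.or (Dio.eq (PolyF.var _) (PolyF.const _)) (Dio.ex1
      (((BFixP.pole h hC v hL).mem (PolyF.var none)).and
        (Dio.eq ((PolyF.var _).mul ((PolyF.var _).mul (PolyF.const _))) (PolyF.const _))))
  refine Dio.congr hD fun z => ?_
  generalize z () = x
  rcases eq_or_ne x 0 with rfl | hx
  · simp
  have e : od v (x * π)⁻¹ = -(od v x + 1) := by rw [od_inv, od_mul v hx h0, h1]
  beta_reduce
  rw [← od_nonneg_iff v hx]
  constructor
  · intro a
    exact Or.inr ⟨(x * π)⁻¹, (od_neg_iff v _).1 (by omega), inv_mul_cancel₀ (mul_ne_zero hx h0)⟩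
  · rintro (a | ⟨y, a, b⟩)
    · exact absurd a hx
    · rw [eq_inv_of_mul_eq_one_left b, ← od_neg_iff] at a
      omega

end Pool.Agent.P.MP_e4219a_lc
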