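import Pool.Agent.P.MP_e4219a_lc.Bund

/-! The complement of the ring of integers is Diophantine. -/

namespace Pool.Agent.P.MP_e4219a_lc

open NumberField Finset
open Pool.Agent.P.MP_b8021b_nt Pool.Agent.P.MP_b8021b_nt.VE Pool.Agent.P.MP_b8021b_nt.VC
open scoped Classical

namespace BUniP

theorem dio_cond {K ι : Type} [Field K] {b c g : (ι → K) → K} (hb : PolyF b) (hc : PolyF c)
    (hg : PolyF g) : Dio fun x => Cond (b x) (c x) (g x) := by
  have hb' : PolyF fun z : ι ⊕ Fin 4 → K => b fun i => z (.inl i) := hb.comp fun _ => PolyF.var _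
  have hc' : PolyF fun z : ι ⊕ Fin 4 → K => c fun i => z (.inl i) := hc.comp fun _ => PolyF.var _
  have hg' : PolyF fun z : ι ⊕ Fin 4 → K => g fun i => z (.inl i) := hg.comp fun _ => PolyF.var _
  have h : Dio fun x => ∃ y : Fin 4 → K,
      c x = y 0 ^ 2 + g x * y 1 ^ 2 - b x * (y 2 ^ 2 + g x * y 3 ^ 2) ∧ y 0 * y 1 = b x * y 2 * y 3 :=
    Dio.exF ((Dio.eq hc' ((((PolyF.var _).pow 2).add (hg'.mul ((PolyF.var _).pow 2))).sub
      (hb'.mul (((PolyF.var _).pow 2).add (hg'.mul ((PolyF.var _).pow 2)))))).and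
      (Dio.eq ((PolyF.var _).mul (PolyF.var _)) ((hb'.mul (PolyF.var _)).mul (PolyF.var _))))
  exact h.congr fun x => ⟨fun ⟨r₀, r₁, s₀, s₁, h⟩ => ⟨![r₀, r₁, s₀, s₁], h⟩,
    fun ⟨y, h⟩ => ⟨_, _, _, _, h⟩⟩

variable {L : Type} [Field L] [NumberField L] {v : Pl L}

theorem kap {y : L} (hy : y ≠ 0) (hv : ¬ Dv 2 v) (h : ¬ LP 2 v y) :
    y - 1 ≠ 0 ∧ od v y - 2 * od v (y - 1) = |od v y| := by
  have h1 : ¬ vl v (y - 1) < 1 := fun e => h (LP.of_near_one hv e)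
  have h0 : y - 1 ≠ 0 := fun e => h1 (by simp [e])
  refine ⟨h0, ?_⟩
  rcases le_or_gt (vl v y) 1 with e | e
  · have : vl v (y - 1) = 1 := le_antisymm (Valuation.map_sub_le _ e (by simp)) (not_lt.1 h1)
    rw [od_eq_zero_of_vl v this, abs_of_nonneg ((od_nonneg_iff v hy).2 e)]
    ring
  · have : vl v (y - 1) = vl v y := Valuation.map_sub_eq_of_lt_left _ (by simpa using e)
    rw [od_eq_of_vl v this, abs_of_neg ((od_neg_iff v y).2 e)]
    ring

theorem od_kap {b c κ : L} (hb : b ≠ 0) (hc : c ≠ 0) (hv : ¬ Dv 2 v) (h : ¬ LP 2 v b)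
    (h' : ¬ LP 2 v c) (e : κ * (b - 1) ^ 2 * (c - 1) ^ 2 = b * c) :
    κ ≠ 0 ∧ od v κ = |od v b| + |od v c| := by
  obtain ⟨a1, a2⟩ := kap hb hv h
  obtain ⟨a3, a4⟩ := kap hc hv h'
  have h0 : κ ≠ 0 := fun e' => mul_ne_zero hb hc (by rw [← e, e', zero_mul, zero_mul])
  have := congrArg (od v) e
  rw [od_mul v (mul_ne_zero h0 (pow_ne_zero _ a1)) (pow_ne_zero _ a3), od_mul v h0 (pow_ne_zero _ a1),
    od_pow, od_pow, od_mul v hb hc] at this
  exact ⟨h0, by push_cast at this; linarith⟩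

theorem odd_od {y κ : L} (hy : 1 < vl v y) (h0 : κ ≠ 0) (h : od v κ = 1) :
    Odd (od v (1 + y ^ 2 * κ)) := by
  have y0 : y ≠ 0 := fun e => by simp [e] at hy
  have h1 := (od_neg_iff v y).2 hy
  have h2 : od v (y ^ 2 * κ) = 2 * od v y + 1 := by
    rw [od_mul v (pow_ne_zero _ y0) h0, od_pow, h]; rfl
  have h3 : 1 < vl v (y ^ 2 * κ) := (od_neg_iff v _).1 (by omega)
  rw [od_eq_of_vl v (Valuation.map_add_eq_of_lt_right _ (by simpa using h3)), h2]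
  exact ⟨_, rfl⟩

end BUniP

open BUniP in
theorem p_buni (h : T2) (hE : Z_BEx) (hC : Z_Cond) (hB : Z_BFix) : Z_BUni := by
  intro L _ _ hL
  obtain ⟨p₀, hp₀⟩ := exists_dv L (n := 3) (by norm_num)
  have hp₂ : ¬ Dv 2 p₀ := not_dv_of_coprime p₀ (by norm_num) hp₀
  obtain ⟨δ₀, hδ₀⟩ := (h.res L p₀).1
  obtain ⟨w1, -, -, -, -, -, w7, w8⟩ := h.wa L
  obtain ⟨ρ, hρ, hρ'⟩ := w8 p₀
  obtain ⟨π, π0, hπ⟩ := exists_od_one p₀
  have e2 : El 2 := Or.inl rfl
  have hv := fun v => hB L v hL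
  have hD : Dio1 fun x : L => (∃ v, (Dv 2 v ∨ v = p₀) ∧ vl v 1 < vl v x) ∨ ∃ y : Fin 3 → L,
      (∀ v, Dv 2 v → vl v (y 0) < vl v 1) ∧ (∀ v, Dv 3 v → vl v (1 + 4 * y 0) = vl v 1) ∧
      vl p₀ (y 0 - δ₀) < vl p₀ 1 ∧ vl p₀ (y 1) = vl p₀ π ∧
      y 2 * (1 + 4 * y 0 - 1) ^ 2 * (y 1 - 1) ^ 2 = (1 + 4 * y 0) * y 1 ∧
      Cond (1 + 4 * y 0) (y 1) (1 + (x + ρ) ^ 2 * y 2) := by
    have hb : PolyF fun z : Unit ⊕ Fin 3 → L => 1 + 4 * z (.inr 0) :=
      (PolyF.const _).add ((PolyF.const _).mul (PolyF.var _))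
    refine Dio.or (Dio.ex_finite (((finite_dv L two_ne_zero).union
      (Set.finite_singleton p₀)).subset fun _ e => e) fun v _ =>
        Dio.vl_lt (hv v) (PolyF.const _) (PolyF.var _)) (Dio.exF ?_)
    exact (Dio.all_finite (finite_dv L two_ne_zero) fun v _ =>
      Dio.vl_lt (hv v) (PolyF.var _) (PolyF.const _)).and
      ((Dio.all_finite (finite_dv L three_ne_zero) fun v _ =>
        Dio.vl_eq (hv v) hb (PolyF.const _)).and
      ((Dio.vl_lt (hv _) ((PolyF.var _).sub (PolyF.const _)) (PolyF.const _)).and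
      ((Dio.vl_eq (hv _) (PolyF.var _) (PolyF.const _)).and
      ((Dio.eq (((PolyF.var _).mul ((hb.sub (PolyF.const _)).pow 2)).mul
        (((PolyF.var _).sub (PolyF.const _)).pow 2)) (hb.mul (PolyF.var _))).and
      (dio_cond hb (PolyF.var _) ((PolyF.const _).add
        ((((PolyF.var _).add (PolyF.const _)).pow 2).mul (PolyF.var _))))))))
  refine Dio.congr hD fun z => ?_
  generalize z () = x
  simp only [map_one, isIntegral_iff, not_forall, not_le]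
  constructor
  · rintro ⟨p, hp⟩
    by_cases c1 : ∃ v, (Dv 2 v ∨ v = p₀) ∧ 1 < vl v x
    · exact Or.inl c1
    have c2 : ¬ Dv 2 p := fun e => c1 ⟨p, Or.inl e, hp⟩
    have c3 : p ≠ p₀ := fun e => c1 ⟨p, Or.inr e, hp⟩
    have c4 : vl p₀ x ≤ 1 := not_lt.1 fun e => c1 ⟨p₀, Or.inr rfl, e⟩
    obtain ⟨δ₁, hδ₁⟩ := (h.res L p).1
    have m0 : Ideal.absNorm p.asIdeal ≠ 0 := by simpa [Ideal.absNorm_eq_zero_iff] using p.ne_bot
    set m := 3 * Ideal.absNorm p.asIdeal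
    have m1 : m ≠ 0 := mul_ne_zero three_ne_zero m0
    have m2 : Dv m p₀ := hp₀.of_dvd (dvd_mul_right _ _)
    have m3 : Dv m p := (dv_absNorm p).of_dvd (dvd_mul_left _ _)
    obtain ⟨δ, hδ⟩ := w1 (finite_dv L (mul_ne_zero two_ne_zero m1)).toFinset
      (fun v => if v = p₀ then δ₀ else if v = p then δ₁ else 0) 1 fun v _ => by
        split_ifs
        · exact vl_coe_le v _
        · exact vl_coe_le v _
        · simp
    have d0 : ∀ v, Dv 2 v ∨ Dv m v →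
        vl v ((δ : L) - if v = p₀ then (δ₀ : L) else if v = p then (δ₁ : L) else 0) < 1 :=
      fun v e => (vl_lt_one_iff v).2 (by simpa using hδ v (by simpa using (dv_mul v).2 e))
    have d1 : vl p₀ ((δ : L) - δ₀) < 1 := by simpa using d0 p₀ (Or.inr m2)
    have d2 : vl p ((δ : L) - δ₁) < 1 := by simpa [c3] using d0 p (Or.inr m3)
    have d3 : ∀ v, Dv 2 v ∨ Dv m v → v ≠ p₀ → v ≠ p → vl v (δ : L) < 1 := fun v e a b => by
      simpa [a, b] using d0 v e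
    obtain ⟨r1, r2, -⟩ := (h.res L p₀).2.1 δ₀ δ hδ₀ d1
    obtain ⟨r3, r4, -⟩ := (h.res L p).2.1 δ₁ δ hδ₁ d2
    have d4 : ∀ v, Dv m v → vl v (1 + 4 * δ : L) = 1 := fun v e => by
      by_cases a : v = p₀
      · exact a ▸ r1
      by_cases b : v = p
      · exact b ▸ r3
      refine (vl v).map_one_add_of_lt ?_
      rw [map_mul]
      exact (mul_le_of_le_one_left' (by simpa using vl_nat_le v 4)).trans_lt (d3 v (Or.inr e) a b)
    have b0 : (1 + 4 * δ : L) ≠ 0 := fun e => by simp [e] at r1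
    obtain ⟨n, n0, n1, n2⟩ := w7 m _ m1 d4
    have n3 : ∀ v, ¬ Dv (2 * n) v → od v (1 + 4 * δ : L) = 0 := fun v e =>
      n2 v fun e' => e ((dv_mul v).2 (Or.inr e'))
    obtain ⟨c, c0, c5, c6, c7, c8⟩ := hE L (2 * n) _ p p₀ hL (by omega) (dvd_mul_right _ _) b0 n3 c3
      (fun e => ((dv_mul p).1 e).elim c2 (not_dv_of_coprime p n1.symm m3))
      (fun e => ((dv_mul p₀).1 e).elim hp₂ (not_dv_of_coprime p₀ n1.symm m2)) r4 r2
    have l1 : ∀ v, od v c = 1 → ¬ LP 2 v c := fun v e e' => by simpa [e] using e'.dvd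
    have k0 : (1 + 4 * δ - 1 : L) ≠ 0 := (kap b0 c2 r4).1
    have k1 : c - 1 ≠ 0 := (kap c0 c2 (l1 p c6)).1
    set κ := (1 + 4 * δ) * c / ((1 + 4 * δ - 1) ^ 2 * (c - 1) ^ 2)
    have k2 : κ * (1 + 4 * δ - 1) ^ 2 * (c - 1) ^ 2 = (1 + 4 * δ) * c := by
      rw [mul_assoc, div_mul_cancel₀ _ (mul_ne_zero (pow_ne_zero _ k0) (pow_ne_zero _ k1))]
    obtain ⟨k3, k4⟩ := od_kap b0 c0 c2 r4 (l1 p c6) k2
    obtain ⟨-, k5⟩ := od_kap b0 c0 hp₂ r2 (l1 p₀ c7) k2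
    rw [od_eq_zero_of_vl p r3, c6] at k4
    rw [od_eq_zero_of_vl p₀ r1, c7] at k5
    have o1 := odd_od (y := x + ρ) (v := p) (by
      rwa [Valuation.map_add_eq_of_lt_left _ ((hρ' p c3).trans_lt hp)]) k3 k4
    have o2 := odd_od (y := x + ρ) (v := p₀) (by
      rwa [Valuation.map_add_eq_of_lt_right _ (c4.trans_lt hρ)]) k3 k5
    refine Or.inr ⟨![δ, c, κ], fun v e => d3 v (Or.inl e) (fun a => hp₂ (a ▸ e)) fun a => c2 (a ▸ e),
      fun v e => d4 v (e.of_dvd (dvd_mul_right _ _)), d1, ?_, k2, ?_⟩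
    · change vl p₀ c = _
      rw [vl_eq p₀ c0, vl_eq p₀ π0, c7, hπ]
    refine (hC L).2 hL (2 * n) δ c _ (by omega) (fun v e => ?_) b0 c0 c5 ⟨p, o1⟩ fun v => ?_
    · by_contra a
      have := (vl_coe_lt v _).2 e
      rw [show ((1 + 4 * δ : 𝓞 L) : L) = 1 + 4 * δ by simp [map_ofNat],
        (od_eq_zero_iff v b0).1 (n3 v a)] at this
      exact lt_irrefl _ this
    · by_cases a : v = p
      · exact Or.inr (Or.inr (a ▸ o1))
      by_cases b : v = p₀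
      · exact Or.inr (Or.inr (b ▸ o2))
      exact (c8 v a b).imp_right Or.inl
  · rintro (⟨v, -, e⟩ | ⟨y, a1, a2, a3, a4, a5, a6⟩)
    · exact ⟨v, e⟩
    by_contra hx
    have hx' : ∀ v, vl v x ≤ 1 := fun v => not_lt.1 fun e => hx ⟨v, e⟩
    obtain ⟨r1, r2, -⟩ := (h.res L p₀).2.1 δ₀ _ hδ₀ a3
    have b0 : 1 + 4 * y 0 ≠ 0 := fun e => by simp [e] at r1
    have c0 : y 1 ≠ 0 := fun e => vl_ne p₀ π0 (by rw [← a4, e, map_zero])
    obtain ⟨n, n0, n1, n2⟩ := w7 3 _ three_ne_zero a2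
    have := h.wr L 2 (2 * n) _ (y 1) p₀ hL e2 (by omega) (dvd_mul_right _ _) b0 c0
      (fun e => ((dv_mul p₀).1 e).elim hp₂ (not_dv_of_coprime p₀ n1.symm hp₀))
      (fun v e => by rw [n2 v fun e' => e ((dv_mul v).2 (Or.inr e'))]; exact dvd_zero _) r2
      fun v e => ?_
    · rw [od_eq_of_vl p₀ a4, hπ] at this
      norm_num at this
    by_contra a
    obtain ⟨a7, a8⟩ := not_or.1 a
    have l1 : ¬ LP 2 v (1 + 4 * y 0) := fun e => a7 (LN.of_left h.hen e2 c0 e)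
    have l2 : ¬ LP 2 v (y 1) := fun e => a7 (LN.of_right h.hen e2 _ e)
    have l3 : ¬ Dv 2 v := fun e => l1 (LP.of_near (by
      rw [add_sub_cancel_left, map_mul, show (4 : L) = ((2 : ℕ) : L) ^ 2 by norm_num, map_pow]
      exact mul_lt_of_lt_one_right (pow_pos (vl_pos v (by norm_num)) 2) (a1 v e)))
    obtain ⟨k3, k4⟩ := od_kap b0 c0 l3 l1 l2 a5
    have k5 : 0 < od v (y 2) := by
      by_contra e
      have e1 := abs_nonneg (od v (1 + 4 * y 0))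
      have e2 := abs_nonneg (od v (y 1))
      refine a8 ⟨l3, ?_, ?_⟩
      · rw [abs_eq_zero.1 (by omega : |od v (1 + 4 * y 0)| = 0)]
        exact dvd_zero _
      · rw [abs_eq_zero.1 (by omega : |od v (y 1)| = 0)]
        exact dvd_zero _
    refine a7 ((hC L).1 _ _ _ v c0 a6 (LP.of_near_one l3 ?_))
    rw [add_sub_cancel_left, map_mul, map_pow]
    exact (mul_le_of_le_one_left' (pow_le_one' (Valuation.map_add_le _ (hx' v) (hρ' v e))
      2)).trans_lt ((od_pos_iff v k3).1 k5)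

end Pool.Agent.P.MP_e4219a_lc
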