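import Pool.Agent.P.MP_e4219a_lc.Bund

/-! Balanced generators. -/

namespace Pool.Agent.P.MP_e4219a_lc

open NumberField IsDedekindDomain Finset
open scoped Classical

namespace BalP

variable (L : Type) [Field L] [NumberField L]

/-- integral linear forms are bounded by the norm of the mixed embedding -/
theorem form_le (f : 𝓞 L →ₗ[ℤ] ℤ) : ∃ B : ℝ, 0 ≤ B ∧ ∀ x : 𝓞 L,
    |(f x : ℝ)| ≤ B * ‖mixedEmbedding L (algebraMap (𝓞 L) L x)‖ := by
  let F : mixedEmbedding.mixedSpace L →ₗ[ℝ] ℝ :=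
    ∑ j, (f (RingOfIntegers.basis L j) : ℝ) • (mixedEmbedding.latticeBasis L).coord j
  refine ⟨‖LinearMap.toContinuousLinearMap F‖, norm_nonneg _, fun x => ?_⟩
  have h1 : (f x : ℝ) = F (mixedEmbedding L (algebraMap (𝓞 L) L x)) := by
    conv_lhs => rw [← (RingOfIntegers.basis L).sum_repr x]
    simp only [F, map_sum, map_zsmul, LinearMap.sum_apply, LinearMap.smul_apply,
      Module.Basis.coord_apply, mixedEmbedding.latticeBasis_repr_apply, integralBasis_repr_apply,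
      smul_eq_mul]
    push_cast
    refine Finset.sum_congr rfl fun j _ => ?_
    simp [mul_comm]
  rw [h1, ← Real.norm_eq_abs]
  exact (LinearMap.toContinuousLinearMap F).le_opNorm _

/-- some unit multiple has all conjugates of the size of the norm -/
theorem exists_unit : ∃ A : ℝ, 0 ≤ A ∧ ∀ u : 𝓞 L, u ≠ 0 → ∃ ε : (𝓞 L)ˣ,
    ‖mixedEmbedding L (algebraMap (𝓞 L) L (ε * u))‖ ^ Module.finrank ℚ L ≤
      A * (Ideal.absNorm (Ideal.span {u}) : ℝ) := by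
  obtain ⟨R, hR⟩ := (mixedEmbedding.fundamentalCone.isBounded_normLeOne L).exists_norm_le
  refine ⟨|R| ^ Module.finrank ℚ L, by positivity, fun u hu => ?_⟩
  set d := Module.finrank ℚ L with hd
  have hd0 : d ≠ 0 := Module.finrank_pos.ne'
  set N : ℝ := (Ideal.absNorm (Ideal.span {u}) : ℝ) with hN
  have hN0 : 0 < N := by
    rw [hN]
    exact_mod_cast Nat.pos_of_ne_zero (by simpa using hu)
  have hn : mixedEmbedding.norm (mixedEmbedding L (algebraMap (𝓞 L) L u)) = N := by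
    rw [mixedEmbedding.norm_eq_norm, hN, Ideal.absNorm_span_singleton, ← Algebra.coe_norm_int]
    push_cast
    simp
  obtain ⟨ε, hε⟩ := mixedEmbedding.fundamentalCone.exists_unit_smul_mem
    (x := mixedEmbedding L (algebraMap (𝓞 L) L u)) (by rw [hn]; exact hN0.ne')
  refine ⟨ε, ?_⟩
  have he : ε • mixedEmbedding L (algebraMap (𝓞 L) L u) =
      mixedEmbedding L (algebraMap (𝓞 L) L (ε * u)) :=
    mixedEmbedding.unit_smul_eq_iff_mul_eq.2 rfl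
  set c : ℝ := (N ^ ((d : ℝ)⁻¹))⁻¹ with hc
  have hc0 : 0 < c := inv_pos.2 (Real.rpow_pos_of_pos hN0 _)
  have hcd : c ^ d * N = 1 := by
    rw [hc, inv_pow, Real.rpow_inv_natCast_pow hN0.le hd0, inv_mul_cancel₀ hN0.ne']
  have hmem : c • (ε • mixedEmbedding L (algebraMap (𝓞 L) L u)) ∈
      mixedEmbedding.fundamentalCone.normLeOne L := by
    refine ⟨mixedEmbedding.fundamentalCone.smul_mem_of_mem hε hc0.ne', ?_⟩
    change mixedEmbedding.norm _ ≤ 1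
    rw [mixedEmbedding.norm_smul, mixedEmbedding.norm_unit_smul, hn, abs_of_pos hc0, hcd]
  have h1 := (hR _ hmem).trans (le_abs_self R)
  rw [norm_smul, Real.norm_eq_abs, abs_of_pos hc0, he] at h1
  have h2 := pow_le_pow_left₀ (by positivity) h1 d
  rw [mul_pow] at h2
  calc _ = (c ^ d * N) * ‖mixedEmbedding L (algebraMap (𝓞 L) L (ε * u))‖ ^ d := by
        rw [hcd, one_mul]
    _ = (c ^ d * ‖mixedEmbedding L (algebraMap (𝓞 L) L (ε * u))‖ ^ d) * N := by ring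
    _ ≤ |R| ^ d * N := mul_le_mul_of_nonneg_right h2 hN0.le

/-- finitely many units represent all units modulo `n` -/
theorem exists_reps {n : ℕ} (hn : n ≠ 0) : ∃ S : Finset (𝓞 L)ˣ, ∀ ε : (𝓞 L)ˣ,
    ∃ r ∈ S, (n : 𝓞 L) ∣ ((r * ε : (𝓞 L)ˣ) : 𝓞 L) - 1 := by
  have hI : Ideal.span {(n : 𝓞 L)} ≠ ⊥ := by
    rw [Ne, Ideal.span_singleton_eq_bot]
    exact_mod_cast hn
  have : Finite (𝓞 L ⧸ Ideal.span {(n : 𝓞 L)}) := Ideal.finiteQuotientOfFreeOfNeBot _ hI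
  let φ : (𝓞 L)ˣ → 𝓞 L ⧸ Ideal.span {(n : 𝓞 L)} := fun ε => Ideal.Quotient.mk _ (ε : 𝓞 L)
  let g : (𝓞 L ⧸ Ideal.span {(n : 𝓞 L)}) → (𝓞 L)ˣ := fun c =>
    if h : ∃ ε, φ ε = c then h.choose⁻¹ else 1
  refine ⟨(Set.finite_range g).toFinset, fun ε => ⟨g (φ ε), by simp, ?_⟩⟩
  have h : ∃ ε', φ ε' = φ ε := ⟨ε, rfl⟩
  have h1 : g (φ ε) = h.choose⁻¹ := dif_pos h
  have h2 : (n : 𝓞 L) ∣ (ε : 𝓞 L) - (h.choose : (𝓞 L)ˣ) := by
    rw [← Ideal.mem_span_singleton, ← Ideal.Quotient.eq]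
    exact h.choose_spec.symm
  rw [h1]
  have h3 : ((h.choose⁻¹ * ε : (𝓞 L)ˣ) : 𝓞 L) - 1 =
      ((h.choose⁻¹ : (𝓞 L)ˣ) : 𝓞 L) * ((ε : 𝓞 L) - (h.choose : (𝓞 L)ˣ)) := by
    rw [mul_sub, Units.inv_mul, Units.val_mul]
  rw [h3]
  exact h2.mul_left _

end BalP

theorem p_bal : Z_Bal := by
  intro L _ _ d n b hn
  obtain ⟨A, hA, h1⟩ := BalP.exists_unit L
  obtain ⟨S, hS⟩ := BalP.exists_reps L hn
  choose B hB0 hB using fun (r : (𝓞 L)ˣ) (i : Fin d) =>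
    BalP.form_le L ((b.coord i).comp (LinearMap.mulLeft ℤ (r : 𝓞 L)))
  have hd : Module.finrank ℚ L = d := by
    rw [← RingOfIntegers.rank, Module.finrank_eq_card_basis b, Fintype.card_fin]
  set M : ℝ := ∑ r ∈ S, ∑ i, B r i with hM
  have hM0 : 0 ≤ M := sum_nonneg fun r _ => sum_nonneg fun i _ => hB0 r i
  refine ⟨⌈M ^ d * A⌉₊ + 1, by omega, fun u hu => ?_⟩
  obtain ⟨ε, hε⟩ := h1 u hu
  obtain ⟨r, hr, hrε⟩ := hS ε
  refine ⟨r * ε, hrε, fun i => ?_⟩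
  have hBM : B r i ≤ M :=
    (single_le_sum (f := fun i => B r i) (fun i _ => hB0 r i) (mem_univ i)).trans
      (single_le_sum (f := fun r => ∑ i, B r i) (fun r _ => sum_nonneg fun i _ => hB0 r i) hr)
  have h2 := (hB r i (ε * u)).trans (mul_le_mul_of_nonneg_right hBM (norm_nonneg _))
  have h3 : ((b.coord i).comp (LinearMap.mulLeft ℤ (r : 𝓞 L))) (ε * u) =
      b.repr (((r * ε : (𝓞 L)ˣ) : 𝓞 L) * u) i := by
    simp [mul_assoc]
  rw [h3] at h2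
  have h4 := pow_le_pow_left₀ (abs_nonneg _) h2 d
  rw [mul_pow] at h4
  rw [hd] at hε
  have h5 : M ^ d * A ≤ ((⌈M ^ d * A⌉₊ + 1 : ℕ) : ℝ) := by
    push_cast
    linarith [Nat.le_ceil (M ^ d * A)]
  have h6 : (((b.repr (((r * ε : (𝓞 L)ˣ) : 𝓞 L) * u) i).natAbs ^ d : ℕ) : ℝ) ≤
      (((⌈M ^ d * A⌉₊ + 1) * Ideal.absNorm (Ideal.span {u}) : ℕ) : ℝ) := by
    rw [Nat.cast_pow, Nat.cast_natAbs, Int.cast_abs, Nat.cast_mul]
    calc _ ≤ _ := h4
      _ ≤ M ^ d * (A * (Ideal.absNorm (Ideal.span {u}) : ℝ)) :=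
        mul_le_mul_of_nonneg_left hε (pow_nonneg hM0 d)
      _ = (M ^ d * A) * (Ideal.absNorm (Ideal.span {u}) : ℝ) := by ring
      _ ≤ _ := mul_le_mul_of_nonneg_right h5 (Nat.cast_nonneg _)
  exact_mod_cast h6

end Pool.Agent.P.MP_e4219a_lc
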