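import Pool.Agent.P.MP_e4219a_lc.Bund

/-! Package C: primes with prescribed splitting in independent Kummer extensions. -/

namespace Pool.Agent.P.MP_e4219a_lc

open NumberField IsDedekindDomain Finset
open scoped Classical

namespace CP

theorem adjoin_top {E M : Type} [Field E] [NumberField E] [Field M] [Algebra E M] {ℓ : ℕ}
    (hℓ : El ℓ) {b : E} {β : M} (h : Kum ℓ b β) : IntermediateField.adjoin E {β} = ⊤ := by
  have hp : (Module.finrank E M).Prime := h.fin ▸ hℓ.prime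
  have := IntermediateField.isSimpleOrder_of_finrank_prime E M hp
  refine (eq_bot_or_eq_top _).resolve_left fun e => h.np ?_
  have h1 : β ∈ (⊥ : IntermediateField E M) := e ▸ IntermediateField.mem_adjoin_simple_self E β
  obtain ⟨z, hz⟩ := IntermediateField.mem_bot.1 h1
  exact ⟨z, (algebraMap E M).injective (by rw [map_pow, hz, h.pow])⟩

theorem prod_single {L : Type} [Field L] {t : ℕ} (y : Fin t → L) (c : Fin t → ℕ) (a : Fin t)
    (j : ℕ) : ∏ i, y i ^ (c + Pi.single a j : Fin t → ℕ) i = y a ^ j * ∏ i, y i ^ c i := by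
  simp only [Pi.add_apply, pow_add, prod_mul_distrib]
  rw [mul_comm, Finset.prod_eq_single a (fun i _ hi => by rw [Pi.single_eq_of_ne hi, pow_zero])
    (fun e => absurd (mem_univ a) e), Pi.single_eq_same]

/-- the tower of Kummer extensions -/
theorem tower (h : T1) {L : Type} [Field L] [NumberField L] {ℓ t : ℕ} (hL : Om L) (hℓ : El ℓ)
    (y : Fin t → L) (hy : ∀ i, y i ≠ 0) (s : Finset (Fin t)) :
    ∃ (E : Type) (_ : Field E) (_ : NumberField E) (f : L →+* E),
      (∀ i ∈ s, ∃ z : E, f (y i) = z ^ ℓ) ∧ ∀ x : L, (∃ z : E, f x = z ^ ℓ) →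
        ∃ c : Fin t → ℕ, (∀ i, i ∉ s → c i = 0) ∧ ∃ z : L, x * ∏ i, y i ^ c i = z ^ ℓ := by
  induction s using Finset.induction_on with
  | empty =>
    exact ⟨L, inferInstance, inferInstance, RingHom.id L, by simp, fun x hx =>
      ⟨0, fun _ _ => rfl, by simpa using hx⟩⟩
  | insert a s ha ih =>
    obtain ⟨E, _, _, f, h1, h2⟩ := ih
    by_cases hp : ∃ z : E, f (y a) = z ^ ℓ
    · refine ⟨E, inferInstance, inferInstance, f, fun i hi => ?_, fun x hx => ?_⟩
      · rcases mem_insert.1 hi with rfl | hi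
        · exact hp
        · exact h1 i hi
      · obtain ⟨c, hc, hz⟩ := h2 x hx
        exact ⟨c, fun i hi => hc i fun e => hi (mem_insert_of_mem e), hz⟩
    · obtain ⟨M, _, _, _, _, β, hβ, -⟩ := h.kum E ℓ (f (y a)) (hL.map f) hℓ hp
      refine ⟨M, inferInstance, inferInstance, (algebraMap E M).comp f, fun i hi => ?_,
        fun x hx => ?_⟩
      · rcases mem_insert.1 hi with rfl | hi
        · exact ⟨β, hβ.pow.symm⟩
        · obtain ⟨z, hz⟩ := h1 i hi
          exact ⟨algebraMap E M z, by rw [RingHom.comp_apply, hz, map_pow]⟩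
      · obtain ⟨j, z, hz⟩ := h.ki E M ℓ (f (y a)) (f x) β (hL.map f) hℓ
          ((map_ne_zero f).2 (hy a)) hβ.pow (adjoin_top hℓ hβ) hx
        obtain ⟨c, hc, z', hz'⟩ := h2 (x * y a ^ j) ⟨z, by rw [map_mul, map_pow, hz]⟩
        refine ⟨c + Pi.single a j, fun i hi => ?_, z', by rw [prod_single, ← mul_assoc, hz']⟩
        rw [mem_insert, not_or] at hi
        rw [Pi.add_apply, hc i hi.2, Pi.single_eq_of_ne hi.1, add_zero]

theorem near_pow {E : Type} [Field E] [NumberField E] (w : Pl E) {x : E} (hx : vl w (x - 1) < 1)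
    (k : ℕ) : vl w (x ^ k - 1) < 1 := by
  induction k with
  | zero => simp
  | succ k ih => rw [pow_succ]; exact near_mul w le_rfl ih hx

/-- a unit that is a power upstairs is a local power below a prime of degree one -/
theorem lp_down (h : T1) {L E : Type} [Field L] [NumberField L] [Field E] [NumberField E]
    [Algebra L E] {ℓ e : ℕ} (hℓ : El ℓ) {v : Pl L} {w : Pl E}
    (hv : ∀ x : L, vl w (algebraMap L E x) = vl v x ^ e)
    (hf : ∀ y : 𝓞 E, ∃ a : 𝓞 L, y - algebraMap (𝓞 L) (𝓞 E) a ∈ w.asIdeal) (hl : ¬ Dv ℓ v)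
    {y : L} (hy : vl v y = 1) {z : E} (hz : algebraMap L E y = z ^ ℓ) : LP ℓ v y := by
  have h1 : vl w z = 1 := by
    have := hv y
    rw [hz, hy, one_pow, map_pow] at this
    exact (pow_eq_one_iff_of_nonneg zero_le hℓ.prime.ne_zero).1 this
  obtain ⟨α, hα⟩ := (h.wa E).1 {w} (fun _ => z) 1 (fun u hu => by
    rw [mem_singleton.1 hu]; exact h1.le)
  have h2 : vl w ((α : E) - z) < 1 := (vl_lt_one_iff w).2 (by simpa using hα w (mem_singleton_self _))
  obtain ⟨a, ha⟩ := hf α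
  have h3 : vl w ((α : E) - algebraMap L E a) < 1 := by
    have := (vl_coe_lt w _).2 ha
    rw [RingOfIntegers.coe_eq_algebraMap, map_sub] at this
    exact this
  have h4 : vl w (algebraMap L E a - z) < 1 := by
    rw [show algebraMap L E a - z = ((α : E) - z) - ((α : E) - algebraMap L E a) by ring]
    exact Valuation.map_sub_lt _ h2 h3
  have hz0 : z ≠ 0 := by
    rintro rfl
    simp at h1
  have h5 : vl w (algebraMap L E a / z - 1) < 1 := by
    rw [show algebraMap L E a / z - 1 = (algebraMap L E a - z) / z by field_simp, map_div₀, h1,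
      div_one]
    exact h4
  have h6 := near_pow w (near_inv w le_rfl h5) ℓ
  rw [inv_div, div_pow, ← hz, ← map_pow, ← map_div₀, ← map_one (algebraMap L E), ← map_sub,
    hv] at h6
  refine ⟨a, ?_⟩
  rw [(vl_nat_eq v).2 hl, one_pow]
  by_contra hc
  exact absurd h6 (not_lt.2 (one_le_pow₀ (not_lt.1 hc)))

end CP

theorem p_c (h : T2) : Z_C := by
  intro L _ _ ℓ m t y hL hℓ hm hy hind
  have hN : ∀ i, ∃ n : ℕ, n ≠ 0 ∧ ∀ v : Pl L, ¬ Dv n v → od v (y i) = 0 := fun i => by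
    obtain ⟨n, h0, -, h1⟩ := (h.wa L).2.2.2.2.2.2.1 1 (y i) one_ne_zero fun v hv =>
      absurd ((Ideal.eq_top_iff_one _).2 (by simpa [Dv] using hv)) v.isPrime.ne_top
    exact ⟨n, h0, h1⟩
  choose n hn0 hn using hN
  have key : ∀ j, ∃ v : Pl L, ¬ Dv m v ∧ ∀ i, LP ℓ v (y i) ↔ i ≠ j := fun j => by
    obtain ⟨E, _, _, f, h1, h2⟩ := CP.tower h.toT1 hL hℓ y hy (univ.erase j)
    let _ : Algebra L E := f.toAlgebra
    have hj : ¬ ∃ z : E, f (y j) = z ^ ℓ := fun e => by
      obtain ⟨c, hc, z, hz⟩ := h2 _ e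
      have := hind (c + Pi.single j 1) ⟨z, by rw [CP.prod_single, pow_one, hz]⟩ j
      rw [Pi.add_apply, hc j (by simp), Pi.single_eq_same, zero_add] at this
      exact hℓ.prime.one_lt.ne' (Nat.dvd_one.1 this)
    obtain ⟨w, hw1, hw2, hw3⟩ := h.c1 E ℓ (m * ℓ * ∏ i, n i) (f (y j)) (hL.map f) hℓ
      (mul_ne_zero (mul_ne_zero hm hℓ.prime.ne_zero) (prod_ne_zero_iff.2 fun i _ => hn0 i)) hj
    obtain ⟨x1, -, x3, x4, -⟩ := h.ex L E
    obtain ⟨v, e, -, hu, hv⟩ := x1 w
    obtain ⟨g, -, -, hg, hf⟩ := x3 v w hu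
    have hg1 : g = 1 := (hg ▸ hw1).eq_one_of_pow
    have hd : ∀ k : ℕ, k ∣ m * ℓ * ∏ i, n i → ¬ Dv k v := fun k hk hkv => by
      refine hw2 (Dv.of_dvd ?_ hk)
      have : (k : 𝓞 L) ∈ w.asIdeal.comap (algebraMap (𝓞 L) (𝓞 E)) := hu ▸ hkv
      simpa [Ideal.mem_comap] using this
    refine ⟨v, hd m ((dvd_mul_right _ _).mul_right _), fun i => ⟨fun hi e => ?_, fun hi => ?_⟩⟩
    · subst e
      exact hw3 (x4 ℓ v w _ hu hi)
    · obtain ⟨z, hz⟩ := h1 i (by simpa using hi)
      exact CP.lp_down h.toT1 hℓ hv (hf hg1) (hd ℓ ((dvd_mul_left _ _).mul_right _))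
        ((od_eq_zero_iff v (hy i)).1 (hn i v (hd _ ((dvd_prod_of_mem n (mem_univ i)).mul_left _))))
        hz
  choose π hπ using key
  exact ⟨π, hπ⟩

end Pool.Agent.P.MP_e4219a_lc
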