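import Pool.Agent.P.MP_e4219a_lc.Bund

/-! The certificate for the complement of a cyclotomic subfield. -/

namespace Pool.Agent.P.MP_e4219a_lc

open NumberField IsDedekindDomain Finset WithZero Filter
open scoped Classical

namespace CertP

variable {L : Type} [Field L] [NumberField L] {ℓ : ℕ}

theorem ev (hℓ : ℓ ≠ 0) (x : L) {c : L} (hc : c ≠ 0) :
    ∀ᶠ k in atTop, ∀ v : Pl L, Dv ℓ v → vl v x * vl v ℓ ^ k ≤ vl v c := by
  refine (eventually_all_finite (finite_dv L hℓ)).2 fun v hv => ?_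
  have h0 : (ℓ : L) ≠ 0 := Nat.cast_ne_zero.2 hℓ
  rcases eq_or_ne x 0 with rfl | hx
  · simp
  have h1 : 0 < od v ℓ := (od_pos_iff v h0).2 ((vl_nat_lt v).2 hv)
  filter_upwards [eventually_ge_atTop (od v c - od v x).toNat] with k hk
  rw [← map_pow, ← map_mul, vl_le_iff v (mul_ne_zero hx (pow_ne_zero _ h0)) hc,
    od_mul v hx (pow_ne_zero _ h0), od_pow]
  have h2 : od v c - od v x ≤ k := by omega
  have h3 : (0 : ℤ) ≤ k := Int.natCast_nonneg k
  nlinarith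

/-- an additive map is bounded at the places over `ℓ` -/
theorem bound (hW : Z_WA) (hℓ : ℓ ≠ 0) (φ : L →+ L) :
    ∀ᶠ K in atTop, ∀ y : L, (∀ v : Pl L, Dv ℓ v → vl v y ≤ vl v ℓ ^ K) →
      ∀ v : Pl L, Dv ℓ v → vl v (φ y) < 1 := by
  have h0 : (ℓ : L) ≠ 0 := Nat.cast_ne_zero.2 hℓ
  let b := RingOfIntegers.basis L
  filter_upwards [eventually_all.2 fun i => ev hℓ (φ (b i)) h0] with K hK y hy v hv
  obtain ⟨D, a, hD, e⟩ := (hW L).2.2.2.2.1 ℓ (y / ℓ ^ K) hℓ fun w hw => by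
    rw [map_div₀, map_pow]
    exact div_le_one_of_le₀ (hy w hw) zero_le
  have h1 : vl v D = 1 := (vl_nat_eq v).2 (not_dv_of_coprime v hD.symm hv)
  have h2 : (D : L) * φ y = ℓ ^ K * φ a := by
    have e' : D • y = ℓ ^ K • (a : L) := by
      rw [nsmul_eq_mul, nsmul_eq_mul, ← e]
      push_cast
      field_simp
    have := congrArg φ e'
    rwa [map_nsmul, map_nsmul, nsmul_eq_mul, nsmul_eq_mul, Nat.cast_pow] at this
  have h3 : φ a = ∑ i, (b.repr a i : L) * φ (b i) := by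
    conv_lhs => rw [← b.sum_repr a]
    push_cast
    rw [map_sum]
    refine sum_congr rfl fun i _ => ?_
    rw [← zsmul_eq_mul (φ (b i)), map_zsmul]
  have h4 := congrArg (vl v) h2
  rw [map_mul, h1, one_mul, h3, mul_sum] at h4
  rw [h4]
  refine lt_of_le_of_lt (Valuation.map_sum_le _ fun i _ => ?_) ((vl_nat_lt v).2 hv)
  rw [map_mul, map_mul, map_pow, mul_left_comm, mul_comm (vl v ℓ ^ K)]
  exact (mul_le_of_le_one_left' (vl_int_le v _)).trans (hK i v hv)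

/-- the certificate -/
def Ce (ℓ K : ℕ) {ι : Type} [Fintype ι] (e : ι → L) (j₀ : ι) (x t : L) (s : ι → L) (v : Pl L) :
    Prop :=
  vl v (x * t - ∑ j, s j * e j) ≤ vl v (s j₀ * ℓ ^ K) ∧
    (∀ j, vl v (s j * e j * t) ≤ vl v (s j₀ * ℓ ^ (K + 1)) ∧
      vl v (s j * e j * s j) ≤ vl v (s j₀ * ℓ ^ (K + 1))) ∧
    vl v t ≤ vl v (ℓ ^ 2) ∧ vl v (s j₀) ≤ vl v (ℓ ^ 2)

theorem sound (hℓ : ℓ ≠ 0) {K : ℕ} {ι : Type} [Fintype ι] {e : ι → L} {j₀ : ι} {x t : L}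
    {s f : ι → L} {v : Pl L} (hv : Dv ℓ v) (ht : t ≠ 0) (hs : s j₀ ≠ 0) (h : Ce ℓ K e j₀ x t s v)
    (hf : ∀ j, vl v (s j - f j * t) * vl v ℓ ≤ vl v (s j) * max (vl v t) (vl v (s j))) :
    f j₀ ≠ 0 ∧ vl v ((x - ∑ j, f j * e j) / f j₀) ≤ vl v ℓ ^ K := by
  obtain ⟨h1, h2, h3, h4⟩ := h
  have h0 : (ℓ : L) ≠ 0 := Nat.cast_ne_zero.2 hℓ
  have p0 := vl_pos v h0
  have a1 : vl v (s j₀ - f j₀ * t) < vl v (s j₀) := by
    have b1 := (hf j₀).trans (mul_le_mul_right (max_le h3 h4) _)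
    rw [map_pow, sq, ← mul_assoc] at b1
    refine (le_of_mul_le_mul_right b1 p0).trans_lt ?_
    exact mul_lt_of_lt_one_right (vl_pos v hs) ((vl_nat_lt v).2 hv)
  have a2 : vl v (f j₀ * t) = vl v (s j₀) := by
    have := (vl v).map_sub_eq_of_lt_left a1
    rwa [sub_sub_cancel] at this
  have a3 : f j₀ ≠ 0 := fun e => by
    rw [e, zero_mul, map_zero] at a2
    exact vl_ne v hs a2.symm
  refine ⟨a3, ?_⟩
  have a4 : ∀ j, vl v ((s j - f j * t) * e j) ≤ vl v (s j₀ * ℓ ^ K) := fun j => by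
    refine le_of_mul_le_mul_right ?_ p0
    calc vl v ((s j - f j * t) * e j) * vl v ℓ
        = vl v (s j - f j * t) * vl v ℓ * vl v (e j) := by rw [map_mul, mul_right_comm]
      _ ≤ vl v (s j) * max (vl v t) (vl v (s j)) * vl v (e j) := mul_le_mul_left (hf j) _
      _ ≤ vl v (s j₀ * ℓ ^ (K + 1)) := by
        rw [mul_right_comm, ← map_mul, mul_max, ← map_mul, ← map_mul]
        exact max_le (h2 j).1 (h2 j).2
      _ = _ := by rw [pow_succ, ← mul_assoc, map_mul]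
  have a5 : (x - ∑ j, f j * e j) * t =
      (x * t - ∑ j, s j * e j) + ∑ j, (s j - f j * t) * e j := by
    simp only [sub_mul, sum_sub_distrib, sum_mul]
    rw [sub_add_sub_cancel]
    congr 1
    exact sum_congr rfl fun j _ => by ring
  have a6 : vl v ((x - ∑ j, f j * e j) * t) ≤ vl v (s j₀ * ℓ ^ K) := by
    rw [a5]
    exact Valuation.map_add_le _ h1 (Valuation.map_sum_le _ fun j _ => a4 j)
  rw [map_mul, map_mul, ← a2, map_mul, map_pow, mul_right_comm] at a6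
  rw [map_div₀, div_le_iff₀ (vl_pos v a3), mul_comm]
  exact le_of_mul_le_mul_right a6 (vl_pos v ht)

theorem complete {K k : ℕ} {ι : Type} [Fintype ι] {e : ι → L} {j₀ : ι} {t : L}
    {s f : ι → L} {v : Pl L} (hv : Dv ℓ v) (ht : t ≠ 0) (hf : f j₀ ≠ 0) (hk : 2 ≤ k)
    (h1 : vl v t ≤ vl v ℓ ^ k)
    (h2 : ∀ j, vl v (s j - f j * t) ≤ vl v (f j) * vl v t * vl v ℓ ^ k)
    (h3 : ∀ j, vl v (f j * e j) * vl v ℓ ^ k ≤ vl v (f j₀ * ℓ ^ (K + 1)))
    (h4 : ∀ j, vl v (f j * e j * f j) * vl v ℓ ^ k ≤ vl v (f j₀ * ℓ ^ (K + 1)))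
    (h5 : vl v (f j₀) * vl v ℓ ^ k ≤ vl v (ℓ ^ 2)) :
    s j₀ ≠ 0 ∧ Ce ℓ K e j₀ (∑ j, f j * e j) t s v := by
  have l1 : vl v ℓ < 1 := (vl_nat_lt v).2 hv
  have l2 : vl v ℓ ^ k < 1 := pow_lt_one' l1 (by omega)
  have a1 : ∀ j, vl v (s j) ≤ vl v (f j) * vl v t := fun j => by
    rw [← sub_add_cancel (s j) (f j * t)]
    exact Valuation.map_add_le _ ((h2 j).trans (mul_le_of_le_one_right' l2.le)) (map_mul ..).le
  have a2 : vl v (s j₀) = vl v (f j₀) * vl v t := by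
    rw [← sub_add_cancel (s j₀) (f j₀ * t), (vl v).map_add_eq_of_lt_right, map_mul]
    refine (h2 j₀).trans_lt ?_
    rw [← map_mul]
    exact mul_lt_of_lt_one_right (vl_pos v (mul_ne_zero hf ht)) l2
  have a3 : vl v (s j₀ * ℓ ^ (K + 1)) = vl v (f j₀ * ℓ ^ (K + 1)) * vl v t := by
    rw [map_mul, a2, map_mul, mul_right_comm]
  refine ⟨fun e => ?_, ?_, fun j => ⟨?_, ?_⟩, ?_, ?_⟩
  · rw [e, map_zero, ← map_mul] at a2
    exact vl_ne v (mul_ne_zero hf ht) a2.symm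
  · have b1 : (∑ j, f j * e j) * t - ∑ j, s j * e j = -∑ j, (s j - f j * t) * e j := by
      simp only [sub_mul, sum_sub_distrib, sum_mul, neg_sub]
      congr 1
      exact sum_congr rfl fun j _ => by ring
    rw [b1, Valuation.map_neg]
    refine Valuation.map_sum_le _ fun j _ => ?_
    calc vl v ((s j - f j * t) * e j) ≤ vl v (f j) * vl v t * vl v ℓ ^ k * vl v (e j) := by
          rw [map_mul]; exact mul_le_mul_left (h2 j) _
      _ = vl v (f j * e j) * vl v ℓ ^ k * vl v t := by rw [map_mul]; ac_rfl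
      _ ≤ vl v (s j₀ * ℓ ^ (K + 1)) := a3 ▸ mul_le_mul_left (h3 j) _
      _ ≤ _ := by
        rw [pow_succ, ← mul_assoc, map_mul]
        exact mul_le_of_le_one_right' l1.le
  · calc vl v (s j * e j * t) ≤ vl v (f j) * vl v t * vl v (e j) * vl v ℓ ^ k := by
          rw [map_mul, map_mul]; exact mul_le_mul' (mul_le_mul_left (a1 j) _) h1
      _ = vl v (f j * e j) * vl v ℓ ^ k * vl v t := by rw [map_mul]; ac_rfl
      _ ≤ _ := a3 ▸ mul_le_mul_left (h3 j) _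
  · calc vl v (s j * e j * s j) ≤ vl v (f j) * vl v t * vl v (e j) * (vl v (f j) * vl v ℓ ^ k) := by
          rw [map_mul, map_mul]
          exact mul_le_mul' (mul_le_mul_left (a1 j) _) ((a1 j).trans (mul_le_mul_right h1 _))
      _ = vl v (f j * e j * f j) * vl v ℓ ^ k * vl v t := by rw [map_mul, map_mul]; ac_rfl
      _ ≤ _ := a3 ▸ mul_le_mul_left (h4 j) _
  · rw [map_pow]
    exact h1.trans (pow_le_pow_right_of_le_one' l1.le hk)
  · exact (a1 j₀).trans ((mul_le_mul_right h1 _).trans h5)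

theorem dio {K : ℕ} {ι : Type} [Fintype ι] (e : ι → L) (j₀ : ι) {v : Pl L}
    (hv : Dio1 fun x : L => vl v x ≤ 1) :
    Dio fun z : Unit ⊕ Option ι → L =>
      Ce ℓ K e j₀ (z (.inl ())) (z (.inr none)) (fun j => z (.inr (some j))) v := by
  have c : ∀ n, PolyF fun z : Unit ⊕ Option ι → L => z (.inr (some j₀)) * (ℓ : L) ^ n := fun n =>
    (PolyF.var _).mul (PolyF.const _)
  exact (Dio.vl_le hv (((PolyF.var _).mul (PolyF.var _)).sub
    (PolyF.sum univ fun j _ => (PolyF.var _).mul (PolyF.const _))) (c K)).and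
    ((Dio.all fun j => (Dio.vl_le hv (((PolyF.var _).mul (PolyF.const _)).mul (PolyF.var _))
      (c _)).and (Dio.vl_le hv (((PolyF.var _).mul (PolyF.const _)).mul (PolyF.var _)) (c _))).and
    ((Dio.vl_le hv (PolyF.var _) (PolyF.const _)).and
      (Dio.vl_le hv (PolyF.var _) (PolyF.const _))))

theorem main (hW : Z_WA) (hℓ : 2 ≤ ℓ) (hB : ∀ v : Pl L, Dio1 fun x : L => vl v x ≤ 1)
    (F : IntermediateField ℚ L) (𝒯 : L → Prop) (hT : Dio1 𝒯)
    (near : ∀ t t', 𝒯 t → 𝒯 t' → t ≠ 0 → ∃ f : F, ∀ v : Pl L, Dv ℓ v →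
      vl v (t' - f * t) * vl v ℓ ≤ vl v t' * max (vl v t) (vl v t'))
    (dense : ∀ (ι : Type) [Fintype ι] (f : ι → F) (k : ℕ), ∃ (t : L) (t' : ι → L), 𝒯 t ∧ t ≠ 0 ∧
      (∀ i, 𝒯 (t' i)) ∧ ∀ v : Pl L, Dv ℓ v → vl v t ≤ vl v ℓ ^ k ∧
        ∀ i, vl v (t' i - f i * t) ≤ vl v (f i) * vl v t * vl v ℓ ^ k) :
    Dio1 fun x : L => x ∉ F := by
  have hℓ0 : ℓ ≠ 0 := by omega
  have h0 : (ℓ : L) ≠ 0 := Nat.cast_ne_zero.2 hℓ0
  obtain ⟨v₀, hv₀⟩ := exists_dv L hℓ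
  let pb := Field.powerBasisOfFiniteOfSeparable F L
  let e := pb.basis
  let i₀ : Fin pb.dim := ⟨0, pb.dim_pos⟩
  have e0 : e i₀ = 1 := by simp [e, i₀]
  let φ : Fin pb.dim → L →+ L := fun j =>
    (algebraMap F L).toAddMonoidHom.comp (e.coord j).toAddMonoidHom
  obtain ⟨K, hK⟩ := (eventually_all.2 fun j => bound hW hℓ0 (φ j)).exists
  have hD : Dio fun x : Unit → L => ∃ j₀, j₀ ≠ i₀ ∧ ∃ y : Option (Fin pb.dim) → L,
      (∀ o, 𝒯 (y o)) ∧ y none ≠ 0 ∧ y (some j₀) ≠ 0 ∧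
        ∀ v, Dv ℓ v → Ce ℓ K e j₀ (x ()) (y none) (fun j => y (some j)) v :=
    Dio.ex_finite (Set.toFinite _) fun j₀ _ => Dio.exF
      ((Dio.all fun o => hT.mem (PolyF.var _)).and
      ((Dio.ne (PolyF.var _) (PolyF.const 0)).and ((Dio.ne (PolyF.var _) (PolyF.const 0)).and
      (Dio.all_finite (finite_dv L hℓ0) fun v _ => dio e j₀ (hB v)))))
  refine hD.congr fun x => ⟨fun hx => ?_, ?_⟩
  · let f : Fin pb.dim → F := fun j => e.repr (x ()) j
    have hs : ∑ j, (f j : L) * e j = x () := e.sum_repr (x ())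
    obtain ⟨j₀, hj, hf⟩ : ∃ j₀, j₀ ≠ i₀ ∧ (f j₀ : L) ≠ 0 := by
      by_contra hn
      push Not at hn
      rw [sum_eq_single i₀ (fun j _ hj => by rw [hn j hj, zero_mul]) (by simp), e0, mul_one] at hs
      exact hx (hs ▸ (f i₀).2)
    have hc : (f j₀ : L) * ℓ ^ (K + 1) ≠ 0 := mul_ne_zero hf (pow_ne_zero _ h0)
    obtain ⟨k, k1, k2, k3, k4⟩ := ((eventually_ge_atTop 2).and
      ((eventually_all.2 fun j => ev hℓ0 (f j * e j) hc).and
      ((eventually_all.2 fun j => ev hℓ0 (f j * e j * f j) hc).and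
      (ev hℓ0 (f j₀ : L) (pow_ne_zero 2 h0))))).exists
    obtain ⟨t, s, a1, a2, a3, a4⟩ := dense _ f k
    have hC := fun v hv => complete (K := K) (e := e) hv a2 hf k1 (a4 v hv).1 (a4 v hv).2
      (fun j => k2 j v hv) (fun j => k3 j v hv) (k4 v hv)
    refine ⟨j₀, hj, fun o => o.elim t s, fun o => ?_, a2, (hC v₀ hv₀).1, fun v hv => ?_⟩
    · cases o
      · exact a1
      · exact a3 _
    · exact hs ▸ (hC v hv).2
  · rintro ⟨j₀, hj, y, a1, a2, a3, a4⟩ hx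
    choose f hf using fun j => near _ _ (a1 none) (a1 (some j)) a2
    have hS := fun v hv => sound (f := fun j => (f j : L)) hℓ0 hv a2 a3 (a4 v hv)
      fun j => hf j v hv
    have b1 := hK j₀ _ (fun v hv => (hS v hv).2) v₀ hv₀
    have b2 : f j₀ ≠ 0 := fun e => (hS v₀ hv₀).1 (by rw [e]; rfl)
    have b3 : (x () - ∑ j, (f j : L) * e j) / f j₀ =
        (f j₀)⁻¹ • ((⟨x (), hx⟩ : F) • e i₀ - ∑ j, f j • e j) := by
      rw [e0, div_eq_inv_mul]
      simp [Algebra.smul_def]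
    have b4 : φ j₀ ((x () - ∑ j, (f j : L) * e j) / f j₀) = -1 := by
      rw [b3]
      simp [φ, hj, b2, Finsupp.single_apply]
    rw [b4] at b1
    simp at b1

end CertP

theorem p_cert (h : T1) (hB : Z_BFix) : Z_Cert := by
  intro L _ _ ℓ ζ 𝒯 hL hζ hR hT
  obtain ⟨c, hc⟩ : ∃ c : ℚ, ζ ^ 2 = -1 - c * ζ := by
    rcases hζ with ⟨-, h⟩ | ⟨-, h⟩
    · exact ⟨0, by push_cast; linear_combination h⟩
    · exact ⟨1, by push_cast; linear_combination h⟩
  let A : Subalgebra ℚ L :=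
    { carrier := {x | ∃ a b : ℚ, x = a + b * ζ}
      mul_mem' := by
        rintro _ _ ⟨a, b, rfl⟩ ⟨a', b', rfl⟩
        exact ⟨a * a' - b * b', a * b' + b * a' - b * b' * c, by
          push_cast; linear_combination (b * b' : L) * hc⟩
      add_mem' := by
        rintro _ _ ⟨a, b, rfl⟩ ⟨a', b', rfl⟩
        exact ⟨a + a', b + b', by push_cast; ring⟩
      algebraMap_mem' := fun a => ⟨a, 0, by simp⟩ }
  let F : IntermediateField ℚ L := A.toIntermediateField fun x hx =>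
    A.inv_mem_of_algebraic (x := ⟨x, hx⟩) (Algebra.IsAlgebraic.isAlgebraic x)
  refine CertP.main h.wa hζ.el.prime.two_le (fun v => hB L v hL) F 𝒯 hT
    (fun t t' h1 h2 h3 => ?_) fun ι _ f k => ?_
  · obtain ⟨a, b, hab⟩ := hR.near t t' h1 h2 h3
    exact ⟨⟨_, a, b, rfl⟩, hab⟩
  · choose a b hab using fun i => (f i).2
    simp only [hab]
    exact hR.dense ι a b k

end Pool.Agent.P.MP_e4219a_lc
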