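import Pool.Agent.P.MP_e4219a_lc.Bund

/-! The quadratic residue symbol is a ray class character. -/

namespace Pool.Agent.P.MP_e4219a_lc

open NumberField IsDedekindDomain Finset
open Pool.Agent.P.MP_b8021b_nt Pool.Agent.P.MP_b8021b_nt.VE Pool.Agent.P.MP_b8021b_nt.VC
open scoped Classical

namespace ChiP

variable {L M : Type} [Field L] [NumberField L] [Field M] [NumberField M] [Algebra L M]

/-- a character that kills the norms from a quadratic extension is quadratic -/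
theorem sq_one {N : ℕ} {χ : Ideal (𝓞 L) →* ℂ} (h2 : Module.finrank L M = 2)
    (hM : IsTriv N (nrm M χ)) {I : Ideal (𝓞 L)} (hI : Cop N I) : χ I ^ 2 = 1 := by
  have e : Ideal.relNorm (𝓞 L) (I.map (algebraMap (𝓞 L) (𝓞 M))) = I ^ 2 := by
    rw [Ideal.relNorm_algebraMap, ← h2, IsFractionRing.finrank_eq (𝓞 L) L (𝓞 M) M]
  have h1 := hM (I.map (algebraMap (𝓞 L) (𝓞 M))) ((cop_rel (E := L)).1 (by
    rw [e, pow_two]
    exact cop_mul.2 ⟨hI, hI⟩))
  rwa [nrm_apply, e, map_pow] at h1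

end ChiP

theorem p_chi (h : T2) : Z_Chi := by
  intro L _ _ n y hL hn h2 hy hod
  have hℓ : El 2 := Or.inl rfl
  by_cases hns : ∃ z : L, y = z ^ 2
  · obtain ⟨z, rfl⟩ := hns
    refine ⟨1, triv L (n ^ 1), le_rfl, RC.triv L _, fun v hv => ?_, fun c => (c ⟨z, rfl⟩).elim⟩
    rw [if_pos (LP.pow_self v two_ne_zero fun e => hy (by rw [e]; simp)), pow_one,
      triv_cop ((cop_prime_iff v).2 hv)]
  obtain ⟨M, _, _, _, _, β, hK, -⟩ := h.kum L 2 y hL hℓ hns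
  have kp := h.kp L M 2 y β hL hℓ hK
  have n2 : ∀ v : Pl L, ¬ Dv n v → ¬ Dv 2 v := fun v hv a => hv (a.of_dvd h2)
  have ev : ∀ v : Pl L, ¬ Dv n v → ((2 : ℕ) : ℤ) ∣ od v y := fun v hv => hod v hv
  have hram : ∀ 𝔓 : Ideal (𝓞 M), 𝔓.IsMaximal → RamP L 𝔓 → (n : 𝓞 M) ∈ 𝔓 := by
    intro 𝔓 m r
    obtain ⟨v, -, -, u, -⟩ := (h.ex L M).1 ⟨𝔓, m.isPrime,
      Ring.ne_bot_of_isMaximal_of_not_isField m (RingOfIntegers.not_isField M)⟩
    have hv : Dv n v := by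
      by_contra hv
      exact ((kp v).1 𝔓 m r u).1.elim (n2 v hv) fun a => a (ev v hv)
    have h3 : (n : 𝓞 L) ∈ 𝔓.comap (algebraMap (𝓞 L) (𝓞 M)) := u ▸ hv
    simpa using Ideal.mem_comap.1 h3
  obtain ⟨j, χ, hj, hχ, hnt, hM, -⟩ := h.fi L M n hL (hK.fin ▸ hℓ) hn hram
  have hN : 2 ≤ n ^ j := hn.trans (Nat.le_self_pow (by omega) n)
  have ndv : ∀ v : Pl L, ¬ Dv n v → ¬ Dv (n ^ j) v := fun v hv a => hv ((dv_pow v hj).1 a)
  have cop : ∀ v : Pl L, ¬ Dv n v → Cop (n ^ j) v.asIdeal := fun v hv =>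
    (cop_prime_iff v).2 (ndv v hv)
  have val : ∀ v : Pl L, ¬ Dv n v → χ v.asIdeal = if LP 2 v y then 1 else -1 := by
    intro v hv
    split_ifs with lv
    · obtain ⟨w, hw⟩ := ((kp v).2.1 (n2 v hv) lv).1
      have h1 := hM w.asIdeal ((cop_rel (E := L)).1 (hw ▸ cop v hv))
      rwa [nrm_apply, hw] at h1
    · exact (sq_eq_one_iff.1 (ChiP.sq_one hK.fin hM (cop v hv))).resolve_left
        (h.ar L M 2 (n ^ j) y β χ v hL hℓ hK hN hχ hnt hM (ndv v hv) (n2 v hv) (ev v hv) lv)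
  refine ⟨j, χ, hj, hχ, val, fun _ => ?_⟩
  have key : ∀ q : ℕ, q.Prime →
      lam (triv M (n ^ j)) q = lam (triv L (n ^ j)) q + lam χ q := by
    intro q hq
    have e := (h.i.kd L M q hq).1 (triv L (n ^ j))
    have e1 : lam (triv M (n ^ j)) q =
        lam (fun I : Ideal (𝓞 M) => triv L (n ^ j) (Ideal.relNorm (𝓞 L) I)) q :=
      lam_congr fun I _ => by rw [triv_apply, triv_apply, cop_rel]
    rw [e1, e, DS.finsum_idl, DS.lam_eq, DS.lam_eq, ← Finset.sum_add_distrib]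
    refine Finset.sum_congr rfl fun I hI => ?_
    have hI' := DS.mem_idl.1 hI
    obtain ⟨v, rfl⟩ := exists_pl (I := I) (hI' ▸ hq)
    by_cases hv : Dv n v
    · have c : ¬ Cop (n ^ j) v.asIdeal := fun c => (cop_prime_iff v).1 c ((dv_pow v hj).2 hv)
      rw [triv_not c, hχ.zero _ c, mul_zero, add_zero]
    · rw [triv_cop (cop v hv), val v hv, ← hI']
      split_ifs with lv
      · rw [((kp v).2.1 (n2 v hv) lv).2 (hI' ▸ hq)]
        norm_num
      · rw [((kp v).2.2 (n2 v hv) (ev v hv) lv).2]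
        simp
  obtain ⟨-, C, hC⟩ := ((h.i.up1 M (hL.map (algebraMap L M)) _ hN).2).add (h.i.up1 L hL _ hN).1
  refine ⟨C, fun s h1 h2 => ?_⟩
  have h3 := hC s h1 h2
  have e : DS.ds (fun q => -(lam (triv M (n ^ j)) q).re + (lam (triv L (n ^ j)) q).re) s =
      -dsum (lam χ) s := by
    unfold DS.ds dsum
    rw [← tsum_neg]
    refine tsum_congr fun q => ?_
    simp only [key q q.2, Complex.add_re]
    ring
  rw [e] at h3
  linarith

end Pool.Agent.P.MP_e4219a_lc
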