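import Pool.Agent.P.MP_e4219a_lc.Bund

/-! The norm condition over the algebra of a square root. -/

namespace Pool.Agent.P.MP_e4219a_lc

open NumberField IsDedekindDomain

namespace CondP

section Alg

variable {L M : Type} [Field L] [Field M] [Algebra L M] {g : L} {β : M}

theorem ind (h : Kum 2 g β) (x y : L) (e : algebraMap L M x + algebraMap L M y * β = 0) :
    x = 0 ∧ y = 0 := by
  by_cases hy : y = 0
  · subst hy
    simpa using e
  · refine absurd ⟨-x / y, (algebraMap L M).injective ?_⟩ h.np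
    have hy' : algebraMap L M y ≠ 0 := by simpa using hy
    have e1 : β = algebraMap L M (-x / y) := by
      rw [map_div₀, map_neg, eq_div_iff hy']
      linear_combination e
    rw [← h.pow, map_pow, ← e1]

theorem coord (h : Kum 2 g β) (z : M) :
    ∃ x y : L, z = algebraMap L M x + algebraMap L M y * β := by
  have h1 : LinearIndependent L ![(1 : M), β] := LinearIndependent.pair_iff.2 fun s t e =>
    ind h s t (by simpa [Algebra.smul_def] using e)
  have h2 := h1.span_eq_top_of_card_eq_finrank (by simp [h.fin])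
  have h3 : z ∈ Submodule.span L ({1, β} : Set M) := by
    rw [show ({1, β} : Set M) = Set.range ![(1 : M), β] by simp [Set.pair_comm], h2]
    trivial
  obtain ⟨x, y, e⟩ := Submodule.mem_span_pair.1 h3
  exact ⟨x, y, by simpa [Algebra.smul_def] using e.symm⟩

theorem cond [CharZero L] (h : Kum 2 g β) {b c : L}
    (hN : NV 2 (algebraMap L M b) (algebraMap L M c)) : Cond b c g := by
  obtain ⟨r, s, t, e⟩ := hN
  obtain ⟨r₀, r₁, rfl⟩ := coord h r
  obtain ⟨s₀, s₁, rfl⟩ := coord h s
  rw [Nf_two] at e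
  have hp := h.pow
  obtain ⟨h1, h2⟩ := ind h (r₀ ^ 2 + g * r₁ ^ 2 - b * (s₀ ^ 2 + g * s₁ ^ 2) - c)
    (2 * (r₀ * r₁ - b * s₀ * s₁)) (by
      simp only [map_sub, map_add, map_mul, map_pow, map_ofNat]
      linear_combination -e - (algebraMap L M r₁ ^ 2 - algebraMap L M b * algebraMap L M s₁ ^ 2) * hp)
  exact ⟨r₀, r₁, s₀, s₁, by linear_combination -h1, by linear_combination h2 / 2⟩

end Alg

end CondP

theorem p_cond (h : T1) (hH : Z_HN2) : Z_Cond := by
  intro L _ _
  have h2 : El 2 := Or.inl rfl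
  constructor
  · rintro b c g v hc ⟨r₀, r₁, s₀, s₁, e1, e2⟩ hg
    obtain ⟨-, h3, h4⟩ := h.hen L 2 v h2
    obtain ⟨-, γ, hγ⟩ := (h3 g).1 hg
    refine h4 b c hc ⟨algebraMap L _ r₀ + γ * algebraMap L _ r₁,
      algebraMap L _ s₀ + γ * algebraMap L _ s₁, 0, ?_⟩
    have e3 := congrArg (algebraMap L (v.adicCompletion L)) e1
    have e4 := congrArg (algebraMap L (v.adicCompletion L)) e2
    simp only [map_sub, map_add, map_mul, map_pow, hγ] at e3 e4
    rw [Nf_two]
    linear_combination e3 - 2 * γ * e4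
  · rintro hO n δ c g hn h1 hb hc hone ⟨v₀, hv₀⟩ hv
    have hg : ¬ ∃ z : L, g = z ^ 2 := by
      rintro ⟨z, rfl⟩
      rw [od_pow] at hv₀
      exact (Int.not_odd_iff_even.2 (by simp)) hv₀
    obtain ⟨M, _, _, _, _, β, hK, -⟩ := h.kum L 2 g hO h2 hg
    obtain ⟨x1, -, -, x4, -⟩ := h.ex L M
    have e0 : (1 + 4 * (algebraMap (𝓞 L) (𝓞 M) δ : 𝓞 M) : M) = algebraMap L M (1 + 4 * δ) := by
      rw [map_add, map_mul, map_one, map_ofNat]
      rfl
    refine CondP.cond hK ?_
    rw [← e0]
    refine hH M n _ _ (hO.map (algebraMap L M)) hn (fun w hw => ?_) ?_ (by simpa using hc)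
      (hone.map M) fun w => ?_
    · obtain ⟨v, e, -, hu, -⟩ := x1 w
      have a1 : 1 + 4 * δ ∈ v.asIdeal := by
        rw [hu, Ideal.mem_comap, map_add, map_mul, map_one, map_ofNat]
        exact hw
      have a2 := h1 v a1
      rw [Dv, hu, Ideal.mem_comap, map_natCast] at a2
      exact a2
    · rw [e0]
      exact (map_ne_zero _).2 hb
    · obtain ⟨v, e, -, hu, he⟩ := x1 w
      have a1 : ∀ x : L, od w (algebraMap L M x) = e * od v x := fun x => by
        rw [← od_pow, od, od, he, map_pow]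
      rcases hv v with a | ⟨a, a'⟩ | a
      · exact Or.inl (by rw [a1]; exact a.mul_left _)
      · refine Or.inr ⟨fun a2 => a ?_, by rw [e0]; exact x4 2 v w _ hu a'⟩
        rw [Dv, hu, Ideal.mem_comap, map_natCast]
        exact a2
      · have a2 := a1 g
        rw [← hK.pow, od_pow] at a2
        have a3 : Even ((e : ℤ) * od v g) := a2 ▸ (by simp)
        refine Or.inl ?_
        rw [a1]
        exact (even_iff_two_dvd.1 ((Int.even_mul.1 a3).resolve_right
          (Int.not_even_iff_odd.2 a))).mul_right _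

end Pool.Agent.P.MP_e4219a_lc
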