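import Pool.Agent.P.MP_e4219a_lc.Bund

/-! One step of the argument on differences: the mass between two cores. -/

namespace Pool.Agent.P.MP_e4219a_lc

open Finset MeasureTheory
open scoped Classical

namespace CoreP

theorem cont_ex (A : Finset ℕ) : Continuous fun α : UnitAddCircle => ‖ex A α‖ ^ 2 := by
  unfold ex
  fun_prop

theorem int_ex (A : Finset ℕ) :
    Integrable (fun α : UnitAddCircle => ‖ex A α‖ ^ 2) AddCircle.haarAddCircle :=
  (cont_ex A).integrable_of_hasCompactSupport (HasCompactSupport.of_compactSpace _)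

theorem re_ge {y : UnitAddCircle} (h : ‖y‖ ≤ 1 / 8) :
    1 / 2 ≤ ((AddCircle.toCircle y : Circle) : ℂ).re := by
  obtain ⟨t, rfl⟩ := QuotientAddGroup.mk_surjective y
  rw [UnitAddCircle.norm_eq] at h
  have e : ((t - round t : ℝ) : UnitAddCircle) = (t : UnitAddCircle) := by
    rw [AddCircle.coe_sub, sub_eq_self, AddCircle.coe_eq_zero_iff]
    exact ⟨round t, by simp⟩
  rw [← e, AddCircle.toCircle_apply_mk, Circle.coe_exp, Complex.exp_ofReal_mul_I_re]
  refine le_trans ?_ Real.one_sub_sq_div_two_le_cos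
  have h1 : |2 * Real.pi / 1 * (t - round t)| ≤ 1 := by
    rw [abs_mul, div_one, abs_of_pos (by positivity : 0 < 2 * Real.pi)]
    nlinarith [Real.pi_le_four, abs_nonneg (t - round t), Real.pi_pos]
  have h2 := (sq_le_one_iff_abs_le_one _).2 h1
  linarith

theorem re_fourier {n : ℕ} {γ : UnitAddCircle} (h : ‖n • γ‖ ≤ 1 / 8) :
    1 / 2 ≤ (fourier (n : ℤ) γ).re := by
  rw [fourier_apply, natCast_zsmul]
  exact re_ge h

theorem norm_fourier (n : ℤ) (γ : UnitAddCircle) : ‖fourier n γ‖ = 1 := by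
  rw [fourier_apply]
  exact Circle.norm_coe _

theorem fourier_smul (n m : ℕ) (α : UnitAddCircle) :
    fourier (n : ℤ) (m • α) = fourier ((m * n : ℕ) : ℤ) α := by
  rw [fourier_apply, fourier_apply, natCast_zsmul, natCast_zsmul, smul_smul, mul_comm]

theorem meas_le (n : ℕ) (c d : ℝ) : MeasurableSet {α : UnitAddCircle | ‖n • α‖ * c ≤ d} :=
  (isClosed_le (by fun_prop) continuous_const).measurableSet

theorem meas_le' (n : ℕ) (d : ℝ) : MeasurableSet {α : UnitAddCircle | ‖n • α‖ ≤ d} :=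
  (isClosed_le (by fun_prop) continuous_const).measurableSet

theorem meas_arc (m P : ℕ) (c d : ℝ) :
    MeasurableSet {α : UnitAddCircle | ∃ q : ℕ, 1 ≤ q ∧ q ≤ P ∧ ‖(q * m) • α‖ * c ≤ d} := by
  rw [Set.ofPred_exists]
  refine MeasurableSet.iUnion fun q => ?_
  by_cases h : 1 ≤ q ∧ q ≤ P
  · simpa only [h.1, h.2, true_and] using meas_le (q * m) c d
  · have : {α : UnitAddCircle | 1 ≤ q ∧ q ≤ P ∧ ‖(q * m) • α‖ * c ≤ d} = ∅ :=
      Set.eq_empty_of_forall_notMem fun α hα => h ⟨hα.1, hα.2.1⟩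
    rw [this]
    exact MeasurableSet.empty

/-- the pointwise inequality -/
theorem point {Y : ℝ} {T : ℂ} {i₀ i₁ : ℕ} {p p' : Prop} {M : ℕ → Prop} (hY : 0 ≤ Y)
    (hT : ‖T‖ ≤ Y) (h1 : p → p' ∧ Y / 2 ≤ T.re) (h2 : Y / 2 ^ i₀ ≤ ‖T‖ → p')
    (h3 : ∀ i, i₀ < i → i ≤ i₁ → Y / 2 ^ i ≤ ‖T‖ → M i) :
    3 / 2 * Y * (if p then 1 else 0) ≤ T.re + Y * (if p' then 1 else 0) +
      ∑ i ∈ Ioc i₀ i₁, 2 / 2 ^ i * Y * (if M i then 1 else 0) + Y / 2 ^ i₁ := by
  have hn : ∀ i ∈ Ioc i₀ i₁, 0 ≤ 2 / 2 ^ i * Y * (if M i then (1 : ℝ) else 0) := fun i _ => by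
    split_ifs <;> positivity
  have hs := sum_nonneg hn
  have hl : 0 ≤ Y / 2 ^ i₁ := by positivity
  have hre : -‖T‖ ≤ T.re := (abs_le.1 (Complex.abs_re_le_norm T)).1
  by_cases hp : p
  · rw [if_pos hp, if_pos (h1 hp).1]
    linarith [(h1 hp).2]
  rw [if_neg hp]
  by_cases hp' : p'
  · rw [if_pos hp']
    linarith
  rw [if_neg hp']
  by_cases hi : Y / 2 ^ i₁ ≤ ‖T‖
  · have hex : ∃ i : ℕ, Y / 2 ^ i ≤ ‖T‖ := ⟨i₁, hi⟩
    have ha : Nat.find hex ≤ i₁ := Nat.find_min' hex hi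
    have hb : i₀ < Nat.find hex := by
      by_contra hc
      refine hp' (h2 (le_trans ?_ (Nat.find_spec hex)))
      exact div_le_div_of_nonneg_left hY (by positivity)
        (pow_le_pow_right₀ one_le_two (not_lt.1 hc))
    have hM := h3 _ hb ha (Nat.find_spec hex)
    obtain ⟨j, hj⟩ : ∃ j, Nat.find hex = j + 1 := ⟨Nat.find hex - 1, by omega⟩
    have hc : ¬ Y / 2 ^ j ≤ ‖T‖ := Nat.find_min hex (by omega)
    have hd := single_le_sum hn (mem_Ioc.2 ⟨hb, ha⟩)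
    rw [if_pos hM, hj] at hd
    have he : 2 / 2 ^ (j + 1) * Y * 1 = Y / 2 ^ j := by
      rw [pow_succ]
      field_simp
    linarith [not_le.1 hc]
  · linarith [not_le.1 hi]

theorem mass_eq (A : Finset ℕ) {S : Set UnitAddCircle} (hS : MeasurableSet S) :
    ∫ α, ‖ex A α‖ ^ 2 * (if α ∈ S then (1 : ℝ) else 0) ∂AddCircle.haarAddCircle = mass A S := by
  unfold mass
  rw [← integral_indicator hS]
  refine integral_congr_ae (Filter.Eventually.of_forall fun α => ?_)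
  by_cases h : α ∈ S <;> simp [h]

theorem int_ind (A : Finset ℕ) {S : Set UnitAddCircle} (hS : MeasurableSet S) :
    Integrable (fun α => ‖ex A α‖ ^ 2 * (if α ∈ S then (1 : ℝ) else 0))
      AddCircle.haarAddCircle := by
  refine ((int_ex A).indicator hS).congr (Filter.Eventually.of_forall fun α => ?_)
  by_cases h : α ∈ S <;> simp [h]

theorem int_four (A : Finset ℕ) (n : ℤ) :
    Integrable (fun α : UnitAddCircle => ((‖ex A α‖ ^ 2 : ℝ) : ℂ) * fourier n α)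
      AddCircle.haarAddCircle :=
  ((Complex.continuous_ofReal.comp (cont_ex A)).mul
    (fourier n).continuous).integrable_of_hasCompactSupport (HasCompactSupport.of_compactSpace _)

/-- integration of the pointwise inequality -/
theorem integ (A : Finset ℕ) {Y c : ℝ} {s : Finset ℕ} {k K : ℕ → ℝ} {S S' : Set UnitAddCircle}
    {M : ℕ → Set UnitAddCircle} {g : UnitAddCircle → ℝ} (hS : MeasurableSet S)
    (hS' : MeasurableSet S') (hM : ∀ i, MeasurableSet (M i)) (hY : 0 < Y)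
    (hg : Integrable (fun α => ‖ex A α‖ ^ 2 * g α) AddCircle.haarAddCircle)
    (hg0 : ∫ α, ‖ex A α‖ ^ 2 * g α ∂AddCircle.haarAddCircle = 0)
    (hA : mass A Set.univ = A.card) (hk : ∀ i, 0 ≤ k i) (hK : ∀ i ∈ s, mass A (M i) ≤ K i)
    (hp : ∀ α, 3 / 2 * Y * (if α ∈ S then 1 else 0) ≤ g α + Y * (if α ∈ S' then 1 else 0) +
      ∑ i ∈ s, k i * Y * (if α ∈ M i then 1 else 0) + Y / c) :
    3 / 2 * mass A S ≤ mass A S' + ∑ i ∈ s, k i * K i + A.card / c := by
  have i1 := (int_ind A hS).const_mul (3 / 2 * Y)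
  have i2 := (int_ind A hS').const_mul Y
  have i3 : ∀ i ∈ s, Integrable
      (fun α => k i * Y * (‖ex A α‖ ^ 2 * (if α ∈ M i then (1 : ℝ) else 0)))
      AddCircle.haarAddCircle := fun i _ => (int_ind A (hM i)).const_mul _
  have i4 := integrable_finsetSum s i3
  have i5 := (int_ex A).const_mul (Y / c)
  have h := integral_mono i1 (((hg.add i2).add i4).add i5) fun α => by
    have := mul_le_mul_of_nonneg_left (hp α) (sq_nonneg ‖ex A α‖)
    simp only [Pi.add_apply]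
    rw [mul_add, mul_add, mul_add, mul_sum] at this
    have e : ∑ i ∈ s, k i * Y * (‖ex A α‖ ^ 2 * (if α ∈ M i then (1 : ℝ) else 0)) =
        ∑ i ∈ s, ‖ex A α‖ ^ 2 * (k i * Y * (if α ∈ M i then (1 : ℝ) else 0)) :=
      sum_congr rfl fun i _ => by ring
    rw [e]
    linarith
  rw [integral_add' ((hg.add i2).add i4) i5, integral_add' (hg.add i2) i4, integral_add' hg i2,
    integral_finsetSum s i3, hg0] at h
  simp only [integral_const_mul, mass_eq A hS, mass_eq A hS', mass_eq A (hM _)] at h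
  have hA' : ∫ α, ‖ex A α‖ ^ 2 ∂AddCircle.haarAddCircle = A.card := by
    rw [← hA, mass, Measure.restrict_univ]
  rw [hA'] at h
  have h6 : ∑ i ∈ s, k i * Y * mass A (M i) ≤ Y * ∑ i ∈ s, k i * K i := by
    rw [mul_sum]
    refine sum_le_sum fun i hi => ?_
    have := mul_le_mul_of_nonneg_left (hK i hi) (mul_nonneg (hk i) hY.le)
    linarith
  refine le_of_mul_le_mul_left ?_ hY
  have e : Y * ((A.card : ℝ) / c) = Y / c * A.card := by ring
  rw [mul_add, mul_add, e]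
  linarith

end CoreP

open CoreP in
theorem p_core (hP : Z_Par) : Z_Core := by
  intro ℓ C W Y i₀ i₁ τ τ' A K hℓ _ hY _ hi hτ h1 h2 h3 h4 h5 h6
  obtain ⟨hA, hO, -⟩ := hP A
  have hY0 : (0 : ℝ) < Y := Nat.cast_pos.2 hY
  have hYl : (0 : ℝ) < (Y : ℝ) ^ ℓ := pow_pos hY0 ℓ
  have eg : ∀ α : UnitAddCircle,
      ‖ex A α‖ ^ 2 * (∑ w ∈ Icc 1 Y, fourier ((w ^ ℓ : ℕ) : ℤ) (W ^ ℓ • α)).re =
        (∑ w ∈ Icc 1 Y, ((‖ex A α‖ ^ 2 : ℝ) : ℂ) * fourier (((W * w) ^ ℓ : ℕ) : ℤ) α).re :=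
    fun α => by
      rw [← mul_sum, Complex.re_ofReal_mul]
      simp only [fourier_smul, mul_pow]
  have ig := integrable_finsetSum (Icc 1 Y) fun w _ => int_four A (((W * w) ^ ℓ : ℕ) : ℤ)
  refine integ A (g := fun α => (∑ w ∈ Icc 1 Y, fourier ((w ^ ℓ : ℕ) : ℤ) (W ^ ℓ • α)).re)
    (M := fun i => {α | ∃ q : ℕ, 1 ≤ q ∧ q ≤ 2 ^ (C * i) ∧
      ‖(q * W ^ ℓ) • α‖ * (Y : ℝ) ^ ℓ ≤ 2 ^ (C * i)}) (k := fun i => 2 / 2 ^ i)
    (meas_le' _ _) (meas_le' _ _) (fun i => meas_arc _ _ _ _) hY0 ?_ ?_ hA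
    (fun i => by positivity) (fun i hi => h5 i (mem_Ioc.1 hi).1 (mem_Ioc.1 hi).2) fun α => ?_
  · simp only [eg]
    exact ig.re
  · simp only [eg]
    have := integral_re (𝕜 := ℂ) ig
    simp only [RCLike.re_to_complex] at this
    rw [this, integral_finsetSum _ fun w _ => int_four A _, sum_eq_zero, Complex.zero_re]
    exact fun w hw => hO _ fun a ha a' ha' => h6 a ha a' ha' w (mem_Icc.1 hw).1
  · have eF : (W * (2 ^ (C * i₀)).factorial) ^ ℓ • α =
        (2 ^ (C * i₀)).factorial ^ ℓ • W ^ ℓ • α := by rw [smul_smul, mul_pow, mul_comm]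
    refine point hY0.le ?_ (fun hp => ⟨?_, ?_⟩) (fun h => ?_) fun i hi1 hi2 h => ?_
    · refine (norm_sum_le _ _).trans (le_of_eq ?_)
      simp only [norm_fourier, sum_const, Nat.card_Icc, nsmul_eq_mul, mul_one]
      simp
    · change ‖_‖ ≤ τ'
      rw [eF]
      refine norm_nsmul_le.trans (le_trans ?_ h2)
      rw [mul_comm τ]
      push_cast
      exact mul_le_mul_of_nonneg_left hp (by positivity)
    · rw [Complex.re_sum]
      refine le_trans (le_of_eq ?_) (card_nsmul_le_sum _ _ (1 / 2) fun w hw => re_fourier ?_)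
      · simp only [Nat.card_Icc, nsmul_eq_mul]
        simp
        ring
      · refine norm_nsmul_le.trans (le_trans ?_ h1)
        push_cast
        exact mul_le_mul (pow_le_pow_left₀ (Nat.cast_nonneg w) (Nat.cast_le.2 (mem_Icc.1 hw).2) ℓ)
          hp (norm_nonneg _) hYl.le
    · obtain ⟨q, hq1, hq2, hq3⟩ := h4 i₀ le_rfl hi _ h
      obtain ⟨r, hr⟩ : q ∣ (2 ^ (C * i₀)).factorial ^ ℓ :=
        (Nat.dvd_factorial hq1 hq2).trans (dvd_pow_self _ (by omega))
      have hr1 : r ≤ (2 ^ (C * i₀)).factorial ^ ℓ := hr ▸ Nat.le_mul_of_pos_left r hq1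
      have hr2 : (r : ℝ) ≤ ((2 ^ (C * i₀)).factorial : ℝ) ^ ℓ := by exact_mod_cast hr1
      change ‖_‖ ≤ τ'
      rw [eF, hr, mul_comm q r, ← smul_smul]
      refine norm_nsmul_le.trans (le_of_mul_le_mul_right (le_trans ?_ h3) hYl)
      rw [mul_assoc]
      exact mul_le_mul hr2 hq3 (by positivity) (by positivity)
    · obtain ⟨q, hq1, hq2, hq3⟩ := h4 i hi1.le hi2 _ h
      exact ⟨q, hq1, hq2, by rwa [← smul_smul]⟩

end Pool.Agent.P.MP_e4219a_lc
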