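import Pool.Agent.P.MP_e4219a_lc.Bund

/-! Generators of the class group and finiteness of the classes unramified outside `n`. -/

namespace Pool.Agent.P.MP_e4219a_lc

open NumberField IsDedekindDomain Polynomial Finset
open Pool.Agent.P.MP_b8021b_nt Pool.Agent.P.MP_b8021b_nt.VE Pool.Agent.P.MP_b8021b_nt.VC
open scoped Classical nonZeroDivisors

namespace ESP

variable {L : Type} [Field L] [NumberField L]

theorem coe_ne {a : 𝓞 L} (ha : a ≠ 0) : (a : L) ≠ 0 := by simpa using ha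

theorem gen (L : Type) [Field L] [NumberField L] (m : ℕ) (hm : m ≠ 0) :
    ∃ n : ℕ, n ≠ 0 ∧ m ∣ n ∧ Gen L n := by
  choose I hI using ClassGroup.mk0_surjective (R := 𝓞 L)
  have hI0 : ∀ C, (I C : Ideal (𝓞 L)) ≠ ⊥ := fun C => nonZeroDivisors.coe_ne_zero (I C)
  refine ⟨m * ∏ C, Ideal.absNorm (I C : Ideal (𝓞 L)), mul_ne_zero hm (prod_ne_zero_iff.2 fun C _ =>
    fun e => hI0 C (Ideal.absNorm_eq_zero_iff.1 e)), dvd_mul_right _ _, fun v₀ h₀ => ?_⟩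
  have hv : v₀.asIdeal ∈ (Ideal (𝓞 L))⁰ := mem_nonZeroDivisors_of_ne_zero v₀.ne_bot
  obtain ⟨x, y, hx, hy, e⟩ := ClassGroup.mk0_eq_mk0_iff.1 (hI (ClassGroup.mk0 ⟨_, hv⟩)).symm
  have key : ∀ v : Pl L, ¬ Dv (m * ∏ C, Ideal.absNorm (I C : Ideal (𝓞 L))) v →
      od v ((y : L) / x) = cnt v v₀.asIdeal := by
    intro v hv'
    have h1 : cnt v (I (ClassGroup.mk0 ⟨_, hv⟩) : Ideal (𝓞 L)) = 0 := by
      refine (cnt_eq_zero v).2 fun hle => hv' ?_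
      have h2 : Dv (Ideal.absNorm (I (ClassGroup.mk0 ⟨_, hv⟩) : Ideal (𝓞 L))) v :=
        hle (Ideal.absNorm_mem _)
      exact h2.of_dvd (Dvd.dvd.mul_left (dvd_prod_of_mem _ (mem_univ _)) _)
    have h3 := congrArg (cnt v) e
    rw [cnt_mul v (by simpa using hx) v₀.ne_bot, cnt_mul v (by simpa using hy) (hI0 _), h1] at h3
    rw [od_div v (coe_ne hy) (coe_ne hx), od_coe v hx, od_coe v hy]
    omega
  refine ⟨y / x, div_ne_zero (coe_ne hy) (coe_ne hx), ?_, fun v hne hv' => ?_⟩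
  · rw [key v₀ h₀, cnt_self]; rfl
  · rw [key v hv', cnt_ne v hne]; rfl

/-- a power of every place is principal -/
theorem princ (L : Type) [Field L] [NumberField L] : ∃ h : ℕ, h ≠ 0 ∧ ∀ v : Pl L, ∃ π : L,
    π ≠ 0 ∧ od v π = h ∧ ∀ w, w ≠ v → od w π = 0 := by
  refine ⟨Fintype.card (ClassGroup (𝓞 L)), Fintype.card_ne_zero, fun v => ?_⟩
  have hv : v.asIdeal ∈ (Ideal (𝓞 L))⁰ := mem_nonZeroDivisors_of_ne_zero v.ne_bot
  have h1 : ClassGroup.mk0 (⟨_, hv⟩ ^ Fintype.card (ClassGroup (𝓞 L)) : (Ideal (𝓞 L))⁰) = 1 := by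
    rw [map_pow, pow_card_eq_one]
  obtain ⟨π, hπ⟩ := (ClassGroup.mk0_eq_one_iff (pow_mem hv _)).1 h1
  have h2 : v.asIdeal ^ Fintype.card (ClassGroup (𝓞 L)) = Ideal.span {π} := hπ
  have h3 : π ≠ 0 := by
    rintro rfl
    exact pow_ne_zero _ v.ne_bot (h2.trans (by simp))
  refine ⟨π, coe_ne h3, ?_, fun w hw => ?_⟩
  · rw [od_coe v h3, ← h2, cnt_pow v v.ne_bot, cnt_self, mul_one]
  · rw [od_coe w h3, ← h2, cnt_pow w v.ne_bot, cnt_ne w hw, mul_zero]; rfl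

/-- the units modulo powers -/
theorem units (L : Type) [Field L] [NumberField L] {ℓ : ℕ} (hℓ : ℓ ≠ 0) : ∃ U : Finset L,
    ∀ u : L, u ≠ 0 → (∀ v : Pl L, od v u = 0) → ∃ u₀ ∈ U, ∃ z : L, u = u₀ * z ^ ℓ := by
  have : Group.FG (𝓞 L)ˣ := Group.fg_iff_monoid_fg.2 inferInstance
  have := Subgroup.finiteIndex_range_powMonoidHom_of_fg (𝓞 L)ˣ hℓ
  have := Fintype.ofFinite ((𝓞 L)ˣ ⧸ (powMonoidHom ℓ : (𝓞 L)ˣ →* (𝓞 L)ˣ).range)
  refine ⟨univ.image fun q : (𝓞 L)ˣ ⧸ (powMonoidHom ℓ : (𝓞 L)ˣ →* (𝓞 L)ˣ).range =>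
    ((q.out : (𝓞 L)ˣ) : L), fun u hu h => ?_⟩
  have h1 : IsIntegral ℤ u := isIntegral_iff.2 fun v => ((od_eq_zero_iff v hu).1 (h v)).le
  have h2 : IsIntegral ℤ u⁻¹ := isIntegral_iff.2 fun v =>
    ((od_eq_zero_iff v (inv_ne_zero hu)).1 (by rw [od_inv, h v, neg_zero])).le
  let ε : (𝓞 L)ˣ := ⟨⟨u, h1⟩, ⟨u⁻¹, h2⟩, Subtype.ext (mul_inv_cancel₀ hu),
    Subtype.ext (inv_mul_cancel₀ hu)⟩
  obtain ⟨⟨_, z, rfl⟩, hz⟩ := QuotientGroup.mk_out_eq_mul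
    (powMonoidHom ℓ : (𝓞 L)ˣ →* (𝓞 L)ˣ).range ε
  refine ⟨_, mem_image_of_mem _ (mem_univ (ε : _ ⧸ _)), ((z⁻¹ : (𝓞 L)ˣ) : L), ?_⟩
  have h3 : ε = (ε : (𝓞 L)ˣ ⧸ (powMonoidHom ℓ : (𝓞 L)ˣ →* (𝓞 L)ˣ).range).out * z⁻¹ ^ ℓ := by
    rw [hz]; simp
  have h4 := congrArg (fun η : (𝓞 L)ˣ => (η : L)) h3
  simp only [Units.val_mul, Units.val_pow_eq_pow_val, map_mul, map_pow] at h4
  exact h4

theorem od_pz (w : Pl L) (T : Finset (Pl L)) (x : Pl L → L) (e : Pl L → ℤ) (c : ℤ)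
    (hx : ∀ v ∈ T, x v ≠ 0) (h1 : w ∈ T → od w (x w) = c) (h2 : ∀ v ∈ T, w ≠ v → od w (x v) = 0) :
    od w (∏ v ∈ T, x v ^ e v) = if w ∈ T then e w * c else 0 := by
  rw [od_prod w T _ fun v hv => zpow_ne_zero _ (hx v hv)]
  simp only [od_zpow]
  split_ifs with hw
  · rw [sum_eq_single w (fun v hv hne => by rw [h2 v hv hne.symm, mul_zero]) fun h => (h hw).elim,
      h1 hw]
  · exact sum_eq_zero fun v hv => by rw [h2 v hv fun e => hw (e ▸ hv), mul_zero]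

/-- reduction to units outside `n` -/
theorem red {n ℓ : ℕ} (hn : Gen L n) {y : L} (hy : y ≠ 0)
    (h : ∀ v, ¬ Dv n v → (ℓ : ℤ) ∣ od v y) :
    ∃ u z : L, u ≠ 0 ∧ y = u * z ^ ℓ ∧ ∀ v, ¬ Dv n v → od v u = 0 := by
  choose! x hx using hn
  choose! e he using h
  let T := (finite_od y).toFinset.filter fun v => ¬ Dv n v
  have hT : ∀ v, v ∈ T ↔ od v y ≠ 0 ∧ ¬ Dv n v := fun v => by simp [T]
  have hz : ∏ v ∈ T, x v ^ e v ≠ 0 :=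
    prod_ne_zero_iff.2 fun v hv => zpow_ne_zero _ (hx v ((hT v).1 hv).2).1
  refine ⟨y / (∏ v ∈ T, x v ^ e v) ^ ℓ, _, div_ne_zero hy (pow_ne_zero _ hz),
    (div_mul_cancel₀ _ (pow_ne_zero _ hz)).symm, fun w hw => ?_⟩
  rw [od_div w hy (pow_ne_zero _ hz), od_pow, od_pz w T x e 1 (fun v hv => (hx v ((hT v).1 hv).2).1)
    (fun _ => (hx w hw).2.1) fun v hv hne => (hx v ((hT v).1 hv).2).2.2 w hne hw]
  split_ifs with h1
  · rw [mul_one, he w hw, sub_self]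
  · rw [mul_zero, sub_zero]
    by_contra h2
    exact h1 ((hT w).2 ⟨h2, hw⟩)

/-- the units outside `n` modulo powers -/
theorem sunits (L : Type) [Field L] [NumberField L] {n ℓ : ℕ} (hn : n ≠ 0) (hℓ : ℓ ≠ 0) :
    ∃ Y : Finset L, ∀ u : L, u ≠ 0 → (∀ v, ¬ Dv n v → od v u = 0) →
      ∃ y₀ ∈ Y, ∃ z : L, u = y₀ * z ^ ℓ := by
  obtain ⟨h, hh, hπ⟩ := princ L
  choose π hπ using hπ
  obtain ⟨U, hU⟩ := units L hℓ
  let S := (finite_dv L hn).toFinset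
  have hS : ∀ v, v ∈ S ↔ Dv n v := fun v => by simp [S]
  have : NeZero (ℓ * h) := ⟨mul_ne_zero hℓ hh⟩
  let P : (S → ZMod (ℓ * h)) → L → Prop := fun f u =>
    u ≠ 0 ∧ (∀ v, ¬ Dv n v → od v u = 0) ∧ ∀ v : S, (od v.1 u : ZMod (ℓ * h)) = f v
  let r : (S → ZMod (ℓ * h)) → L := fun f => if hf : ∃ u, P f u then hf.choose else 0
  refine ⟨(univ ×ˢ U).image fun p => r p.1 * p.2, fun u hu h0 => ?_⟩
  let f : S → ZMod (ℓ * h) := fun v => od v.1 u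
  have hf : ∃ u, P f u := ⟨u, hu, h0, fun _ => rfl⟩
  have hr : P f (r f) := by
    simp only [r, dif_pos hf]
    exact hf.choose_spec
  obtain ⟨r0, r1, r2⟩ := hr
  have hd : ∀ v ∈ S, ∃ e : ℤ, od v (u / r f) = ℓ * (e * h) := fun v hv => by
    obtain ⟨e, he⟩ := (ZMod.intCast_eq_intCast_iff_dvd_sub _ _ _).1 (r2 ⟨v, hv⟩)
    exact ⟨e, by rw [od_div v hu r0, he]; push_cast; ring⟩
  choose! e he using hd
  have hz : ∏ v ∈ S, π v ^ e v ≠ 0 := prod_ne_zero_iff.2 fun v _ => zpow_ne_zero _ (hπ v).1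
  obtain ⟨u₀, hu₀, z, hz'⟩ := hU (u / r f / (∏ v ∈ S, π v ^ e v) ^ ℓ)
    (div_ne_zero (div_ne_zero hu r0) (pow_ne_zero _ hz)) fun w => by
      rw [od_div w (div_ne_zero hu r0) (pow_ne_zero _ hz), od_pow, od_pz w S π e h
        (fun v _ => (hπ v).1) (fun _ => (hπ w).2.1) fun v _ hne => (hπ v).2.2 w hne]
      split_ifs with h1
      · rw [he w h1, sub_self]
      · rw [od_div w hu r0, h0 w fun h2 => h1 ((hS w).2 h2), r1 w fun h2 => h1 ((hS w).2 h2)]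
        simp
  refine ⟨_, mem_image_of_mem _ (mem_product.2 ⟨mem_univ f, hu₀⟩ : (f, u₀) ∈ univ ×ˢ U),
    z * ∏ v ∈ S, π v ^ e v, ?_⟩
  rw [div_div, div_eq_iff (mul_ne_zero r0 (pow_ne_zero _ hz))] at hz'
  rw [hz', mul_pow]
  ring

end ESP

theorem p_es (h : T1) : Z_ES := by
  intro L _ _
  refine ⟨ESP.gen L, fun n ℓ hn hℓ => ?_⟩
  obtain ⟨N, hN, hd, hG⟩ := ESP.gen L n hn
  obtain ⟨Y, hY⟩ := ESP.sunits L hN hℓ
  refine ⟨Y, fun y hy h1 => ?_⟩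
  obtain ⟨u, z, hu, rfl, h2⟩ := ESP.red hG hy fun v hv => h1 v fun h3 => hv (h3.of_dvd hd)
  obtain ⟨y₀, h3, z', rfl⟩ := hY u hu h2
  exact ⟨y₀, h3, z' * z, by rw [mul_pow, mul_assoc]⟩

end Pool.Agent.P.MP_e4219a_lc
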