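import Pool.Agent.P.MP_e4219a_lc.Bund

/-! Elimination of the parameters from a Diophantine definition that is invariant under the
automorphisms of the field. -/

namespace Pool.Agent.P.MP_e4219a_lc

open MvPolynomial
open scoped Classical

namespace ElimP

variable {K ρ τ : Type} [Field K] [NumberField K]

/-- clearing denominators -/
theorem den (p : MvPolynomial ρ ℚ) : ∃ (N : ℤ) (q : MvPolynomial ρ ℤ), N ≠ 0 ∧
    ∀ x : ρ → K, aeval x q = N * aeval x p := by
  induction p using MvPolynomial.induction_on with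
  | C c =>
    refine ⟨c.den, C c.num, by exact_mod_cast c.den_nz, fun x => ?_⟩
    have h : (c.den : K) ≠ 0 := by exact_mod_cast c.den_nz
    simp only [aeval_C, eq_intCast, eq_ratCast, Int.cast_natCast, map_intCast]
    rw [Rat.cast_def, mul_div_cancel₀ _ h]
  | add p p' h h' =>
    obtain ⟨N, q, hN, hq⟩ := h
    obtain ⟨N', q', hN', hq'⟩ := h'
    refine ⟨N * N', C N' * q + C N * q', mul_ne_zero hN hN', fun x => ?_⟩
    simp only [map_add, map_mul, map_intCast, eq_intCast, hq, hq', Int.cast_mul]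
    ring
  | mul_X p i h =>
    obtain ⟨N, q, hN, hq⟩ := h
    refine ⟨N, q * X i, hN, fun x => ?_⟩
    simp only [map_mul, aeval_X, hq]
    ring

theorem den' (p : MvPolynomial ρ ℚ) : ∃ q : MvPolynomial ρ ℤ,
    ∀ x : ρ → K, aeval x q = 0 ↔ aeval x p = 0 := by
  obtain ⟨N, q, hN, hq⟩ := den (K := K) p
  exact ⟨q, fun x => by simp [hq, hN]⟩

/-- the coefficients as polynomials in a generator -/
theorem par (pb : PowerBasis ℚ K) (v : ρ) (e : τ → ρ) (p : MvPolynomial τ K) :
    ∃ q : MvPolynomial ρ ℚ, ∀ (σ : K →ₐ[ℚ] K) (x : ρ → K), x v = σ pb.gen →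
      aeval x q = eval₂ (σ : K →+* K) (x ∘ e) p := by
  induction p using MvPolynomial.induction_on with
  | C c =>
    obtain ⟨g, rfl⟩ := pb.exists_eq_aeval' c
    refine ⟨Polynomial.aeval (X v) g, fun σ x h => ?_⟩
    rw [eval₂_C, ← Polynomial.aeval_algHom_apply, aeval_X, h, Polynomial.aeval_algHom_apply]
    rfl
  | add p p' h h' =>
    obtain ⟨q, hq⟩ := h
    obtain ⟨q', hq'⟩ := h'
    exact ⟨q + q', fun σ x h => by rw [map_add, eval₂_add, hq σ x h, hq' σ x h]⟩
  | mul_X p i h =>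
    obtain ⟨q, hq⟩ := h
    exact ⟨q * X (e i), fun σ x h => by rw [map_mul, eval₂_mul, hq σ x h, aeval_X, eval₂_X]; rfl⟩

/-- two is not a power with a large exponent -/
theorem two_ne (z : K) : z ^ (Module.finrank ℚ K + 1) ≠ 2 := fun h => by
  have h0 : 0 < Module.finrank ℚ K := Module.finrank_pos
  have h1 : Algebra.norm ℚ z ^ (Module.finrank ℚ K + 1) = 2 ^ Module.finrank ℚ K := by
    rw [← map_pow, h, ← Algebra.norm_algebraMap (S := K) (2 : ℚ), map_ofNat (algebraMap ℚ K)]
  generalize Module.finrank ℚ K = d at h0 h1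
  have h3 := congrArg (padicValRat 2) h1
  have h4 : padicValRat 2 2 = 1 := padicValRat.self one_lt_two
  rw [padicValRat.pow, padicValRat.pow, h4] at h3
  push_cast at h3
  rcases le_or_gt (padicValRat 2 (Algebra.norm ℚ z)) 0 with a | a <;> nlinarith

/-- one equation for finitely many -/
theorem comb {μ : Type} (s : Finset μ) (g : μ → MvPolynomial ρ ℤ) : ∃ P : MvPolynomial ρ ℤ,
    ∀ x : ρ → K, aeval x P = 0 ↔ ∀ j ∈ s, aeval x (g j) = 0 := by
  induction s using Finset.induction_on with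
  | empty => exact ⟨0, by simp⟩
  | insert j s _ ih =>
    obtain ⟨P, hP⟩ := ih
    refine ⟨g j ^ (Module.finrank ℚ K + 1) - 2 * P ^ (Module.finrank ℚ K + 1), fun x => ?_⟩
    rw [Finset.forall_mem_insert, ← hP, map_sub, map_mul, map_pow, map_pow, map_ofNat, sub_eq_zero]
    refine ⟨fun h => ?_, fun h => by simp [h.1, h.2]⟩
    have h1 : aeval x P = 0 := by_contra fun h0 => two_ne (aeval x (g j) / aeval x P) (by
      rw [div_pow, h, mul_div_cancel_right₀ _ (pow_ne_zero _ h0)])
    rw [h1, zero_pow (Nat.succ_ne_zero _), mul_zero] at h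
    exact ⟨pow_eq_zero_iff (Nat.succ_ne_zero _) |>.1 h, h1⟩

end ElimP

open ElimP in
theorem p_elim : Z_Elim := by
  intro K _ _ S ⟨n, m, f, hf⟩ hS
  have pb := Field.powerBasisOfFiniteOfSeparable ℚ K
  let e : Unit ⊕ Fin n → Option (Fin (n + 1)) := Sum.elim (fun _ => none) fun k => some k.succ
  choose q hq using fun j => par pb (some 0) e (f j)
  choose r hr using fun j => den' (K := K) (q j)
  obtain ⟨r0, hr0⟩ := den' (K := K) (Polynomial.aeval (X (some 0) :
    MvPolynomial (Option (Fin (n + 1))) ℚ) (minpoly ℚ pb.gen))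
  obtain ⟨P, hP⟩ := comb (K := K) Finset.univ fun o : Option (Fin m) => o.elim r0 r
  simp only [Finset.mem_univ, forall_const, Option.forall, Option.elim_none, Option.elim_some, hr,
    hr0, ← Polynomial.aeval_algHom_apply, aeval_X] at hP
  refine ⟨n + 1, P, fun a => ⟨fun h => ?_, fun ⟨y, hy⟩ => ?_⟩⟩
  · obtain ⟨y, hy⟩ := (hf fun _ => a).1 h
    refine ⟨Fin.cons pb.gen y, (hP _).2 ⟨minpoly.aeval ℚ pb.gen, fun j => ?_⟩⟩
    rw [hq j (AlgHom.id ℚ K) _ rfl, ← hy j]
    congr 1
    funext o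
    cases o <;> rfl
  · obtain ⟨h0, h1⟩ := (hP _).1 hy
    obtain ⟨σ, hg⟩ : ∃ σ : K →ₐ[ℚ] K, y 0 = σ pb.gen := ⟨pb.lift (y 0) h0, (pb.lift_gen _ _).symm⟩
    have hσ : Function.Surjective σ := (Algebra.IsAlgebraic.algHom_bijective σ).2
    obtain ⟨a', ha⟩ := hσ a
    choose y' hy' using fun k : Fin n => hσ (y k.succ)
    refine ha ▸ (hS σ a').2 ((hf fun _ => a').2 ⟨y', fun j => ?_⟩)
    have h2 := h1 j
    rw [hq j σ _ hg] at h2
    apply σ.injective
    rw [map_zero, ← h2]
    refine (eval₂_comp_left (σ : K →+* K) (RingHom.id K) _ (f j)).trans ?_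
    congr 1
    funext o
    cases o with
    | inl _ => exact ha
    | inr k => exact hy' k

end Pool.Agent.P.MP_e4219a_lc
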