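import Pool.Agent.P.MP_e4219a_lc.Bund

/-! Places in an extension of number fields. -/

namespace Pool.Agent.P.MP_e4219a_lc

open NumberField IsDedekindDomain Polynomial Finset WithZero
open scoped Classical

set_option linter.unusedSectionVars false

namespace ExP

variable {L M : Type} [Field L] [NumberField L] [Field M] [NumberField M] [Algebra L M]

theorem lies {v : Pl L} {w : Pl M} (h : Und v w.asIdeal) : w.asIdeal.LiesOver v.asIdeal := ⟨h⟩

theorem val {v : Pl L} {w : Pl M} (h : Und v w.asIdeal) :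
    ∃ e : ℕ, 1 ≤ e ∧ ∀ x : L, vl w (algebraMap L M x) = vl v x ^ e := by
  have := lies h
  exact ⟨v.asIdeal.ramificationIdx' w.asIdeal, Nat.one_le_iff_ne_zero.2
    (Ideal.IsDedekindDomain.ramificationIdx'_ne_zero_of_liesOver w.asIdeal v.ne_bot),
    fun x => (HeightOneSpectrum.valuation_liesOver M v w x).symm⟩

theorem under (w : Pl M) : ∃ v : Pl L, Und v w.asIdeal := by
  have := w.isPrime
  exact ⟨⟨w.asIdeal.comap (algebraMap (𝓞 L) (𝓞 M)), Ideal.comap_isPrime _ _,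
    fun e => w.ne_bot (Ideal.eq_bot_of_comap_eq_bot e)⟩, rfl⟩

theorem above (v : Pl L) : ∃ w : Pl M, Und v w.asIdeal := by
  have := v.isMaximal
  obtain ⟨Q, h1, h2⟩ := Ideal.exists_maximal_ideal_liesOver_of_isIntegral (S := 𝓞 M) v.asIdeal
  exact ⟨⟨Q, h1.isPrime, Ideal.ne_bot_of_liesOver_of_ne_bot v.ne_bot Q⟩, h2.over⟩

theorem deg {v : Pl L} {w : Pl M} (h : Und v w.asIdeal) : ∃ f : ℕ, 1 ≤ f ∧
    Ideal.relNorm (𝓞 L) w.asIdeal = v.asIdeal ^ f ∧
    Ideal.absNorm w.asIdeal = Ideal.absNorm v.asIdeal ^ f ∧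
    (f = 1 → ∀ y : 𝓞 M, ∃ a : 𝓞 L, y - algebraMap (𝓞 L) (𝓞 M) a ∈ w.asIdeal) := by
  have := lies h
  have := v.isMaximal
  have := w.isMaximal
  have h1 := Ideal.relNorm_eq_pow_of_isMaximal w.asIdeal v.asIdeal
  refine ⟨w.asIdeal.inertiaDeg (𝓞 L), Ideal.inertiaDeg_pos _ _, h1, ?_, fun hf y => ?_⟩
  · rw [← Ideal.absNorm_relNorm (𝓞 L), h1, map_pow]
  · rw [Ideal.inertiaDeg_eq_of_isMaximal v.asIdeal] at hf
    let := Ideal.Quotient.field v.asIdeal
    let := Ideal.Quotient.field w.asIdeal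
    obtain ⟨c, hc⟩ := (finrank_eq_one_iff_of_nonzero' (K := 𝓞 L ⧸ v.asIdeal)
      (1 : 𝓞 M ⧸ w.asIdeal) one_ne_zero).1 hf (Ideal.Quotient.mk _ y)
    obtain ⟨a, rfl⟩ := Ideal.Quotient.mk_surjective c
    refine ⟨a, Ideal.Quotient.eq.1 ?_⟩
    rw [← hc, Algebra.smul_def, mul_one]
    rfl

end ExP

theorem p_ex : Z_Ex := by
  intro L M _ _ _ _ _
  refine ⟨fun w => ?_, ExP.above, fun v w => ExP.deg, fun ℓ v w x h hx => ?_, fun a => ?_⟩
  · obtain ⟨v, hv⟩ := ExP.under (L := L) w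
    obtain ⟨e, h1, h2⟩ := ExP.val hv
    exact ⟨v, e, h1, hv, h2⟩
  · obtain ⟨e, h1, h2⟩ := ExP.val h
    obtain ⟨r, hr⟩ := hx
    refine ⟨algebraMap L M r, ?_⟩
    have e1 := h2 (x / r ^ ℓ - 1)
    have e2 := h2 ℓ
    rw [map_sub, map_div₀, map_pow, map_one] at e1
    rw [map_natCast] at e2
    rw [e1, e2, ← pow_mul, mul_comm, pow_mul]
    exact pow_lt_pow_left₀ hr zero_le (by omega)
  · exact ⟨Algebra.intNorm (𝓞 L) (𝓞 M) a, Algebra.algebraMap_intNorm (L := M) a,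
      Ideal.relNorm_singleton _ a⟩

end Pool.Agent.P.MP_e4219a_lc
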