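import Pool.Agent.P.MP_e4219a_lc.Bund

/-! Addition in the kernel of reduction. -/

namespace Pool.Agent.P.MP_e4219a_lc

open WeierstrassCurve.Affine
open scoped Classical

namespace FGP

variable {F : Type} [Field F] (w : Valuation F (WithZero (Multiplicative ℤ))) {a₃ a₄ : F}

theorem eqn {x y : F} (h : (Wc a₃ a₄).Equation x y) : y ^ 2 + a₃ * y = x ^ 3 + a₄ * x := by
  rw [equation_iff] at h
  simp only [Wc] at h
  linear_combination h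

theorem ml {a b : F} {c : WithZero (Multiplicative ℤ)} (ha : w a ≤ 1) (hb : w b ≤ c) :
    w (a * b) ≤ c := by
  rw [map_mul]
  simpa using mul_le_mul' ha hb

theorem mm {a b : F} {c d : WithZero (Multiplicative ℤ)} (ha : w a ≤ c) (hb : w b ≤ d) :
    w (a * b) ≤ c * d := by
  rw [map_mul]
  exact mul_le_mul' ha hb

theorem pw {m : WithZero (Multiplicative ℤ)} (hm : m ≤ 1) {i j : ℕ} (h : j ≤ i) : m ^ i ≤ m ^ j :=
  pow_le_pow_right_of_le_one' hm h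

theorem chart (h3 : w a₃ ≤ 1) (h4 : w a₄ ≤ 1) {x y : F} (he : y ^ 2 + a₃ * y = x ^ 3 + a₄ * x)
    (hx : 1 < w x) : y ≠ 0 ∧ w (-x / y) < 1 ∧ w (-1 / y) = w (-x / y) ^ 3 := by
  have a1 : w x < w x ^ 3 := by
    simpa using pow_lt_pow_right₀ hx (show 1 < 3 by norm_num)
  have a2 : w (x ^ 3 + a₄ * x) = w x ^ 3 := by
    rw [w.map_add_eq_of_lt_left (by rw [map_pow]; exact (ml w h4 le_rfl).trans_lt a1), map_pow]
  have a3 : w x < w y := by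
    by_contra hc
    have hc := not_lt.1 hc
    have b1 : w x ≤ w x ^ 2 := by simpa using pow_le_pow_right₀ hx.le (show 1 ≤ 2 by norm_num)
    have b2 : w (y ^ 2 + a₃ * y) ≤ w x ^ 2 :=
      w.map_add_le (by rw [map_pow]; exact pow_le_pow_left' hc 2) (ml w h3 (hc.trans b1))
    rw [he, a2] at b2
    exact absurd (pow_lt_pow_right₀ hx (show 2 < 3 by norm_num)) (not_lt.2 b2)
  have hy1 : 1 < w y := hx.trans a3
  have hy0 : w y ≠ 0 := (zero_lt_one.trans hy1).ne'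
  have a4 : w y < w y ^ 2 := by
    simpa using pow_lt_pow_right₀ hy1 (show 1 < 2 by norm_num)
  have a5 : w (y ^ 2 + a₃ * y) = w y ^ 2 := by
    rw [w.map_add_eq_of_lt_left (by rw [map_pow]; exact (ml w h3 le_rfl).trans_lt a4), map_pow]
  have a6 : w x ^ 3 = w y ^ 2 := by rw [← a2, ← a5, he]
  refine ⟨fun h => hy0 (by rw [h, map_zero]), ?_, ?_⟩
  · rw [map_div₀, w.map_neg]
    exact (div_lt_one₀ (zero_lt_one.trans hy1)).2 a3
  · rw [map_div₀, map_div₀, w.map_neg, w.map_neg, map_one, div_pow, a6]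
    field_simp

theorem back (h3 : w a₃ ≤ 1) (h4 : w a₄ ≤ 1) {x y : F} (he : y ^ 2 + a₃ * y = x ^ 3 + a₄ * x)
    (hy : y ≠ 0) (hs : w (-1 / y) < 1) : 1 < w x := by
  have hy0 : 0 < w y := zero_lt_iff.2 ((map_ne_zero w).2 hy)
  rw [map_div₀, w.map_neg, map_one, div_lt_one₀ hy0] at hs
  have a4 : w y < w y ^ 2 := by
    simpa using pow_lt_pow_right₀ hs (show 1 < 2 by norm_num)
  have a5 : w (y ^ 2 + a₃ * y) = w y ^ 2 := by
    rw [w.map_add_eq_of_lt_left (by rw [map_pow]; exact (ml w h3 le_rfl).trans_lt a4), map_pow]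
  by_contra hc
  have hc := not_lt.1 hc
  have b2 : w (x ^ 3 + a₄ * x) ≤ 1 :=
    w.map_add_le (by rw [map_pow]; exact pow_le_one' hc 3) (ml w h4 hc)
  rw [← he, a5] at b2
  exact absurd (hs.trans a4) (not_lt.2 b2)

theorem negt (h3 : w a₃ ≤ 1) (h4 : w a₄ ≤ 1) {x y : F} (he : y ^ 2 + a₃ * y = x ^ 3 + a₄ * x)
    (hx : 1 < w x) : w (-x / (-y - a₃) + -x / y) ≤ w (-x / y) ^ 2 := by
  obtain ⟨y0, t1, s1⟩ := chart w h3 h4 he hx
  have hs : w (-1 / y) ≤ w (-x / y) := by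
    rw [s1]
    simpa using pw t1.le (show 1 ≤ 3 by norm_num)
  have hu : w (1 - a₃ * (-1 / y)) = 1 := w.map_one_sub_of_lt ((ml w h3 hs).trans_lt t1)
  have hu0 : 1 - a₃ * (-1 / y) ≠ 0 := fun h => by simp [h] at hu
  have hy' : -y - a₃ ≠ 0 := by
    intro h
    apply hu0
    field_simp
    linear_combination -h
  have hy'' : y + a₃ ≠ 0 := fun h => hy' (by linear_combination -h)
  have e : -x / (-y - a₃) + -x / y = -(a₃ * (-x / y * (-1 / y))) / (1 - a₃ * (-1 / y)) := by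
    rw [eq_div_iff hu0]
    field_simp
    ring
  rw [e, map_div₀, hu, div_one, w.map_neg, pow_two]
  exact ml w h3 (mm w le_rfl hs)

/-- the line through two points of the kernel of reduction -/
theorem line (h3 : w a₃ ≤ 1) (h4 : w a₄ ≤ 1) {x₁ y₁ x₂ y₂ : F}
    (e₁ : y₁ ^ 2 + a₃ * y₁ = x₁ ^ 3 + a₄ * x₁) (e₂ : y₂ ^ 2 + a₃ * y₂ = x₂ ^ 3 + a₄ * x₂)
    (hx₁ : 1 < w x₁) (hx₂ : 1 < w x₂) (hy : x₁ = x₂ → y₁ = y₂) :
    ∃ α β : F, w α ≤ max (w (-x₁ / y₁)) (w (-x₂ / y₂)) ^ 2 ∧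
      w β ≤ max (w (-x₁ / y₁)) (w (-x₂ / y₂)) ^ 2 ∧ β * y₁ = α * x₁ - 1 ∧ β * y₂ = α * x₂ - 1 ∧
      α * (y₁ + y₂ + a₃) = β * (x₁ ^ 2 + x₁ * x₂ + x₂ ^ 2 + a₄) := by
  obtain ⟨y1, t1, s1⟩ := chart w h3 h4 e₁ hx₁
  obtain ⟨y2, t2, s2⟩ := chart w h3 h4 e₂ hx₂
  obtain ⟨m, hm⟩ : ∃ m, m = max (w (-x₁ / y₁)) (w (-x₂ / y₂)) := ⟨_, rfl⟩
  rw [← hm]
  have m1 : m < 1 := by rw [hm]; exact max_lt t1 t2
  obtain ⟨t, ht⟩ : ∃ t, t = -x₁ / y₁ := ⟨_, rfl⟩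
  obtain ⟨t', ht'⟩ : ∃ t, t = -x₂ / y₂ := ⟨_, rfl⟩
  obtain ⟨s, hs⟩ : ∃ s, s = -1 / y₁ := ⟨_, rfl⟩
  obtain ⟨s', hs'⟩ : ∃ s, s = -1 / y₂ := ⟨_, rfl⟩
  rw [← ht, ← ht'] at hm
  rw [← ht, ← hs] at s1
  rw [← ht', ← hs'] at s2
  have b1 : w t ≤ m := by rw [hm]; exact le_max_left _ _
  have b2 : w t' ≤ m := by rw [hm]; exact le_max_right _ _
  have b3 : w s ≤ m ^ 3 := by rw [s1]; exact pow_le_pow_left' b1 3
  have b4 : w s' ≤ m ^ 3 := by rw [s2]; exact pow_le_pow_left' b2 3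
  have c1 : m ^ 3 ≤ m := by simpa using pw m1.le (show 1 ≤ 3 by norm_num)
  have c2 : m ^ 3 ≤ m ^ 2 := pw m1.le (by norm_num)
  have q1 : s = t ^ 3 + a₃ * s ^ 2 + a₄ * t * s ^ 2 := by
    rw [ht, hs]
    field_simp
    linear_combination -e₁
  have q2 : s' = t' ^ 3 + a₃ * s' ^ 2 + a₄ * t' * s' ^ 2 := by
    rw [ht', hs']
    field_simp
    linear_combination -e₂
  have hU : w (1 - (a₃ + a₄ * t') * (s + s')) = 1 :=
    w.map_one_sub_of_lt ((ml w (w.map_add_le h3 (ml w h4 (b2.trans m1.le)))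
      (w.map_add_le (b3.trans c1) (b4.trans c1))).trans_lt m1)
  have hU0 : 1 - (a₃ + a₄ * t') * (s + s') ≠ 0 := fun h => by simp [h] at hU
  have hV : w (t * t + t * t' + t' * t' + a₄ * (s * s)) ≤ m ^ 2 := by
    rw [pow_two]
    exact w.map_add_le (w.map_add_le (w.map_add_le (mm w b1 b1) (mm w b1 b2)) (mm w b2 b2))
      (ml w h4 (mm w (b3.trans c1) (b3.trans c1)))
  obtain ⟨α, hα⟩ : ∃ α, α = (t * t + t * t' + t' * t' + a₄ * (s * s)) /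
    (1 - (a₃ + a₄ * t') * (s + s')) := ⟨_, rfl⟩
  have hα' : α * (1 - (a₃ + a₄ * t') * (s + s')) = t * t + t * t' + t' * t' + a₄ * (s * s) := by
    rw [hα, div_mul_cancel₀ _ hU0]
  have wα : w α ≤ m ^ 2 := by rw [hα, map_div₀, hU, div_one]; exact hV
  have hl : s - s' = α * (t - t') := by
    apply mul_right_cancel₀ hU0
    linear_combination q1 - q2 - (t - t') * hα'
  have x1 : x₁ = -(t * y₁) := by rw [ht]; field_simp
  have x2 : x₂ = -(t' * y₂) := by rw [ht']; field_simp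
  have z1 : s * y₁ = -1 := by rw [hs]; field_simp
  have z2 : s' * y₂ = -1 := by rw [hs']; field_simp
  have l1 : (s - α * t) * y₁ = α * x₁ - 1 := by linear_combination z1 - α * x1
  have l2 : (s - α * t) * y₂ = α * x₂ - 1 := by linear_combination z2 - α * x2 + y₂ * hl
  refine ⟨α, s - α * t, wα, w.map_sub_le (b3.trans c2) ?_, l1, l2, ?_⟩
  · rw [mul_comm]
    exact ml w (b1.trans m1.le) wα
  · by_cases hx : x₁ = x₂
    · have hy' := hy hx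
      subst hx hy'
      have r1 : t' = t := by rw [ht, ht']
      have r2 : s' = s := by rw [hs, hs']
      rw [r1, r2] at hα'
      rw [ht, hs] at hα' ⊢
      field_simp at hα' ⊢
      linear_combination -hα' + 3 * α * e₁
    · apply mul_left_cancel₀ (sub_ne_zero.2 hx)
      linear_combination (s - α * t) * (e₁ - e₂) - (y₁ + y₂ + a₃) * (l1 - l2)

/-- the third point on the line -/
theorem third (h3 : w a₃ ≤ 1) (h4 : w a₄ ≤ 1) {x₁ y₁ x₂ y₂ α β l : F}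
    {m : WithZero (Multiplicative ℤ)} (m1 : m < 1) (h2 : w 2 ≤ 1)
    (e₁ : y₁ ^ 2 + a₃ * y₁ = x₁ ^ 3 + a₄ * x₁) (y1 : y₁ ≠ 0) (y2 : y₂ ≠ 0)
    (b1 : w (-x₁ / y₁) ≤ m) (b2 : w (-x₂ / y₂) ≤ m)
    (wα : w α ≤ m ^ 2) (wβ : w β ≤ m ^ 2) (l1 : β * y₁ = α * x₁ - 1) (l2 : β * y₂ = α * x₂ - 1)
    (l3 : α * (y₁ + y₂ + a₃) = β * (x₁ ^ 2 + x₁ * x₂ + x₂ ^ 2 + a₄)) (β0 : β ≠ 0)
    (hl : l = α / β) {x₃ y₃ : F} (hx : x₃ = l ^ 2 - x₁ - x₂) (hy : y₃ = l * (x₃ - x₁) + y₁) :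
    y₃ ≠ 0 ∧ w (-1 / y₃) < 1 ∧ w (-x₃ / y₃) ≤ m ∧
      w (-x₁ / y₁ + -x₂ / y₂ + -x₃ / y₃) ≤ m ^ 2 := by
  have c1 : m ^ 2 ≤ m := by simpa using pw m1.le (show 1 ≤ 2 by norm_num)
  have c2 : m ^ 2 ≤ 1 := c1.trans m1.le
  have hU : w (1 + a₄ * (α * α)) = 1 :=
    w.map_one_add_of_lt ((ml w h4 (ml w (wα.trans c2) (wα.trans c1))).trans_lt m1)
  have hU0 : 1 + a₄ * (α * α) ≠ 0 := fun h => by simp [h] at hU
  obtain ⟨n, hn⟩ : ∃ n, n = -1 / β := ⟨_, rfl⟩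
  have hα : α = l * β := by rw [hl]; field_simp
  have hn' : n * β = -1 := by rw [hn]; field_simp
  have p1 : y₁ = l * x₁ + n := by
    apply mul_left_cancel₀ β0
    linear_combination l1 + x₁ * hα - hn'
  have p2 : y₂ = l * x₂ + n := by
    apply mul_left_cancel₀ β0
    linear_combination l2 + x₂ * hα - hn'
  have p3 : y₃ = l * x₃ + n := by linear_combination hy + p1
  have p4 : l * (y₁ + y₂ + a₃) = x₁ ^ 2 + x₁ * x₂ + x₂ ^ 2 + a₄ := by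
    apply mul_left_cancel₀ β0
    linear_combination l3 - (y₁ + y₂ + a₃) * hα
  have v1 : x₁ + x₂ + x₃ = l ^ 2 := by linear_combination hx
  have v2 : x₁ * x₂ + x₁ * x₃ + x₂ * x₃ = a₄ - 2 * l * n - a₃ * l := by
    linear_combination (x₁ + x₂) * hx + p4 - l * p1 - l * p2
  have v3 : x₁ * x₂ * x₃ = n ^ 2 + a₃ * n := by
    rw [p1] at e₁
    linear_combination x₁ * v2 - x₁ ^ 2 * v1 - e₁
  have v4 : y₁ * y₂ * y₃ = n * (n ^ 2 + a₄ * l ^ 2) := by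
    rw [p1, p2, p3]
    linear_combination l ^ 3 * v3 + l ^ 2 * n * v2 + l * n ^ 2 * v1
  have v5 : x₁ * y₂ * y₃ + x₂ * y₁ * y₃ + x₃ * y₁ * y₂ = n * (l * (a₃ * l + 2 * a₄)) := by
    rw [p1, p2, p3]
    linear_combination 3 * l ^ 2 * v3 + 2 * l * n * v2 + n ^ 2 * v1
  have v6 : y₁ * y₂ * y₃ * β ^ 3 = -(1 + a₄ * (α * α)) := by
    rw [v4, hα]
    linear_combination ((n * β) ^ 2 - n * β + 1 + a₄ * (l * β) ^ 2) * hn'
  have v7 : (x₁ * y₂ * y₃ + x₂ * y₁ * y₃ + x₃ * y₁ * y₂) * β ^ 3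
      = -(α * (a₃ * α + 2 * (a₄ * β))) := by
    rw [v5, hα]
    linear_combination (l * β * (a₃ * (l * β) + 2 * (a₄ * β))) * hn'
  have y3 : y₃ ≠ 0 := by
    intro h
    apply hU0
    rw [h] at v6
    linear_combination v6
  have v8 : -x₁ / y₁ + -x₂ / y₂ + -x₃ / y₃
      = -(α * (a₃ * α + 2 * (a₄ * β))) / (1 + a₄ * (α * α)) := by
    rw [eq_div_iff hU0, ← v7, show 1 + a₄ * (α * α) = -(y₁ * y₂ * y₃ * β ^ 3) by rw [v6, neg_neg]]
    field_simp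
    ring
  have v9 : w (-x₁ / y₁ + -x₂ / y₂ + -x₃ / y₃) ≤ m ^ 2 := by
    rw [v8, map_div₀, hU, div_one, w.map_neg]
    exact ml w (wα.trans c2) (w.map_add_le (ml w h3 wα) (ml w h2 (ml w h4 wβ)))
  have t3 : w (-x₃ / y₃) ≤ m := by
    rw [show -x₃ / y₃ = (-x₁ / y₁ + -x₂ / y₂ + -x₃ / y₃) - -x₁ / y₁ - -x₂ / y₂ by ring]
    exact w.map_sub_le (w.map_sub_le (v9.trans c1) b1) b2
  refine ⟨y3, ?_, t3, v9⟩
  have e : -1 / y₃ = α * (-x₃ / y₃) + β := by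
    field_simp
    linear_combination -β * p3 + x₃ * hα - hn'
  rw [e]
  exact (w.map_add_le (ml w (wα.trans c2) t3) (wβ.trans c1)).trans_lt m1

end FGP

open FGP in
theorem p_fg : Z_FG := by
  intro F _ _ w a₃ a₄ h3 h4
  have h2 : w 2 ≤ 1 := by
    rw [show (2 : F) = 1 + 1 by norm_num]
    exact w.map_add_le (by simp) (by simp)
  have t0 : tt (0 : Pt a₃ a₄) = 0 := rfl
  have first : ∀ R : Pt a₃ a₄, E1 w R → w (tt R) < 1 ∧ (tt R = 0 → R = 0) ∧ E1 w (-R) ∧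
      w (tt (-R) + tt R) ≤ w (tt R) ^ 2 := by
    intro R hR
    rcases R with _ | ⟨x, y, h⟩
    · refine ⟨?_, fun _ => rfl, trivial, ?_⟩
      · simp [tt]
      · rw [← Point.zero_def, neg_zero, t0]
        simp
    · have hx : 1 < w x := hR
      obtain ⟨y0, t1, -⟩ := chart w h3 h4 (eqn h.1) hx
      refine ⟨t1, fun h0 => ?_, hx, ?_⟩
      · have h1 : -x / y = 0 := h0
        have : x = 0 := by simpa [y0] using h1
        rw [this] at hx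
        simp at hx
      · have := negt w h3 h4 (eqn h.1) hx
        rw [Point.neg_some]
        simpa [tt, negY, Wc] using this
  refine ⟨first, fun R R' hR hR' => ?_⟩
  rcases R with _ | ⟨x₁, y₁, h₁⟩
  · rw [← Point.zero_def, zero_add, t0]
    exact ⟨hR', by simp⟩
  rcases R' with _ | ⟨x₂, y₂, h₂⟩
  · rw [← Point.zero_def, add_zero, t0]
    exact ⟨hR, by simp⟩
  have hx₁ : 1 < w x₁ := hR
  have hx₂ : 1 < w x₂ := hR'
  by_cases hxy : x₁ = x₂ ∧ y₁ = (Wc a₃ a₄).negY x₂ y₂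
  · rw [Point.add_of_Y_eq hxy.1 hxy.2, t0]
    refine ⟨trivial, ?_⟩
    have := negt w h3 h4 (eqn h₂.1) hx₂
    obtain ⟨rfl, rfl⟩ := hxy
    rw [zero_sub, ← neg_add', w.map_neg]
    refine le_trans ?_ (pow_le_pow_left' (le_max_right _ _) 2)
    simpa [tt, negY, Wc] using this
  have hy : x₁ = x₂ → y₁ = y₂ := fun hx =>
    Y_eq_of_Y_ne h₁.1 h₂.1 hx fun h => hxy ⟨hx, h⟩
  obtain ⟨α, β, wα, wβ, l1, l2, l3⟩ := line w h3 h4 (eqn h₁.1) (eqn h₂.1) hx₁ hx₂ hy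
  obtain ⟨y1, t1, -⟩ := chart w h3 h4 (eqn h₁.1) hx₁
  obtain ⟨y2, t2, -⟩ := chart w h3 h4 (eqn h₂.1) hx₂
  have key : β ≠ 0 ∧ (Wc a₃ a₄).slope x₁ x₂ y₁ y₂ = α / β := by
    by_cases hx : x₁ = x₂
    · have hy' := hy hx
      have hne : y₁ ≠ (Wc a₃ a₄).negY x₂ y₂ := fun h => hxy ⟨hx, h⟩
      rw [slope_of_Y_ne hx hne]
      subst hx hy'
      have h0 : y₁ - (Wc a₃ a₄).negY x₁ y₁ ≠ 0 := sub_ne_zero.2 hne
      have h1 : y₁ - (Wc a₃ a₄).negY x₁ y₁ = y₁ + y₁ + a₃ := by simp only [negY, Wc]; ring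
      rw [h1] at h0 ⊢
      have β0 : β ≠ 0 := by
        intro h
        rw [h, zero_mul] at l1 l3
        have : α = 0 := (mul_eq_zero.1 l3).resolve_right h0
        rw [this] at l1
        simp at l1
      refine ⟨β0, ?_⟩
      rw [div_eq_div_iff h0 β0]
      simp only [Wc]
      linear_combination -l3
    · rw [slope_of_X_ne hx]
      have h0 : x₁ - x₂ ≠ 0 := sub_ne_zero.2 hx
      have β0 : β ≠ 0 := by
        intro h
        rw [h, zero_mul] at l1 l2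
        have h1 : α * (x₁ - x₂) = 0 := by linear_combination l2 - l1
        have : α = 0 := (mul_eq_zero.1 h1).resolve_right h0
        rw [this] at l1
        simp at l1
      refine ⟨β0, ?_⟩
      rw [div_eq_div_iff h0 β0]
      linear_combination l1 - l2
  have hn := nonsingular_negAdd h₁ h₂ hxy
  obtain ⟨y3, s3, t3, v⟩ := third w h3 h4 (max_lt t1 t2) h2 (eqn h₁.1) y1 y2 (le_max_left _ _)
    (le_max_right _ _) wα wβ l1 l2 l3 key.1 key.2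
    (x₃ := (Wc a₃ a₄).addX x₁ x₂ ((Wc a₃ a₄).slope x₁ x₂ y₁ y₂))
    (y₃ := (Wc a₃ a₄).negAddY x₁ x₂ y₁ ((Wc a₃ a₄).slope x₁ x₂ y₁ y₂))
    (by simp only [addX, Wc]; ring) rfl
  have hx₃ := back w h3 h4 (eqn hn.1) y3 s3
  have hs : (Point.some x₁ y₁ h₁ : Pt a₃ a₄) + .some x₂ y₂ h₂ = -.some _ _ hn := by
    rw [Point.add_some hxy, Point.neg_some]
    rfl
  obtain ⟨-, -, f1, f2⟩ := first (.some _ _ hn) hx₃
  rw [hs]
  refine ⟨f1, ?_⟩
  rw [show tt (-(Point.some _ _ hn : Pt a₃ a₄)) - tt (Point.some x₁ y₁ h₁ : Pt a₃ a₄) -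
      tt (Point.some x₂ y₂ h₂ : Pt a₃ a₄) =
      (tt (-(Point.some _ _ hn : Pt a₃ a₄)) + tt (Point.some _ _ hn : Pt a₃ a₄)) -
        (tt (Point.some x₁ y₁ h₁ : Pt a₃ a₄) + tt (Point.some x₂ y₂ h₂ : Pt a₃ a₄) +
          tt (Point.some _ _ hn : Pt a₃ a₄)) by ring]
  exact w.map_sub_le (f2.trans (pow_le_pow_left' t3 2)) v

end Pool.Agent.P.MP_e4219a_lc
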