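import Pool.Agent.P.MP_e4219a_lc.IF0
import Pool.Agent.P.MP_b8021b_nt.VC.DHA
import Pool.Agent.P.MP_b8021b_nt.VC.DH1
import Pool.Agent.P.MP_b8021b_nt.VC.DH1A
import Pool.Agent.P.MP_b8021b_nt.VC.DHNP

/-! The first inequality. -/

namespace Pool.Agent.P.MP_e4219a_lc

open NumberField Finset
open Pool.Agent.P.MP_b8021b_nt Pool.Agent.P.MP_b8021b_nt.VE Pool.Agent.P.MP_b8021b_nt.VC
open Cy FractionalIdeal
open scoped Classical Pointwise nonZeroDivisors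

namespace FIP

open DHA Subgroup in
theorem idx {E A D : Type} [CommGroup E] [CommGroup A] [CommGroup D] {e : ℕ} {σE : E →* E}
    {σ : A →* A} {σD : D →* D} {ι : E →* A} {dv : A →* D} {U₁ : Subgroup A} {J : Subgroup D}
    (h : Dat e σE σ σD ι dv) (a0 : h0 σE e ≠ 0) (a1 : h1 σE e ≠ 0) (a2 : e * h0 σE e ≤ h1 σE e)
    (hJ : J ≤ fx σD) (hU1 : U₁ ≤ fx σ ⊓ J.comap dv)
    (i1 : (J ⊔ (fx σ).map dv).relIndex (fx σD) ≤ U₁.relIndex (fx σ ⊓ J.comap dv))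
    (hN : fx σ ⊓ J.comap dv ⊓ (nm σ e).range ≤ U₁) :
    (U₁.map dv ⊔ (nm σD e).range).relIndex J ≠ 0 ∧
      e ≤ (U₁.map dv ⊔ (nm σD e).range).relIndex J := by
  obtain ⟨m1, m2, m3⟩ := h.main a0 a1 a2
  set PF := (fx σ).map dv with hPF
  set R := (nm σD e).range with hR
  set A1 := fx σ ⊓ R.comap dv with hA1
  set U := fx σ ⊓ J.comap dv with hU
  have hPF1 : PF ≤ fx σD := by
    rintro _ ⟨a, ha, rfl⟩
    exact (h.ed a).symm.trans (congrArg dv ha)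
  have hR1 : R ≤ fx σD := by
    rintro _ ⟨a, rfl⟩
    exact nm_fx h.oD a
  have c1 := mono m1 (H' := J ⊔ PF) (inf_le_left.trans le_sup_right) le_rfl
  have u0 : U₁.relIndex U ≠ 0 := by omega
  have c2 := mono m1 (H' := U.map dv) (K' := J) (by
    rintro _ ⟨⟨a, ha, rfl⟩, hb⟩
    exact ⟨a, ⟨ha, hb⟩, rfl⟩) hJ
  have c3 := mono u0 (H' := (U₁.map dv).comap dv) (inf_le_left.trans (le_comap_map _ _)) le_rfl
  rw [relIndex_comap] at c3
  have c4 := mono (relIndex_ne_zero_trans c3.1 c2.1) (H' := U₁.map dv ⊔ R)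
    (inf_le_left.trans le_sup_left) le_rfl
  have c5 := relIndex_inf_mul_relIndex (U₁.map dv ⊔ R) (U.map dv ⊔ R) J
  rw [inf_of_le_left (sup_le_sup_right (map_mono hU1) R)] at c5
  have c6 := mono (left_ne_zero_of_mul (c5 ▸ c4.1)) (H' := U₁.map dv ⊔ R) (K' := U.map dv)
    inf_le_left (le_inf le_sup_left (map_le_iff_le_comap.2 inf_le_right))
  rw [← relIndex_comap] at c6
  have c7 := mono c6.1 (H' := U₁ ⊔ A1 ⊓ U) (K' := U) (by
    rintro u ⟨hu, hu'⟩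
    obtain ⟨_, ⟨v, hv, rfl⟩, r, hr, hvr⟩ := mem_sup.1 hu
    have : u = v * (u / v) := by rw [mul_div_cancel]
    rw [this]
    have h2 := U.div_mem hu' (hU1 hv)
    refine mul_mem_sup hv ⟨⟨h2.1, mem_comap.2 ?_⟩, h2⟩
    rw [map_div, ← hvr, mul_div_cancel_left]
    exact hr) le_rfl
  have c8 := relIndex_mul_relIndex U₁ (U₁ ⊔ A1 ⊓ U) U le_sup_left (sup_le hU1 inf_le_right)
  rw [relIndex_sup_left] at c8
  have d1 := relIndex_mul_relIndex (PF ⊔ R) (PF ⊔ R ⊔ J) (fx σD) le_sup_left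
    (sup_le (sup_le hPF1 hR1) hJ)
  rw [relIndex_sup_left] at d1
  have d2 := mono (right_ne_zero_of_mul (c5 ▸ c4.1)) (H' := PF ⊔ R)
    (inf_le_left.trans (sup_le_sup_right (map_mono inf_le_left) R)) le_rfl
  have d3 := mono c1.1 (H' := PF ⊔ R ⊔ J) (inf_le_left.trans
    (sup_le le_sup_right (le_sup_left.trans le_sup_left))) le_rfl
  have d5 := mono m2 (H' := U₁) (K' := A1 ⊓ U) (fun x hx => hN ⟨hx.2.2, hx.1⟩) inf_le_left
  refine ⟨c4.1, Nat.le_of_mul_le_mul_left (m3.trans ?_) (Nat.pos_of_ne_zero m2)⟩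
  calc (PF ⊔ R).relIndex (fx σD) ≤ (U.map dv ⊔ R).relIndex J * U₁.relIndex U := by
        rw [← d1]
        exact Nat.mul_le_mul d2.2 (d3.2.trans i1)
    _ ≤ U₁.relIndex (A1 ⊓ U) * (U₁.map dv ⊔ R).relIndex J := by
        rw [← c8, ← c5, mul_comm, mul_assoc]
        gcongr
        exact c7.2.trans c6.2
    _ ≤ _ := Nat.mul_le_mul_right _ d5.2

end FIP

open HNP in
theorem p_fi (h : T1) (hU : Z_U1w) : Z_FI := by
  intro F K _ _ _ _ _ _ n hF hℓ hn hR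
  obtain ⟨k, _, _, _, B, hk⟩ := exists_bf
  obtain ⟨f⟩ := hk F hF
  let _ : Algebra k F := f.toAlgebra
  have he := hℓ.prime
  have hNG := h.i.ng
  have hc := IsGalois.card_aut_eq_finrank F K
  have : Fact (Module.finrank F K).Prime := ⟨he⟩
  obtain ⟨σ, hσ⟩ := (isCyclic_of_prime_card hc).exists_generator
  have ho : orderOf σ = Module.finrank F K := (orderOf_eq_card_of_forall_mem_zpowers hσ).trans hc
  have hp : σ ^ Module.finrank F K = 1 := ho ▸ pow_orderOf_eq_one σ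
  have hσ1 : σ ≠ 1 := fun e => he.one_lt.ne' (by rw [← ho, e, orderOf_one])
  have h0 : Ideal.span {(n : 𝓞 K)} ≠ ⊥ := by
    rw [Ne, Ideal.span_singleton_eq_bot]; exact Nat.cast_ne_zero.2 (by omega)
  let S := (UniqueFactorizationMonoid.normalizedFactors (Ideal.span {(n : 𝓞 K)})).toFinset.filter
    fun 𝔓 => 𝔓.IsMaximal ∧ RamP F 𝔓
  have hS : ∀ 𝔓, 𝔓.IsMaximal → RamP F 𝔓 → 𝔓 ∈ S := fun 𝔓 h1 h2 =>
    mem_filter.2 ⟨Multiset.mem_toFinset.2 ((Ideal.mem_normalizedFactors_iff h0).2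
      ⟨h1.isPrime, (Ideal.span_singleton_le_iff_mem _).2 (hR 𝔓 h1 h2)⟩), h1, h2⟩
  obtain ⟨j, U₁, hj, hle, hidx, hloc⟩ := hU F K n S (U F n) hℓ (by omega) (fun 𝔓 h𝔓 =>
    have := (mem_filter.1 h𝔓).2
    ⟨this.1, this.2, hR 𝔓 this.1 this.2⟩) fun _ => Iff.rfl
  obtain ⟨e0, e1, e2⟩ := d_h1 d_h1A k B F K σ he hσ1
  obtain ⟨i0, i1⟩ := FIP.idx (U₁ := U₁.map (ιF F K)) (J := J F K n)
    ⟨uσ_iter hp, σA_iter hp, σD_iter hp, ιE_inj, ιE_range, fun _ => rfl, dv_σ σ, h90 hσ, dv_index⟩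
    e0 e1 e2 (J_le hn σ) (by rw [UJ hσ]; exact Subgroup.map_mono hle)
    (by
      rw [UJ hσ, Subgroup.relIndex_map_map_of_injective _ _ ιF_inj]
      exact (amb hNG hσ he hn S hS).trans hidx)
    (by
      rw [UJ hσ]
      rintro _ ⟨⟨γ, hγ, rfl⟩, δ, hδ⟩
      refine ⟨γ, hloc γ hγ fun v _ => ⟨δ, ?_⟩, rfl⟩
      have : Algebra.norm F (δ : K) = γ := (algebraMap F K).injective (by
        rw [← coe_nmA hσ, hδ, coe_ιF])
      rw [this, div_self γ.ne_zero, sub_self, map_zero]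
      exact zero_le)
  set W := (U₁.map (ιF F K)).map (dv K) ⊔ (nm (σD σ) (Module.finrank F K)).range
  have : Finite (J F K n ⧸ W.subgroupOf (J F K n)) := Nat.finite_of_card_ne_zero i0
  have hcd := card_dual (J F K n ⧸ W.subgroupOf (J F K n))
  have : Nontrivial (J F K n ⧸ W.subgroupOf (J F K n) →* ℂˣ) := by
    have : Finite (J F K n ⧸ W.subgroupOf (J F K n) →* ℂˣ) := Nat.finite_of_card_ne_zero (hcd ▸ i0)
    exact Finite.one_lt_card_iff_nontrivial.1 (hcd ▸ he.one_lt.trans_le i1)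
  obtain ⟨θ, hθ⟩ := exists_ne (1 : J F K n ⧸ W.subgroupOf (J F K n) →* ℂˣ)
  have hch : ∀ θ : J F K n ⧸ W.subgroupOf (J F K n) →* ℂˣ,
      IsChar n (xi hn (θ.comp (QuotientGroup.mk' _))) := fun θ => ⟨fun I h => by
    refine Complex.norm_eq_one_of_pow_eq_one (n := W.relIndex (J F K n)) ?_ i0
    rw [xi_cop hn _ h, MonoidHom.comp_apply, ← Units.val_pow_eq_pow_val,
      ← map_pow, Subgroup.relIndex, Subgroup.index, pow_card_eq_one', map_one, Units.val_one],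
    fun I h => dif_neg h⟩
  have h3 : ∀ {𝔞} (h : Cop n 𝔞), (cl K hn h).1 ∈ W → xi hn (θ.comp (QuotientGroup.mk' _)) 𝔞 = 1 :=
    fun h hW => by
      rw [xi_cop hn _ h, MonoidHom.comp_apply, QuotientGroup.mk'_apply,
        (QuotientGroup.eq_one_iff _).2 (Subgroup.mem_subgroupOf.2 hW), map_one, Units.val_one]
  have hne : ∀ {a : 𝓞 F}, IsCoprime a n → (a : F) ≠ 0 := fun h e =>
    Cop_ne_bot hn ((Ideal.isCoprime_span_singleton_iff _ _).2 h)
      (Ideal.span_singleton_eq_bot.2 (RingOfIntegers.coe_eq_zero_iff.1 e))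
  have key : ∀ α β : 𝓞 F, IsCoprime α n → IsCoprime β n →
      (∀ (v : Pl F) (𝔓 : Ideal (𝓞 K)), 𝔓.IsMaximal → RamP F 𝔓 → Und v 𝔓 → ∃ δ : K,
        vl v (α / β / Algebra.norm F δ - 1) ≤ WithZero.exp (-(j : ℤ))) →
      xi hn (θ.comp (QuotientGroup.mk' _)) (Ideal.span {α}) =
        xi hn (θ.comp (QuotientGroup.mk' _)) (Ideal.span {β}) := fun α β ha hb hl => by
    have ca : Cop n (Ideal.span {α}) := (Ideal.isCoprime_span_singleton_iff _ _).2 ha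
    have cb : Cop n (Ideal.span {β}) := (Ideal.isCoprime_span_singleton_iff _ _).2 hb
    have h1 : Units.mk0 _ (div_ne_zero (hne ha) (hne hb)) ∈ U₁ :=
      hloc _ ⟨α, β, ha, hb, div_mul_cancel₀ _ (hne hb)⟩ fun v ⟨𝔓, h𝔓, hv⟩ =>
        hl v 𝔓 (mem_filter.1 h𝔓).2.1 (mem_filter.1 h𝔓).2.2 hv
    have h2 : cl K hn ca / cl K hn cb ∈ W.subgroupOf (J F K n) := by
      refine Subgroup.mem_subgroupOf.2 (Subgroup.mem_sup_left ⟨_, ⟨_, h1, rfl⟩, ?_⟩)
      rw [Subgroup.coe_div, eq_div_iff_mul_eq']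
      refine Units.ext ?_
      change _ * HNP.ex K _ = HNP.ex K _
      rw [coe_toPrincipalIdeal, coe_ιF, ex_span, ex_span, spanSingleton_mul_spanSingleton, ← map_mul,
        Units.val_mk0, div_mul_cancel₀ _ (hne hb)]
    rw [xi_cop hn _ ca, xi_cop hn _ cb, MonoidHom.comp_apply, MonoidHom.comp_apply,
      QuotientGroup.mk'_apply, QuotientGroup.mk'_apply, QuotientGroup.eq_iff_div_mem.2 h2]
  refine ⟨j, xi hn (θ.comp (QuotientGroup.mk' _)), hj, ⟨⟨fun I c => (hch θ).norm_cop I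
    ((cop_pow_nat hj).1 c), fun I c => (hch θ).zero I fun c' => c ((cop_pow_nat hj).2 c')⟩,
    fun α hα => ?_⟩, fun ht => hθ ?_, fun I c => ?_, key⟩
  · have h1 : (n : 𝓞 F) ∣ α - 1 := (Nat.cast_dvd_cast (dvd_pow_self n (by omega))).trans hα
    rw [key α 1 ((Ideal.isCoprime_span_singleton_iff _ _).1 (cop_span_of_dvd h1))
      isCoprime_one_left fun v 𝔓 a b c => ⟨1, ?_⟩, Ideal.span_singleton_one, ← Ideal.one_eq_top,
      map_one]
    have hv : Dv n v := by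
      rw [Dv, c, Ideal.mem_comap, map_natCast]
      exact hR 𝔓 a b
    have h2 : α - 1 ∈ v.asIdeal ^ j := by
      obtain ⟨z, hz⟩ := hα
      rw [hz, Nat.cast_pow]
      exact Ideal.mul_mem_right _ _ (Ideal.pow_mem_pow hv j)
    simpa using (vl_coe_le_exp v _ j).2 h2
  · refine QuotientGroup.monoidHom_ext _ (xi_inj hn (char_ext (hch θ) (hch 1) fun I c => ?_))
    rw [ht I ((cop_pow_nat hj).2 c), xi_cop hn _ c]
    rfl
  · have c' := (cop_pow_nat hj).1 c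
    have : PerfectField (FractionRing (𝓞 F)) := inferInstance
    have h4 : Cop n (Ideal.relNorm (𝓞 F) I) := by
      rwa [cop_iff_coprime, Ideal.absNorm_relNorm, ← cop_iff_coprime]
    exact h3 h4 (Subgroup.mem_sup_right ⟨mkU I,
      Units.ext (coe_nmD hNG hσ (coe_mkU (Cop_ne_bot hn c')))⟩)

end Pool.Agent.P.MP_e4219a_lc
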