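import Pool.Agent.P.MP_e4219a_lc.Bund

/-! A fixed multiple of every point is close to the origin at the places over `ℓ`. -/

namespace Pool.Agent.P.MP_e4219a_lc

open NumberField IsDedekindDomain Finset WithZero
open scoped Classical

namespace FinP

section Gen

variable {F : Type} [Field F] {a₃ a₄ : F}

theorem eqn {x y : F} (h : (Wc a₃ a₄).Nonsingular x y) : y ^ 2 + a₃ * y = x ^ 3 + a₄ * x := by
  have := (WeierstrassCurve.Affine.equation_iff x y).1 h.1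
  simp only [Wc] at this
  linear_combination this

theorem negY_eq (x y : F) : (Wc a₃ a₄).negY x y = -y - a₃ := by
  simp [WeierstrassCurve.Affine.negY, Wc]

theorem slope_id {x₁ x₂ y₁ y₂ : F} (h₁ : (Wc a₃ a₄).Nonsingular x₁ y₁)
    (h₂ : (Wc a₃ a₄).Nonsingular x₂ y₂) (hxy : ¬(x₁ = x₂ ∧ y₁ = (Wc a₃ a₄).negY x₂ y₂)) :
    (Wc a₃ a₄).slope x₁ x₂ y₁ y₂ * (x₁ - x₂) = y₁ - y₂ ∧
      (Wc a₃ a₄).slope x₁ x₂ y₁ y₂ * (y₁ + y₂ + a₃) = x₁ ^ 2 + x₁ * x₂ + x₂ ^ 2 + a₄ := by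
  by_cases hx : x₁ = x₂
  · have hy : y₁ ≠ (Wc a₃ a₄).negY x₂ y₂ := fun e => hxy ⟨hx, e⟩
    have hy' : y₁ = y₂ := WeierstrassCurve.Affine.Y_eq_of_Y_ne h₁.1 h₂.1 hx hy
    rw [WeierstrassCurve.Affine.slope_of_Y_ne hx hy]
    subst hx hy'
    rw [negY_eq] at hy ⊢
    have h0 : y₁ - (-y₁ - a₃) ≠ 0 := sub_ne_zero.2 hy
    refine ⟨by simp, ?_⟩
    rw [div_mul_eq_mul_div, div_eq_iff h0]
    simp only [Wc]
    ring
  · rw [WeierstrassCurve.Affine.slope_of_X_ne hx]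
    have h0 : x₁ - x₂ ≠ 0 := sub_ne_zero.2 hx
    refine ⟨div_mul_cancel₀ _ h0, ?_⟩
    rw [div_mul_eq_mul_div, div_eq_iff h0]
    linear_combination eqn h₁ - eqn h₂

variable (w : Valuation F (WithZero (Multiplicative ℤ)))

theorem mul_le {x y : F} {γ : WithZero (Multiplicative ℤ)} (hx : w x ≤ 1) (hy : w y ≤ γ) :
    w (x * y) ≤ γ := by
  rw [map_mul]
  exact (mul_le_of_le_one_left' hx).trans hy

theorem y_int {x y : F} (h₃ : w a₃ ≤ 1) (h₄ : w a₄ ≤ 1) (h : (Wc a₃ a₄).Nonsingular x y)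
    (hx : w x ≤ 1) : w y ≤ 1 := by
  by_contra hy
  rw [not_le] at hy
  have e1 : w (y + a₃) = w y := w.map_add_eq_of_lt_left (h₃.trans_lt hy)
  have e2 : w (y * (y + a₃)) ≤ 1 := by
    rw [show y * (y + a₃) = x * (x * x) + a₄ * x by linear_combination eqn h]
    exact w.map_add_le (mul_le w hx (mul_le w hx hx)) (mul_le w h₄ hx)
  rw [map_mul, e1] at e2
  exact absurd e2 (not_le.2 (one_lt_mul'' hy hy))

/-- two points with integral coordinates that are nearly opposite have their sum in the kernel of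
reduction -/
theorem near_sum {γ : WithZero (Multiplicative ℤ)} (h2 : w 2 ≤ 1)
    (hD : ∀ x y : F, (Wc a₃ a₄).Nonsingular x y → w x ≤ 1 → w (3 * x ^ 2 + a₄) ≤ γ →
      w (2 * y + a₃) ≤ γ → False)
    {x₁ x₂ y₁ y₂ : F} (h₁ : (Wc a₃ a₄).Nonsingular x₁ y₁) (h₂ : (Wc a₃ a₄).Nonsingular x₂ y₂)
    (i₁ : w x₁ ≤ 1) (i₂ : w x₂ ≤ 1) (hx : w (x₁ - x₂) ≤ γ) (hy : w (y₁ + y₂ + a₃) ≤ γ) :
    E1 w (.some x₁ y₁ h₁ + .some x₂ y₂ h₂ : Pt a₃ a₄) := by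
  by_cases hxy : x₁ = x₂ ∧ y₁ = (Wc a₃ a₄).negY x₂ y₂
  · rw [WeierstrassCurve.Affine.Point.add_of_Y_eq hxy.1 hxy.2]
    trivial
  rw [WeierstrassCurve.Affine.Point.add_some hxy]
  obtain ⟨e1, e2⟩ := slope_id h₁ h₂ hxy
  change 1 < w ((Wc a₃ a₄).addX x₁ x₂ ((Wc a₃ a₄).slope x₁ x₂ y₁ y₂))
  generalize (Wc a₃ a₄).slope x₁ x₂ y₁ y₂ = l at e1 e2 ⊢
  have hl : 1 < w l := by
    by_contra hl
    rw [not_lt] at hl
    refine hD x₁ y₁ h₁ i₁ ?_ ?_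
    · rw [show 3 * x₁ ^ 2 + a₄ = l * (y₁ + y₂ + a₃) + (2 * x₁ + x₂) * (x₁ - x₂) by
        linear_combination -e2]
      exact w.map_add_le (mul_le w hl hy) (mul_le w (w.map_add_le (mul_le w h2 i₁) i₂) hx)
    · rw [show 2 * y₁ + a₃ = l * (x₁ - x₂) + (y₁ + y₂ + a₃) by linear_combination -e1]
      exact w.map_add_le (mul_le w hl hx) hy
  have h1 : 1 < w (l * l) := by
    rw [map_mul]
    exact one_lt_mul'' hl hl
  have h3 : w (-(x₁ + x₂)) < w (l * l) := by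
    rw [Valuation.map_neg]
    exact (w.map_add_le i₁ i₂).trans_lt h1
  rw [show (Wc a₃ a₄).addX x₁ x₂ l = l * l + -(x₁ + x₂) by
    simp only [WeierstrassCurve.Affine.addX, Wc]; ring, w.map_add_eq_of_lt_left h3]
  exact h1

end Gen

section Num

variable {L : Type} [Field L] [NumberField L] {ℓ : ℕ} {ζ : L} {a₃ a₄ : 𝓞 L} (v : Pl L)

theorem exists_exp {D : L} (hD : D ≠ 0) : ∃ k : ℕ, exp (-(k : ℤ)) < vl v D := by
  refine ⟨(od v D).toNat + 1, ?_⟩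
  rw [vl_eq v hD, exp_lt_exp]
  push_cast
  omega

theorem disc (hC : CM ℓ ζ (a₃ : L) a₄) : ∃ k : ℕ, ∀ x y : L,
    (Wc (a₃ : L) a₄).Nonsingular x y → vl v x ≤ 1 → vl v (3 * x ^ 2 + a₄) ≤ exp (-(k : ℤ)) →
      vl v (2 * y + a₃) ≤ exp (-(k : ℤ)) → False := by
  have hn : ∀ n : ℕ, vl v (n : L) ≤ 1 := vl_nat_le v
  have h3 := vl_coe_le v a₃
  have h4 := vl_coe_le v a₄
  have n2 : vl v (2 : L) ≤ 1 := by simpa using hn 2
  have n3 : vl v (3 : L) ≤ 1 := by simpa using hn 3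
  have n4 : vl v (4 : L) ≤ 1 := by simpa using hn 4
  have n18 : vl v (18 : L) ≤ 1 := by simpa using hn 18
  rcases hC with ⟨-, -, e, h0⟩ | ⟨-, -, e, h0⟩
  · obtain ⟨k, hk⟩ := exists_exp v (D := 8 * (a₄ : L) ^ 2)
      (mul_ne_zero (by norm_num) (pow_ne_zero 2 h0))
    refine ⟨k, fun x y h hx h1 h2 => absurd hk (not_lt.2 ?_)⟩
    have hy := y_int (vl v) h3 h4 h hx
    have he := eqn h
    rw [e] at he h2
    rw [show 8 * (a₄ : L) ^ 2 = 4 * (2 * a₄ + 3 * (x * x)) * (3 * x ^ 2 + a₄) -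
      18 * (x * y) * (2 * y + 0) by linear_combination (36 * x) * he]
    exact (vl v).map_sub_le (mul_le _ (mul_le _ n4 ((vl v).map_add_le (mul_le _ n2 h4)
      (mul_le _ n3 (mul_le _ hx hx)))) h1) (mul_le _ (mul_le _ n18 (mul_le _ hx hy)) h2)
  · obtain ⟨k, hk⟩ := exists_exp v (D := 3 * (a₃ : L) ^ 2)
      (mul_ne_zero (by norm_num) (pow_ne_zero 2 h0))
    refine ⟨k, fun x y h hx h1 h2 => absurd hk (not_lt.2 ?_)⟩
    have hy := y_int (vl v) h3 h4 h hx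
    have he := eqn h
    rw [e] at he h1
    rw [show 3 * (a₃ : L) ^ 2 = 3 * (2 * y + a₃) * (2 * y + a₃) - 4 * x * (3 * x ^ 2 + 0) by
      linear_combination (-12) * he]
    exact (vl v).map_sub_le (mul_le _ (mul_le _ n3 ((vl v).map_add_le (mul_le _ n2 hy) h3)) h2)
      (mul_le _ (mul_le _ n4 hx) h1)

/-- multiples of a point of the kernel of reduction -/
theorem mult (hF : Z_FG) {R : Pt (a₃ : L) a₄} (hR : E1 (vl v) R) (n : ℕ) :
    E1 (vl v) (n • R) ∧ vl v (tt (n • R) - n * tt R) ≤ vl v (tt R) ^ 2 := by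
  obtain ⟨h1, h2⟩ := hF L (vl v) a₃ a₄ (vl_coe_le v a₃) (vl_coe_le v a₄)
  induction n with
  | zero =>
    rw [zero_nsmul]
    exact ⟨trivial, by simp [show tt (0 : Pt (a₃ : L) a₄) = 0 from rfl]⟩
  | succ n ih =>
    rw [succ_nsmul]
    obtain ⟨h3, h4⟩ := h2 _ _ ih.1 hR
    refine ⟨h3, ?_⟩
    have h5 : vl v (tt R) ^ 2 ≤ vl v (tt R) := by
      rw [pow_two]
      exact mul_le_of_le_one_left' (h1 R hR).1.le
    have h6 : vl v (tt (n • R)) ≤ vl v (tt R) := by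
      rw [show tt (n • R) = (tt (n • R) - n * tt R) + n * tt R by ring]
      exact (vl v).map_add_le (ih.2.trans h5) (mul_le _ (vl_nat_le v n) le_rfl)
    rw [max_eq_right h6] at h4
    rw [show tt (n • R + R) - ((n + 1 : ℕ) : L) * tt R =
      (tt (n • R + R) - tt (n • R) - tt R) + (tt (n • R) - n * tt R) by push_cast; ring]
    exact (vl v).map_add_le h4 ih.2

theorem deeper (hF : Z_FG) (hv : Dv ℓ v) {R : Pt (a₃ : L) a₄} (hR : E1 (vl v) R) (k : ℕ) :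
    E1 (vl v) (ℓ ^ k • R) ∧ vl v (tt (ℓ ^ k • R)) ≤ exp (-(k : ℤ)) := by
  obtain ⟨h1, -⟩ := hF L (vl v) a₃ a₄ (vl_coe_le v a₃) (vl_coe_le v a₄)
  induction k with
  | zero => simpa using ⟨hR, (h1 R hR).1.le⟩
  | succ k ih =>
    rw [pow_succ', mul_nsmul']
    obtain ⟨h2, h3⟩ := mult v hF ih.1 ℓ
    refine ⟨h2, ?_⟩
    have h4 := (vl_lt_one_iff v).1 (h1 _ ih.1).1
    have h5 := (vl_lt_one_iff v).1 ((vl_nat_lt v).2 hv)
    have e : (exp (-((k + 1 : ℕ) : ℤ)) : WithZero (Multiplicative ℤ)) =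
        exp (-1) * exp (-(k : ℤ)) := by
      rw [← exp_add]
      congr 1
      push_cast
      ring
    rw [show tt (ℓ • ℓ ^ k • R) = (tt (ℓ • ℓ ^ k • R) - ℓ * tt (ℓ ^ k • R)) + ℓ * tt (ℓ ^ k • R) by
      ring, e]
    refine (vl v).map_add_le (h3.trans ?_) ?_
    · rw [pow_two]
      exact mul_le_mul' h4 ih.2
    · rw [map_mul]
      exact mul_le_mul' h5 ih.2

/-- the abscissa -/
def cx {F : Type} [Field F] {a₃ a₄ : F} : Pt a₃ a₄ → F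
  | .zero => 0
  | .some x _ _ => x

/-- the ordinate -/
def cy {F : Type} [Field F] {a₃ a₄ : F} : Pt a₃ a₄ → F
  | .zero => 0
  | .some _ y _ => y

theorem sub_near {k : ℕ} (hD : ∀ x y : L, (Wc (a₃ : L) a₄).Nonsingular x y → vl v x ≤ 1 →
      vl v (3 * x ^ 2 + a₄) ≤ exp (-(k : ℤ)) → vl v (2 * y + a₃) ≤ exp (-(k : ℤ)) → False)
    {P Q : Pt (a₃ : L) a₄} (hP : ¬ E1 (vl v) P) (hQ : ¬ E1 (vl v) Q)
    (hx : vl v (cx P - cx Q) ≤ exp (-(k : ℤ))) (hy : vl v (cy P - cy Q) ≤ exp (-(k : ℤ))) :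
    E1 (vl v) (P - Q) := by
  rcases P with _ | ⟨x₁, y₁, h₁⟩
  · exact absurd trivial hP
  rcases Q with _ | ⟨x₂, y₂, h₂⟩
  · exact absurd trivial hQ
  rw [sub_eq_add_neg, WeierstrassCurve.Affine.Point.neg_some]
  refine near_sum (vl v) (by simpa using vl_nat_le v 2) hD _ _ (not_lt.1 hP) (not_lt.1 hQ) hx ?_
  rw [negY_eq, show y₁ + (-y₂ - a₃) + a₃ = y₁ - y₂ by ring]
  exact hy

theorem coord_int {P : Pt (a₃ : L) a₄} (hP : ¬ E1 (vl v) P) :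
    vl v (cx P) ≤ 1 ∧ vl v (cy P) ≤ 1 := by
  rcases P with _ | ⟨x, y, h⟩
  · exact absurd trivial hP
  exact ⟨not_lt.1 hP, y_int (vl v) (vl_coe_le v a₃) (vl_coe_le v a₄) h (not_lt.1 hP)⟩

/-- a fixed multiple of every point lies in the kernel of reduction -/
theorem first (h : Z_WA) (hF : Z_FG) (hC : CM ℓ ζ (a₃ : L) a₄) :
    ∃ N : ℕ, 1 ≤ N ∧ ∀ R : Pt (a₃ : L) a₄, E1 (vl v) (N • R) := by
  obtain ⟨k, hD⟩ := disc v hC
  obtain ⟨Φ, hΦ⟩ := (h L).2.2.2.1 v k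
  choose! f hf1 hf2 using hΦ
  set M := (Φ ×ˢ Φ).card + 1 with hM
  refine ⟨M.factorial, M.factorial_pos, fun R => ?_⟩
  have key : ∃ j, 1 ≤ j ∧ j ≤ M ∧ E1 (vl v) (j • R) := by
    by_contra hn
    push Not at hn
    have hc : (Φ ×ˢ Φ).card < (Icc 1 M).card := by
      rw [Nat.card_Icc]
      omega
    obtain ⟨i, hi, j, hj, hij, e⟩ := exists_ne_map_eq_of_card_lt_of_maps_to hc
      (f := fun j : ℕ => (f (cx (j • R)), f (cy (j • R)))) fun j hj => by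
        have hj' := mem_Icc.1 (mem_coe.1 hj)
        have := coord_int v (hn j hj'.1 hj'.2)
        exact mem_coe.2 (mem_product.2 ⟨hf1 _ this.1, hf1 _ this.2⟩)
    wlog hlt : j < i generalizing i j
    · exact this j hj i hi hij.symm e.symm (by omega)
    rw [mem_Icc] at hi hj
    have ci := coord_int v (hn i hi.1 hi.2)
    have cj := coord_int v (hn j hj.1 hj.2)
    have e1 : f (cx (i • R)) = f (cx (j • R)) := congrArg Prod.fst e
    have e2 : f (cy (i • R)) = f (cy (j • R)) := congrArg Prod.snd e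
    have := sub_near v hD (hn i hi.1 hi.2) (hn j hj.1 hj.2) (by
      rw [show cx (i • R) - cx (j • R) = (cx (i • R) - f (cx (i • R))) -
        (cx (j • R) - f (cx (j • R))) by rw [e1]; ring]
      exact (vl v).map_sub_le (hf2 _ ci.1) (hf2 _ cj.1)) (by
      rw [show cy (i • R) - cy (j • R) = (cy (i • R) - f (cy (i • R))) -
        (cy (j • R) - f (cy (j • R))) by rw [e2]; ring]
      exact (vl v).map_sub_le (hf2 _ ci.2) (hf2 _ cj.2))
    rw [sub_eq_add_neg, ← sub_nsmul R hlt.le] at this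
    exact hn (i - j) (by omega) (by omega) this
  obtain ⟨j, h1, h2, h3⟩ := key
  obtain ⟨c, hc⟩ := Nat.dvd_factorial h1 h2
  rw [hc, mul_nsmul]
  exact (mult v hF h3 c).1

theorem second (h : Z_WA) (hF : Z_FG) (hC : CM ℓ ζ (a₃ : L) a₄) (hv : Dv ℓ v) :
    ∃ N : ℕ, 1 ≤ N ∧ ∀ R : Pt (a₃ : L) a₄,
      E1 (vl v) (N • R) ∧ vl v (tt (N • R)) ≤ vl v ℓ ^ 2 := by
  obtain ⟨N, hN, h1⟩ := first v h hF hC
  have hℓ := hC.ze.el.prime
  obtain ⟨k, hk⟩ := exists_exp v (D := (ℓ : L) ^ 2) (pow_ne_zero 2 (Nat.cast_ne_zero.2 hℓ.ne_zero))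
  refine ⟨N * ℓ ^ k, Nat.mul_pos hN (pow_pos hℓ.pos k), fun R => ?_⟩
  rw [mul_nsmul]
  obtain ⟨h2, h3⟩ := deeper v hF hv (h1 R) k
  exact ⟨h2, h3.trans (by simpa using hk.le)⟩

end Num

end FinP

theorem p_fin (h : T1) (_hI : Z_Iota) (hF : Z_FG) : Z_Fin := by
  intro L _ _ ℓ ζ a₃ a₄ hC
  have hℓ := hC.ze.el.prime
  choose! N hN1 hN2 using fun v : Pl L => FinP.second v h.wa hF hC
  have hfin := finite_dv L hℓ.ne_zero
  refine ⟨∏ v ∈ hfin.toFinset, N v, Nat.pos_of_ne_zero (prod_ne_zero_iff.2 fun v hv =>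
    Nat.ne_of_gt (hN1 v (hfin.mem_toFinset.1 hv))), fun R v hv => ?_⟩
  obtain ⟨c, hc⟩ := dvd_prod_of_mem N (hfin.mem_toFinset.2 hv)
  rw [hc, mul_nsmul']
  exact hN2 v hv _

end Pool.Agent.P.MP_e4219a_lc
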