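import Pool.Agent.P.MP_e4219a_lc.Bund

/-! The group theory of the descent. -/

namespace Pool.Agent.P.MP_e4219a_lc

theorem p_gen : Z_Gen := by
  intro F A _ _ ℓ ι α P T hℓ rel fix tor ker ne hom hι hk ind gen
  have l2 := hℓ.prime.two_le
  have l0 : ℓ ≠ 0 := by omega
  have nz : ∀ {x y z : F}, x ≠ 0 → x = y * z ^ ℓ → z ≠ 0 := by
    rintro x y z hx e rfl
    rw [zero_pow l0, mul_zero] at e
    exact hx e
  have mul : ∀ (S : A) (n : ℕ) (R : A), ∃ z, α R * α S ^ n = α (R + n • S) * z ^ ℓ := by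
    intro S n R
    induction n with
    | zero => exact ⟨1, by simp⟩
    | succ n ih =>
      obtain ⟨z, e⟩ := ih
      obtain ⟨w, e'⟩ := hom (R + n • S) S
      refine ⟨z * w, ?_⟩
      rw [succ_nsmul, ← add_assoc, pow_succ, mul_pow]
      linear_combination α S * e + z ^ ℓ * e'
  have two : ∀ (R : A) (i j : ℕ), ∃ z, z ≠ 0 ∧
      α R * α P ^ i * α T ^ j = α (R + i • P + j • T) * z ^ ℓ := by
    intro R i j
    obtain ⟨z, e⟩ := mul P i R
    obtain ⟨w, e'⟩ := mul T j (R + i • P)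
    have e2 : α R * α P ^ i * α T ^ j = α (R + i • P + j • T) * (z * w) ^ ℓ := by
      rw [mul_pow]
      linear_combination α T ^ j * e + z ^ ℓ * e'
    exact ⟨z * w, nz (mul_ne_zero (mul_ne_zero (ne _) (pow_ne_zero _ (ne _)))
      (pow_ne_zero _ (ne _))) e2, e2⟩
  have im : ∀ Q, ∃ z, α (Q - ι Q) = z ^ ℓ := by
    intro Q
    obtain ⟨z, e⟩ := hom (Q - ι Q) (ι Q)
    obtain ⟨w, e'⟩ := hι Q
    have w0 := nz (ne _) e'
    rw [sub_add_cancel, e'] at e
    refine ⟨z / w, ?_⟩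
    rw [div_pow, eq_div_iff (pow_ne_zero _ w0)]
    refine mul_left_cancel₀ (ne Q) ?_
    linear_combination e
  have key : ∀ (i j : ℕ) (Q : A), i • P + j • T = Q - ι Q → ℓ ∣ i ∧ ℓ ∣ j := by
    intro i j Q e
    obtain ⟨z, -, e1⟩ := two 0 i j
    obtain ⟨w, e2⟩ := im Q
    obtain ⟨u, e3⟩ := im 0
    rw [map_zero, sub_zero] at e3
    have u0 : u ≠ 0 := nz (ne 0) (e3.trans (one_mul _).symm)
    rw [zero_add, e, e2, e3] at e1
    refine ind i j ⟨w * z / u, ?_⟩
    rw [div_pow, eq_div_iff (pow_ne_zero _ u0), mul_pow]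
    linear_combination e1
  obtain ⟨π, hπ⟩ : ∃ π : A → A, ∀ Q, π Q = Q - ι Q := ⟨_, fun _ => rfl⟩
  have kerπ : ∀ R, π R = 0 → ∃ j : ℕ, R = j • T := fun R h =>
    ker R (sub_eq_zero.1 ((hπ R).symm.trans h)).symm
  have nil : ∀ i : ℕ, ¬ ℓ ∣ i → ∀ m, π^[m + 1] (i • P) ≠ 0 := by
    intro i hi m
    induction m with
    | zero =>
      intro h
      obtain ⟨j, e⟩ := kerπ _ h
      refine hi (key i ((ℓ - 1) * j) 0 ?_).1
      rw [e, ← add_nsmul, show j + (ℓ - 1) * j = ℓ * j by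
        obtain ⟨k, rfl⟩ := Nat.exists_eq_succ_of_ne_zero l0
        simp only [Nat.succ_sub_one, Nat.succ_mul, add_comm], mul_nsmul, tor, nsmul_zero, map_zero,
        sub_zero]
    | succ m ih =>
      intro h
      rw [Function.iterate_succ_apply'] at h
      obtain ⟨j, e⟩ := kerπ _ h
      obtain ⟨c, rfl⟩ := (key 0 j (π^[m] (i • P)) (by
        rw [zero_nsmul, zero_add, ← e, Function.iterate_succ_apply', hπ])).2
      exact ih (by rw [e, mul_nsmul, tor, nsmul_zero])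
  have sq : ∀ R, π (π R) = -ι (ℓ • R) := by
    intro R
    obtain ⟨k, rfl⟩ := Nat.exists_eq_add_of_le l2
    have := rel R
    rw [Nat.add_sub_cancel_left] at this
    rw [hπ, hπ, map_sub, map_nsmul, add_nsmul, two_nsmul, ← sub_eq_zero, ← this]
    abel
  have pw : ∀ (k : ℕ) (R : A), ℓ ^ k • R = 0 → π^[2 * k] R = 0 := by
    intro k
    induction k with
    | zero => exact fun R h => by simpa using h
    | succ k ih =>
      intro R h
      rw [Nat.mul_succ, Function.iterate_add_apply]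
      refine ih _ ?_
      change ℓ ^ k • π (π R) = 0
      rw [sq, smul_neg, ← map_nsmul, ← mul_nsmul, ← pow_succ', h, map_zero, neg_zero]
  refine ⟨rel, fix, tor, fun N hN h => ?_, fun R => ?_⟩
  · obtain ⟨k, N', hN', rfl⟩ := Nat.exists_eq_pow_mul_and_not_dvd (by omega : N ≠ 0) ℓ (by omega)
    refine nil N' hN' (2 * k) ?_
    rw [Function.iterate_succ_apply', pw k _ (by rw [← mul_nsmul, mul_comm, h]), hπ, map_zero,
      sub_zero]
  · obtain ⟨i, j, z, e⟩ := gen R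
    obtain ⟨w, w0, e'⟩ := two R i j
    obtain ⟨Q, hQ⟩ := hk (R + i • P + j • T) (z / w) (by
      rw [div_pow, eq_div_iff (pow_ne_zero _ w0), ← e', e])
    refine ⟨-j, -i, Q, ?_⟩
    rw [← hQ, neg_smul, neg_smul, natCast_zsmul, natCast_zsmul]
    abel

end Pool.Agent.P.MP_e4219a_lc
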