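import Pool.Agent.P.MP_e4219a_lc.Bund

/-! The norm theorem for the quadratic extension by the square root of `1 + 4 δ`. -/

namespace Pool.Agent.P.MP_e4219a_lc

open NumberField IsDedekindDomain
open Pool.Agent.P.MP_b8021b_nt Pool.Agent.P.MP_b8021b_nt.VE Pool.Agent.P.MP_b8021b_nt.VC

namespace HN2P

variable {F M : Type} [Field F] [NumberField F] [Field M] [NumberField M] [Algebra F M]

theorem nrm_map (h2 : Module.finrank F M = 2) (I : Ideal (𝓞 F)) :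
    Ideal.relNorm (𝓞 F) (I.map (algebraMap (𝓞 F) (𝓞 M))) = I ^ 2 := by
  rw [Ideal.relNorm_algebraMap, ← IsFractionRing.finrank_eq (𝓞 F) F (𝓞 M) M, h2]

/-- an ideal is a norm if each prime occurs to an even power or is a norm -/
theorem is_norm (h2 : Module.finrank F M = 2) (N : ℕ) : ∀ I : Ideal (𝓞 F), I ≠ ⊥ →
    Ideal.absNorm I = N → (∀ v : Pl F, 2 ∣ cnt v I ∨
      ∃ w : Pl M, Ideal.relNorm (𝓞 F) w.asIdeal = v.asIdeal) →
    ∃ C : Ideal (𝓞 M), Ideal.relNorm (𝓞 F) C = I := by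
  induction N using Nat.strong_induction_on with
  | _ N ih =>
    intro I hI hN h
    by_cases ht : I = ⊤
    · exact ⟨1, by rw [map_one, ht, Ideal.one_eq_top]⟩
    obtain ⟨P, hP, hle⟩ := Ideal.exists_le_maximal I ht
    have hP0 : P ≠ ⊥ := fun e => hI (le_bot_iff.1 (e ▸ hle))
    let v : Pl F := ⟨P, hP.isPrime, hP0⟩
    obtain ⟨J, hJ, hnd⟩ := (FiniteMultiplicity.of_prime_left v.prime hI).exists_eq_pow_mul_and_not_dvd
    have hk : cnt v I ≠ 0 := fun e => (cnt_eq_zero v).1 e hle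
    change I = v.asIdeal ^ cnt v I * J at hJ
    have hJ0 : J ≠ ⊥ := fun e => hI (by rw [hJ, e, Ideal.mul_bot])
    have hv1 : 1 < Ideal.absNorm v.asIdeal ^ cnt v I := by
      refine Nat.one_lt_pow hk ?_
      have a1 : Ideal.absNorm v.asIdeal ≠ 0 := fun e => hP0 (Ideal.absNorm_eq_zero_iff.1 e)
      have a2 : Ideal.absNorm v.asIdeal ≠ 1 := fun e => hP.ne_top (Ideal.absNorm_eq_one_iff.1 e)
      omega
    have hlt : Ideal.absNorm J < N := by
      have a1 : Ideal.absNorm J ≠ 0 := fun e => hJ0 (Ideal.absNorm_eq_zero_iff.1 e)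
      have a2 := congrArg Ideal.absNorm hJ
      rw [map_mul, map_pow, hN] at a2
      rw [a2]
      exact lt_mul_of_one_lt_left (Nat.pos_of_ne_zero a1) hv1
    obtain ⟨C, hC⟩ := ih _ hlt J hJ0 rfl fun u => by
      by_cases e : u = v
      · left
        rw [e, (cnt_eq_zero v).2 fun hh => hnd (Ideal.dvd_iff_le.2 hh)]
        exact dvd_zero 2
      · refine (h u).imp_left fun a => ?_
        rwa [hJ, cnt_mul u (pow_ne_zero _ v.ne_bot) hJ0, cnt_pow u v.ne_bot, cnt_ne u e, mul_zero,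
          zero_add] at a
    rcases h v with ⟨k, hk⟩ | ⟨w, hw⟩
    · refine ⟨v.asIdeal.map (algebraMap (𝓞 F) (𝓞 M)) ^ k * C, ?_⟩
      rw [map_mul, map_pow, nrm_map h2, hC, ← pow_mul, ← hk, ← hJ]
    · refine ⟨w.asIdeal ^ cnt v I * C, ?_⟩
      rw [map_mul, map_pow, hw, hC, ← hJ]

end HN2P

theorem p_hn2 (h : T2) : Z_HN2 := by
  intro F _ _ n δ c hF hn hb hb0 hc h1 hw
  by_cases hsq : ∃ z : F, (1 + 4 * δ : F) = z ^ 2
  · obtain ⟨z, hz⟩ := hsq
    rw [hz]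
    refine NV.split (Or.inl rfl) (fun e => hb0 ?_) c
    rw [hz, e, zero_pow two_ne_zero]
  obtain ⟨M, _, _, _, _, β, hK, hN⟩ := h.kum F 2 _ hF (Or.inl rfl) hsq
  have hKP := h.kp F M 2 _ β hF (Or.inl rfl) hK
  obtain ⟨α₀, β₀, ha, hβ, e⟩ := h1
  have hβ0 : (β₀ : F) ≠ 0 := (One.coe hβ).ne_zero hn
  have hα0 : (α₀ : F) ≠ 0 := (One.coe ha).ne_zero hn
  have hβ1 : β₀ ≠ 0 := fun e => hβ0 (by simp [e])
  have hα1 : α₀ ≠ 0 := fun e => hα0 (by simp [e])
  have hI : Ideal.span {α₀ * β₀} ≠ ⊥ := by simpa using ⟨hα1, hβ1⟩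
  obtain ⟨C, hC⟩ := HN2P.is_norm hK.fin _ (Ideal.span {α₀ * β₀}) hI rfl fun v => by
    rcases hw v with a | ⟨a, a'⟩
    · left
      have e1 := od_coe v (mul_ne_zero hα1 hβ1)
      have e2 : ((α₀ * β₀ : 𝓞 F) : F) = c * β₀ ^ 2 := by
        calc ((α₀ * β₀ : 𝓞 F) : F) = (α₀ : F) * β₀ := map_mul (algebraMap (𝓞 F) F) _ _
          _ = _ := by rw [← e]; ring
      rw [e2, od_mul v hc (pow_ne_zero _ hβ0), od_pow] at e1
      have : (2 : ℤ) ∣ (cnt v (Ideal.span {α₀ * β₀}) : ℤ) := by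
        rw [← e1]
        exact a.add (dvd_mul_right _ _)
      exact_mod_cast this
    · exact Or.inr ((hKP v).2.1 a a').1
  have hC0 : C ≠ ⊥ := fun e => hI (by rw [← hC, e, Ideal.relNorm_eq_bot_iff])
  have hB := HN2P.nrm_map hK.fin (Ideal.span {β₀})
  have hB0 : (Ideal.span {β₀}).map (algebraMap (𝓞 F) (𝓞 M)) ≠ ⊥ := fun e => by
    rw [e, Ideal.relNorm_eq_bot_iff.2 rfl] at hB
    exact pow_ne_zero 2 (by simpa using hβ1) hB.symm
  obtain ⟨d, hd⟩ := h.i.hnp F M hF n β₀ α₀ C _ (by rw [hK.fin]; exact Nat.prime_two) hn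
    (fun 𝔓 hP hR => by
      have hP0 : 𝔓 ≠ ⊥ := Ring.ne_bot_of_isMaximal_of_not_isField hP (RingOfIntegers.not_isField M)
      obtain ⟨v, -, -, hv, -⟩ := (h.ex F M).1 ⟨𝔓, hP.isPrime, hP0⟩
      have hv' : Und v 𝔓 := hv
      obtain ⟨k1, k2⟩ := (hKP v).1 𝔓 hP hR hv'
      have h2 : ¬ Dv 2 v := fun a => k2 ⟨rfl, a, by
        rw [add_sub_cancel_left, map_mul]
        exact mul_le_of_le_one_right' (vl_coe_le v δ)⟩
      have key : ∀ m : ℕ, Dv m v ↔ (m : 𝓞 M) ∈ 𝔓 := fun m => by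
        rw [Dv, hv', Ideal.mem_comap, map_natCast]
      refine ⟨(key n).1 (hb v ?_), by rw [hK.fin]; exact fun a => h2 ((key 2).2 a)⟩
      by_contra a
      have a1 := od_eq_zero_of_vl v ((vl_coe_eq v _).2 a)
      have a2 : ((1 + 4 * δ : 𝓞 F) : F) = 1 + 4 * δ := by push_cast; rfl
      rw [a2] at a1
      exact k1.resolve_left h2 (by rw [a1]; exact dvd_zero _))
    hβ ha hC0 hB0 (by
      rw [hC, hB, Ideal.span_singleton_pow, Ideal.span_singleton_mul_span_singleton,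
        Ideal.span_singleton_mul_span_singleton]
      congr 2
      ring)
  exact (hN c).2 ⟨d, mul_right_cancel₀ hβ0 (hd.trans e.symm)⟩

end Pool.Agent.P.MP_e4219a_lc
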