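import Pool.Agent.P.MP_e4219a_lc.Bund

/-! Roots and norms in the completion. -/

namespace Pool.Agent.P.MP_e4219a_lc

open NumberField IsDedekindDomain WithZero
open Pool.Agent.P.MP_b8021b_nt Pool.Agent.P.MP_b8021b_nt.VE Pool.Agent.P.MP_b8021b_nt.VC

namespace HenP

/-- a cubic equation in a complete ultrametric field -/
theorem cubic {F : Type} [NormedField F] [IsUltrametricDist F] [CompleteSpace F] {a b z : F}
    (ha : ‖a‖ ≤ 1) (hb : ‖b‖ ≤ 1) (hz : ‖z‖ < 1) :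
    ∃ y : F, ‖y‖ ≤ ‖z‖ ∧ y + a * y ^ 2 + b * y ^ 3 = z := by
  have hz0 := norm_nonneg z
  have mx : ∀ {u w : F} {c : ℝ}, ‖u‖ ≤ c → ‖w‖ ≤ c → ‖u + w‖ ≤ c := fun hu hw =>
    (IsUltrametricDist.norm_add_le_max _ _).trans (max_le hu hw)
  have ml : ∀ {u w : F} {c : ℝ}, ‖u‖ ≤ 1 → ‖w‖ ≤ c → ‖u * w‖ ≤ c := fun {u w c} hu hw => by
    rw [norm_mul]
    exact (mul_le_of_le_one_left (norm_nonneg w) hu).trans hw
  let f : F → F := fun y => z + -(a * (y * y) + b * (y * (y * y)))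
  let s : Set F := Metric.closedBall 0 ‖z‖
  have hs : ∀ y, y ∈ s ↔ ‖y‖ ≤ ‖z‖ := fun y => mem_closedBall_zero_iff
  have hsf : Set.MapsTo f s s := fun y hy => by
    have h1 := (hs y).1 hy
    have h2 : ‖y‖ ≤ 1 := h1.trans hz.le
    refine (hs _).2 (mx le_rfl ?_)
    rw [norm_neg]
    exact mx (ml ha (ml h2 h1)) (ml hb (ml h2 (ml h2 h1)))
  have hc : ContractingWith ‖z‖₊ (hsf.restrict f s s) := by
    refine ⟨by exact_mod_cast hz, LipschitzWith.of_dist_le_mul fun y w => ?_⟩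
    have h1 := (hs y).1 y.2
    have h2 : ‖(y : F)‖ ≤ 1 := h1.trans hz.le
    have h3 := (hs w).1 w.2
    have h4 : ‖(w : F)‖ ≤ 1 := h3.trans hz.le
    change dist (f y) (f w) ≤ ‖z‖ * dist (y : F) w
    rw [dist_eq_norm, dist_eq_norm, show f y - f w =
      -((a * (y + w) + b * (y * y + (y * w + w * w))) * (y - w)) by simp only [f]; ring,
      norm_neg, norm_mul]
    exact mul_le_mul_of_nonneg_right
      (mx (ml ha (mx h1 h3)) (ml hb (mx (ml h2 h1) (mx (ml h2 h3) (ml h4 h3))))) (norm_nonneg _)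
  obtain ⟨y, hy, hf, -⟩ := ContractingWith.exists_fixedPoint'
    (Metric.isClosed_closedBall.isComplete) hsf hc ((hs 0).2 (by simp)) (edist_ne_top _ _)
  refine ⟨y, (hs y).1 hy, ?_⟩
  have e : z + -(a * (y * y) + b * (y * (y * y))) = y := hf
  linear_combination -e

/-- roots of elements close to one -/
theorem root {F : Type} [NormedField F] [IsUltrametricDist F] [CompleteSpace F] {ℓ : ℕ}
    (hℓ : El ℓ) {x : F} (hx : ‖x - 1‖ < ‖(ℓ : F) ^ 2‖) :
    ∃ r : F, r ^ ℓ = x ∧ ‖(r - 1) * ℓ‖ ≤ ‖x - 1‖ := by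
  have hp : 0 < ‖(ℓ : F) ^ 2‖ := (norm_nonneg _).trans_lt hx
  have h0 : (ℓ : F) ^ 2 ≠ 0 := norm_pos_iff.1 hp
  have hz : ‖(x - 1) / (ℓ : F) ^ 2‖ < 1 := by
    rw [norm_div]
    exact (div_lt_one hp).2 hx
  have key : ∀ y : F, ‖y‖ ≤ ‖(x - 1) / (ℓ : F) ^ 2‖ → ‖(1 + ℓ * y - 1) * ℓ‖ ≤ ‖x - 1‖ :=
    fun y hy => by
      rw [norm_div, le_div_iff₀ hp, ← norm_mul] at hy
      rwa [show (1 + ℓ * y - 1) * ℓ = y * (ℓ : F) ^ 2 by ring]
  rcases hℓ with rfl | rfl
  · obtain ⟨y, hy, e⟩ := cubic (a := 1) (b := 0) (by simp) (by simp) hz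
    refine ⟨_, ?_, key y hy⟩
    rw [eq_div_iff h0] at e
    push_cast at e ⊢
    linear_combination e
  · have h3 : ‖((3 : ℕ) : F)‖ ≤ 1 := IsUltrametricDist.norm_natCast_le_one F 3
    obtain ⟨y, hy, e⟩ := cubic h3 h3 hz
    refine ⟨_, ?_, key y hy⟩
    rw [eq_div_iff h0] at e
    push_cast at e ⊢
    linear_combination e

variable {L : Type} [Field L] [NumberField L] (v : Pl L)

theorem val_map (y : L) : Valued.v (algebraMap L (v.adicCompletion L) y) = vl v y :=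
  HeightOneSpectrum.valuedAdicCompletion_eq_valuation' v y

theorem part1 {ℓ : ℕ} (hℓ : El ℓ) (x : v.adicCompletion L)
    (hx : Valued.v (x - 1) < Valued.v (ℓ : v.adicCompletion L) ^ 2) :
    ∃ r : v.adicCompletion L, r ^ ℓ = x ∧
      Valued.v (r - 1) * Valued.v (ℓ : v.adicCompletion L) ≤ Valued.v (x - 1) := by
  have : IsUltrametricDist (v.adicCompletion L) :=
    Valued.instIsUltrametricDist (v.adicCompletion L) (WithZero (Multiplicative ℤ))
  rw [← map_pow] at hx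
  obtain ⟨r, e, h⟩ := root hℓ (Valued.toNormedField.norm_lt_iff.2 hx)
  exact ⟨r, e, by rw [← map_mul]; exact Valued.toNormedField.norm_le_iff.1 h⟩

/-- approximation of a value of a continuous function -/
theorem approx {g : v.adicCompletion L × v.adicCompletion L × v.adicCompletion L →
    v.adicCompletion L} (hg : Continuous g) {c e : L} (hc : c ≠ 0) (he : e ≠ 0) {p}
    (hp : algebraMap L _ c = g p) : ∃ r s t : L,
      Valued.v (algebraMap L _ c / g (algebraMap L _ r, algebraMap L _ s, algebraMap L _ t) - 1) <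
        vl v e := by
  have hc' : g p ≠ 0 := hp ▸ (map_ne_zero _).2 hc
  have h1 : ContinuousAt (fun q => ‖algebraMap L (v.adicCompletion L) c / g q - 1‖) p :=
    ((continuousAt_const.div hg.continuousAt hc').sub continuousAt_const).norm
  have h2 : ∀ᶠ q in nhds p, ‖algebraMap L (v.adicCompletion L) c / g q - 1‖ <
      ‖algebraMap L (v.adicCompletion L) e‖ :=
    h1.eventually_lt_const (by simpa [hp, div_self hc'] using he)
  have hd := HeightOneSpectrum.denseRange_algebraMap L v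
  obtain ⟨q, hq⟩ := (hd.prodMap (hd.prodMap hd)).mem_nhds h2
  exact ⟨q.1, q.2.1, q.2.2, by rw [← val_map]; exact Valued.toNormedField.norm_lt_iff.1 hq⟩

theorem part2 {ℓ : ℕ} (hℓ : El ℓ) (y : L) :
    LP ℓ v y ↔ y ≠ 0 ∧ ∃ r : v.adicCompletion L, algebraMap L _ y = r ^ ℓ := by
  constructor
  · intro h
    refine ⟨h.ne_zero, ?_⟩
    obtain ⟨r, h⟩ := h
    have hr := (od_of_near v (h.trans_le (sq_le v ℓ))).2.1
    obtain ⟨ρ, e, -⟩ := part1 v hℓ (algebraMap L _ (y / r ^ ℓ)) (by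
      rw [← map_one (algebraMap L (v.adicCompletion L)), ← map_sub, val_map,
        ← map_natCast (algebraMap L (v.adicCompletion L)), val_map]
      exact h)
    refine ⟨ρ * algebraMap L _ r, ?_⟩
    rw [mul_pow, e, ← map_pow, ← map_mul, div_mul_cancel₀ _ hr]
  · rintro ⟨hy, r, e⟩
    obtain ⟨r', s', t', h⟩ := approx v (g := fun q => q.1 ^ ℓ) (by fun_prop) hy
      (pow_ne_zero 2 (Nat.cast_ne_zero.2 hℓ.prime.ne_zero : (ℓ : L) ≠ 0)) (p := (r, 0, 0)) e
    refine ⟨r', ?_⟩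
    rw [← map_pow, ← map_div₀, ← map_one (algebraMap L (v.adicCompletion L)), ← map_sub, val_map,
      map_pow] at h
    exact h

theorem part3 (ℓ : ℕ) (b c : L) (hc : c ≠ 0)
    (h : NV ℓ (algebraMap L (v.adicCompletion L) b) (algebraMap L (v.adicCompletion L) c)) :
    LN ℓ v b c := fun k => by
  obtain ⟨r, s, t, e⟩ := h
  obtain ⟨π, h0, h1⟩ := exists_od_one v
  obtain ⟨r', s', t', h⟩ := approx v
    (g := fun q => Nf ℓ (algebraMap L (v.adicCompletion L) b) q.1 q.2.1 q.2.2)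
    (by unfold Nf; split_ifs <;> fun_prop) hc (pow_ne_zero k h0) (p := (r, s, t)) e
  refine ⟨r', s', t', ?_⟩
  rw [← Nf_map, ← map_div₀, ← map_one (algebraMap L (v.adicCompletion L)), ← map_sub, val_map,
    vl_eq v (pow_ne_zero k h0), od_pow, h1, mul_one] at h
  exact h.le

end HenP

theorem p_hen : Z_Hen := fun _ _ _ ℓ v hℓ =>
  ⟨HenP.part1 v hℓ, HenP.part2 v hℓ, HenP.part3 v ℓ⟩

end Pool.Agent.P.MP_e4219a_lc
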