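import Pool.Agent.P.MP_e4219a_lc.Bund

/-! Lower bound for the sieve sum by a first moment. -/

namespace Pool.Agent.P.MP_e4219a_lc

open Finset

namespace HlowP

theorem mom (h f : ℕ → ℝ) (s : Finset ℕ) (hs : ∀ p ∈ s, 0 ≤ h p) :
    ∑ t ∈ s.powerset, (∏ p ∈ t, h p) * ∑ p ∈ t, f p =
      (∏ p ∈ s, (1 + h p)) * ∑ p ∈ s, h p / (1 + h p) * f p := by
  induction s using Finset.induction_on with
  | empty => simp
  | insert a s ha ih =>
    have h0 : 1 + h a ≠ 0 := by
      have := hs a (mem_insert_self _ _)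
      positivity
    have h1 : ∑ t ∈ s.powerset, (∏ p ∈ insert a t, h p) * ∑ p ∈ insert a t, f p =
        h a * f a * (∑ t ∈ s.powerset, ∏ p ∈ t, h p) +
          h a * ∑ t ∈ s.powerset, (∏ p ∈ t, h p) * ∑ p ∈ t, f p := by
      rw [mul_sum, mul_sum, ← sum_add_distrib]
      refine sum_congr rfl fun t ht => ?_
      have : a ∉ t := fun e => ha (mem_powerset.1 ht e)
      rw [prod_insert this, sum_insert this]
      ring
    rw [sum_powerset_insert ha, h1, ih fun p hp => hs p (mem_insert_of_mem hp), prod_insert ha,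
      sum_insert ha, ← prod_one_add]
    field_simp
    ring

end HlowP

theorem p_hlow : Z_Hlow := by
  intro s h R hs hR hl
  have hL := Real.log_pos hR
  have h0 : ∀ t ∈ s.powerset, 0 ≤ ∏ p ∈ t, h p := fun t ht =>
    prod_nonneg fun p hp => (hs p (mem_powerset.1 ht hp)).2
  have h1 := HlowP.mom h (fun p => Real.log p) s fun p hp => (hs p hp).2
  have h2 : 0 ≤ ∏ p ∈ s, (1 + h p) := prod_nonneg fun p hp => by linarith [(hs p hp).2]
  have h3 := sum_filter_add_sum_filter_not s.powerset (fun t => ((∏ p ∈ t, p : ℕ) : ℝ) ≤ R)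
    fun t => ∏ p ∈ t, h p
  rw [← prod_one_add] at h3
  have h4 : (∑ t ∈ s.powerset.filter fun t => ¬ ((∏ p ∈ t, p : ℕ) : ℝ) ≤ R, ∏ p ∈ t, h p) *
      Real.log R ≤ ∑ t ∈ s.powerset, (∏ p ∈ t, h p) * ∑ p ∈ t, Real.log p := by
    rw [sum_mul]
    refine (sum_le_sum fun t ht => ?_).trans (sum_le_sum_of_subset_of_nonneg (filter_subset _ _)
      fun t ht _ => mul_nonneg (h0 t ht) (sum_nonneg fun p _ => Real.log_natCast_nonneg p))
    obtain ⟨a1, a2⟩ := mem_filter.1 ht
    refine mul_le_mul_of_nonneg_left ?_ (h0 t a1)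
    rw [← Real.log_prod fun p hp => by
      have := (hs p (mem_powerset.1 a1 hp)).1
      positivity, ← Nat.cast_prod]
    exact Real.log_le_log (by linarith) (not_le.1 a2).le
  have h5 := mul_le_mul_of_nonneg_left hl h2
  have h6 : (∑ t ∈ s.powerset.filter fun t => ¬ ((∏ p ∈ t, p : ℕ) : ℝ) ≤ R, ∏ p ∈ t, h p) ≤
      (∏ p ∈ s, (1 + h p)) / 2 := le_of_mul_le_mul_right (by linarith) hL
  linarith

end Pool.Agent.P.MP_e4219a_lc
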