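import Pool.Agent.P.MP_e4219a_lc.Bund

/-! The descent map of `y ^ 2 = x ^ 3 + a x` is a homomorphism modulo squares. -/

namespace Pool.Agent.P.MP_e4219a_lc

open Polynomial WeierstrassCurve.Affine
open scoped Classical

namespace Hom2P

variable {F : Type} [Field F]

theorem alg {a x₁ x₂ x₃ n m : F} (ha : a ≠ 0) (h0 : x₁ * x₂ * x₃ = n ^ 2)
    (h1 : x₁ * x₂ + x₁ * x₃ + x₂ * x₃ = a + m * n) :
    ∃ z : F, (if x₁ = 0 then a else x₁) * (if x₂ = 0 then a else x₂) =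
      (if x₃ = 0 then a else x₃) * z ^ 2 := by
  have hn : x₁ * x₂ * x₃ = 0 → n = 0 := fun h => pow_eq_zero_iff two_ne_zero |>.1 (h0 ▸ h)
  by_cases e₁ : x₁ = 0
  · have e : x₂ * x₃ = a := by
      rw [hn (by rw [e₁]; ring), e₁] at h1
      linear_combination h1
    obtain ⟨e₂, e₃⟩ := mul_ne_zero_iff.1 (e ▸ ha)
    exact ⟨x₂, by rw [if_pos e₁, if_neg e₂, if_neg e₃, ← e]; ring⟩
  by_cases e₂ : x₂ = 0
  · have e : x₁ * x₃ = a := by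
      rw [hn (by rw [e₂]; ring), e₂] at h1
      linear_combination h1
    obtain ⟨-, e₃⟩ := mul_ne_zero_iff.1 (e ▸ ha)
    exact ⟨x₁, by rw [if_neg e₁, if_pos e₂, if_neg e₃, ← e]; ring⟩
  by_cases e₃ : x₃ = 0
  · have e : x₁ * x₂ = a := by
      rw [hn (by rw [e₃]; ring), e₃] at h1
      linear_combination h1
    exact ⟨1, by rw [if_neg e₁, if_neg e₂, if_pos e₃, e]; ring⟩
  · refine ⟨n / x₃, ?_⟩
    rw [if_neg e₁, if_neg e₂, if_neg e₃]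
    field_simp
    linear_combination h0

theorem line {a x₁ x₂ y₁ y₂ : F} (h₁ : (Wc 0 a).Equation x₁ y₁) (h₂ : (Wc 0 a).Equation x₂ y₂)
    (hxy : ¬ (x₁ = x₂ ∧ y₁ = (Wc 0 a).negY x₂ y₂)) :
    ∃ n m : F, x₁ * x₂ * (Wc 0 a).addX x₁ x₂ ((Wc 0 a).slope x₁ x₂ y₁ y₂) = n ^ 2 ∧
      x₁ * x₂ + x₁ * (Wc 0 a).addX x₁ x₂ ((Wc 0 a).slope x₁ x₂ y₁ y₂) +
        x₂ * (Wc 0 a).addX x₁ x₂ ((Wc 0 a).slope x₁ x₂ y₁ y₂) = a + m * n := by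
  have h := addPolynomial_slope h₁ h₂ hxy
  rw [addPolynomial_eq, neg_inj, Cubic.prod_X_sub_C_eq, Cubic.toPoly_injective] at h
  generalize (Wc 0 a).slope x₁ x₂ y₁ y₂ = l at h ⊢
  generalize (Wc 0 a).addX x₁ x₂ l = x₃ at h ⊢
  have hc := congrArg Cubic.c h
  have hd := congrArg Cubic.d h
  simp only [Wc] at hc hd
  exact ⟨y₁ - l * x₁, -2 * l, by linear_combination hd, by linear_combination -hc⟩

end Hom2P

theorem p_hom2 (hI : Z_Iota) : Z_Hom 2 := by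
  intro F _ _ ζ a₃ a₄ hC R R'
  have _ := hI
  obtain ⟨-, -, rfl, ha⟩ : 2 = 2 ∧ ζ ^ 2 + 1 = 0 ∧ a₃ = 0 ∧ a₄ ≠ 0 :=
    hC.resolve_right fun h => by simpa using h.1
  rcases R with _ | ⟨x₁, y₁, h₁⟩
  · exact ⟨1, by
      change (1 : F) * al 2 R' = al 2 (0 + R') * 1 ^ 2
      rw [zero_add]; ring⟩
  rcases R' with _ | ⟨x₂, y₂, h₂⟩
  · exact ⟨1, by
      change al 2 (.some x₁ y₁ h₁) * (1 : F) = al 2 (.some x₁ y₁ h₁ + 0) * 1 ^ 2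
      rw [add_zero]; ring⟩
  by_cases hxy : x₁ = x₂ ∧ y₁ = (Wc 0 a₄).negY x₂ y₂
  · rw [Point.add_of_Y_eq hxy.1 hxy.2]
    obtain ⟨rfl, -⟩ := hxy
    refine ⟨if x₁ = 0 then a₄ else x₁, ?_⟩
    have e : al 2 (0 : Pt 0 a₄) = 1 := rfl
    rw [e]
    simp only [al, if_true]
    ring
  · rw [Point.add_some hxy]
    obtain ⟨n, m, e0, e1⟩ := Hom2P.line h₁.1 h₂.1 hxy
    simpa only [al, if_true] using Hom2P.alg ha e0 e1

end Pool.Agent.P.MP_e4219a_lc
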