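import Pool.Agent.P.MP_e4219a_lc.Bund

/-! The descent map of the curve `y ^ 2 + a y = x ^ 3` is a homomorphism modulo cubes. -/

namespace Pool.Agent.P.MP_e4219a_lc

open WeierstrassCurve WeierstrassCurve.Affine
open scoped Classical

namespace Hom3P

variable {F : Type} [Field F]

/-- the value of the descent map at a point with second coordinate `y` -/
noncomputable def A (a y : F) : F := if y = 0 then a ^ 2 else y

theorem A_zero (a : F) : A a 0 = a ^ 2 := if_pos rfl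

theorem A_ne {a y : F} (h : y ≠ 0) : A a y = y := if_neg h

theorem al_some {a₃ a₄ x y : F} (h : (Wc a₃ a₄).Nonsingular x y) :
    al 3 (.some x y h : Pt a₃ a₄) = A a₃ y := by
  rw [al, if_neg (by norm_num), A]

theorem opp {a x y : F} (ha : a ≠ 0) (h : y ^ 2 + a * y = x ^ 3) :
    ∃ w, w ≠ 0 ∧ A a y * A a (-y - a) = w ^ 3 := by
  by_cases h1 : y = 0
  · subst h1
    refine ⟨-a, neg_ne_zero.2 ha, ?_⟩
    rw [A_zero, A_ne (by simpa using ha)]
    ring
  by_cases h2 : -y - a = 0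
  · refine ⟨-a, neg_ne_zero.2 ha, ?_⟩
    rw [h2, A_zero, A_ne h1]
    linear_combination (-a ^ 2) * h2
  · refine ⟨-x, fun e => ?_, ?_⟩
    · have : y * (-y - a) = 0 := by
        rw [neg_eq_zero.1 e] at h
        linear_combination -h
      exact (mul_eq_zero.1 this).elim h1 h2
    · rw [A_ne h1, A_ne h2]
      linear_combination -h

theorem thr {a l x₂ x₃ : F} (ha : a ≠ 0) (e1 : x₂ + x₃ = l ^ 2) (e2 : x₂ * x₃ = -(a * l)) :
    ∃ c, A a (l * 0) * A a (l * x₂) * A a (l * x₃) = c ^ 3 := by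
  by_cases hl : l = 0
  · subst hl
    exact ⟨a ^ 2, by simp only [zero_mul, A_zero]; ring⟩
  · have h : x₂ * x₃ ≠ 0 := by
      rw [e2]
      exact neg_ne_zero.2 (mul_ne_zero ha hl)
    refine ⟨-(a * l), ?_⟩
    rw [mul_zero, A_zero, A_ne (mul_ne_zero hl (left_ne_zero_of_mul h)),
      A_ne (mul_ne_zero hl (right_ne_zero_of_mul h))]
    linear_combination (a ^ 2 * l ^ 2) * e2

/-- three points on a line -/
theorem line {a l n x₁ x₂ x₃ : F} (ha : a ≠ 0) (e1 : x₁ + x₂ + x₃ = l ^ 2)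
    (e2 : x₁ * x₂ + x₁ * x₃ + x₂ * x₃ = -(2 * l * n + a * l)) (e3 : x₁ * x₂ * x₃ = n ^ 2 + a * n) :
    ∃ c, A a (l * x₁ + n) * A a (l * x₂ + n) * A a (l * x₃ + n) = c ^ 3 := by
  by_cases hn : n = 0
  · subst hn
    simp only [add_zero]
    have h0 : x₁ * x₂ * x₃ = 0 := by linear_combination e3
    rcases mul_eq_zero.1 h0 with h | rfl
    · rcases mul_eq_zero.1 h with rfl | rfl
      · exact thr ha (by linear_combination e1) (by linear_combination e2)
      · obtain ⟨c, hc⟩ := thr (x₂ := x₁) (x₃ := x₃) (l := l) ha (by linear_combination e1)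
          (by linear_combination e2)
        exact ⟨c, by linear_combination hc⟩
    · obtain ⟨c, hc⟩ := thr (x₂ := x₁) (x₃ := x₂) (l := l) ha (by linear_combination e1)
        (by linear_combination e2)
      exact ⟨c, by linear_combination hc⟩
  · have h : (l * x₁ + n) * (l * x₂ + n) * (l * x₃ + n) = n ^ 3 := by
      linear_combination l ^ 3 * e3 + l ^ 2 * n * e2 + l * n ^ 2 * e1
    have h' := h.trans_ne (pow_ne_zero 3 hn)
    refine ⟨n, ?_⟩
    rw [A_ne (left_ne_zero_of_mul (left_ne_zero_of_mul h')),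
      A_ne (right_ne_zero_of_mul (left_ne_zero_of_mul h')), A_ne (right_ne_zero_of_mul h'), h]

theorem eqn {a x y : F} (h : (Wc a 0).Equation x y) : y ^ 2 + a * y = x ^ 3 := by
  rw [equation_iff] at h
  simp only [Wc] at h
  linear_combination h

theorem negY_eq (a x y : F) : (Wc a 0).negY x y = -y - a := by simp [negY, Wc]

theorem add {a x₁ x₂ y₁ y₂ : F} (ha : a ≠ 0) (h₁ : (Wc a 0).Equation x₁ y₁)
    (h₂ : (Wc a 0).Equation x₂ y₂) (hxy : ¬(x₁ = x₂ ∧ y₁ = (Wc a 0).negY x₂ y₂)) :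
    ∃ c, A a y₁ * A a y₂ * A a ((Wc a 0).negAddY x₁ x₂ y₁ ((Wc a 0).slope x₁ x₂ y₁ y₂)) =
      c ^ 3 := by
  have h := addPolynomial_slope h₁ h₂ hxy
  rw [addPolynomial_eq, neg_inj, Cubic.prod_X_sub_C_eq, Cubic.toPoly_injective,
    Cubic.mk.injEq] at h
  obtain ⟨-, e1, e2, e3⟩ := h
  have h2 : y₂ = (Wc a 0).slope x₁ x₂ y₁ y₂ * (x₂ - x₁) + y₁ := by
    by_cases hx : x₁ = x₂
    · rw [← Y_eq_of_Y_ne h₁ h₂ hx fun e => hxy ⟨hx, e⟩, hx, sub_self, mul_zero, zero_add]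
    · rw [slope_of_X_ne hx]
      have := sub_ne_zero.2 hx
      field_simp
      ring
  rw [negAddY]
  generalize (Wc a 0).slope x₁ x₂ y₁ y₂ = l at e1 e2 e3 h2 ⊢
  generalize (Wc a 0).addX x₁ x₂ l = x₃ at e1 e2 e3 ⊢
  simp only [Wc] at e1 e2 e3
  obtain ⟨c, hc⟩ := line (l := l) (n := y₁ - l * x₁) (x₁ := x₁) (x₂ := x₂) (x₃ := x₃) ha
    (by linear_combination e1) (by linear_combination -e2) (by linear_combination e3)
  refine ⟨c, ?_⟩
  rw [← hc, show l * x₁ + (y₁ - l * x₁) = y₁ by ring,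
    show l * x₂ + (y₁ - l * x₁) = y₂ by linear_combination -h2,
    show l * x₃ + (y₁ - l * x₁) = l * (x₃ - x₁) + y₁ by ring]

end Hom3P

open Hom3P in
theorem p_hom3 (hI : Z_Iota) : Z_Hom 3 := by
  intro F _ _ ζ a₃ a₄ hc R R'
  rcases hc with ⟨h, -⟩ | ⟨-, -, rfl, ha⟩
  · norm_num at h
  rcases R with _ | ⟨x₁, y₁, h₁⟩
  · exact ⟨1, by
      rw [show (Point.zero : Pt a₃ 0) + R' = R' from zero_add R', one_pow, mul_one]
      exact one_mul _⟩
  rcases R' with _ | ⟨x₂, y₂, h₂⟩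
  · exact ⟨1, by
      rw [show (Point.some x₁ y₁ h₁ : Pt a₃ 0) + Point.zero = Point.some x₁ y₁ h₁ from add_zero _,
        one_pow]
      rfl⟩
  by_cases hxy : x₁ = x₂ ∧ y₁ = (Wc a₃ 0).negY x₂ y₂
  · obtain ⟨w, -, hw⟩ := opp ha (eqn h₂.1)
    refine ⟨w, ?_⟩
    rw [Point.add_of_Y_eq hxy.1 hxy.2, al_some, al_some, hxy.2, negY_eq, mul_comm, hw]
    exact (one_mul _).symm
  · obtain ⟨c, hc⟩ := add ha h₁.1 h₂.1 hxy
    obtain ⟨w, h0, hw⟩ := opp ha (eqn (equation_negAdd h₁.1 h₂.1 hxy))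
    refine ⟨c / w, ?_⟩
    rw [Point.add_some hxy, al_some, al_some, al_some, addY, negY_eq, div_pow, ← mul_div_assoc,
      eq_div_iff (pow_ne_zero 3 h0), ← hc, ← hw]
    ring

end Pool.Agent.P.MP_e4219a_lc
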