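import Pool.Agent.P.MP_e4219a_lc.Bund

/-! The kernel of the character of a quadratic extension consists of the classes of norms. -/

namespace Pool.Agent.P.MP_e4219a_lc

open NumberField IsDedekindDomain Finset ComplexConjugate
open Pool.Agent.P.MP_b8021b_nt Pool.Agent.P.MP_b8021b_nt.VE Pool.Agent.P.MP_b8021b_nt.VC
open scoped Classical

namespace IdxP

/-- a set of pairwise orthogonal nonzero vectors is finite -/
theorem fin_of_orth {ι : Type} [Fintype ι] (S : Set (ι → ℂ)) (h0 : ∀ s ∈ S, s ≠ 0)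
    (ho : ∀ s ∈ S, ∀ t ∈ S, s ≠ t → ∑ i, s i * conj (t i) = 0) : S.Finite := by
  have h : LinearIndependent ℂ fun s : S => (WithLp.toLp 2 s.1 : EuclideanSpace ℂ ι) := by
    refine linearIndependent_of_ne_zero_of_inner_eq_zero (fun s e => h0 s s.2 ?_) fun s t hst => ?_
    · exact (WithLp.toLp_eq_zero 2).1 e
    · beta_reduce
      rw [PiLp.inner_apply]
      simpa using ho t t.2 s s.2 fun e => hst (Subtype.ext e.symm)
  exact Set.finite_coe_iff.1 h.finite_of_isNoetherian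

/-- the sum over a finite multiplicatively closed set vanishes at a coordinate where some member
is not one -/
theorem sum_zero {ι : Type} (T : Finset (ι → ℂ)) (hm : ∀ s ∈ T, ∀ t ∈ T, s * t ∈ T)
    (h0 : ∀ s ∈ T, ∀ i, s i ≠ 0) {s : ι → ℂ} (hs : s ∈ T) {i : ι} (hi : s i ≠ 1) :
    ∑ t ∈ T, t i = 0 := by
  have inj : Set.InjOn (fun t => s * t) T := fun t _ t' _ e =>
    funext fun j => mul_left_cancel₀ (h0 s hs j) (congrFun e j)
  have him : T.image (fun t => s * t) = T :=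
    eq_of_subset_of_card_le (image_subset_iff.2 fun t ht => hm s hs t ht)
      (card_image_of_injOn inj).ge
  have h1 : ∑ t ∈ T, t i = s i * ∑ t ∈ T, t i := by
    conv_lhs => rw [← him, sum_image inj]
    rw [mul_sum]
    rfl
  have h2 : (1 - s i) * ∑ t ∈ T, t i = 0 := by linear_combination h1
  exact (mul_eq_zero.1 h2).resolve_left (sub_ne_zero.2 hi.symm)

end IdxP

open IdxP in
theorem p_idx (h : T1) : Z_Idx := by
  intro L M _ _ _ _ _ N χ 𝔞 hL hd hN hχ hnt htr ha h1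
  obtain ⟨𝒳, hX, hrep⟩ := h.i.rep L hL N hN
  by_contra hc
  push Not at hc
  let e : Ideal (𝓞 M) → 𝒳 → ℂ := fun A ψ => ψ.1 (Ideal.relNorm (𝓞 L) A)
  let S : Set (𝒳 → ℂ) := e '' {A | Cop N A}
  have hrc : ∀ ψ : 𝒳, RC N ψ.1 := fun ψ => (hX _).1 ψ.2
  have hS0 : ∀ s ∈ S, ∀ ψ, s ψ ≠ 0 := by
    rintro _ ⟨A, hA, rfl⟩ ψ
    exact (hrc ψ).ne_zero (cop_rel.2 hA)
  have ht : triv L N ∈ 𝒳 := (hX _).2 (RC.triv L N)
  have hfin : S.Finite := by
    refine fin_of_orth S (fun s hs e0 => hS0 s hs ⟨_, ht⟩ (congrFun e0 _)) ?_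
    rintro _ ⟨A, hA, rfl⟩ _ ⟨B, hB, rfl⟩ hne
    have := hrep _ _ (cop_rel.2 hA) (cop_rel.2 hB)
    rw [if_neg fun r => hne (funext fun ψ => (hrc ψ).ray r)] at this
    rw [← this]
    exact sum_coe_sort 𝒳 fun ψ => ψ (Ideal.relNorm (𝓞 L) A) * conj (ψ (Ideal.relNorm (𝓞 L) B))
  set T := hfin.toFinset with hT
  have hmT : ∀ s, s ∈ T ↔ s ∈ S := fun s => hfin.mem_toFinset
  have hmul : ∀ s ∈ T, ∀ t ∈ T, s * t ∈ T := by
    intro s hs t ht'
    obtain ⟨A, hA, rfl⟩ := (hmT s).1 hs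
    obtain ⟨B, hB, rfl⟩ := (hmT t).1 ht'
    exact (hmT _).2 ⟨A * B, cop_mul.2 ⟨hA, hB⟩, funext fun ψ => by simp only [e, map_mul]; rfl⟩
  have hpos : 0 < T.card := card_pos.2 ⟨_, (hmT _).2 ⟨⊤, cop_top, rfl⟩⟩
  have hne : triv L N ≠ χ := fun e' => hnt (e' ▸ isTriv_triv)
  have hχX : χ ∈ 𝒳 := (hX _).2 hχ
  have htt : IsTriv N (nrm M (triv L N)) := fun A hA => triv_cop (cop_rel.2 hA)
  have key : ∀ ψ : 𝒳, ψ.1 𝔞 * conj (∑ t ∈ T, t ψ) =
      if ψ.1 = triv L N ∨ ψ.1 = χ then (T.card : ℂ) else 0 := by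
    intro ψ
    by_cases hψ : IsTriv N (nrm M ψ.1)
    · have hor : ψ.1 = triv L N ∨ ψ.1 = χ := by
        by_contra hno
        push Not at hno
        have := h.i.sec L M hL N {ψ.1, triv L N, χ} hN (by
          intro ξ hξ
          simp only [mem_insert, mem_singleton] at hξ
          rcases hξ with rfl | rfl | rfl
          · exact ⟨hrc ψ, hψ⟩
          · exact ⟨RC.triv L N, htt⟩
          · exact ⟨hχ, htr⟩)
        rw [card_insert_of_notMem (by simp [hno.1, hno.2]), card_pair hne, hd] at this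
        omega
      have h2 : ψ.1 𝔞 = 1 := by
        rcases hor with e' | e' <;> rw [e']
        · exact triv_cop ha
        · exact h1
      have h3 : ∑ t ∈ T, t ψ = T.card := by
        rw [card_eq_sum_ones, Nat.cast_sum, Nat.cast_one]
        refine sum_congr rfl fun t ht' => ?_
        obtain ⟨A, hA, rfl⟩ := (hmT t).1 ht'
        exact hψ A hA
      rw [if_pos hor, h2, h3, one_mul, map_natCast]
    · have hno : ¬ (ψ.1 = triv L N ∨ ψ.1 = χ) := by
        rintro (e' | e') <;> rw [e'] at hψ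
        · exact hψ htt
        · exact hψ htr
      obtain ⟨A, hA⟩ := not_forall.1 hψ
      obtain ⟨hA1, hA2⟩ := Classical.not_imp.1 hA
      rw [if_neg hno, sum_zero T hmul (fun s hs => hS0 s ((hmT s).1 hs))
        ((hmT _).2 ⟨A, hA1, rfl⟩) hA2, map_zero, mul_zero]
  have tot : ∑ ψ : 𝒳, ψ.1 𝔞 * conj (∑ t ∈ T, t ψ) = 0 := by
    simp only [map_sum, mul_sum]
    rw [sum_comm]
    refine sum_eq_zero fun t ht' => ?_
    obtain ⟨A, hA, rfl⟩ := (hmT t).1 ht'
    have := hrep _ _ ha (cop_rel.2 hA)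
    rw [if_neg (hc A hA)] at this
    rw [← this]
    exact sum_coe_sort 𝒳 fun ψ => ψ 𝔞 * conj (ψ (Ideal.relNorm (𝓞 L) A))
  rw [sum_congr rfl fun ψ _ => key ψ, ← sum_filter, sum_const, nsmul_eq_mul, mul_eq_zero,
    Nat.cast_eq_zero, Nat.cast_eq_zero, card_eq_zero, filter_eq_empty_iff] at tot
  rcases tot with h0 | h0
  · exact h0 (mem_univ ⟨_, ht⟩) (Or.inl rfl)
  · omega

end Pool.Agent.P.MP_e4219a_lc
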