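import Pool.Agent.P.MP_e4219a_lc.Bund

/-! Most points of a cube lie on few hyperplanes modulo primes. -/

namespace Pool.Agent.P.MP_e4219a_lc

open Finset
open scoped Classical

namespace IndP

variable {d : ℕ}

/-- cyclic shift of one coordinate -/
def wrap (B : ℕ) (i : Fin d) (s : ℤ) (θ : Fin d → ℤ) : Fin d → ℤ :=
  Function.update θ i ((θ i + s + B) % (2 * B) - B)

theorem mem_cube {B : ℕ} {θ : Fin d → ℤ} : θ ∈ cube d B ↔ ∀ i, -(B : ℤ) ≤ θ i ∧ θ i < B := by
  simp [cube, Fintype.mem_piFinset]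

theorem card_cube (d B : ℕ) : ((cube d B).card : ℝ) = (2 * B : ℝ) ^ d := by
  rw [cube, Fintype.card_piFinset]
  simp only [Int.card_Ico, prod_const, card_univ, Fintype.card_fin, Nat.cast_pow]
  rw [show (B : ℤ) - -(B : ℤ) = ((2 * B : ℕ) : ℤ) by push_cast; ring, Int.toNat_natCast]
  push_cast
  rfl

theorem wrap_mem {B : ℕ} (i : Fin d) (s : ℤ) {θ : Fin d → ℤ} (h : θ ∈ cube d B) :
    wrap B i s θ ∈ cube d B := by
  rw [mem_cube] at h ⊢
  intro j
  have hB : (0 : ℤ) < 2 * B := by have := h i; omega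
  rcases eq_or_ne j i with rfl | hj
  · have h1 := Int.emod_nonneg (θ j + s + B) hB.ne'
    have h2 := Int.emod_lt_of_pos (θ j + s + B) hB
    rw [wrap, Function.update_self]
    omega
  · rw [wrap, Function.update_of_ne hj]
    exact h j

theorem wrap_wrap {B : ℕ} (i : Fin d) (s : ℤ) {θ : Fin d → ℤ} (h : θ ∈ cube d B) :
    wrap B i (-s) (wrap B i s θ) = θ := by
  have h1 := mem_cube.1 h i
  rw [wrap, wrap, Function.update_idem, Function.update_self, Function.update_eq_self_iff,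
    show (θ i + s + B) % (2 * B) - B + -s + B = (θ i + s + B) % (2 * B) + -s by ring,
    Int.emod_add_emod, show θ i + s + B + -s = θ i + B by ring,
    Int.emod_eq_of_lt (by omega) (by omega)]
  ring

theorem sum_wrap {B : ℕ} (i : Fin d) (s : ℤ) (F : (Fin d → ℤ) → ℝ) :
    ∑ θ ∈ cube d B, F (wrap B i s θ) = ∑ θ ∈ cube d B, F θ :=
  sum_nbij' (wrap B i s) (wrap B i (-s)) (fun _ h => wrap_mem i s h) (fun _ h => wrap_mem i _ h)
    (fun _ h => wrap_wrap i s h) (fun _ h => by simpa using wrap_wrap i (-s) h) fun _ _ => rfl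

theorem lin_update {p : ℕ} (l : Fin d → ZMod p) (θ : Fin d → ℤ) (i : Fin d) (t : ℤ) :
    ∑ k, l k * (Function.update θ i (θ i + t) k : ZMod p) = ∑ k, l k * (θ k : ZMod p) + l i * t := by
  rw [← add_sum_erase _ _ (mem_univ i), ← add_sum_erase _ _ (mem_univ i), Function.update_self,
    sum_congr rfl fun k hk => by rw [Function.update_of_ne (ne_of_mem_erase hk)]]
  push_cast
  ring

theorem sum_root {p : ℕ} (hp : p.Prime) (u w : ZMod p) (hw : w ≠ 0) :
    ∑ j ∈ range p, (if u + w * j = 0 then (1 : ℝ) else 0) ≤ 1 := by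
  have := Fact.mk hp
  rw [sum_boole, Nat.cast_le_one, card_le_one]
  intro a ha b hb
  rw [mem_filter, mem_range] at ha hb
  have h : (a : ZMod p) = b := mul_left_cancel₀ hw (by linear_combination ha.2 - hb.2)
  exact Nat.ModEq.eq_of_lt_of_lt ((ZMod.natCast_eq_natCast_iff _ _ _).1 h) ha.1 hb.1

/-- a periodic weight puts little mass on a hyperplane -/
theorem key {B M p : ℕ} (hp : p.Prime) (hM : M ∣ 2 * B) (hc : ¬ p ∣ M) (hpM : p * M ≤ 2 * B)
    (f : (Fin d → ℤ) → ℝ) (h0 : ∀ θ, 0 ≤ f θ)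
    (hf : ∀ θ θ', (∀ i, (M : ℤ) ∣ θ i - θ' i) → f θ = f θ') {l : Fin d → ZMod p} (hl : l ≠ 0) :
    ∑ θ ∈ cube d B, f θ * (if ∑ k, l k * (θ k : ZMod p) = 0 then 1 else 0) ≤
      2 / p * ∑ θ ∈ cube d B, f θ := by
  have := Fact.mk hp
  obtain ⟨i, hi⟩ := Function.ne_iff.1 hl
  have hw : l i * M ≠ 0 := mul_ne_zero hi (by rwa [Ne, ZMod.natCast_eq_zero_iff])
  have hp0 : (0 : ℝ) < p := by exact_mod_cast hp.pos
  have e : ∀ x : ℝ, p * x = ∑ _j ∈ range p, x := fun x => by simp
  rw [div_mul_eq_mul_div, le_div_iff₀' hp0, e,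
    sum_congr rfl fun (j : ℕ) _ => (sum_wrap i (j * M) _).symm, sum_comm, mul_sum]
  refine sum_le_sum fun θ hθ => ?_
  have h1 := mem_cube.1 hθ i
  have h2 := add_le_add (sum_root hp (∑ k, l k * (θ k : ZMod p)) _ hw)
    (sum_root hp (∑ k, l k * (θ k : ZMod p) - l i * (2 * B)) _ hw)
  rw [← sum_add_distrib, one_add_one_eq_two] at h2
  refine le_trans (sum_le_sum fun j hj => ?_) (by
    rw [mul_comm, ← mul_sum]
    exact mul_le_mul_of_nonneg_left h2 (h0 θ))
  have h3 : (j : ℤ) * M ≤ 2 * B := by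
    exact_mod_cast (Nat.mul_le_mul_right M (mem_range.1 hj).le).trans hpM
  have h4 : (0 : ℤ) ≤ j * M := by positivity
  have h5 : ∀ t : ℤ, (M : ℤ) ∣ t → f (Function.update θ i (θ i + t)) = f θ := fun t ht =>
    hf _ _ fun k => by
      rcases eq_or_ne k i with rfl | hk
      · simpa using ht
      · simp [Function.update_of_ne hk]
  rcases lt_or_ge (θ i + j * M + B) (2 * B) with h | h
  · rw [wrap, Int.emod_eq_of_lt (by omega) h, add_sub_cancel_right, h5 _ (dvd_mul_left _ _),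
      lin_update]
    refine mul_le_mul_of_nonneg_left ?_ (h0 θ)
    rw [show l i * ((j * M : ℤ) : ZMod p) = l i * M * j by push_cast; ring]
    exact le_add_of_nonneg_right (by positivity)
  · rw [wrap, ← Int.sub_emod_right, Int.emod_eq_of_lt (by omega) (by omega),
      show θ i + j * M + B - 2 * B - B = θ i + (j * M - 2 * B) by ring,
      h5 _ ((dvd_mul_left _ _).sub (by exact_mod_cast hM)), lin_update]
    refine mul_le_mul_of_nonneg_left ?_ (h0 θ)
    rw [show ∑ k, l k * (θ k : ZMod p) + l i * ((j * M - 2 * B : ℤ) : ZMod p) =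
      ∑ k, l k * (θ k : ZMod p) - l i * (2 * B) + l i * M * j by push_cast; ring]
    exact le_add_of_nonneg_left (by positivity)

/-- the indicator of the union of the hyperplanes modulo `p` -/
noncomputable def ind (Λ : ∀ p : ℕ, Finset (Fin d → ZMod p)) (p : ℕ) (θ : Fin d → ℤ) : ℝ :=
  if ∃ l ∈ Λ p, ∑ i, l i * (θ i : ZMod p) = 0 then 1 else 0

variable {Λ : ∀ p : ℕ, Finset (Fin d → ZMod p)} {K : ℕ}

theorem ind_nonneg (p : ℕ) (θ : Fin d → ℤ) : 0 ≤ ind Λ p θ := by
  unfold ind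
  positivity

theorem key' {B M p : ℕ} (hΛ : ∀ p, (Λ p).card ≤ K ∧ ∀ l ∈ Λ p, l ≠ 0) (hp : p.Prime)
    (hM : M ∣ 2 * B) (hc : ¬ p ∣ M) (hpM : p * M ≤ 2 * B) (f : (Fin d → ℤ) → ℝ)
    (h0 : ∀ θ, 0 ≤ f θ) (hf : ∀ θ θ', (∀ i, (M : ℤ) ∣ θ i - θ' i) → f θ = f θ') :
    ∑ θ ∈ cube d B, f θ * ind Λ p θ ≤ 2 * K / p * ∑ θ ∈ cube d B, f θ := by
  have h1 : 0 ≤ 2 / (p : ℝ) * ∑ θ ∈ cube d B, f θ :=
    mul_nonneg (by positivity) (sum_nonneg fun θ _ => h0 θ)
  calc _ ≤ ∑ θ ∈ cube d B, ∑ l ∈ Λ p, f θ * (if ∑ k, l k * (θ k : ZMod p) = 0 then 1 else 0) := by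
        refine sum_le_sum fun θ _ => ?_
        rw [← mul_sum]
        refine mul_le_mul_of_nonneg_left ?_ (h0 θ)
        unfold ind
        split_ifs with h
        · obtain ⟨l, hl, e⟩ := h
          exact le_trans (by rw [if_pos e]) (single_le_sum (f := fun l : Fin d → ZMod p =>
            if ∑ k, l k * (θ k : ZMod p) = 0 then (1 : ℝ) else 0) (fun _ _ => by positivity) hl)
        · positivity
    _ ≤ (Λ p).card • (2 / p * ∑ θ ∈ cube d B, f θ) := by
        rw [sum_comm]
        exact sum_le_card_nsmul _ _ _ fun l hl => key hp hM hc hpM f h0 hf ((hΛ p).2 l hl)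
    _ ≤ K * (2 / p * ∑ θ ∈ cube d B, f θ) := by
        rw [nsmul_eq_mul]
        exact mul_le_mul_of_nonneg_right (by exact_mod_cast (hΛ p).1) h1
    _ = _ := by ring

theorem ind_congr {p M : ℕ} (h : p ∣ M) {θ θ' : Fin d → ℤ} (e : ∀ i, (M : ℤ) ∣ θ i - θ' i) :
    ind Λ p θ = ind Λ p θ' := by
  have : ∀ i, (θ i : ZMod p) = θ' i := fun i =>
    ((ZMod.intCast_eq_intCast_iff_dvd_sub _ _ _).2 ((Int.natCast_dvd_natCast.2 h).trans (e i))).symm
  simp only [ind, this]

/-- exponential moment of the small primes -/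
theorem small {B : ℕ} (hB : 0 < B) (hΛ : ∀ p, (Λ p).card ≤ K ∧ ∀ l ∈ Λ p, l ≠ 0) {a : ℝ}
    (ha : 0 ≤ a) (S : Finset ℕ) (hS : ∀ p ∈ S, p.Prime) (hd : ∏ p ∈ S, p ∣ B) :
    ∑ θ ∈ cube d B, Real.exp (a * ∑ p ∈ S, ind Λ p θ / p) ≤
      Real.exp (2 * K * (a * Real.exp a) * ∑ p ∈ S, ((p : ℝ) ^ 2)⁻¹) * (2 * B : ℝ) ^ d := by
  induction S using Finset.induction_on with
  | empty => simp [card_cube]
  | insert p S hp ih =>
    rw [prod_insert hp] at hd
    have hpp := hS p (mem_insert_self _ _)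
    have ih' := ih (fun q hq => hS q (mem_insert_of_mem hq)) (Dvd.dvd.trans (dvd_mul_left _ _) hd)
    have hp1 : (1 : ℝ) ≤ p := by exact_mod_cast hpp.one_le
    have h1 := key' (B := B) (M := ∏ q ∈ S, q) hΛ hpp
      ((Dvd.dvd.trans (dvd_mul_left _ _) hd).mul_left _)
      (fun h => by
        obtain ⟨q, hq, e⟩ := (hpp.prime.dvd_finsetProd_iff _).1 h
        exact hp (((Nat.prime_dvd_prime_iff_eq hpp (hS q (mem_insert_of_mem hq))).1 e) ▸ hq))
      ((Nat.le_of_dvd hB hd).trans (by omega)) (fun θ => Real.exp (a * ∑ q ∈ S, ind Λ q θ / q))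
      (fun _ => (Real.exp_pos _).le) fun θ θ' e => by
        rw [sum_congr rfl fun q hq => by rw [ind_congr (dvd_prod_of_mem _ hq) e]]
    have h2 : Real.exp (a / p) ≤ 1 + a * Real.exp a / p := by
      have h3 := Real.add_one_le_exp (-(a / p))
      have h4 : Real.exp (a / p) ≤ Real.exp a := Real.exp_le_exp.2 (div_le_self ha hp1)
      have h5 : Real.exp (a / p) * Real.exp (-(a / p)) = 1 := by rw [← Real.exp_add]; simp
      have h6 : 0 ≤ a / p := by positivity
      rw [mul_div_right_comm]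
      nlinarith [Real.exp_pos (a / p)]
    have h7 : 0 ≤ a * Real.exp a / p := by positivity
    calc _ ≤ ∑ θ ∈ cube d B, (Real.exp (a * ∑ q ∈ S, ind Λ q θ / q) + a * Real.exp a / p *
            (Real.exp (a * ∑ q ∈ S, ind Λ q θ / q) * ind Λ p θ)) := by
          refine sum_le_sum fun θ _ => ?_
          rw [sum_insert hp, mul_add, Real.exp_add]
          have h8 := Real.exp_pos (a * ∑ q ∈ S, ind Λ q θ / q)
          unfold ind at *
          split_ifs
          · rw [mul_one_div, mul_one]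
            nlinarith
          · simp
      _ ≤ (2 * K * (a * Real.exp a) * ((p : ℝ) ^ 2)⁻¹ + 1) *
            ∑ θ ∈ cube d B, Real.exp (a * ∑ q ∈ S, ind Λ q θ / q) := by
          rw [sum_add_distrib, ← mul_sum, add_mul, one_mul, add_comm]
          refine add_le_add_left ((mul_le_mul_of_nonneg_left h1 h7).trans (le_of_eq ?_)) _
          field_simp
      _ ≤ _ := by
          rw [sum_insert hp, mul_add, Real.exp_add, mul_assoc (Real.exp _)]
          exact mul_le_mul (Real.add_one_le_exp _) ih' (by positivity) (by positivity)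

/-- first moment of the large primes -/
theorem large {B y N : ℕ} (hΛ : ∀ p, (Λ p).card ≤ K ∧ ∀ l ∈ Λ p, l ≠ 0) (hy : y ≠ 0)
    (hyN : y ≤ N) (hN : N ≤ B) :
    ∑ θ ∈ cube d B, ∑ p ∈ (Ioc y N).filter Nat.Prime, ind Λ p θ / p ≤
      2 * K / y * (2 * B : ℝ) ^ d := by
  calc _ ≤ ∑ p ∈ (Ioc y N).filter Nat.Prime, 2 * K * (2 * B : ℝ) ^ d * ((p : ℝ) ^ 2)⁻¹ := by
        rw [sum_comm]
        refine sum_le_sum fun p hp => ?_
        rw [mem_filter, mem_Ioc] at hp
        have h1 := key' (B := B) (M := 1) hΛ hp.2 (one_dvd _) hp.2.not_dvd_one (by omega)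
          (fun _ => 1) (fun _ => zero_le_one) fun _ _ _ => rfl
        simp only [one_mul, sum_const, nsmul_eq_mul, mul_one, card_cube] at h1
        rw [← sum_div]
        refine (div_le_div_of_nonneg_right h1 (by positivity)).trans (le_of_eq ?_)
        field_simp
    _ ≤ 2 * K * (2 * B : ℝ) ^ d * (y : ℝ)⁻¹ := by
        rw [← mul_sum]
        refine mul_le_mul_of_nonneg_left ?_ (by positivity)
        refine (sum_le_sum_of_subset_of_nonneg (filter_subset _ _) fun _ _ _ => by positivity).trans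
          ((sum_Ioc_inv_sq_le_sub hy hyN).trans (sub_le_self _ (by positivity)))
    _ = _ := by ring

theorem bad_eq {y N : ℕ} (hyN : y ≤ N) (θ : Fin d → ℤ) :
    bad Λ N θ = ∑ p ∈ (range (y + 1)).filter Nat.Prime, ind Λ p θ / p +
      ∑ p ∈ (Ioc y N).filter Nat.Prime, ind Λ p θ / p := by
  rw [← sum_union (disjoint_filter_filter (disjoint_left.2 fun p h h' => by
    rw [mem_range] at h
    rw [mem_Ioc] at h'
    omega)), ← filter_union, show range (y + 1) ∪ Ioc y N = range (N + 1) by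
      ext p
      simp only [mem_union, mem_range, mem_Ioc]
      omega, bad, ← filter_filter, sum_filter]
  refine sum_congr rfl fun p _ => ?_
  unfold ind
  split_ifs <;> simp

end IndP

open IndP in
theorem p_ind : Z_Ind := by
  intro d K c ε hc hε
  obtain ⟨lam, hl⟩ : ∃ lam : ℝ, lam = 16 * K / ε + 1 := ⟨_, rfl⟩
  obtain ⟨C, hC⟩ : ∃ C : ℝ, C = Real.exp (2 * K * ((c + 1) * Real.exp (c + 1))) := ⟨_, rfl⟩
  have hl0 : 0 < lam := by rw [hl]; positivity
  have hC0 : 0 < C := by rw [hC]; positivity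
  refine ⟨lam + c * lam + 2 * c * C / ε, 4, fun N B₀ hN hB => ?_⟩
  obtain ⟨y, hy⟩ : ∃ y, y = Nat.log 4 N := ⟨_, rfl⟩
  have h1 : 4 ^ y ≤ N := hy ▸ Nat.pow_log_le_self 4 (by omega)
  have h2 : N < 4 ^ (y + 1) := hy ▸ Nat.lt_pow_succ_log_self (by norm_num) N
  have h3 : 0 < y := hy ▸ Nat.log_pos (by norm_num) hN
  have h4 : y ≤ N := (Nat.lt_pow_self (by norm_num)).le.trans h1
  have h5 : primorial y ≤ B₀ := (primorial_le_four_pow y).trans (h1.trans hB)
  have h6 := Nat.div_add_mod B₀ (primorial y)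
  have h7 := Nat.mod_lt B₀ (primorial_pos y)
  have h8 : B₀ ≤ primorial y * (B₀ / primorial y + 1) := by rw [mul_add_one]; omega
  refine ⟨_, h8, by rw [mul_add_one]; omega, fun Λ X hΛ hX => ?_⟩
  have h9 : primorial y ∣ primorial y * (B₀ / primorial y + 1) := dvd_mul_right _ _
  generalize primorial y * (B₀ / primorial y + 1) = B at h8 h9 ⊢
  have hy0 : (0 : ℝ) < y := by exact_mod_cast h3
  have hL0 : 0 ≤ Real.log N := Real.log_natCast_nonneg N
  have hL : Real.log N ≤ 4 * y := by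
    have e1 : Real.log N ≤ Real.log (4 ^ (y + 1)) :=
      Real.log_le_log (by exact_mod_cast (by omega : 0 < N)) (by exact_mod_cast h2.le)
    have e2 : Real.log 4 ≤ 2 := by
      rw [show (4 : ℝ) = 2 ^ 2 by norm_num, Real.log_pow]
      have := Real.log_le_sub_one_of_pos (by norm_num : (0 : ℝ) < 2)
      push_cast
      linarith
    have e3 : (1 : ℝ) ≤ y := by exact_mod_cast h3
    rw [Real.log_pow] at e1
    push_cast at e1
    nlinarith
  have hs := small (B := B) (by omega) hΛ (a := c + 1) (by positivity)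
    ((range (y + 1)).filter Nat.Prime) (fun p hp => (mem_filter.1 hp).2) h9
  have hs' : ∑ p ∈ (range (y + 1)).filter Nat.Prime, ((p : ℝ) ^ 2)⁻¹ ≤ 1 := by
    refine (sum_le_sum_of_subset_of_nonneg (t := Ioc 1 y) (fun p hp => ?_)
      fun _ _ _ => by positivity).trans ((sum_Ioc_inv_sq_le_sub one_ne_zero h3).trans ?_)
    · rw [mem_filter, mem_range] at hp
      exact mem_Ioc.2 ⟨hp.2.one_lt, by omega⟩
    · rw [Nat.cast_one, inv_one]
      exact sub_le_self _ (by positivity)
  have hs2 := hs.trans (mul_le_mul_of_nonneg_right (Real.exp_le_exp.2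
    (mul_le_of_le_one_right (by positivity) hs')) (by positivity))
  rw [← hC] at hs2
  have hg := large (B := B) hΛ h3.ne' h4 (hB.trans h8)
  have hD : c * Real.exp (-(2 * c * C / ε)) * C ≤ ε / 2 := by
    have e1 := Real.add_one_le_exp (2 * c * C / ε)
    rw [Real.exp_neg, mul_right_comm, ← div_eq_mul_inv, div_le_iff₀ (Real.exp_pos _)]
    have e2 : ε / 2 * (2 * c * C / ε) = c * C := by field_simp
    nlinarith
  have hE : Real.log N / lam * (2 * K / y) ≤ ε / 2 := by
    rw [div_mul_div_comm, div_le_iff₀ (by positivity), hl]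
    have e2 : ε / 2 * ((16 * K / ε + 1) * y) = 4 * y * (2 * K) + ε / 2 * y := by
      field_simp
      ring
    rw [e2]
    exact (mul_le_mul_of_nonneg_right hL (by positivity)).trans
      (le_add_of_nonneg_right (by positivity))
  calc _ ≤ ∑ θ ∈ cube d B, (Real.log N / lam * ∑ p ∈ (Ioc y N).filter Nat.Prime, ind Λ p θ / p +
          c * Real.exp (-(2 * c * C / ε)) *
            Real.exp ((c + 1) * ∑ p ∈ (range (y + 1)).filter Nat.Prime, ind Λ p θ / p)) := by
        rw [sum_filter]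
        refine sum_le_sum fun θ _ => ?_
        have e1 := hX θ
        have e2 : 0 ≤ ∑ p ∈ (Ioc y N).filter Nat.Prime, ind Λ p θ / p :=
          sum_nonneg fun p _ => div_nonneg (ind_nonneg p θ) (by positivity)
        rw [bad_eq h4] at e1 ⊢
        generalize ∑ p ∈ (Ioc y N).filter Nat.Prime, ind Λ p θ / p = u at e1 e2 ⊢
        generalize ∑ p ∈ (range (y + 1)).filter Nat.Prime, ind Λ p θ / p = v at e1 ⊢
        split_ifs with h
        · rcases le_total lam u with h' | h'
          · refine e1.1.trans (le_add_of_le_of_nonneg ?_ (by positivity))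
            rw [div_mul_eq_mul_div, le_div_iff₀ hl0]
            exact mul_le_mul_of_nonneg_left h' hL0
          · refine e1.2.trans (le_add_of_nonneg_of_le (by positivity) ?_)
            rw [mul_assoc, ← Real.exp_add]
            refine mul_le_mul_of_nonneg_left (Real.exp_le_exp.2 ?_) hc
            nlinarith [mul_le_mul_of_nonneg_left h' hc]
        · positivity
    _ ≤ Real.log N / lam * (2 * K / y * (2 * B : ℝ) ^ d) +
          c * Real.exp (-(2 * c * C / ε)) * (C * (2 * B : ℝ) ^ d) := by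
        rw [sum_add_distrib, ← mul_sum, ← mul_sum]
        exact add_le_add (mul_le_mul_of_nonneg_left hg (by positivity))
          (mul_le_mul_of_nonneg_left hs2 (by positivity))
    _ ≤ _ := by
        rw [← mul_assoc, ← mul_assoc, ← add_mul]
        exact mul_le_mul_of_nonneg_right (by linarith) (by positivity)

end Pool.Agent.P.MP_e4219a_lc
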