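import Pool.Agent.P.MP_e4219a_lc.Bund

/-! The automorphism `(x, y) ↦ (x / ζ ^ 2, y / ζ ^ 3)` of the curves with complex multiplication. -/

namespace Pool.Agent.P.MP_e4219a_lc

open Polynomial WeierstrassCurve.Affine
open scoped Classical

namespace IotaP

variable {F : Type} [Field F]

theorem eqn (a₃ a₄ x y : F) :
    (Wc a₃ a₄).Equation x y ↔ y ^ 2 + a₃ * y = x ^ 3 + a₄ * x := by
  rw [equation_iff]
  simp only [Wc]
  constructor <;> intro h <;> linear_combination h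

theorem ns [CharZero F] {ℓ : ℕ} {ζ a₃ a₄ : F} (hC : CM ℓ ζ a₃ a₄) (x y : F) :
    (Wc a₃ a₄).Nonsingular x y ↔ y ^ 2 + a₃ * y = x ^ 3 + a₄ * x := by
  rw [nonsingular_iff', eqn]
  refine ⟨fun h => h.1, fun h => ⟨h, ?_⟩⟩
  by_contra hn
  rw [not_or, not_not, not_not] at hn
  obtain ⟨h1, h2⟩ := hn
  simp only [Wc] at h1 h2
  rcases hC with ⟨-, -, h3, h4⟩ | ⟨-, -, h4, h3⟩
  · subst h3
    have hy : y = 0 := by linear_combination (1 / 2 : F) * h2
    subst hy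
    have hx : a₄ * x = 0 := by linear_combination (-3 / 2 : F) * h + (1 / 2 : F) * x * h1
    have hx0 : x = 0 := (mul_eq_zero.1 hx).resolve_left h4
    subst hx0
    exact h4 (by linear_combination -h1)
  · subst h4
    have hx : x ^ 2 = 0 := by linear_combination (-1 / 3 : F) * h1
    have hx0 : x = 0 := pow_eq_zero_iff two_ne_zero |>.1 hx
    subst hx0
    have : a₃ ^ 2 = 0 := by linear_combination (-4 : F) * h + (2 * y + a₃) * h2
    exact h3 (pow_eq_zero_iff two_ne_zero |>.1 this)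

theorem negY_eq (a₃ a₄ x y : F) : (Wc a₃ a₄).negY x y = -y - a₃ := by
  simp [negY, Wc]

theorem addX_eq (a₃ a₄ x₁ x₂ l : F) : (Wc a₃ a₄).addX x₁ x₂ l = l ^ 2 - x₁ - x₂ := by
  simp [addX, Wc]

theorem addY_eq (a₃ a₄ x₁ x₂ y₁ l : F) :
    (Wc a₃ a₄).addY x₁ x₂ y₁ l = -(l * (l ^ 2 - x₁ - x₂ - x₁) + y₁) - a₃ := by
  rw [addY, negY_eq, negAddY, addX_eq]

theorem some_congr {a₃ a₄ x y x' y' : F} (h : (Wc a₃ a₄).Nonsingular x y)
    (h' : (Wc a₃ a₄).Nonsingular x' y') (hx : x = x') (hy : y = y') :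
    (.some x y h : Pt a₃ a₄) = .some x' y' h' := by
  subst hx hy
  rfl

section scale

variable {a₃ a₄ c : F}

theorem negY_sc (h3 : a₃ * c ^ 3 = a₃) (x y : F) :
    (Wc a₃ a₄).negY (x * c ^ 2) (y * c ^ 3) = (Wc a₃ a₄).negY x y * c ^ 3 := by
  rw [negY_eq, negY_eq]
  linear_combination h3

theorem slope_sc (hc : c ≠ 0) (h3 : a₃ * c ^ 3 = a₃) (h4 : a₄ * c ^ 4 = a₄) (x₁ x₂ y₁ y₂ : F) :
    (Wc a₃ a₄).slope (x₁ * c ^ 2) (x₂ * c ^ 2) (y₁ * c ^ 3) (y₂ * c ^ 3) =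
      (Wc a₃ a₄).slope x₁ x₂ y₁ y₂ * c := by
  have hc2 : c ^ 2 ≠ 0 := pow_ne_zero _ hc
  have hc3 : c ^ 3 ≠ 0 := pow_ne_zero _ hc
  by_cases hx : x₁ = x₂
  · subst hx
    by_cases hy : y₁ = (Wc a₃ a₄).negY x₁ y₂
    · rw [slope_of_Y_eq rfl hy, slope_of_Y_eq rfl (by rw [negY_sc h3, hy]), zero_mul]
    · have hy' : y₁ * c ^ 3 ≠ (Wc a₃ a₄).negY (x₁ * c ^ 2) (y₂ * c ^ 3) := by
        rw [negY_sc h3]
        exact fun h => hy (mul_right_cancel₀ hc3 h)
      rw [slope_of_Y_ne rfl hy, slope_of_Y_ne rfl hy', negY_sc h3, ← sub_mul]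
      have e : 3 * (x₁ * c ^ 2) ^ 2 + 2 * (Wc a₃ a₄).a₂ * (x₁ * c ^ 2) + (Wc a₃ a₄).a₄ -
          (Wc a₃ a₄).a₁ * (y₁ * c ^ 3) =
          (3 * x₁ ^ 2 + 2 * (Wc a₃ a₄).a₂ * x₁ + (Wc a₃ a₄).a₄ - (Wc a₃ a₄).a₁ * y₁) * c * c ^ 3 := by
        simp only [Wc]
        linear_combination -h4
      rw [e, mul_div_mul_right _ _ hc3, div_mul_eq_mul_div]
  · have hx' : x₁ * c ^ 2 ≠ x₂ * c ^ 2 := fun h => hx (mul_right_cancel₀ hc2 h)
    rw [slope_of_X_ne hx, slope_of_X_ne hx']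
    have := sub_ne_zero.2 hx
    have := sub_ne_zero.2 hx'
    field_simp

theorem ns_sc (hN : ∀ x y, (Wc a₃ a₄).Nonsingular x y ↔ y ^ 2 + a₃ * y = x ^ 3 + a₄ * x)
    (h3 : a₃ * c ^ 3 = a₃) (h4 : a₄ * c ^ 4 = a₄) {x y : F} (h : (Wc a₃ a₄).Nonsingular x y) :
    (Wc a₃ a₄).Nonsingular (x * c ^ 2) (y * c ^ 3) := by
  rw [hN] at h ⊢
  linear_combination c ^ 6 * h - y * c ^ 3 * h3 + x * c ^ 2 * h4

/-- the scaling map on points -/
def sc (hN : ∀ x y, (Wc a₃ a₄).Nonsingular x y ↔ y ^ 2 + a₃ * y = x ^ 3 + a₄ * x)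
    (h3 : a₃ * c ^ 3 = a₃) (h4 : a₄ * c ^ 4 = a₄) : Pt a₃ a₄ → Pt a₃ a₄
  | .zero => .zero
  | .some x y h => .some (x * c ^ 2) (y * c ^ 3) (ns_sc hN h3 h4 h)

theorem sc_add (hc : c ≠ 0)
    (hN : ∀ x y, (Wc a₃ a₄).Nonsingular x y ↔ y ^ 2 + a₃ * y = x ^ 3 + a₄ * x)
    (h3 : a₃ * c ^ 3 = a₃) (h4 : a₄ * c ^ 4 = a₄) (R R' : Pt a₃ a₄) :
    sc hN h3 h4 (R + R') = sc hN h3 h4 R + sc hN h3 h4 R' := by
  have hc2 : c ^ 2 ≠ 0 := pow_ne_zero _ hc
  have hc3 : c ^ 3 ≠ 0 := pow_ne_zero _ hc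
  rcases R with _ | ⟨x₁, y₁, h₁⟩
  · change sc hN h3 h4 (0 + R') = 0 + sc hN h3 h4 R'
    rw [zero_add, zero_add]
  rcases R' with _ | ⟨x₂, y₂, h₂⟩
  · change sc hN h3 h4 (.some x₁ y₁ h₁ + 0) = sc hN h3 h4 (.some x₁ y₁ h₁) + 0
    rw [add_zero, add_zero]
  by_cases hxy : x₁ = x₂ ∧ y₁ = (Wc a₃ a₄).negY x₂ y₂
  · rw [Point.add_of_Y_eq hxy.1 hxy.2]
    change (0 : Pt a₃ a₄) = .some _ _ _ + .some _ _ _
    rw [Point.add_of_Y_eq (by rw [hxy.1]) (by rw [negY_sc h3, ← hxy.2])]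
  · have hxy' : ¬ (x₁ * c ^ 2 = x₂ * c ^ 2 ∧
        y₁ * c ^ 3 = (Wc a₃ a₄).negY (x₂ * c ^ 2) (y₂ * c ^ 3)) := by
      rw [negY_sc h3]
      exact fun h => hxy ⟨mul_right_cancel₀ hc2 h.1, mul_right_cancel₀ hc3 h.2⟩
    rw [Point.add_some hxy]
    change (.some _ _ _ : Pt a₃ a₄) = .some _ _ _ + .some _ _ _
    rw [Point.add_some hxy']
    apply some_congr
    · rw [slope_sc hc h3 h4, addX_eq, addX_eq]
      ring
    · rw [slope_sc hc h3 h4, addY_eq, addY_eq]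
      linear_combination -h3

/-- the scaling map as an endomorphism -/
noncomputable def scE (hc : c ≠ 0)
    (hN : ∀ x y, (Wc a₃ a₄).Nonsingular x y ↔ y ^ 2 + a₃ * y = x ^ 3 + a₄ * x)
    (h3 : a₃ * c ^ 3 = a₃) (h4 : a₄ * c ^ 4 = a₄) : Module.End ℤ (Pt a₃ a₄) :=
  (AddMonoidHom.mk' (sc hN h3 h4) (sc_add hc hN h3 h4)).toIntLinearMap

theorem scE_some (hc : c ≠ 0)
    (hN : ∀ x y, (Wc a₃ a₄).Nonsingular x y ↔ y ^ 2 + a₃ * y = x ^ 3 + a₄ * x)
    (h3 : a₃ * c ^ 3 = a₃) (h4 : a₄ * c ^ 4 = a₄) (x y : F) (h : (Wc a₃ a₄).Nonsingular x y) :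
    scE hc hN h3 h4 (.some x y h) = .some (x * c ^ 2) (y * c ^ 3) (ns_sc hN h3 h4 h) := rfl

end scale

/-- a point of order three doubles to its negative -/
theorem dbl [CharZero F] {a₃ y : F} (ha : a₃ ≠ 0) (h : (Wc a₃ 0).Nonsingular 0 y)
    (he : y ^ 2 + a₃ * y = 0) :
    (.some 0 y h : Pt a₃ 0) + .some 0 y h = -.some 0 y h := by
  have hy : y ≠ (Wc a₃ 0).negY 0 y := by
    rw [negY_eq]
    intro e
    have : a₃ ^ 2 = 0 := by linear_combination (-4 : F) * he + (2 * y + a₃) * e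
    exact ha (pow_eq_zero_iff two_ne_zero |>.1 this)
  have hs : (Wc a₃ 0).slope 0 0 y y = 0 := by
    rw [slope_of_Y_ne rfl hy]
    simp [Wc]
  rw [Point.add_self_of_Y_ne hy, Point.neg_some]
  apply some_congr
  · rw [hs, addX_eq]
    ring
  · rw [hs, addY_eq, negY_eq]
    ring

end IotaP

open IotaP in
theorem p_iota : Z_Iota := by
  intro F _ _ ℓ ζ a₃ a₄ hC
  have hN := ns hC
  refine ⟨hN, ?_⟩
  have hζ : ζ ≠ 0 := by
    rintro rfl
    rcases hC with ⟨-, h, -⟩ | ⟨-, h, -⟩ <;> simp at h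
  have hc : ζ⁻¹ ≠ 0 := inv_ne_zero hζ
  have hm : ζ * ζ⁻¹ = 1 := mul_inv_cancel₀ hζ
  have h0 : (Wc a₃ a₄).Nonsingular 0 0 := (hN 0 0).2 (by ring)
  have hI : ∀ (h3 : a₃ * ζ⁻¹ ^ 3 = a₃) (h4 : a₄ * ζ⁻¹ ^ 4 = a₄), IsIota ζ (scE hc hN h3 h4) := by
    intro h3 h4 x y h
    have e2 : x * ζ⁻¹ ^ 2 = x / ζ ^ 2 := by rw [div_eq_mul_inv, inv_pow]
    have e3 : y * ζ⁻¹ ^ 3 = y / ζ ^ 3 := by rw [div_eq_mul_inv, inv_pow]
    exact ⟨e2 ▸ e3 ▸ ns_sc hN h3 h4 h, by rw [scE_some]; exact some_congr _ _ e2 e3⟩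
  have hT : ∀ (h3 : a₃ * ζ⁻¹ ^ 3 = a₃) (h4 : a₄ * ζ⁻¹ ^ 4 = a₄),
      scE hc hN h3 h4 (.some 0 0 h0) = .some 0 0 h0 := by
    intro h3 h4
    rw [scE_some]
    exact some_congr _ _ (zero_mul _) (zero_mul _)
  generalize ζ⁻¹ = c at hc hm hI hT
  rcases hC with ⟨rfl, hz, rfl, ha⟩ | ⟨rfl, hz, rfl, ha⟩
  · have hc2 : c ^ 2 = -1 := by linear_combination c ^ 2 * hz - (ζ * c + 1) * hm
    have h3 : (0 : F) * c ^ 3 = 0 := zero_mul _
    have h4 : a₄ * c ^ 4 = a₄ := by linear_combination a₄ * (c ^ 2 - 1) * hc2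
    have hrel : ∀ R : Pt 0 a₄,
        scE hc hN h3 h4 (scE hc hN h3 h4 R) + (2 - 2) • scE hc hN h3 h4 R + R = 0 := by
      intro R
      rw [Nat.sub_self, zero_nsmul, add_zero]
      rcases R with _ | ⟨x, y, h⟩
      · change scE hc hN h3 h4 (scE hc hN h3 h4 0) + 0 = 0
        rw [map_zero, map_zero, add_zero]
      · rw [scE_some, scE_some]
        apply Point.add_of_Y_eq
        · linear_combination x * (c ^ 2 - 1) * hc2
        · rw [negY_eq]
          linear_combination y * (c ^ 4 - c ^ 2 + 1) * hc2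
    refine ⟨scE hc hN h3 h4, h0, hI h3 h4, hrel, hT h3 h4, ?_, ?_, ?_⟩
    · have := hrel (.some 0 0 h0)
      rw [hT, hT, Nat.sub_self, zero_nsmul, add_zero] at this
      rw [two_nsmul, this]
    · intro R hR
      rcases R with _ | ⟨x, y, h⟩
      · exact ⟨0, by rw [zero_nsmul]; rfl⟩
      · rw [scE_some] at hR
        have hx : x * c ^ 2 = x := by injection hR
        have hx0 : x = 0 := by linear_combination (-1 / 2 : F) * hx + (1 / 2 : F) * x * hc2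
        have he := (hN x y).1 h
        have hy : y ^ 2 = 0 := by rw [hx0] at he; linear_combination he
        exact ⟨1, by rw [one_nsmul]; exact some_congr _ _ hx0 (pow_eq_zero_iff two_ne_zero |>.1 hy)⟩
    · intro R
      rcases R with _ | ⟨x, y, h⟩
      · exact ⟨1, by
          change al 2 (scE hc hN h3 h4 0) = 1 * 1 ^ 2
          rw [map_zero, one_pow, one_mul]
          rfl⟩
      · rw [scE_some]
        simp only [al, if_true]
        by_cases hx : x = 0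
        · exact ⟨1, by simp [hx]⟩
        · exact ⟨c, by rw [if_neg hx, if_neg (mul_ne_zero hx (pow_ne_zero _ hc))]⟩
  · have hq : c ^ 2 + c + 1 = 0 := by
      linear_combination c ^ 2 * hz - (ζ * c + 1 + c) * hm
    have hc3 : c ^ 3 = 1 := by linear_combination (c - 1) * hq
    have h3 : a₃ * c ^ 3 = a₃ := by rw [hc3, mul_one]
    have h4 : (0 : F) * c ^ 4 = 0 := zero_mul _
    have hc1 : c ^ 2 - 1 ≠ 0 := by
      intro e
      have : (3 : F) = 0 := by linear_combination (2 - c) * hq + (c - 1) * e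
      exact three_ne_zero this
    have hrel : ∀ R : Pt a₃ 0,
        scE hc hN h3 h4 (scE hc hN h3 h4 R) + (3 - 2) • scE hc hN h3 h4 R + R = 0 := by
      intro R
      rw [show 3 - 2 = 1 from rfl, one_nsmul]
      rcases R with _ | ⟨x, y, h⟩
      · change scE hc hN h3 h4 (scE hc hN h3 h4 0) + scE hc hN h3 h4 0 + 0 = 0
        rw [map_zero, map_zero, add_zero, add_zero]
      · by_cases hx : x = 0
        · subst hx
          have e : scE hc hN h3 h4 (.some 0 y h) = .some 0 y h := by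
            rw [scE_some]
            exact some_congr _ _ (zero_mul _) (by rw [hc3, mul_one])
          rw [e, e, dbl ha h (by linear_combination (hN 0 y).1 h), neg_add_cancel]
        · rw [scE_some, scE_some, add_eq_zero_iff_eq_neg, Point.neg_some]
          have hne : x * c ^ 2 * c ^ 2 ≠ x * c ^ 2 := by
            intro e
            have : x * c ^ 2 * (c ^ 2 - 1) = 0 := by linear_combination e
            exact mul_ne_zero (mul_ne_zero hx (pow_ne_zero _ hc)) hc1 this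
          have hs : (Wc a₃ 0).slope (x * c ^ 2 * c ^ 2) (x * c ^ 2) (y * c ^ 3 * c ^ 3)
              (y * c ^ 3) = 0 := by
            rw [slope_of_X_ne hne, hc3]
            simp
          rw [Point.add_of_X_ne hne]
          apply some_congr
          · rw [hs, addX_eq]
            linear_combination -x * (c ^ 2 - c + 1) * hq
          · rw [hs, addY_eq, negY_eq, hc3]
            ring
    refine ⟨scE hc hN h3 h4, h0, hI h3 h4, hrel, hT h3 h4, ?_, ?_, ?_⟩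
    · have := hrel (.some 0 0 h0)
      rw [hT, hT, show 3 - 2 = 1 from rfl, one_nsmul] at this
      rw [three_nsmul, ← add_assoc, this]
    · intro R hR
      rcases R with _ | ⟨x, y, h⟩
      · exact ⟨0, by rw [zero_nsmul]; rfl⟩
      · rw [scE_some] at hR
        have hx : x * c ^ 2 = x := by injection hR
        have hx0 : x = 0 := by
          have : x * (c ^ 2 - 1) = 0 := by linear_combination hx
          exact (mul_eq_zero.1 this).resolve_right hc1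
        have he := (hN x y).1 h
        have hy : y * (y + a₃) = 0 := by rw [hx0] at he; linear_combination he
        rcases mul_eq_zero.1 hy with e | e
        · exact ⟨1, by rw [one_nsmul]; exact some_congr _ _ hx0 e⟩
        · refine ⟨2, ?_⟩
          rw [two_nsmul, dbl ha h0 (by ring), Point.neg_some]
          exact some_congr _ _ hx0 (by rw [negY_eq]; linear_combination e)
    · intro R
      rcases R with _ | ⟨x, y, h⟩
      · exact ⟨1, by
          change al 3 (scE hc hN h3 h4 0) = 1 * 1 ^ 3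
          rw [map_zero, one_pow, one_mul]
          rfl⟩
      · rw [scE_some]
        have e : ¬ (3 = 2) := by norm_num
        simp only [al, if_neg e]
        by_cases hy : y = 0
        · exact ⟨1, by simp [hy]⟩
        · exact ⟨c, by rw [if_neg hy, if_neg (mul_ne_zero hy (pow_ne_zero _ hc))]⟩

end Pool.Agent.P.MP_e4219a_lc
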