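import Pool.Agent.P.MP_e4219a_lc.Bund

/-! The local image of the descent map is isotropic. -/

namespace Pool.Agent.P.MP_e4219a_lc

open NumberField IsDedekindDomain

namespace IsoP

variable {F : Type} [Field F] [CharZero F]

theorem two {i X Y x y : F} (hi : i ^ 2 + 1 = 0) (h : Y ^ 2 = X ^ 3 - X) (hX : X ≠ 0)
    (h' : y ^ 2 = x ^ 3 - x) : NV 2 X x := by
  have h2 : El 2 := Or.inl rfl
  have hs : (∃ β, X = β ^ 2) → NV 2 X x := by
    rintro ⟨β, rfl⟩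
    exact NV.split h2 (fun e => hX (by rw [e]; norm_num)) x
  have hi0 : i ≠ 0 := by
    rintro rfl
    norm_num at hi
  by_cases hY : Y = 0
  · have h1 : (X - 1) * (X + 1) = 0 := by
      refine mul_left_cancel₀ hX ?_
      rw [hY] at h
      linear_combination -h
    rcases mul_eq_zero.1 h1 with e | e
    · exact hs ⟨1, by linear_combination e⟩
    · exact hs ⟨i, by linear_combination e - hi⟩
  by_cases h0 : Nf 2 X (x - i * X) (i * Y / X) 0 = 0
  · exact hs (Nf_zero_two h0 (div_ne_zero (mul_ne_zero hi0 hY) hX))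
  have e1 : Nf 2 X (x - i * X) (i * Y / X) 0 = x ^ 2 - 1 - 2 * i * x * X := by
    rw [Nf_two]
    field_simp
    linear_combination (X ^ 3 - Y ^ 2) * hi + h
  have e : x = Nf 2 X y ((1 + i) * x) 0 / Nf 2 X (x - i * X) (i * Y / X) 0 := by
    rw [eq_div_iff h0, e1, Nf_two]
    linear_combination -h' + X * x ^ 2 * hi
  rw [e]
  exact NV.div h2 ⟨_, _, _, rfl⟩ ⟨_, _, _, rfl⟩

theorem three {ω X Y x y : F} (hω : ω ^ 2 + ω + 1 = 0) (h : Y ^ 2 + Y = X ^ 3) (hY : Y ≠ 0)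
    (h' : y ^ 2 + y = x ^ 3) : NV 3 Y y := by
  have h3 : El 3 := Or.inr rfl
  have hw : ω ^ 3 = 1 := by linear_combination (ω - 1) * hω
  by_cases h0 : Nf 3 Y (x + X) (X ^ 2 / Y) 1 = 0
  · obtain ⟨β, rfl⟩ := Nf_zero_three h0 one_ne_zero
    exact NV.split h3 (fun e => hY (by rw [e]; norm_num)) y
  have e1 : Nf 3 Y (x + X) (X ^ 2 / Y) 1 = x ^ 3 + 3 * x ^ 2 * X + 1 := by
    rw [Nf_three]
    field_simp
    linear_combination (Y ^ 2 - Y - X ^ 3) * h
  have e2 : Nf 3 Y y (-ω ^ 2 * x) (ω * x * X / Y) = y ^ 3 + x ^ 3 + 3 * y * x ^ 2 * X := by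
    rw [Nf_three]
    field_simp
    linear_combination (-(ω ^ 3 + 1) * Y ^ 2 * x ^ 3 + x ^ 3 * X ^ 3 + 3 * y * x ^ 2 * X * Y) * hw -
      x ^ 3 * h
  have e : y = Nf 3 Y y (-ω ^ 2 * x) (ω * x * X / Y) / Nf 3 Y (x + X) (X ^ 2 / Y) 1 := by
    rw [eq_div_iff h0, e1, e2]
    linear_combination (1 - y) * h'
  rw [e]
  exact NV.div h3 ⟨_, _, _, rfl⟩ ⟨_, _, _, rfl⟩

end IsoP

theorem p_iso (h : T1) : Z_Iso := by
  intro L _ _ ℓ ζ b c v hζ hb hc
  have hℓ := hζ.el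
  have : CharZero (v.adicCompletion L) := algebraRat.charZero _
  obtain ⟨X, Y, r, hr, hb⟩ := hb
  obtain ⟨x, y, s, hs, hc⟩ := hc
  have hz := hζ.map (algebraMap L (v.adicCompletion L))
  have hc0 : c ≠ 0 := by
    rintro rfl
    rw [map_zero] at hc
    rcases hc with e | ⟨-, -, h1, e⟩ | ⟨-, -, h1, e⟩
    · exact pow_ne_zero _ hs e.symm
    · exact mul_ne_zero h1 (pow_ne_zero _ hs) e.symm
    · exact mul_ne_zero h1 (pow_ne_zero _ hs) e.symm
  refine (h.hen L ℓ v hℓ).2.2 b c hc0 ?_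
  rcases hb with e | hb
  · rw [e]
    exact NV.split hℓ hr _
  rcases hc with e | hc
  · rw [e]
    exact NV.pow hℓ _ _
  rcases hb with ⟨rfl, h1, h2, e⟩ | ⟨rfl, h1, h2, e⟩
  · obtain ⟨-, h3, -, e'⟩ := hc.resolve_right fun h => by norm_num at h
    obtain ⟨-, hi⟩ := hz.resolve_right fun h => by norm_num at h
    rw [e, e']
    exact NV.scale hℓ hr ((IsoP.two hi h1 h2 h3).mul hℓ (NV.pow hℓ _ _))
  · obtain ⟨-, h3, -, e'⟩ := hc.resolve_left fun h => by norm_num at h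
    obtain ⟨-, hi⟩ := hz.resolve_left fun h => by norm_num at h
    rw [e, e']
    exact NV.scale hℓ hr ((IsoP.three hi h1 h2 h3).mul hℓ (NV.pow hℓ _ _))

end Pool.Agent.P.MP_e4219a_lc
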