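import Pool.Agent.P.MP_e4219a_lc.Bund

/-! Package KI: a power that appears in a Kummer extension. -/

namespace Pool.Agent.P.MP_e4219a_lc

namespace KIP

variable {L M : Type} [Field L] [Field M] [Algebra L M]

/-- every element of `L(β)` is a polynomial of degree at most two in `β` -/
theorem span3 {ℓ : ℕ} (hℓ : El ℓ) {b : L} {β : M} (hβ : β ^ ℓ = algebraMap L M b)
    (ht : IntermediateField.adjoin L {β} = ⊤) (z : M) :
    ∃ r s t : L, z = algebraMap L M r + algebraMap L M s * β + algebraMap L M t * β ^ 2 ∧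
      (ℓ = 2 → t = 0) := by
  have hi : IsIntegral L β :=
    IsIntegral.of_pow hℓ.prime.pos (hβ ▸ isIntegral_algebraMap)
  have hz : z ∈ Algebra.adjoin L {β} := by
    rw [← IntermediateField.adjoin_simple_toSubalgebra_of_isAlgebraic hi.isAlgebraic, ht]
    trivial
  induction hz using Algebra.adjoin_induction with
  | mem x hx =>
    rw [Set.mem_singleton_iff.1 hx]
    exact ⟨0, 1, 0, by simp, fun _ => rfl⟩
  | algebraMap r => exact ⟨r, 0, 0, by simp, fun _ => rfl⟩
  | add x y _ _ hx hy =>
    obtain ⟨r, s, t, rfl, h⟩ := hx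
    obtain ⟨r', s', t', rfl, h'⟩ := hy
    exact ⟨r + r', s + s', t + t', by simp only [map_add]; ring, fun e => by
      rw [h e, h' e, add_zero]⟩
  | mul x y _ _ hx hy =>
    obtain ⟨r, s, t, rfl, h⟩ := hx
    obtain ⟨r', s', t', rfl, h'⟩ := hy
    rcases hℓ with rfl | rfl
    · rw [h rfl, h' rfl]
      refine ⟨r * r' + b * s * s', r * s' + s * r', 0, ?_, fun _ => rfl⟩
      simp only [map_add, map_mul, map_zero, ← hβ]
      ring
    · refine ⟨r * r' + b * (s * t' + t * s'), r * s' + s * r' + b * t * t',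
        r * t' + s * s' + t * r', ?_, fun e => absurd e (by norm_num)⟩
      simp only [map_add, map_mul, ← hβ]
      ring

theorem ind2 {b : L} (hb : ¬ ∃ c, b = c ^ 2) {β : M} (hβ : β ^ 2 = algebraMap L M b) {a c : L}
    (h : algebraMap L M a + algebraMap L M c * β = 0) : a = 0 ∧ c = 0 := by
  have h1 : Nf 2 b a c 0 = 0 := by
    apply (algebraMap L M).injective
    rw [Nf_two]
    simp only [map_sub, map_mul, map_pow, map_zero, ← hβ]
    linear_combination (algebraMap L M a - algebraMap L M c * β) * h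
  have hc : c = 0 := by
    by_contra hc
    exact hb (Nf_zero_two h1 hc)
  rw [hc] at h
  exact ⟨by simpa using h, hc⟩

theorem ind3 {b : L} (hb : ¬ ∃ c, b = c ^ 3) {β : M} (hβ : β ^ 3 = algebraMap L M b) {a c d : L}
    (h : algebraMap L M a + algebraMap L M c * β + algebraMap L M d * β ^ 2 = 0) :
    a = 0 ∧ c = 0 ∧ d = 0 := by
  have h1 : Nf 3 b a c d = 0 := by
    apply (algebraMap L M).injective
    rw [Nf_three]
    simp only [map_sub, map_add, map_mul, map_pow, map_zero, map_ofNat, ← hβ]
    linear_combination (algebraMap L M a ^ 2 + (algebraMap L M c * β) ^ 2 +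
      (algebraMap L M d * β ^ 2) ^ 2 - algebraMap L M a * (algebraMap L M c * β) -
      algebraMap L M a * (algebraMap L M d * β ^ 2) -
      (algebraMap L M c * β) * (algebraMap L M d * β ^ 2)) * h
  have hd : d = 0 := by
    by_contra hd
    exact hb (Nf_zero_three h1 hd)
  have hc : c = 0 := by
    by_contra hc
    rw [Nf_three, hd] at h1
    exact hb ⟨-a / c, by field_simp; linear_combination h1⟩
  rw [hc, hd] at h
  exact ⟨by simpa using h, hc, hd⟩

/-- a root of a power lies in the base field -/
theorem root_mem (hO : Om L) {ℓ : ℕ} (hℓ : El ℓ) {c : L} {β : M}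
    (hβ : β ^ ℓ = algebraMap L M (c ^ ℓ)) : ∃ d : L, β = algebraMap L M d := by
  rw [map_pow] at hβ
  rcases hℓ with rfl | rfl
  · have : (β - algebraMap L M c) * (β + algebraMap L M c) = 0 := by linear_combination hβ
    rcases mul_eq_zero.1 this with h | h
    · exact ⟨c, by linear_combination h⟩
    · exact ⟨-c, by rw [map_neg]; linear_combination h⟩
  · obtain ⟨ω, hω⟩ := hO
    have hω' : algebraMap L M ω ^ 2 + algebraMap L M ω + 1 = 0 := by
      simpa using congrArg (algebraMap L M) hω
    have : (β - algebraMap L M c) * ((β - algebraMap L M ω * algebraMap L M c) *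
        (β + (algebraMap L M ω + 1) * algebraMap L M c)) = 0 := by
      linear_combination hβ - (β - algebraMap L M c) * algebraMap L M c ^ 2 * hω'
    rcases mul_eq_zero.1 this with h | h
    · exact ⟨c, by linear_combination h⟩
    · rcases mul_eq_zero.1 h with h | h
      · exact ⟨ω * c, by rw [map_mul]; linear_combination h⟩
      · exact ⟨-((ω + 1) * c), by
          rw [map_neg, map_mul, map_add, map_one]; linear_combination h⟩

end KIP

theorem p_ki : Z_KI := by
  intro L M _ _ _ _ ℓ b y β hO hℓ hb0 hβ ht ⟨z, hz⟩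
  obtain ⟨r, s, t, rfl, h2⟩ := KIP.span3 hℓ hβ ht z
  by_cases hb : ∃ c, b = c ^ ℓ
  · obtain ⟨c, rfl⟩ := hb
    obtain ⟨d, rfl⟩ := KIP.root_mem hO hℓ hβ
    refine ⟨0, r + s * d + t * d ^ 2, (algebraMap L M).injective ?_⟩
    simp only [pow_zero, mul_one, map_pow, map_add, map_mul, hz]
  rcases hℓ with rfl | rfl
  · rw [h2 rfl] at hz
    obtain ⟨h3, h4⟩ := KIP.ind2 hb hβ (a := r ^ 2 + b * s ^ 2 - y) (c := 2 * r * s) (by
      simp only [map_sub, map_add, map_mul, map_pow, map_ofNat, ← hβ, hz, map_zero]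
      ring)
    rcases mul_eq_zero.1 h4 with h | h
    · have hr : r = 0 := by simpa using h
      exact ⟨1, b * s, by rw [hr] at h3; linear_combination -b * h3⟩
    · exact ⟨0, r, by rw [h] at h3; linear_combination -h3⟩
  · obtain ⟨h3, h4, h5⟩ := KIP.ind3 hb hβ
      (a := r ^ 3 + b * s ^ 3 + b ^ 2 * t ^ 3 + 6 * b * r * s * t - y)
      (c := 3 * (r ^ 2 * s + b * r * t ^ 2 + b * s ^ 2 * t))
      (d := 3 * (r * s ^ 2 + r ^ 2 * t + b * s * t ^ 2)) (by
      simp only [map_sub, map_add, map_mul, map_pow, map_ofNat, ← hβ, hz]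
      ring)
    have h6 : r * (b * t ^ 3 - s ^ 3) = 0 := by linear_combination (t * h4 - s * h5) / 3
    rcases mul_eq_zero.1 h6 with hr | h7
    · rw [hr] at h3 h4
      have h8 : s ^ 2 * t = 0 := by
        apply mul_left_cancel₀ hb0
        linear_combination h4 / 3
      rcases mul_eq_zero.1 h8 with h | h
      · have hs : s = 0 := by simpa using h
        exact ⟨1, b * t, by rw [hs] at h3; linear_combination -b * h3⟩
      · exact ⟨2, b * s, by rw [h] at h3; linear_combination -b ^ 2 * h3⟩
    · have ht0 : t = 0 := by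
        by_contra h
        exact hb ⟨s / t, by field_simp; linear_combination h7⟩
      have hs : s = 0 := by
        rw [ht0] at h7
        simpa using h7
      exact ⟨0, r, by rw [hs, ht0] at h3; linear_combination -h3⟩

end Pool.Agent.P.MP_e4219a_lc
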