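import Pool.Agent.P.MP_e4219a_lc.Bund

/-! Ramification and splitting of primes in a Kummer extension of degree two or three. -/

namespace Pool.Agent.P.MP_e4219a_lc

open NumberField IsDedekindDomain Polynomial Finset WithZero
open Pool.Agent.P.MP_b8021b_nt Pool.Agent.P.MP_b8021b_nt.VE Pool.Agent.P.MP_b8021b_nt.VC
open scoped Classical Pointwise

set_option linter.unusedSectionVars false

namespace KPP

variable {L M : Type} [Field L] [NumberField L] [Field M] [NumberField M] [Algebra L M]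

theorem frac (v : Pl L) {x : L} (hx : vl v x ≤ 1) :
    ∃ n d : 𝓞 L, d ∉ v.asIdeal ∧ x * d = n := by
  obtain ⟨n, d, h⟩ := v.exists_primeCompl_mul_eq_of_integer x hx
  exact ⟨n, d, d.2, h⟩

theorem cmul (a b : 𝓞 L) : ((a * b : 𝓞 L) : L) = a * b := map_mul (algebraMap (𝓞 L) L) a b

theorem csub (a b : 𝓞 L) : ((a - b : 𝓞 L) : L) = a - b := map_sub (algebraMap (𝓞 L) L) a b

theorem cpow (a : 𝓞 L) (k : ℕ) : ((a ^ k : 𝓞 L) : L) = a ^ k := map_pow (algebraMap (𝓞 L) L) a k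

theorem coe_alg (a : 𝓞 L) :
    ((algebraMap (𝓞 L) (𝓞 M) a : 𝓞 M) : M) = algebraMap L M (a : L) := rfl

theorem mem_iff {v : Pl L} {𝔓 : Ideal (𝓞 M)} (h : Und v 𝔓) (a : 𝓞 L) :
    algebraMap (𝓞 L) (𝓞 M) a ∈ 𝔓 ↔ a ∈ v.asIdeal := by
  rw [h, Ideal.mem_comap]

theorem dv_of {v : Pl L} {𝔓 : Ideal (𝓞 M)} (h : Und v 𝔓) {n : ℕ} (hn : (n : 𝓞 M) ∈ 𝔓) :
    Dv n v := (mem_iff h _).1 (by rwa [map_natCast])

/-- an integral multiple of the root -/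
theorem int_root {ℓ : ℕ} (hℓ : El ℓ) {b : L} {β : M} (hβ : β ^ ℓ = algebraMap L M b) (z : L)
    (b' : 𝓞 L) (e : b * z ^ ℓ = b') :
    ∃ B : 𝓞 M, (B : M) = algebraMap L M z * β ∧ B ^ ℓ = algebraMap (𝓞 L) (𝓞 M) b' := by
  have h1 : (algebraMap L M z * β) ^ ℓ = ((algebraMap (𝓞 L) (𝓞 M) b' : 𝓞 M) : M) := by
    rw [coe_alg, ← e, mul_pow, hβ, map_mul, map_pow, mul_comm]
  have h2 : IsIntegral ℤ (algebraMap L M z * β) :=
    IsIntegral.of_pow hℓ.prime.pos (by rw [h1]; exact RingOfIntegers.isIntegral_coe _)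
  exact ⟨⟨_, h2⟩, rfl, RingOfIntegers.ext (by push_cast; exact h1)⟩

/-- scaling to a unit -/
theorem scale {ℓ : ℕ} (hℓ : El ℓ) (v : Pl L) {b : L} (hb : b ≠ 0) (h : (ℓ : ℤ) ∣ od v b) :
    ∃ (z : L) (b' : 𝓞 L), z ≠ 0 ∧ b' ∉ v.asIdeal ∧ b * z ^ ℓ = b' := by
  obtain ⟨k, hk⟩ := h
  obtain ⟨π, h0, h1⟩ := exists_od_one v
  have hz : (π : L) ^ (-k) ≠ 0 := zpow_ne_zero _ h0
  have hx : b * ((π : L) ^ (-k)) ^ ℓ ≠ 0 := mul_ne_zero hb (pow_ne_zero _ hz)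
  have h2 : vl v (b * ((π : L) ^ (-k)) ^ ℓ) = 1 := by
    rw [← od_eq_zero_iff v hx, od_mul v hb (pow_ne_zero _ hz), od_pow, od_zpow, h1, hk]
    ring
  obtain ⟨n, d, hd, e⟩ := frac v h2.le
  have hd1 := (vl_coe_eq v d).2 hd
  have hd0 : (d : L) ≠ 0 := fun e => by simp [e] at hd1
  obtain ⟨m, hm⟩ := Nat.exists_eq_succ_of_ne_zero hℓ.prime.ne_zero
  have e2 : b * ((π : L) ^ (-k) * d) ^ ℓ = ((n * d ^ m : 𝓞 L) : L) := by
    rw [cmul, cpow, ← e, mul_pow, hm, pow_succ (d : L)]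
    ring
  refine ⟨_, n * d ^ m, mul_ne_zero hz hd0, (vl_coe_eq v _).1 ?_, e2⟩
  rw [← e2, mul_pow, ← mul_assoc, map_mul, h2, map_pow, hd1, one_pow, one_mul]

section Gal

variable [IsGalois L M]

theorem coe_smul (σ : M ≃ₐ[L] M) (x : 𝓞 M) : ((σ • x : 𝓞 M) : M) = σ (x : M) := rfl

theorem smul_alg (σ : M ≃ₐ[L] M) (a : 𝓞 L) :
    σ • algebraMap (𝓞 L) (𝓞 M) a = algebraMap (𝓞 L) (𝓞 M) a :=
  RingOfIntegers.ext (by rw [coe_smul, coe_alg, σ.commutes])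

theorem moves {ℓ : ℕ} (hℓ : El ℓ) {b : L} {β : M} (hK : Kum ℓ b β) {σ : M ≃ₐ[L] M} (hσ : σ ≠ 1) :
    σ β ≠ β := fun e => by
  have hc : Nat.card (M ≃ₐ[L] M) = ℓ := (IsGalois.card_aut_eq_finrank L M).trans hK.fin
  have : Fact (Nat.card (M ≃ₐ[L] M)).Prime := ⟨hc ▸ hℓ.prime⟩
  rcases (MulAction.stabilizer (M ≃ₐ[L] M) β).eq_bot_or_eq_top_of_prime_card with h | h
  · have : σ ∈ MulAction.stabilizer (M ≃ₐ[L] M) β := e
    rw [h] at this
    exact hσ (Subgroup.mem_bot.1 this)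
  · obtain ⟨z, hz⟩ := (IsGalois.mem_range_algebraMap_iff_fixed (F := L) β).2 fun τ => by
      have : τ ∈ MulAction.stabilizer (M ≃ₐ[L] M) β := h ▸ Subgroup.mem_top τ
      exact this
    exact hK.np ⟨z, (algebraMap L M).injective (by rw [map_pow, hz, hK.pow])⟩

theorem exists_ne {ℓ : ℕ} (hℓ : El ℓ) {b : L} {β : M} (hK : Kum ℓ b β) :
    ∃ σ : M ≃ₐ[L] M, σ ≠ 1 := by
  have hc : Nat.card (M ≃ₐ[L] M) = ℓ := (IsGalois.card_aut_eq_finrank L M).trans hK.fin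
  have : Nontrivial (M ≃ₐ[L] M) := Finite.one_lt_card_iff_nontrivial.1 (hc ▸ hℓ.prime.one_lt)
  exact _root_.exists_ne 1

/-- a prime that is stable and at which the root is congruent to an element of the base -/
theorem key {ℓ : ℕ} (hℓ : El ℓ) {b : L} {β : M} (hK : Kum ℓ b β) {v : Pl L} {𝔓 : Ideal (𝓞 M)}
    (hp : 𝔓.IsPrime) (hu : Und v 𝔓) {σ : M ≃ₐ[L] M} (hσ : σ ≠ 1) (hs : ∀ x ∈ 𝔓, σ • x ∈ 𝔓)
    {z : L} (hz : z ≠ 0) {b' : 𝓞 L} (hb' : b' ∉ v.asIdeal) {B : 𝓞 M}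
    (h1 : (B : M) = algebraMap L M z * β) (h2 : B ^ ℓ = algebraMap (𝓞 L) (𝓞 M) b') {a : 𝓞 L}
    (ha : B - algebraMap (𝓞 L) (𝓞 M) a ∈ 𝔓) : Dv ℓ v := by
  have hB : B ∉ 𝔓 := fun e => hb' ((mem_iff hu _).1 (h2 ▸ 𝔓.pow_mem_of_mem e _ hℓ.prime.pos))
  have h3 := hs _ ha
  rw [smul_sub, smul_alg] at h3
  have h4 : σ • B - B ∈ 𝔓 := by simpa using sub_mem h3 ha
  have h5 : σ • B - B ≠ 0 := fun e => moves hℓ hK hσ (by
    have := congrArg (fun y : 𝓞 M => (y : M)) (sub_eq_zero.1 e)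
    simp only [coe_smul, h1, map_mul, AlgEquiv.commutes] at this
    exact mul_left_cancel₀ ((_root_.map_ne_zero _).2 hz) this)
  have h6 : (σ • B) ^ ℓ = B ^ ℓ := by rw [← smul_pow', h2, smul_alg]
  refine dv_of hu ?_
  rcases hℓ with rfl | rfl
  · have h7 : σ • B + B = 0 := mul_left_cancel₀ h5 (by linear_combination h6)
    have h8 : ((2 : ℕ) : 𝓞 M) * B = -(σ • B - B) := by push_cast; linear_combination h7
    exact (hp.mem_or_mem (h8 ▸ neg_mem h4)).resolve_right hB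
  · have h7 : (σ • B) ^ 2 + σ • B * B + B ^ 2 = 0 :=
      mul_left_cancel₀ h5 (by linear_combination h6)
    have h8 : ((3 : ℕ) : 𝓞 M) * B ^ 2 = -(σ • B + 2 * B) * (σ • B - B) := by
      push_cast; linear_combination h7
    exact (hp.mem_or_mem (h8 ▸ 𝔓.mul_mem_left _ h4)).resolve_right fun e =>
      hB (hp.mem_of_pow_mem _ e)

/-- the dyadic case -/
theorem dyad {b : L} {β : M} (hK : Kum 2 b β) {v : Pl L} {𝔓 : Ideal (𝓞 M)}
    (hu : Und v 𝔓) {σ : M ≃ₐ[L] M} (hσ : σ ≠ 1) (hs : ∀ x ∈ 𝔓, σ • x ∈ 𝔓)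
    (hr : ∀ y : 𝓞 M, ∃ a : 𝓞 L, y - algebraMap (𝓞 L) (𝓞 M) a ∈ 𝔓) (h2 : Dv 2 v)
    (hb : vl v (b - 1) ≤ vl v 4) : False := by
  have h4 : vl v (4 : L) ≠ 0 := vl_ne v (by norm_num)
  obtain ⟨n, d, hd, e⟩ := frac v (x := (b - 1) / 4) (by
    rw [map_div₀]
    exact div_le_one_of_le₀ hb zero_le)
  have e' : (algebraMap L M b - 1) / 4 * algebraMap L M d = algebraMap L M n := by
    simpa [map_ofNat] using congrArg (algebraMap L M) e
  have hβ := hK.pow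
  have h5 : σ β = -β := by
    have h6 : σ β ^ 2 = β ^ 2 := by rw [← map_pow, hβ, σ.commutes]
    exact (sq_eq_sq_iff_eq_or_eq_neg.1 h6).resolve_left (moves (Or.inl rfl) hK hσ)
  have hi : IsIntegral (𝓞 L) (algebraMap L M d * (1 + β) / 2) := by
    refine ⟨X ^ 2 - (C d * X + C (d * n)), monic_X_pow_sub ((degree_linear_le).trans_lt
      (by norm_num)), ?_⟩
    simp only [eval₂_sub, eval₂_add, eval₂_mul, eval₂_pow, eval₂_X, eval₂_C, map_mul]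
    rw [IsScalarTower.algebraMap_apply (𝓞 L) L M, IsScalarTower.algebraMap_apply (𝓞 L) L M]
    change _ - (algebraMap L M d * _ + algebraMap L M d * algebraMap L M n) = 0
    rw [← e', ← hβ]
    ring
  let Θ : 𝓞 M := ⟨_, isIntegral_trans (R := ℤ) _ hi⟩
  have hΘ : σ • Θ = algebraMap (𝓞 L) (𝓞 M) d - Θ := RingOfIntegers.ext (by
    rw [coe_smul]
    change σ (algebraMap L M d * (1 + β) / 2) = algebraMap L M d - algebraMap L M d * (1 + β) / 2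
    rw [map_div₀, map_mul, σ.commutes, map_add, map_one, h5, map_ofNat]
    ring)
  obtain ⟨a, ha⟩ := hr Θ
  have h3 := hs _ ha
  rw [smul_sub, smul_alg, hΘ] at h3
  have h7 : (2 : 𝓞 M) ∈ 𝔓 := by simpa [map_ofNat] using (mem_iff hu _).2 h2
  refine hd ((mem_iff hu _).1 ?_)
  have h8 := add_mem (sub_mem h3 ha) (𝔓.mul_mem_right Θ h7)
  rwa [show algebraMap (𝓞 L) (𝓞 M) d - Θ - algebraMap (𝓞 L) (𝓞 M) a -
    (Θ - algebraMap (𝓞 L) (𝓞 M) a) + 2 * Θ = algebraMap (𝓞 L) (𝓞 M) d by ring] at h8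

/-- the fundamental identity -/
theorem fund {v : Pl L} {w : Pl M} (hu : Und v w.asIdeal) :
    ∃ c : ℕ, Nat.card (MulAction.stabilizer (M ≃ₐ[L] M) w.asIdeal) =
      c * w.asIdeal.inertiaDeg (𝓞 L) ∧
      (v.asIdeal.primesOver (𝓞 M)).ncard * c * w.asIdeal.inertiaDeg (𝓞 L) = Module.finrank L M ∧
      Ideal.relNorm (𝓞 L) w.asIdeal = v.asIdeal ^ w.asIdeal.inertiaDeg (𝓞 L) := by
  have : w.asIdeal.LiesOver v.asIdeal := ⟨hu⟩
  have := v.isMaximal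
  have := w.isMaximal
  exact ⟨_, Ideal.card_stabilizer_eq_card_inertia_mul_finrank v.asIdeal w.asIdeal,
    (Ideal.ncard_primesOver_mul_card_inertia_mul_finrank v.asIdeal w.asIdeal).trans
      (IsGalois.card_aut_eq_finrank L M), Ideal.relNorm_eq_pow_of_isMaximal w.asIdeal v.asIdeal⟩

end Gal

theorem pow_inj (v : Pl L) {i j : ℕ} (h : v.asIdeal ^ i = v.asIdeal ^ j) : i = j := by
  have := congrArg (cnt v) h
  rwa [cnt_pow v v.ne_bot, cnt_pow v v.ne_bot, cnt_self, mul_one, mul_one] at this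

/-- a root of unity of the base gives a linear factor -/
theorem root {ℓ : ℕ} (hL : Om L) (hℓ : El ℓ) {𝔓 : Ideal (𝓞 M)} (hp : 𝔓.IsPrime) {B : 𝓞 M}
    {d : 𝓞 L} (h : B ^ ℓ - algebraMap (𝓞 L) (𝓞 M) d ^ ℓ ∈ 𝔓) :
    ∃ a : 𝓞 L, B - algebraMap (𝓞 L) (𝓞 M) a ∈ 𝔓 := by
  rcases hℓ with rfl | rfl
  · rw [sq_sub_sq] at h
    rcases hp.mem_or_mem h with h | h
    · exact ⟨-d, by rwa [map_neg, sub_neg_eq_add]⟩
    · exact ⟨d, h⟩
  · obtain ⟨ω, hω⟩ := hL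
    have hi : IsIntegral ℤ ω := IsIntegral.of_pow (n := 3) (by norm_num) (by
      rw [show ω ^ 3 = 1 by linear_combination (ω - 1) * hω]
      exact isIntegral_one)
    let o : 𝓞 L := ⟨ω, hi⟩
    have ho : o ^ 2 + o + 1 = 0 := RingOfIntegers.ext (by push_cast; exact hω)
    have ho' := congrArg (algebraMap (𝓞 L) (𝓞 M)) ho
    rw [map_add, map_add, map_pow, map_one, map_zero] at ho'
    set t := algebraMap (𝓞 L) (𝓞 M) o with ht
    set D := algebraMap (𝓞 L) (𝓞 M) d with hD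
    have e : B ^ 3 - D ^ 3 = (B - D) * ((B - t * D) * (B - t ^ 2 * D)) := by
      linear_combination (B ^ 2 * D - t * B * D ^ 2 + (t - 1) * D ^ 3) * ho'
    rw [e] at h
    rcases hp.mem_or_mem h with h | h
    · exact ⟨d, h⟩
    · rcases hp.mem_or_mem h with h | h
      · exact ⟨o * d, by rwa [map_mul]⟩
      · exact ⟨o ^ 2 * d, by rwa [map_mul, map_pow]⟩

/-- scaling of a local power -/
theorem scale_lp {ℓ : ℕ} (hℓ : El ℓ) {v : Pl L} {b : L} (h : LP ℓ v b) :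
    ∃ (z : L) (b' d : 𝓞 L), z ≠ 0 ∧ b' ∉ v.asIdeal ∧ b * z ^ ℓ = b' ∧ b' - d ^ ℓ ∈ v.asIdeal := by
  obtain ⟨r, hr⟩ := h
  have h1 := hr.trans_le (sq_le v ℓ)
  have h2 := vl_of_near v h1
  have hr0 : r ≠ 0 := fun e => (od_of_near v h1).2.1 (by rw [e, zero_pow hℓ.prime.ne_zero])
  obtain ⟨n, d, hd, e⟩ := frac v h2.le
  have hd1 := (vl_coe_eq v d).2 hd
  have hd0 : (d : L) ≠ 0 := fun e => by simp [e] at hd1
  obtain ⟨m, hm⟩ := Nat.exists_eq_succ_of_ne_zero hℓ.prime.ne_zero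
  have e1 : b * (r⁻¹ * d) ^ ℓ = b / r ^ ℓ * (d : L) ^ ℓ := by
    rw [mul_pow, inv_pow, div_eq_mul_inv, mul_assoc]
  have e2 : b * (r⁻¹ * d) ^ ℓ = ((n * d ^ m : 𝓞 L) : L) := by
    rw [cmul, cpow, e1, ← e, mul_assoc, ← pow_succ', hm]
  refine ⟨_, n * d ^ m, d, mul_ne_zero (inv_ne_zero hr0) hd0, (vl_coe_eq v _).1 ?_, e2,
    (vl_coe_lt v _).1 ?_⟩
  · rw [← e2, e1, map_mul, h2, map_pow, hd1, one_pow, one_mul]
  · have e3 : ((n * d ^ m - d ^ ℓ : 𝓞 L) : L) = (b / r ^ ℓ - 1) * (d : L) ^ ℓ := by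
      rw [sub_mul, ← e1, e2, csub, cpow d ℓ, one_mul]
    rwa [e3, map_mul, map_pow, hd1, one_pow, mul_one]

theorem lp_of {ℓ : ℕ} (hℓ : El ℓ) {v : Pl L} (hv : ¬ Dv ℓ v) {b z : L} (hz : z ≠ 0) {b' a : 𝓞 L}
    (hb' : b' ∉ v.asIdeal) (e : b * z ^ ℓ = b') (h : b' - a ^ ℓ ∈ v.asIdeal) : LP ℓ v b := by
  have ha : a ∉ v.asIdeal := fun ha => hb' (by
    simpa using add_mem h (v.asIdeal.pow_mem_of_mem ha _ hℓ.prime.pos))
  have ha1 := (vl_coe_eq v a).2 ha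
  have ha0 : (a : L) ≠ 0 := fun e => by simp [e] at ha1
  refine ⟨a / z, ?_⟩
  have e1 : b / (a / z) ^ ℓ - 1 = ((b' - a ^ ℓ : 𝓞 L) : L) / (a : L) ^ ℓ := by
    rw [csub, cpow, ← e, div_pow]
    field_simp
  rw [(vl_nat_eq v).2 hv, one_pow, e1, map_div₀, map_pow, ha1, one_pow, div_one]
  exact (vl_coe_lt v _).2 h

end KPP

open KPP in
theorem p_kp (h : T1) : Z_KP := by
  intro L M _ _ _ _ _ _ ℓ b β hL hℓ hK v
  obtain ⟨x1, x2, x3, -, -⟩ := h.ex L M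
  have hb : b ≠ 0 := fun e => hK.np ⟨0, by rw [e, zero_pow hℓ.prime.ne_zero]⟩
  have hN : 1 < Ideal.absNorm v.asIdeal := by
    have h0 : Ideal.absNorm v.asIdeal ≠ 0 := fun e => v.ne_bot (Ideal.absNorm_eq_zero_iff.1 e)
    have h1 : Ideal.absNorm v.asIdeal ≠ 1 := fun e =>
      v.isPrime.ne_top (Ideal.absNorm_eq_one_iff.1 e)
    omega
  refine ⟨fun 𝔓 hm hr hu => ?_, fun hv hp => ?_, fun hv hd hp => ?_⟩
  · obtain ⟨-, t2, t3, -⟩ := h.i.tame L M 𝔓 (hK.fin ▸ hℓ.prime) hm hr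
    have h0 : 𝔓 ≠ ⊥ := fun e => v.ne_bot (by
      rw [hu, e]
      exact Ideal.comap_bot_of_injective _ (FaithfulSMul.algebraMap_injective _ _))
    obtain ⟨f, -, -, f2, f3⟩ := x3 v ⟨𝔓, hm.isPrime, h0⟩ hu
    have hf : f = 1 := Nat.pow_right_injective hN (by
      change _ ^ f = _ ^ 1
      rw [← f2, pow_one, hu]
      exact t3)
    obtain ⟨σ, hσ⟩ := KPP.exists_ne hℓ hK
    have hs : ∀ x ∈ 𝔓, σ • x ∈ 𝔓 := fun x hx => by
      rw [← t2 σ]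
      exact Ideal.mem_map_of_mem _ hx
    refine ⟨or_iff_not_imp_right.2 fun hd => ?_, ?_⟩
    · obtain ⟨z, b', hz, hb', e⟩ := scale hℓ v hb (not_not.1 hd)
      obtain ⟨B, h1, h2⟩ := int_root hℓ hK.pow z b' e
      obtain ⟨a, ha⟩ := f3 hf B
      exact key hℓ hK hm.isPrime hu hσ hs hz hb' h1 h2 ha
    · rintro ⟨rfl, h2, h4⟩
      exact dyad hK hu hσ hs (f3 hf) h2 h4
  · obtain ⟨z, b', d, hz, hb', e, hd⟩ := scale_lp hℓ hp
    obtain ⟨B, h1, h2⟩ := int_root hℓ hK.pow z b' e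
    have H : ∀ w : Pl M, Und v w.asIdeal → (v.asIdeal.primesOver (𝓞 M)).ncard = ℓ ∧
        Ideal.relNorm (𝓞 L) w.asIdeal = v.asIdeal := fun w hu => by
      obtain ⟨a, ha⟩ := root hL hℓ w.isPrime (B := B) (d := d) (by
        rw [h2, ← map_pow, ← map_sub]
        exact (mem_iff hu _).2 hd)
      have hst : MulAction.stabilizer (M ≃ₐ[L] M) w.asIdeal = ⊥ := by
        refine (Subgroup.eq_bot_iff_forall _).2 fun σ hσ => by_contra fun hn => hv ?_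
        refine key hℓ hK w.isPrime hu hn (fun x hx => ?_) hz hb' h1 h2 ha
        have e1 : σ • w.asIdeal = w.asIdeal := hσ
        rw [← e1]
        exact Ideal.smul_mem_pointwise_smul _ _ _ hx
      obtain ⟨c, c1, c2, c3⟩ := fund hu
      rw [hst, Subgroup.card_bot] at c1
      rw [mul_assoc, ← c1, mul_one, hK.fin] at c2
      rw [Nat.eq_one_of_mul_eq_one_left c1.symm, pow_one] at c3
      exact ⟨c2, c3⟩
    obtain ⟨w₀, hw₀⟩ := x2 v
    refine ⟨⟨w₀, (H w₀ hw₀).2⟩, fun hq => ?_⟩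
    rw [← (H w₀ hw₀).1]
    congr 1
    ext 𝔓
    constructor
    · rintro ⟨e1, e2⟩
      obtain ⟨w, rfl⟩ := exists_pl (e1 ▸ hq : (Ideal.absNorm 𝔓).Prime)
      obtain ⟨v', -, -, hu, -⟩ := x1 w
      obtain ⟨f, -, f1, -⟩ := x3 v' w hu
      have hvv : v = v' := by
        by_contra hne
        have := congrArg (cnt v) (e2.symm.trans f1)
        rw [cnt_self, cnt_pow v v'.ne_bot, cnt_ne v hne] at this
        simp at this
      exact ⟨w.isPrime, ⟨hvv ▸ hu⟩⟩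
    · rintro ⟨e1, e2⟩
      have e3 := (H ⟨𝔓, e1, Ideal.ne_bot_of_liesOver_of_ne_bot v.ne_bot 𝔓⟩ e2.over).2
      exact ⟨by rw [← Ideal.absNorm_relNorm (𝓞 L)]; exact congrArg _ e3, e3⟩
  · obtain ⟨z, b', hz, hb', e⟩ := scale hℓ v hb hd
    obtain ⟨B, h1, h2⟩ := int_root hℓ hK.pow z b' e
    have H : ∀ w : Pl M, ℓ ∣ cnt v (Ideal.relNorm (𝓞 L) w.asIdeal) := fun w => by
      obtain ⟨v', -, -, hu, -⟩ := x1 w
      obtain ⟨f, -, f1, -, f3⟩ := x3 v' w hu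
      rw [f1, cnt_pow v v'.ne_bot]
      rcases eq_or_ne v v' with rfl | hne
      · obtain ⟨c, -, c2, c3⟩ := fund hu
        rw [← pow_inj v (f1.symm.trans c3), hK.fin] at c2
        rcases (Nat.dvd_prime hℓ.prime).1 (Dvd.intro_left _ c2) with hf | hf
        · obtain ⟨a, ha⟩ := f3 hf B
          refine absurd (lp_of hℓ hv hz hb' e (a := a) ((mem_iff hu _).1 ?_)) hp
          rw [map_sub, map_pow, ← h2]
          exact Ideal.mem_of_dvd _ (sub_dvd_pow_sub_pow _ _ _) ha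
        · rw [hf]
          exact dvd_mul_right _ _
      · rw [cnt_ne v hne, mul_zero]
        exact dvd_zero _
    have H2 : ∀ A : Ideal (𝓞 M), A ≠ ⊥ → ℓ ∣ cnt v (Ideal.relNorm (𝓞 L) A) := fun A => by
      induction A using UniqueFactorizationMonoid.induction_on_prime with
      | h₁ => exact fun e => absurd rfl e
      | h₂ x hx =>
        intro _
        rw [Ideal.isUnit_iff.1 hx, Ideal.relNorm_top, (cnt_eq_zero v).2 fun e =>
          v.isPrime.ne_top (top_le_iff.1 e)]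
        exact dvd_zero _
      | h₃ a p ha hp' ih =>
        intro _
        rw [map_mul, cnt_mul v (by simpa using hp'.ne_zero) (by simpa using ha)]
        exact dvd_add (H ⟨p, Ideal.isPrime_of_prime hp', hp'.ne_zero⟩) (ih ha)
    refine ⟨H2, Set.eq_empty_of_forall_notMem fun 𝔓 ⟨e1, e2⟩ => ?_⟩
    have h3 := H2 𝔓 fun e => by
      rw [e, Ideal.absNorm_bot] at e1
      omega
    rw [e2, cnt_self] at h3
    exact hℓ.prime.one_lt.ne' (Nat.dvd_one.1 h3)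

end Pool.Agent.P.MP_e4219a_lc
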