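import Pool.Agent.P.MP_e4219a_lc.Bund

/-! The kernel of the descent map for the curve `y ^ 2 + a y = x ^ 3`. -/

namespace Pool.Agent.P.MP_e4219a_lc

open WeierstrassCurve WeierstrassCurve.Affine
open scoped Classical

namespace Ker3P

variable {F : Type} [Field F] [CharZero F]

omit [CharZero F] in
theorem some_eq {W : WeierstrassCurve.Affine F} {x y x' y' : F} {h : W.Nonsingular x y}
    {h' : W.Nonsingular x' y'} (hx : x = x') (hy : y = y') :
    (Point.some x y h : W.Point) = Point.some x' y' h' := by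
  subst hx hy
  rfl

/-- the point with `x = c d`, `y = c ^ 3` on the curve with `a = d ^ 3 - c ^ 3` -/
theorem main {ζ a : F} (ι : Module.End ℤ (Pt a 0)) (hζ : ζ ^ 2 + ζ + 1 = 0) (ha : a ≠ 0)
    (hN : ∀ x y, (Wc a 0).Nonsingular x y ↔ y ^ 2 + a * y = x ^ 3 + 0 * x) (hι : IsIota ζ ι)
    {x y c d : F} (h : (Wc a 0).Nonsingular x y) (hx : x = c * d) (hy : y = c ^ 3)
    (hd : a = d ^ 3 - c ^ 3) : ∃ Q : Pt a 0, Point.some x y h = Q - ι Q := by
  have hζ0 : ζ ≠ 0 := by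
    rintro rfl
    simp at hζ
  have hζ1 : ζ ≠ 1 := by
    rintro rfl
    norm_num at hζ
  have hζ3 : ζ ^ 3 = 1 := by linear_combination (ζ - 1) * hζ
  obtain ⟨s, hs⟩ : ∃ s, s = c ^ 2 + c * d + d ^ 2 := ⟨_, rfl⟩
  have has : a = (d - c) * s := by rw [hd, hs]; ring
  have hs0 : s ≠ 0 := by
    rintro rfl
    exact ha (by rw [has, mul_zero])
  have hQ : (Wc a 0).Nonsingular (-ζ * s) (s * ζ * (ζ * d - c)) := by
    rw [hN, has]
    linear_combination (s ^ 2 * (d ^ 2 * ζ ^ 2 + c ^ 2 * ζ - c * d * ζ)) * hζ + s ^ 2 * ζ ^ 3 * hs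
  obtain ⟨h', e⟩ := hι _ _ hQ
  have e1 : -ζ * s / ζ ^ 2 = ζ * (-ζ * s) := by
    field_simp
    linear_combination hζ3
  have e2 : s * ζ * (ζ * d - c) / ζ ^ 3 = s * ζ * (ζ * d - c) := by rw [hζ3, div_one]
  have hne : -ζ * s ≠ -ζ * s / ζ ^ 2 := by
    rw [e1]
    intro e3
    have : (1 - ζ) * (ζ * s) = 0 := by linear_combination -e3
    rcases mul_eq_zero.1 this with e4 | e4
    · exact hζ1 (by linear_combination -e4)
    · exact mul_ne_zero hζ0 hs0 e4
  refine ⟨Point.some _ _ hQ, ?_⟩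
  rw [e, sub_eq_add_neg, Point.neg_some, Point.add_of_X_ne hne]
  have hsl : (Wc a 0).slope (-ζ * s) (-ζ * s / ζ ^ 2) (s * ζ * (ζ * d - c))
      ((Wc a 0).negY (-ζ * s / ζ ^ 2) (s * ζ * (ζ * d - c) / ζ ^ 3)) = c + d := by
    rw [slope_of_X_ne hne, div_eq_iff (sub_ne_zero.2 hne), e1, e2]
    simp only [negY, Wc]
    rw [has]
    linear_combination (s * (d - c)) * hζ
  have hX : (Wc a 0).addX (-ζ * s) (-ζ * s / ζ ^ 2) (c + d) = c * d := by
    rw [e1]
    simp only [addX, Wc]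
    linear_combination s * hζ - hs
  refine some_eq ?_ ?_
  · rw [hsl, hX, hx]
  · rw [hsl, addY, negAddY, hX, hy]
    simp only [negY, Wc]
    rw [hd]
    linear_combination (d * s) * hζ - d * hs

end Ker3P

theorem p_ker3 (hI : Z_Iota) : Z_Ker 3 := by
  intro F _ _ ζ a₃ a₄ ι hCM hι R z hz
  obtain ⟨hN, -⟩ := hI F 3 ζ a₃ a₄ hCM
  rcases hCM with ⟨h2, -⟩ | ⟨-, hζ, rfl, ha⟩
  · exact absurd h2 (by norm_num)
  rcases R with _ | ⟨x, y, h⟩
  · exact ⟨0, by rw [map_zero, sub_zero]; rfl⟩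
  have hE := (hN x y).1 h
  simp only [al, show (3 : ℕ) ≠ 2 by norm_num, if_false] at hz
  by_cases hy : y = 0
  · rw [if_pos hy] at hz
    have hz0 : z ≠ 0 := by
      rintro rfl
      exact ha (by simpa using hz)
    have hx : x = 0 := by
      rw [hy] at hE
      exact pow_eq_zero_iff (n := 3) (by norm_num) |>.1 (by linear_combination -hE)
    refine Ker3P.main ι hζ ha hN hι h (c := 0) (d := a₃ / z) (by rw [hx, zero_mul])
      (by rw [hy]; norm_num) ?_
    field_simp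
    linear_combination -a₃ * hz
  · rw [if_neg hy] at hz
    have hz0 : z ≠ 0 := by
      rintro rfl
      exact hy (by simpa using hz)
    refine Ker3P.main ι hζ ha hN hι h (c := z) (d := x / z) (by field_simp) hz ?_
    rw [hz] at hE
    field_simp
    linear_combination hE

end Pool.Agent.P.MP_e4219a_lc
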