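import Pool.Agent.P.MP_e4219a_lc.Bund

/-! Existence of the Kummer extension and its norm form. -/

namespace Pool.Agent.P.MP_e4219a_lc

open NumberField IsDedekindDomain Polynomial Finset
open scoped Classical

namespace KumP

variable {L M : Type} [Field L] [Field M] [Algebra L M]

theorem norm_two (B : Module.Basis (Fin 2) L M) {β : M} {b : L} (hB : ∀ i, B i = β ^ (i : ℕ))
    (hβ : β ^ 2 = algebraMap L M b) (r s : L) :
    Algebra.norm L (r • B 0 + s • B 1) = r ^ 2 - b * s ^ 2 := by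
  have h0 : B 0 = 1 := by rw [hB]; simp
  have h1 : B 1 = β := by rw [hB]; simp
  have e0 : (r • B 0 + s • B 1) * B 0 = r • B 0 + s • B 1 := by rw [h0, mul_one]
  have e1 : (r • B 0 + s • B 1) * B 1 = (b * s) • B 0 + r • B 1 := by
    rw [h0, h1]
    simp only [Algebra.smul_def, map_mul]
    linear_combination (algebraMap L M s) * hβ
  rw [Algebra.norm_eq_matrix_det B, Matrix.det_fin_two]
  simp only [Algebra.leftMulMatrix_eq_repr_mul, e0, e1]
  simp
  ring

theorem norm_three (B : Module.Basis (Fin 3) L M) {β : M} {b : L} (hB : ∀ i, B i = β ^ (i : ℕ))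
    (hβ : β ^ 3 = algebraMap L M b) (r s t : L) :
    Algebra.norm L (r • B 0 + s • B 1 + t • B 2) =
      r ^ 3 + b * s ^ 3 + b ^ 2 * t ^ 3 - 3 * b * r * s * t := by
  have h0 : B 0 = 1 := by rw [hB]; simp
  have h1 : B 1 = β := by rw [hB]; simp
  have h2 : B 2 = β ^ 2 := by rw [hB]; simp
  have e0 : (r • B 0 + s • B 1 + t • B 2) * B 0 = r • B 0 + s • B 1 + t • B 2 := by
    rw [h0, mul_one]
  have e1 : (r • B 0 + s • B 1 + t • B 2) * B 1 = (b * t) • B 0 + r • B 1 + s • B 2 := by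
    rw [h0, h1, h2]
    simp only [Algebra.smul_def, map_mul]
    linear_combination (algebraMap L M t) * hβ
  have e2 : (r • B 0 + s • B 1 + t • B 2) * B 2 = (b * s) • B 0 + (b * t) • B 1 + r • B 2 := by
    rw [h0, h1, h2]
    simp only [Algebra.smul_def, map_mul]
    linear_combination (algebraMap L M s + algebraMap L M t * β) * hβ
  rw [Algebra.norm_eq_matrix_det B, Matrix.det_fin_three]
  simp only [Algebra.leftMulMatrix_eq_repr_mul, e0, e1, e2]
  simp
  ring

theorem nv_iff {ℓ : ℕ} (hℓ : El ℓ) (B : Module.Basis (Fin ℓ) L M) {β : M} {b : L}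
    (hB : ∀ i, B i = β ^ (i : ℕ)) (hβ : β ^ ℓ = algebraMap L M b) (c : L) :
    NV ℓ b c ↔ ∃ δ : M, Algebra.norm L δ = c := by
  rcases hℓ with rfl | rfl
  · constructor
    · rintro ⟨r, s, t, rfl⟩
      exact ⟨_, by rw [Nf_two]; exact norm_two B hB hβ r s⟩
    · rintro ⟨δ, rfl⟩
      refine ⟨B.repr δ 0, B.repr δ 1, 0, ?_⟩
      rw [Nf_two, ← norm_two B hB hβ]
      congr 1
      have := B.sum_repr δ
      rw [Fin.sum_univ_two] at this
      exact this.symm
  · constructor
    · rintro ⟨r, s, t, rfl⟩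
      exact ⟨_, by rw [Nf_three]; exact norm_three B hB hβ r s t⟩
    · rintro ⟨δ, rfl⟩
      refine ⟨B.repr δ 0, B.repr δ 1, B.repr δ 2, ?_⟩
      rw [Nf_three, ← norm_three B hB hβ]
      congr 1
      have := B.sum_repr δ
      rw [Fin.sum_univ_three] at this
      exact this.symm

end KumP

theorem p_kum : Z_Kum := by
  intro L _ _ ℓ b hOm hℓ hb
  have hirr : Irreducible (X ^ ℓ - C b : L[X]) :=
    X_pow_sub_C_irreducible_of_prime hℓ.prime fun z hz => hb ⟨z, hz.symm⟩
  have : Fact (Irreducible (X ^ ℓ - C b : L[X])) := ⟨hirr⟩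
  obtain ⟨ξ, hξ⟩ := hOm.prim hℓ
  have hζ : (primitiveRoots ℓ L).Nonempty := ⟨ξ, (mem_primitiveRoots hℓ.prime.pos).2 hξ⟩
  have := isSplittingField_AdjoinRoot_X_pow_sub_C hζ hirr
  have hG : IsGalois L (AdjoinRoot (X ^ ℓ - C b : L[X])) :=
    isGalois_of_isSplittingField_X_pow_sub_C hζ hirr _
  let pb := AdjoinRoot.powerBasis hirr.ne_zero
  have hdim : pb.dim = ℓ := by
    simp only [pb, AdjoinRoot.powerBasis_dim, natDegree_X_pow_sub_C]
  have : Module.Finite L (AdjoinRoot (X ^ ℓ - C b : L[X])) := pb.finite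
  have hNF : NumberField (AdjoinRoot (X ^ ℓ - C b : L[X])) :=
    NumberField.of_module_finite L _
  have hβ : pb.gen ^ ℓ = algebraMap L _ b := by
    have := AdjoinRoot.eval₂_root (X ^ ℓ - C b : L[X])
    rw [eval₂_sub, eval₂_X_pow, eval₂_C, sub_eq_zero] at this
    simpa [pb, AdjoinRoot.algebraMap_eq] using this
  refine ⟨AdjoinRoot (X ^ ℓ - C b : L[X]), inferInstance, hNF, inferInstance, hG, pb.gen,
    ⟨by rw [pb.finrank, hdim], hβ, hb⟩, fun c => ?_⟩
  refine KumP.nv_iff hℓ (pb.basis.reindex (finCongr hdim)) (fun i => ?_) hβ c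
  rw [Module.Basis.reindex_apply, pb.basis_eq_pow]
  simp

end Pool.Agent.P.MP_e4219a_lc
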