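import Pool.Agent.P.MP_e4219a_lc.Bund

/-! Differences in a dense set of elements without small prime factors. -/

namespace Pool.Agent.P.MP_e4219a_lc

open NumberField Finset
open scoped Classical

set_option linter.unusedSectionVars false

namespace LineP

variable {L : Type} [Field L] [NumberField L] {d : ℕ}

/-- the element with the given coordinates -/
noncomputable def elt (b : Module.Basis (Fin d) ℤ (𝓞 L)) (θ : Fin d → ℤ) : 𝓞 L := ∑ i, θ i • b i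

theorem elt_repr (b : Module.Basis (Fin d) ℤ (𝓞 L)) (u : 𝓞 L) : elt b (fun i => b.repr u i) = u :=
  b.sum_repr u

theorem map_elt (b : Module.Basis (Fin d) ℤ (𝓞 L)) (θ : Fin d → ℤ) {p : ℕ}
    (φ : 𝓞 L →+* ZMod p) : φ (elt b θ) = ∑ i, φ (b i) * (θ i : ZMod p) := by
  rw [elt, map_sum]
  exact sum_congr rfl fun i _ => by rw [zsmul_eq_mul, map_mul, map_intCast, mul_comm]

/-- the points of the line through `θ` that lie in `𝒢` -/
noncomputable def lin (b : Module.Basis (Fin d) ℤ (𝓞 L)) (𝒢 : Finset (𝓞 L)) (N : ℕ)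
    (θ : Fin d → ℤ) : Finset ℕ := (range N).filter fun t => elt b θ + (t : 𝓞 L) ∈ 𝒢

/-- the residue classes that are avoided -/
noncomputable def om (b : Module.Basis (Fin d) ℤ (𝓞 L)) (m₀ N : ℕ) (θ : Fin d → ℤ) (p : ℕ) :
    Finset ℕ := (range p).filter fun c => (p.Prime ∧ 2 * d < p ∧ p ≤ N ∧ ¬ p ∣ m₀) ∧
      ∃ φ : 𝓞 L →+* ZMod p, φ (elt b θ + (c : 𝓞 L)) = 0

theorem sift (b : Module.Basis (Fin d) ℤ (𝓞 L)) (𝒢 : Finset (𝓞 L)) (m₀ N : ℕ) (θ : Fin d → ℤ)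
    (hf : ∀ p : ℕ, p.Prime → Finite (𝓞 L →+* ZMod p) ∧ rp L p ≤ d)
    (hG : ∀ u ∈ 𝒢, ∀ p : ℕ, p.Prime → p ≤ N → ¬ p ∣ m₀ → ∀ φ : 𝓞 L →+* ZMod p, φ u ≠ 0) :
    Sift d (lin b 𝒢 N θ) (om b m₀ N θ) := by
  refine ⟨fun p c hc => mem_range.1 (mem_filter.1 hc).1, fun p => ?_, fun p hp => ?_,
    fun p a ha hc => ?_⟩
  · rcases (om b m₀ N θ p).eq_empty_or_nonempty with h | ⟨c, hc⟩
    · simp [h]
    obtain ⟨hfin, hle⟩ := hf p (mem_filter.1 hc).2.1.1
    have h1 : ∀ c : om b m₀ N θ p, ∃ φ : 𝓞 L →+* ZMod p, φ (elt b θ + ((c : ℕ) : 𝓞 L)) = 0 :=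
      fun c => (mem_filter.1 c.2).2.2
    choose g hg using h1
    have h2 : Function.Injective g := fun c c' e => by
      have a1 := hg c
      have a2 := hg c'
      rw [← e] at a2
      rw [map_add, map_natCast] at a1 a2
      have a3 : ((c : ℕ) : ZMod p) = ((c' : ℕ) : ZMod p) := add_left_cancel (a1.trans a2.symm)
      have a4 := (ZMod.natCast_eq_natCast_iff' _ _ _).1 a3
      rw [Nat.mod_eq_of_lt (mem_range.1 (mem_filter.1 c.2).1),
        Nat.mod_eq_of_lt (mem_range.1 (mem_filter.1 c'.2).1)] at a4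
      exact Subtype.ext a4
    have h3 := Nat.card_le_card_of_injective g h2
    rw [Nat.card_eq_fintype_card, Fintype.card_coe] at h3
    exact h3.trans hle
  · obtain ⟨c, hc⟩ := hp
    exact (mem_filter.1 hc).2.1.2.1
  · obtain ⟨⟨h1, -, h2, h3⟩, φ, h4⟩ := (mem_filter.1 hc).2
    refine hG _ (mem_filter.1 ha).2 p h1 h2 h3 φ ?_
    rw [map_add, map_natCast] at h4 ⊢
    rwa [ZMod.natCast_mod] at h4

theorem exists_hyp (b : Module.Basis (Fin d) ℤ (𝓞 L))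
    (hf : ∀ p : ℕ, p.Prime → Finite (𝓞 L →+* ZMod p) ∧ rp L p ≤ d) (p : ℕ) :
    ∃ Λ : Finset (Fin d → ZMod p), (Λ.card ≤ d ^ 2 ∧ ∀ l ∈ Λ, l ≠ 0) ∧ (p.Prime →
      ∀ φ φ' : 𝓞 L →+* ZMod p, φ ≠ φ' → (fun i => φ (b i) - φ' (b i)) ∈ Λ) := by
  by_cases hp : p.Prime
  swap
  · exact ⟨∅, ⟨by simp, by simp⟩, fun h => absurd h hp⟩
  obtain ⟨hfin, hle⟩ := hf p hp
  have := Fintype.ofFinite (𝓞 L →+* ZMod p)
  refine ⟨(univ.filter fun z : (𝓞 L →+* ZMod p) × (𝓞 L →+* ZMod p) => z.1 ≠ z.2).image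
    fun z i => z.1 (b i) - z.2 (b i), ⟨?_, fun l hl e => ?_⟩, fun _ φ φ' h =>
    mem_image.2 ⟨(φ, φ'), mem_filter.2 ⟨mem_univ _, h⟩, rfl⟩⟩
  · refine card_image_le.trans ((card_filter_le _ _).trans ?_)
    rw [card_univ, Fintype.card_prod, sq]
    rw [rp, Nat.card_eq_fintype_card] at hle
    exact Nat.mul_le_mul hle hle
  · obtain ⟨z, hz, rfl⟩ := mem_image.1 hl
    refine (mem_filter.1 hz).2 (RingHom.ext fun u => ?_)
    rw [← elt_repr b u, map_elt, map_elt]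
    exact sum_congr rfl fun i _ => by rw [sub_eq_zero.1 (congrFun e i)]

theorem om_ge (b : Module.Basis (Fin d) ℤ (𝓞 L)) (m₀ N : ℕ) (θ : Fin d → ℤ) {p : ℕ}
    (hp : p.Prime ∧ 2 * d < p ∧ p ≤ N ∧ ¬ p ∣ m₀) {Λ : Finset (Fin d → ZMod p)}
    (hΛ : ∀ φ φ' : 𝓞 L →+* ZMod p, φ ≠ φ' → (fun i => φ (b i) - φ' (b i)) ∈ Λ)
    (h : ¬ ∃ l ∈ Λ, ∑ i, l i * (θ i : ZMod p) = 0) : rp L p ≤ (om b m₀ N θ p).card := by
  have : NeZero p := ⟨hp.1.ne_zero⟩
  have h1 : ∀ φ : 𝓞 L →+* ZMod p, (-φ (elt b θ)).val ∈ om b m₀ N θ p := fun φ =>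
    mem_filter.2 ⟨mem_range.2 (ZMod.val_lt _), hp, φ, by
      rw [map_add, map_natCast, ZMod.natCast_zmod_val, add_neg_cancel]⟩
  have h2 : Function.Injective fun φ : 𝓞 L →+* ZMod p =>
      (⟨_, h1 φ⟩ : om b m₀ N θ p) := fun φ φ' e => by
    by_contra hne
    refine h ⟨_, hΛ φ φ' hne, ?_⟩
    have a1 := neg_injective (ZMod.val_injective p (congrArg Subtype.val e))
    rw [map_elt, map_elt] at a1
    simp only [sub_mul, sum_sub_distrib, a1, sub_self]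
  have h3 := Nat.card_le_card_of_injective _ h2
  rwa [Nat.card_eq_fintype_card (α := om b m₀ N θ p), Fintype.card_coe] at h3

theorem bad_nonneg (Λ : ∀ p : ℕ, Finset (Fin d → ZMod p)) (N : ℕ) (θ : Fin d → ℤ) :
    0 ≤ bad Λ N θ := sum_nonneg fun p _ => by positivity

theorem wt_ge (b : Module.Basis (Fin d) ℤ (𝓞 L)) (m₀ N : ℕ) (θ : Fin d → ℤ)
    (hf : ∀ p : ℕ, p.Prime → Finite (𝓞 L →+* ZMod p) ∧ rp L p ≤ d)
    {Λ : ∀ p : ℕ, Finset (Fin d → ZMod p)} (hΛ : ∀ p : ℕ, p.Prime →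
      ∀ φ φ' : 𝓞 L →+* ZMod p, φ ≠ φ' → (fun i => φ (b i) - φ' (b i)) ∈ Λ p) :
    ∑ p ∈ (range (N + 1)).filter fun p => p.Prime ∧ ¬ p ∣ m₀ * (2 * d).factorial ∧
      p ^ (20 * d + 20) ≤ N, (rp L p : ℝ) / p ≤ wt d N 0 (om b m₀ N θ) + d * bad Λ N θ := by
  rw [wt, bad, sP, sum_filter, sum_filter, sum_filter, mul_sum, ← sum_add_distrib]
  refine sum_le_sum fun p hp => ?_
  have hp0 : (0 : ℝ) ≤ p := Nat.cast_nonneg _
  by_cases h : p.Prime ∧ ¬ p ∣ m₀ * (2 * d).factorial ∧ p ^ (20 * d + 20) ≤ N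
  swap
  · rw [if_neg h]
    refine add_nonneg ?_ (mul_nonneg (Nat.cast_nonneg _) ?_) <;> split_ifs <;> positivity
  rw [if_pos h, if_pos ⟨h.1, h.1.pos, h.2.2⟩]
  by_cases h1 : ∃ l ∈ Λ p, ∑ i, l i * (θ i : ZMod p) = 0
  · rw [if_pos ⟨h.1, h1⟩, mul_one_div]
    have h2 : (rp L p : ℝ) / p ≤ d / p :=
      div_le_div_of_nonneg_right (Nat.cast_le.2 (hf p h.1).2) hp0
    have h3 : (0 : ℝ) ≤ ((om b m₀ N θ p).card : ℝ) / p := by positivity
    linarith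
  · rw [if_neg fun e => h1 e.2, mul_zero, add_zero]
    refine div_le_div_of_nonneg_right (Nat.cast_le.2 (om_ge b m₀ N θ ⟨h.1, ?_,
      Nat.lt_succ_iff.1 (mem_range.1 hp), fun e => h.2.1 (e.mul_right _)⟩ (hΛ p h.1) h1)) hp0
    exact not_le.1 fun e => h.2.1 ((h.1.dvd_factorial.2 e).mul_left _)

theorem count (b : Module.Basis (Fin d) ℤ (𝓞 L)) (𝒢 : Finset (𝓞 L)) {C N B : ℕ} (hN : 1 ≤ N)
    (hG : ∀ u ∈ 𝒢, ∀ i, (b.repr u i).natAbs ≤ C * N)
    (hB : (C + ∑ i, (b.repr 1 i).natAbs + 1) * N ≤ B) :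
    𝒢.card * N ≤ ∑ θ ∈ cube d B, (lin b 𝒢 N θ).card := by
  have h1 : ∑ θ ∈ cube d B, (lin b 𝒢 N θ).card = ((cube d B).sigma (lin b 𝒢 N)).card :=
    (card_sigma _ _).symm
  rw [h1, ← card_range N, ← card_product, card_range]
  refine card_le_card_of_injOn (fun z => ⟨fun i => b.repr (z.1 - (z.2 : 𝓞 L)) i, z.2⟩)
    (fun z hz => ?_) fun z _ z' _ e => ?_
  · obtain ⟨h2, h3⟩ := mem_product.1 (mem_coe.1 hz)
    refine mem_coe.2 (mem_sigma.2 ⟨Fintype.mem_piFinset.2 fun i => ?_, mem_filter.2 ⟨h3, ?_⟩⟩)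
    · have a1 := hG _ h2 i
      have a2 : (b.repr 1 i).natAbs ≤ ∑ i, (b.repr 1 i).natAbs :=
        single_le_sum (f := fun i => (b.repr 1 i).natAbs) (fun _ _ => Nat.zero_le _) (mem_univ i)
      have a3 : b.repr (z.1 - (z.2 : 𝓞 L)) i = b.repr z.1 i - z.2 * b.repr 1 i := by
        rw [← nsmul_one, map_sub, map_nsmul]
        simp
      have a4 : ((z.2 : ℤ) * b.repr 1 i).natAbs ≤ (∑ i, (b.repr 1 i).natAbs) * N := by
        rw [Int.natAbs_mul, Int.natAbs_natCast, mul_comm]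
        exact Nat.mul_le_mul a2 (mem_range.1 h3).le
      rw [add_mul, add_mul, one_mul] at hB
      rw [mem_Ico]
      dsimp only
      rw [a3]
      omega
    · dsimp only
      rwa [elt_repr, sub_add_cancel]
  · have e2 : z.2 = z'.2 := congrArg (fun s : (Σ _ : Fin d → ℤ, ℕ) => s.2) e
    have e1 := congrArg (fun s : (Σ _ : Fin d → ℤ, ℕ) => elt b s.1) e
    simp only [elt_repr, e2, sub_left_inj] at e1
    exact Prod.ext e1 e2

theorem upper (hP : Z_Par) {N : ℕ} {A : Finset ℕ} {W : ℝ} (hN : 1 ≤ N) (hA : A ⊆ range N)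
    (h : ∀ 𝔐 : Set UnitAddCircle, MeasurableSet 𝔐 → (∀ α ∈ 𝔐, ∀ α' ∈ 𝔐, ∃ D : ℕ, 1 ≤ D ∧
      (∀ p : ℕ, p.Prime → p ∣ D → p ≤ 0) ∧ ‖D • (α - α')‖ * √N < 1) →
      mass A 𝔐 ≤ 2 * A.card * W) (hW : 0 ≤ W) : (A.card : ℝ) ≤ 32 * N * W := by
  have hN' : (1 : ℝ) ≤ N := by exact_mod_cast hN
  have h1 := ((hP A).2.2 N hN hA).trans (h _
    (isClosed_le continuous_norm continuous_const).measurableSet fun α hα α' hα' =>
      ⟨1, le_rfl, fun p hp e => absurd (Nat.dvd_one.1 e) hp.ne_one, by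
        have a1 : ‖α‖ ≤ 1 / (8 * N) := hα
        have a2 : ‖α'‖ ≤ 1 / (8 * N) := hα'
        have a3 : √(N : ℝ) ≤ N := Real.sqrt_le_iff.2 ⟨by positivity, by nlinarith⟩
        have a4 : ‖α - α'‖ ≤ 2 * (1 / (8 * N)) := (norm_sub_le _ _).trans (by linarith)
        rw [one_smul]
        calc ‖α - α'‖ * √(N : ℝ) ≤ 2 * (1 / (8 * N)) * N :=
              mul_le_mul a4 a3 (Real.sqrt_nonneg _) (by positivity)
          _ = 1 / 4 := by field_simp; norm_num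
          _ < 1 := by norm_num⟩)
  rcases (Nat.cast_nonneg (α := ℝ) A.card).eq_or_lt with e | e
  · rw [← e]; positivity
  · rw [div_le_iff₀ (by positivity)] at h1
    refine le_of_mul_le_mul_left ?_ e
    nlinarith

end LineP

open LineP in
theorem p_line (hM : Z_Mer) (hP : Z_Par) (hB : Z_MB) (hS : Z_Sar) (hI : Z_Ind) (hR : Z_Rp) :
    Z_Line := by
  intro L _ _ ℓ d m m₀ C b δ hO hℓ hm hm₀ hδ
  have _ := hM
  obtain ⟨hf, hR⟩ := hR L hO
  have hd : Module.finrank ℚ L = d := by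
    rw [← RingOfIntegers.rank, Module.finrank_eq_card_basis b, Fintype.card_fin]
  rw [hd] at hf
  obtain ⟨C₁, N₁, h1⟩ := hR (m₀ * (2 * d).factorial) (20 * d + 20)
    (mul_ne_zero hm₀ (Nat.factorial_ne_zero _)) (by omega)
  obtain ⟨N₂, h2⟩ := hB d
  set F : ℕ := C + ∑ i, (b.repr 1 i).natAbs + 1 with hF
  have hF0 : (0 : ℝ) < (4 * F : ℝ) ^ d := by positivity
  set ε : ℝ := δ / (3 * (4 * F : ℝ) ^ d) with hε
  have hε0 : 0 < ε := by positivity
  obtain ⟨T, N₃, h3⟩ := hI d (d ^ 2) (32 * Real.exp C₁ + d) ε (by positivity) hε0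
  obtain ⟨N₄, h4⟩ := hS ℓ d m (ε * Real.exp (-(C₁ + d * T))) hℓ hm (by positivity)
  refine ⟨N₁ + N₂ + N₃ + N₄ + 2, fun N 𝒢 hN hG1 hG2 hG3 => ?_⟩
  by_contra hno
  obtain ⟨B, hB1, hB2, h3⟩ := h3 N (F * N) (by omega) (Nat.le_mul_of_pos_left _ (by omega))
  choose Λ hΛ hΛ' using exists_hyp b hf
  have hN0 : (0 : ℝ) < N := by exact_mod_cast (by omega : 0 < N)
  have hl : 0 < Real.log N := Real.log_pos (by exact_mod_cast (by omega : 1 < N))
  have hsub : ∀ θ, lin b 𝒢 N θ ⊆ range N := fun θ => filter_subset _ _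
  have hw : ∀ θ, Real.log N * Real.exp (-wt d N 0 (om b m₀ N θ)) ≤
      Real.exp (C₁ + d * bad Λ N θ) := fun θ => by
    have a1 := (h1 N (by omega)).trans (wt_ge b m₀ N θ hf hΛ')
    calc Real.log N * Real.exp (-wt d N 0 (om b m₀ N θ))
        = Real.exp (Real.log (Real.log N) + -wt d N 0 (om b m₀ N θ)) := by
          rw [Real.exp_add, Real.exp_log hl]
      _ ≤ _ := Real.exp_le_exp.2 (by linarith)
  have h5 := h3 Λ (fun θ => (lin b 𝒢 N θ).card * Real.log N / N) hΛ fun θ => by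
    refine ⟨?_, ?_⟩
    · have a1 : ((lin b 𝒢 N θ).card : ℝ) ≤ N := by
        exact_mod_cast (card_le_card (hsub θ)).trans_eq (card_range N)
      rw [div_le_iff₀ hN0, mul_comm]
      exact mul_le_mul_of_nonneg_left a1 hl.le
    · have a1 := upper hP (by omega) (hsub θ) (fun 𝔐 => h2 N 0 _ _ 𝔐 (by omega)
        (sift b 𝒢 m₀ N θ hf hG2)) (Real.exp_pos _).le
      have a2 := hw θ
      have a3 := bad_nonneg Λ N θ
      have a4 : Real.exp (d * bad Λ N θ) ≤ Real.exp ((32 * Real.exp C₁ + d) * bad Λ N θ) :=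
        Real.exp_le_exp.2 (mul_le_mul_of_nonneg_right
          (le_add_of_nonneg_left (by positivity)) a3)
      rw [div_le_iff₀ hN0]
      calc ((lin b 𝒢 N θ).card : ℝ) * Real.log N
          ≤ 32 * N * Real.exp (-wt d N 0 (om b m₀ N θ)) * Real.log N :=
            mul_le_mul_of_nonneg_right a1 hl.le
        _ = 32 * (Real.log N * Real.exp (-wt d N 0 (om b m₀ N θ))) * N := by ring
        _ ≤ 32 * Real.exp (C₁ + d * bad Λ N θ) * N := by gcongr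
        _ = 32 * Real.exp C₁ * Real.exp (d * bad Λ N θ) * N := by rw [Real.exp_add]; ring
        _ ≤ _ := mul_le_mul_of_nonneg_right (mul_le_mul (le_add_of_nonneg_right
            (Nat.cast_nonneg _)) a4 (Real.exp_pos _).le (by positivity)) hN0.le
  have h6 : ∀ θ, ¬ T < bad Λ N θ → (lin b 𝒢 N θ).card * Real.log N / N ≤ ε := fun θ hθ => by
    by_contra hc
    rw [not_le, lt_div_iff₀ hN0] at hc
    obtain ⟨a, ha, a', ha', w, hw1, e⟩ := h4 N _ _ (by omega) (hsub θ) (sift b 𝒢 m₀ N θ hf hG2) (by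
      have a1 := (hw θ).trans (Real.exp_le_exp.2 (add_le_add_right
        (mul_le_mul_of_nonneg_left (not_lt.1 hθ) (Nat.cast_nonneg d)) C₁))
      have a2 : Real.log N * Real.exp (-(C₁ + d * T)) ≤ Real.exp (wt d N 0 (om b m₀ N θ)) := by
        rw [Real.exp_neg, ← div_eq_mul_inv, div_le_iff₀ (Real.exp_pos _)] at a1 ⊢
        rwa [mul_comm]
      calc ε * Real.exp (-(C₁ + d * T)) * N = ε * N * Real.exp (-(C₁ + d * T)) := by ring
        _ ≤ (lin b 𝒢 N θ).card * Real.log N * Real.exp (-(C₁ + d * T)) :=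
          mul_le_mul_of_nonneg_right hc.le (Real.exp_pos _).le
        _ = (lin b 𝒢 N θ).card * (Real.log N * Real.exp (-(C₁ + d * T))) := by ring
        _ ≤ _ := mul_le_mul_of_nonneg_left a2 (Nat.cast_nonneg _))
    refine hno ⟨_, (mem_filter.1 ha).2, _, (mem_filter.1 ha').2, w, hw1, ?_, ?_⟩
    · have := mem_range.1 (hsub θ ha)
      omega
    · rw [e]
      push_cast
      ring
  have h7 : ((cube d B).card : ℝ) = (2 * B : ℝ) ^ d := by
    rw [cube, Fintype.card_piFinset]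
    simp only [Int.card_Ico, prod_const, card_univ, Fintype.card_fin]
    rw [show ((B : ℤ) - -(B : ℤ)).toNat = 2 * B by omega]
    push_cast
    rfl
  have h8 : ∑ θ ∈ (cube d B).filter fun θ => ¬ T < bad Λ N θ,
      (lin b 𝒢 N θ).card * Real.log N / N ≤ ε * (2 * B : ℝ) ^ d := by
    refine (sum_le_card_nsmul _ _ ε fun θ hθ => h6 θ (mem_filter.1 hθ).2).trans ?_
    rw [nsmul_eq_mul, mul_comm, ← h7]
    exact mul_le_mul_of_nonneg_left (Nat.cast_le.2 (card_filter_le _ _)) hε0.le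
  have h9 : (𝒢.card : ℝ) * Real.log N ≤ ∑ θ ∈ cube d B, (lin b 𝒢 N θ).card * Real.log N / N := by
    rw [← sum_div, ← sum_mul, le_div_iff₀ hN0, mul_right_comm]
    refine mul_le_mul_of_nonneg_right ?_ hl.le
    exact_mod_cast count b 𝒢 (by omega) hG1 hB1
  rw [← sum_filter_add_sum_filter_not _ fun θ => T < bad Λ N θ] at h9
  have h10 : (2 * B : ℝ) ^ d ≤ (4 * F : ℝ) ^ d * (N : ℝ) ^ d := by
    rw [← mul_pow]
    refine pow_le_pow_left₀ (by positivity) ?_ d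
    have : (B : ℝ) ≤ 2 * (F * N) := by exact_mod_cast hB2
    linarith
  have h11 : ε * ((4 * F : ℝ) ^ d * (N : ℝ) ^ d) = δ * (N : ℝ) ^ d / 3 := by
    rw [hε]; field_simp
  have h12 := mul_le_mul_of_nonneg_left h10 hε0.le
  have h13 : 0 < δ * (N : ℝ) ^ d := by positivity
  linarith

end Pool.Agent.P.MP_e4219a_lc
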