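import Pool.Agent.P.MP_e4219a_lc.Bund

/-! The mass of a sifted set on a set of frequencies with smooth denominators. -/

namespace Pool.Agent.P.MP_e4219a_lc

open Finset MeasureTheory
open scoped Classical

namespace MBP

theorem cont_ex (A : Finset ℕ) : Continuous fun α : UnitAddCircle => ‖ex A α‖ ^ 2 := by
  unfold ex
  fun_prop

theorem int_ex (A : Finset ℕ) :
    Integrable (fun α : UnitAddCircle => ‖ex A α‖ ^ 2) AddCircle.haarAddCircle :=
  (cont_ex A).integrable_of_hasCompactSupport (HasCompactSupport.of_compactSpace _)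

theorem int_ex' (A : Finset ℕ) (ρ : UnitAddCircle) :
    Integrable (fun α : UnitAddCircle => ‖ex A (α + ρ)‖ ^ 2) AddCircle.haarAddCircle :=
  ((cont_ex A).comp (continuous_id.add continuous_const)).integrable_of_hasCompactSupport
    (HasCompactSupport.of_compactSpace _)

/-- translation of the set of frequencies -/
theorem shift (A : Finset ℕ) {𝔐 : Set UnitAddCircle} (h : MeasurableSet 𝔐) (ρ : UnitAddCircle) :
    ∫ α in 𝔐, ‖ex A (α + ρ)‖ ^ 2 ∂AddCircle.haarAddCircle =
      mass A ((fun α => α - ρ) ⁻¹' 𝔐) := by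
  have hm : MeasurableSet ((fun α : UnitAddCircle => α - ρ) ⁻¹' 𝔐) :=
    (continuous_id.sub continuous_const).measurable h
  unfold mass
  rw [← integral_indicator h, ← integral_indicator hm,
    ← integral_add_right_eq_self (μ := AddCircle.haarAddCircle)
      (((fun α : UnitAddCircle => α - ρ) ⁻¹' 𝔐).indicator fun α => ‖ex A α‖ ^ 2) ρ]
  refine integral_congr_ae (Filter.Eventually.of_forall fun α => ?_)
  by_cases hα : α ∈ 𝔐
  · have : α + ρ ∈ (fun α : UnitAddCircle => α - ρ) ⁻¹' 𝔐 := by simpa using hα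
    simp only [Set.indicator_of_mem hα, Set.indicator_of_mem this]
  · have : α + ρ ∉ (fun α : UnitAddCircle => α - ρ) ⁻¹' 𝔐 := by simpa using hα
    simp only [Set.indicator_of_notMem hα, Set.indicator_of_notMem this]

/-- disjoint sets of frequencies -/
theorem sum_mass_le {ι : Type} (A : Finset ℕ) (I : Finset ι) (S : ι → Set UnitAddCircle)
    (hm : ∀ i ∈ I, MeasurableSet (S i)) (hd : Set.Pairwise (I : Set ι) (Function.onFun Disjoint S)) :
    ∑ i ∈ I, mass A (S i) ≤ mass A Set.univ := by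
  unfold mass
  rw [← integral_biUnion_finset I hm hd fun i _ => (int_ex A).integrableOn, Measure.restrict_univ]
  exact setIntegral_le_integral (int_ex A) (Filter.Eventually.of_forall fun α => by positivity)

/-- separation of two points of small order -/
theorem sep {η : UnitAddCircle} {n D : ℕ} {x : ℝ} (hη : η ≠ 0) (hn : 0 < n) (hnη : n • η = 0)
    (hc : Nat.Coprime D n) (hx : (n : ℝ) ≤ x) : 1 ≤ ‖D • η‖ * x := by
  have h0 : D • η ≠ 0 := by
    intro h
    have h1 := addOrderOf_dvd_of_nsmul_eq_zero h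
    have h2 := addOrderOf_dvd_of_nsmul_eq_zero hnη
    have h3 : addOrderOf η = 1 := Nat.eq_one_of_dvd_coprimes hc h1 h2
    exact hη (AddMonoid.addOrderOf_eq_one_iff.mp h3)
  have h4 : n • (D • η) = 0 := by rw [smul_comm, hnη, smul_zero]
  have h5 : IsOfFinAddOrder (D • η) := isOfFinAddOrder_iff_nsmul_eq_zero.mpr ⟨n, hn, h4⟩
  have h6 := AddCircle.le_add_order_smul_norm_of_isOfFinAddOrder h5 h0
  have h7 : addOrderOf (D • η) ≤ n := Nat.le_of_dvd hn (addOrderOf_dvd_of_nsmul_eq_zero h4)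
  have h8 : (addOrderOf (D • η) : ℝ) ≤ x := le_trans (by exact_mod_cast h7) hx
  rw [nsmul_eq_mul] at h6
  calc (1 : ℝ) ≤ (addOrderOf (D • η) : ℝ) * ‖D • η‖ := h6
    _ ≤ x * ‖D • η‖ := by gcongr
    _ = _ := mul_comm _ _

theorem lt_of_sift {d : ℕ} {A : Finset ℕ} {Ω : ℕ → Finset ℕ} (h : Sift d A Ω) {p : ℕ}
    (hp : p.Prime) : (Ω p).card < p := by
  rcases (Ω p).eq_empty_or_nonempty with h0 | h0
  · rw [h0]; exact hp.pos
  · have h1 := h.big p h0
    have h2 := h.card p
    omega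

/-- the weighted sum of logarithms is small -/
theorem logsum {C : ℝ} (hC : 1 ≤ C)
    (h1 : ∀ x : ℕ, 1 ≤ x →
      ∑ p ∈ (range (x + 1)).filter Nat.Prime, Real.log p / p ≤ Real.log x + C)
    {d N Q : ℕ} (hN : 1 ≤ N) (hlog : 14 * d * C ≤ Real.log N) {Ω : ℕ → Finset ℕ}
    (hc : ∀ p, (Ω p).card ≤ d) :
    ∑ p ∈ sP d N Q, ((Ω p).card : ℝ) / p * Real.log p ≤ Real.log N / 8 := by
  set x : ℕ := max 1 ((sP d N Q).sup id) with hx
  have hx1 : 1 ≤ x := le_max_left _ _
  have hxN : x ^ (20 * d + 20) ≤ N := by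
    rcases (sP d N Q).eq_empty_or_nonempty with h0 | h0
    · rw [hx, h0]; simpa using hN
    · obtain ⟨p, hp, hp'⟩ := exists_mem_eq_sup _ h0 id
      have hp2 := (mem_filter.mp hp).2
      have : x = p := by
        rw [hx, hp']; exact max_eq_right hp2.1.one_le
      rw [this]; exact hp2.2.2
  have hlx : ((20 * d + 20 : ℕ) : ℝ) * Real.log x ≤ Real.log N := by
    rw [← Real.log_pow]
    refine Real.log_le_log (by positivity) ?_
    exact_mod_cast hxN
  have hl0 : 0 ≤ Real.log x := Real.log_natCast_nonneg x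
  have hsub : sP d N Q ⊆ (range (x + 1)).filter Nat.Prime := by
    intro p hp
    refine mem_filter.mpr ⟨mem_range.mpr (Nat.lt_succ_of_le ?_), (mem_filter.mp hp).2.1⟩
    exact le_trans (le_sup (f := id) hp) (le_max_right _ _)
  have h2 : ∑ p ∈ sP d N Q, ((Ω p).card : ℝ) / p * Real.log p ≤
      d * ∑ p ∈ (range (x + 1)).filter Nat.Prime, Real.log p / p := by
    calc ∑ p ∈ sP d N Q, ((Ω p).card : ℝ) / p * Real.log p
        ≤ ∑ p ∈ sP d N Q, d * (Real.log p / p) := by
          refine sum_le_sum fun p _ => ?_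
          have h3 : ((Ω p).card : ℝ) ≤ d := by exact_mod_cast hc p
          have h4 : 0 ≤ Real.log p / p := div_nonneg (Real.log_natCast_nonneg p) (by positivity)
          calc ((Ω p).card : ℝ) / p * Real.log p = (Ω p).card * (Real.log p / p) := by ring
            _ ≤ _ := by gcongr
      _ ≤ ∑ p ∈ (range (x + 1)).filter Nat.Prime, d * (Real.log p / p) := by
          refine sum_le_sum_of_subset_of_nonneg hsub fun p _ _ => ?_
          exact mul_nonneg (by positivity)
            (div_nonneg (Real.log_natCast_nonneg p) (by positivity))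
      _ = _ := by rw [mul_sum]
  have h5 := h1 x hx1
  have hd : (0 : ℝ) ≤ d := by positivity
  have h6 : d * ∑ p ∈ (range (x + 1)).filter Nat.Prime, Real.log p / p ≤
      d * (Real.log x + C) := by gcongr
  push_cast at hlx
  have h7 : 0 ≤ d * C := by positivity
  nlinarith

theorem exp_le {w p : ℝ} (hw : 0 ≤ w) (hp : w < p) : Real.exp (w / p) ≤ 1 + w / (p - w) := by
  have hp0 : 0 < p := lt_of_le_of_lt hw hp
  have h1 : 0 < p - w := by linarith
  have h2 : 1 - w / p ≤ Real.exp (-(w / p)) := by linarith [Real.add_one_le_exp (-(w / p))]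
  have h3 : (1 + w / (p - w)) * (1 - w / p) = 1 := by field_simp; ring
  have h4 : 0 ≤ 1 + w / (p - w) := by positivity
  have h5 : 1 ≤ (1 + w / (p - w)) * Real.exp (-(w / p)) := by
    calc (1 : ℝ) = (1 + w / (p - w)) * (1 - w / p) := h3.symm
      _ ≤ _ := by gcongr
  calc Real.exp (w / p) = 1 * Real.exp (w / p) := (one_mul _).symm
    _ ≤ ((1 + w / (p - w)) * Real.exp (-(w / p))) * Real.exp (w / p) := by gcongr
    _ = _ := by rw [mul_assoc, ← Real.exp_add]; simp

/-- the points of a given order -/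
noncomputable def ordS (n : ℕ) : Finset UnitAddCircle :=
  if h : 0 < n then (AddCircle.finite_setOfPred_addOrderOf_eq (1 : ℝ) h).toFinset else ∅

theorem mem_ordS {n : ℕ} (hn : 0 < n) {ρ : UnitAddCircle} : ρ ∈ ordS n ↔ addOrderOf ρ = n := by
  simp [ordS, hn]

theorem finsum_ordS {n : ℕ} (hn : 0 < n) (f : UnitAddCircle → ℝ) :
    ∑ᶠ ρ ∈ {ρ : UnitAddCircle | addOrderOf ρ = n}, f ρ = ∑ ρ ∈ ordS n, f ρ := by
  rw [finsum_mem_eq_finite_toFinset_sum f (AddCircle.finite_setOfPred_addOrderOf_eq (1 : ℝ) hn)]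
  simp [ordS, hn]

end MBP

open MBP in
theorem p_mb (hM : Z_Mer) (hO : Z_Mont) (hH : Z_Hlow) (hP : Z_Par) : Z_MB := by
  intro d
  obtain ⟨C, hC, h1, -, -⟩ := hM
  refine ⟨⌈Real.exp (14 * d * C)⌉₊ + 2, fun N Q A Ω 𝔐 hN hS hm hD => ?_⟩
  have hN2 : (2 : ℝ) ≤ N := by exact_mod_cast le_trans (Nat.le_add_left 2 _) hN
  have hlog : 14 * d * C ≤ Real.log N := by
    rw [Real.le_log_iff_exp_le (by linarith)]
    refine le_trans (Nat.le_ceil _) ?_
    exact_mod_cast le_trans (Nat.le_add_right _ 2) hN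
  set s := sP d N Q with hs
  have hsp : ∀ p ∈ s, p.Prime := fun p hp => (mem_filter.mp hp).2.1
  have hsQ : ∀ p ∈ s, Q < p := fun p hp => (mem_filter.mp hp).2.2.1
  have hlt : ∀ p ∈ s, ((Ω p).card : ℝ) < p := fun p hp => by
    exact_mod_cast lt_of_sift hS (hsp p hp)
  set h : ℕ → ℝ := fun p => ((Ω p).card : ℝ) / (p - (Ω p).card) with hh
  have hh0 : ∀ p ∈ s, 0 ≤ h p := fun p hp =>
    div_nonneg (by positivity) (by linarith [hlt p hp])
  set R : ℝ := √(√(N : ℝ)) with hR
  have hsq : 1 < √(N : ℝ) := Real.lt_sqrt_of_sq_lt (by linarith)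
  have hR1 : 1 < R := Real.lt_sqrt_of_sq_lt (by linarith)
  have hRR : R * R = √(N : ℝ) := Real.mul_self_sqrt (by linarith)
  have hlR : Real.log R = Real.log N / 4 := by
    rw [hR, Real.log_sqrt (by linarith), Real.log_sqrt (by linarith)]; ring
  have hlow := hH s h R (fun p hp => ⟨(hsp p hp).one_le, hh0 p hp⟩) hR1 (by
    have h2 := logsum (Q := Q) hC h1 (by exact_mod_cast le_trans one_le_two hN2) hlog hS.card
    rw [hlR]
    calc ∑ p ∈ s, h p / (1 + h p) * Real.log p
        = ∑ p ∈ s, ((Ω p).card : ℝ) / p * Real.log p := by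
          refine sum_congr rfl fun p hp => ?_
          have h3 := hlt p hp
          have h4 : (0 : ℝ) < p := lt_of_le_of_lt (by positivity) h3
          have h5 : (p : ℝ) - (Ω p).card ≠ 0 := by linarith
          have h6 : h p / (1 + h p) = ((Ω p).card : ℝ) / p := by
            have h7 : 1 + h p = p / (p - (Ω p).card) := by
              simp only [hh]
              field_simp
              ring
            rw [h7]
            simp only [hh]
            field_simp
          rw [h6]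
      _ ≤ _ := by linarith)
  set T := s.powerset.filter fun t => ((∏ p ∈ t, p : ℕ) : ℝ) ≤ R with hT
  have hTp : ∀ t ∈ T, ∀ p ∈ t, p ∈ s := fun t ht p hp =>
    mem_powerset.mp (mem_filter.mp ht).1 hp
  have hTpos : ∀ t ∈ T, 0 < ∏ p ∈ t, p := fun t ht =>
    prod_pos fun p hp => (hsp p (hTp t ht p hp)).pos
  have hmass : 0 ≤ mass A 𝔐 := setIntegral_nonneg hm fun α _ => by positivity
  -- one squarefree order
  have hone : ∀ t ∈ T, (∏ p ∈ t, h p) * mass A 𝔐 ≤
      ∑ ρ ∈ ordS (∏ p ∈ t, p), mass A ((fun α => α - ρ) ⁻¹' 𝔐) := by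
    intro t ht
    calc (∏ p ∈ t, h p) * mass A 𝔐
        = ∫ α in 𝔐, (∏ p ∈ t, h p) * ‖ex A α‖ ^ 2 ∂AddCircle.haarAddCircle := by
          rw [integral_const_mul]; rfl
      _ ≤ ∫ α in 𝔐, ∑ ρ ∈ ordS (∏ p ∈ t, p), ‖ex A (α + ρ)‖ ^ 2 ∂AddCircle.haarAddCircle := by
          refine integral_mono ((int_ex A).integrableOn.const_mul _)
            (integrable_finsetSum _ fun ρ _ => (int_ex' A ρ).integrableOn) fun α => ?_
          have h2 := hO d A Ω t α hS fun p hp => hsp p (hTp t ht p hp)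
          rw [finsum_ordS (hTpos t ht)] at h2
          exact h2
      _ = _ := by
          rw [integral_finsetSum _ fun ρ _ => (int_ex' A ρ).integrableOn]
          exact sum_congr rfl fun ρ _ => shift A hm ρ
  -- all orders
  have hall : ∑ t ∈ T, ∑ ρ ∈ ordS (∏ p ∈ t, p), mass A ((fun α => α - ρ) ⁻¹' 𝔐) ≤ A.card := by
    rw [sum_sigma', ← (hP A).1]
    refine sum_mass_le A (T.sigma fun t => ordS (∏ p ∈ t, p))
      (fun i => (fun α => α - i.2) ⁻¹' 𝔐)
      (fun i _ => (continuous_id.sub continuous_const).measurable hm) ?_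
    rintro ⟨t, ρ⟩ hi ⟨t', ρ'⟩ hi' hne
    obtain ⟨ht, hρ⟩ := mem_sigma.mp (mem_coe.mp hi)
    obtain ⟨ht', hρ'⟩ := mem_sigma.mp (mem_coe.mp hi')
    dsimp only at ht hρ ht' hρ'
    rw [mem_ordS (hTpos t ht)] at hρ
    rw [mem_ordS (hTpos t' ht')] at hρ'
    have hρρ : ρ' - ρ ≠ 0 := by
      intro h0
      have h2 : ρ' = ρ := sub_eq_zero.mp h0
      subst h2
      have h3 : t = t' := by
        rw [← Nat.primeFactors_prod fun p hp => hsp p (hTp t ht p hp),
          ← Nat.primeFactors_prod fun p hp => hsp p (hTp t' ht' p hp), ← hρ, ← hρ']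
      subst h3
      exact hne rfl
    refine Set.disjoint_left.mpr fun α hα hα' => ?_
    obtain ⟨D, hD1, hDQ, hDn⟩ := hD _ hα _ hα'
    have h2 : α - ρ - (α - ρ') = ρ' - ρ := by abel
    dsimp only at hDn
    rw [h2] at hDn
    have h3 : ((∏ p ∈ t, p) * ∏ p ∈ t', p) • (ρ' - ρ) = 0 := by
      have e1 : (∏ p ∈ t, p) • ρ = 0 := by rw [← hρ]; exact addOrderOf_nsmul_eq_zero ρ
      have e2 : (∏ p ∈ t', p) • ρ' = 0 := by rw [← hρ']; exact addOrderOf_nsmul_eq_zero ρ'
      rw [smul_sub, mul_smul, e2, mul_comm, mul_smul, e1]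
      simp
    have hcop : ∀ u ∈ T, Nat.Coprime D (∏ p ∈ u, p) := fun u hu =>
      Nat.Coprime.prod_right fun p hp => by
        have hp' := hTp u hu p hp
        refine ((Nat.Prime.coprime_iff_not_dvd (hsp p hp')).mpr fun hdv => ?_).symm
        exact absurd (hDQ p (hsp p hp') hdv) (not_le.mpr (hsQ p hp'))
    have h4 : (((∏ p ∈ t, p) * ∏ p ∈ t', p : ℕ) : ℝ) ≤ √(N : ℝ) := by
      rw [Nat.cast_mul, ← hRR]
      exact mul_le_mul (mem_filter.mp ht).2 (mem_filter.mp ht').2 (by positivity) (by linarith)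
    have h5 := sep hρρ (Nat.mul_pos (hTpos t ht) (hTpos t' ht')) h3
      ((hcop t ht).mul_right (hcop t' ht')) h4
    linarith
  have hexp : Real.exp (wt d N Q Ω) ≤ ∏ p ∈ s, (1 + h p) := by
    unfold wt
    rw [Real.exp_sum]
    exact prod_le_prod (fun p _ => (Real.exp_pos _).le) fun p hp =>
      exp_le (by positivity) (hlt p hp)
  have hfin : Real.exp (wt d N Q Ω) / 2 * mass A 𝔐 ≤ A.card := by
    calc Real.exp (wt d N Q Ω) / 2 * mass A 𝔐 ≤ (∑ t ∈ T, ∏ p ∈ t, h p) * mass A 𝔐 := by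
          gcongr
          linarith
      _ = ∑ t ∈ T, (∏ p ∈ t, h p) * mass A 𝔐 := sum_mul _ _ _
      _ ≤ _ := (sum_le_sum hone).trans hall
  have hpos := Real.exp_pos (wt d N Q Ω)
  rw [Real.exp_neg, ← div_eq_mul_inv, le_div_iff₀ hpos]
  linarith

end Pool.Agent.P.MP_e4219a_lc
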