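import Pool.Agent.P.MP_e4219a_lc.Bund

/-! A maximal family that is independent modulo powers. -/

namespace Pool.Agent.P.MP_e4219a_lc

open Finset

namespace MaxP

variable {F : Type} [Field F] {ℓ : ℕ} {𝒮 : F → Prop}

theorem bound {Y : Finset F} (hℓ : ℓ.Prime) (hY : ∀ y, 𝒮 y → ∃ y₀ ∈ Y, ∃ z, y = y₀ * z ^ ℓ)
    {t : ℕ} {y : Fin t → F} (h1 : ∀ i, 𝒮 (y i))
    (h2 : ∀ c : Fin t → ℕ, (∃ z, ∏ i, y i ^ c i = z ^ ℓ) → ∀ i, ℓ ∣ c i) : t ≤ Y.card := by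
  classical
  choose g hg z hz using fun i => hY (y i) (h1 i)
  have hi : Function.Injective g := by
    intro i j e
    by_contra hne
    obtain ⟨k, rfl⟩ : ∃ k, ℓ = k + 1 := ⟨ℓ - 1, by have := hℓ.pos; omega⟩
    have h3 := h2 (Pi.single i 1 + Pi.single j k) ⟨g j * z i * z j ^ k, ?_⟩ i
    · rw [Pi.add_apply, Pi.single_eq_same, Pi.single_eq_of_ne hne, add_zero] at h3
      exact hℓ.one_lt.ne' (Nat.dvd_one.1 h3)
    · have h4 : ∀ (a : Fin t) (n : ℕ), ∏ b, y b ^ (Pi.single a n : Fin t → ℕ) b = y a ^ n := by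
        intro a n
        rw [prod_eq_single a (fun b _ hb => by rw [Pi.single_eq_of_ne hb, pow_zero])
          fun h => absurd (mem_univ a) h, Pi.single_eq_same]
      simp only [Pi.add_apply, pow_add (y _), prod_mul_distrib, h4]
      rw [hz i, hz j, e]
      ring
  simpa using card_le_card_of_injOn (s := univ) (t := Y) g (fun i _ => hg i) hi.injOn

theorem step (hℓ : ℓ.Prime) {t : ℕ} {y : Fin t → F}
    (h2 : ∀ c : Fin t → ℕ, (∃ z, ∏ i, y i ^ c i = z ^ ℓ) → ∀ i, ℓ ∣ c i) {x : F} (hx : x ≠ 0)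
    (hn : ¬ ∃ (c : Fin t → ℕ) (z : F), x * ∏ i, y i ^ c i = z ^ ℓ) (c : Fin (t + 1) → ℕ)
    (hc : ∃ z, ∏ i, (Fin.cons x y : Fin (t + 1) → F) i ^ c i = z ^ ℓ) (i : Fin (t + 1)) :
    ℓ ∣ c i := by
  obtain ⟨z, hz⟩ := hc
  rw [Fin.prod_univ_succ] at hz
  simp only [Fin.cons_zero, Fin.cons_succ] at hz
  have h0 : ℓ ∣ c 0 := by
    by_contra h
    obtain ⟨m, -, hm⟩ := Nat.exists_mul_mod_eq_one_of_coprime
      ((Nat.coprime_comm.1 ((Nat.Prime.coprime_iff_not_dvd hℓ).2 h))) hℓ.one_lt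
    have h3 : c 0 * m = 1 + ℓ * (c 0 * m / ℓ) := by
      have := Nat.mod_add_div (c 0 * m) ℓ
      omega
    refine hn ⟨fun i => c i.succ * m, z ^ m / x ^ (c 0 * m / ℓ), ?_⟩
    have h4 := congrArg (· ^ m) hz
    simp only [mul_pow, ← prod_pow, ← pow_mul] at h4
    rw [div_pow, eq_div_iff (pow_ne_zero _ (pow_ne_zero _ hx)), ← pow_mul z, mul_comm m ℓ, ← h4,
      ← pow_mul x]
    generalize c 0 * m / ℓ = k at h3 ⊢
    rw [h3]
    ring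
  refine Fin.cases h0 (fun i => ?_) i
  obtain ⟨k, hk⟩ := h0
  refine h2 (fun i => c i.succ) ⟨z / x ^ k, ?_⟩ i
  rw [div_pow, eq_div_iff (pow_ne_zero _ (pow_ne_zero _ hx)), ← hz, hk]
  ring

end MaxP

theorem p_max : Z_Max := by
  intro F _ ℓ 𝒮 Y hℓ h0 hY
  by_contra hn
  have key : ∀ t : ℕ, ∃ y : Fin t → F, (∀ i, 𝒮 (y i)) ∧
      ∀ c : Fin t → ℕ, (∃ z, ∏ i, y i ^ c i = z ^ ℓ) → ∀ i, ℓ ∣ c i := by
    intro t
    induction t with
    | zero => exact ⟨Fin.elim0, fun i => i.elim0, fun _ _ i => i.elim0⟩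
    | succ t ih =>
      obtain ⟨y, h1, h2⟩ := ih
      have h3 : ∃ x, 𝒮 x ∧ ¬ ∃ (c : Fin t → ℕ) (z : F), x * ∏ i, y i ^ c i = z ^ ℓ := by
        by_contra h
        exact hn ⟨t, y, h1, h2, fun x hx => by_contra fun k => h ⟨x, hx, k⟩⟩
      obtain ⟨x, hx, h4⟩ := h3
      exact ⟨Fin.cons x y, fun i => Fin.cases hx (fun i => h1 i) i,
        MaxP.step hℓ h2 (h0 x hx) h4⟩
  obtain ⟨y, h1, h2⟩ := key (Y.card + 1)
  exact absurd (MaxP.bound hℓ hY h1 h2) (by omega)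

end Pool.Agent.P.MP_e4219a_lc
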