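import Pool.Agent.P.MP_e4219a_lc.Bund
import Pool.Agent.P.MP_a14ce1_nt.Ch.Mertens

/-! Estimates of Mertens type. -/

namespace Pool.Agent.P.MP_e4219a_lc

open Finset
open Pool.Agent.P.MP_a14ce1_nt

namespace MerP

theorem one : ∃ C : ℝ, 0 < C ∧ ∀ x : ℕ, 1 ≤ x →
    ∑ p ∈ (range (x + 1)).filter Nat.Prime, Real.log p / p ≤ Real.log x + C := by
  obtain ⟨C, hC, h⟩ := Ch.Mertens.mertens_nat
  refine ⟨C, hC, fun x hx => ?_⟩
  have e : (range (x + 1)).filter Nat.Prime = (Ioc 0 x).filter Nat.Prime := by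
    ext p
    simp only [mem_filter, mem_range, mem_Ioc]
    exact ⟨fun a => ⟨⟨a.2.pos, by omega⟩, a.2⟩, fun a => ⟨by omega, a.2⟩⟩
  have h1 := (abs_le.1 (h x hx)).2
  rw [Ch.Mertens.A, ← e] at h1
  linarith

theorem two : ∃ C : ℝ, 0 < C ∧ ∀ x : ℕ, 2 ≤ x →
    ∑ p ∈ (range (x + 1)).filter Nat.Prime, (1 : ℝ) / p ≤ Real.log (Real.log x) + C := by
  obtain ⟨C, hC, h⟩ := Ch.m1
  refine ⟨C + 2, by linarith, fun x hx => ?_⟩
  have hx' : (2 : ℝ) ≤ x := by exact_mod_cast hx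
  have h1 := (abs_le.1 (h 2 x le_rfl hx')).2
  have e : (range (x + 1)).filter Nat.Prime = insert 2 (Ch.pr 2 x) := by
    ext p
    simp only [Ch.pr, mem_filter, mem_range, mem_Ioc, mem_insert, Nat.floor_natCast,
      Nat.floor_ofNat]
    constructor
    · rintro ⟨a, b⟩
      have := b.two_le
      by_cases c : p = 2
      · exact Or.inl c
      · exact Or.inr ⟨⟨by omega, by omega⟩, b⟩
    · rintro (rfl | ⟨a, b⟩)
      · exact ⟨by omega, Nat.prime_two⟩
      · exact ⟨by omega, b⟩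
  have hn : 2 ∉ Ch.pr 2 x := by simp [Ch.pr]
  have l2 : (1 : ℝ) / 2 ≤ Real.log 2 := by linarith [Real.log_two_gt_d9]
  have l3 : -1 ≤ Real.log (Real.log 2) := by
    have h2 := Real.log_le_log (by norm_num) l2
    rw [one_div, Real.log_inv] at h2
    linarith [Real.log_two_lt_d9]
  rw [Real.log_div (Real.log_pos (by linarith)).ne' (by linarith), Ch.rs] at h1
  rw [e, sum_insert hn]
  push_cast
  linarith

theorem three : ∃ C : ℝ, 0 < C ∧ ∀ (z : ℕ) (T : Finset ℕ), 3 ≤ z →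
    (∀ p ∈ T, p.Prime ∧ z < p) → ∑ p ∈ T, (p : ℝ) ^ (-(1 + 1 / Real.log z)) ≤ C := by
  obtain ⟨C, hC, h⟩ := Ch.m6
  refine ⟨C, hC, fun z T hz hT => ?_⟩
  have hz' : (3 : ℝ) ≤ z := by exact_mod_cast hz
  have hl : 1 ≤ Real.log z := by
    rw [Real.le_log_iff_exp_le (by linarith)]
    linarith [Real.exp_one_lt_d9]
  have hl0 : 0 < Real.log z := by linarith
  have hη : 0 < 1 / Real.log z := by positivity
  have h1 := h (1 / Real.log z) hη (by rw [div_le_one hl0]; exact hl) (T.sup id)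
  rw [div_div_eq_mul_div, div_one] at h1
  have h2 : ∑ p ∈ T, ArithmeticFunction.vonMangoldt p / (p : ℝ) ^ (1 + 1 / Real.log z) ≤
      C * Real.log z := by
    refine le_trans (sum_le_sum_of_subset_of_nonneg (fun p hp => mem_Icc.2
      ⟨(hT p hp).1.one_le, le_sup (f := id) hp⟩) fun n _ _ => ?_) h1
    exact div_nonneg ArithmeticFunction.vonMangoldt_nonneg (by positivity)
  refine le_of_mul_le_mul_right (le_trans ?_ h2) hl0
  rw [sum_mul]
  refine sum_le_sum fun p hp => ?_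
  have hp0 : (0 : ℝ) < p := by exact_mod_cast (hT p hp).1.pos
  have hzp : Real.log z ≤ Real.log p :=
    Real.log_le_log (by linarith) (by exact_mod_cast (hT p hp).2.le)
  rw [ArithmeticFunction.vonMangoldt_apply_prime (hT p hp).1, Real.rpow_neg hp0.le,
    ← div_eq_inv_mul]
  exact div_le_div_of_nonneg_right hzp (by positivity)

end MerP

theorem p_mer : Z_Mer := by
  obtain ⟨C1, a1, h1⟩ := MerP.one
  obtain ⟨C2, a2, h2⟩ := MerP.two
  obtain ⟨C3, a3, h3⟩ := MerP.three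
  refine ⟨1 + C1 + C2 + C3, by linarith, fun x hx => ?_, fun x hx => ?_, fun z T hz hT => ?_⟩
  · linarith [h1 x hx]
  · linarith [h2 x hx]
  · linarith [h3 z T hz hT]

end Pool.Agent.P.MP_e4219a_lc
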