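import Pool.Agent.P.MP_e4219a_lc.Bund

/-! The inequality of Montgomery for sifted sets. -/

namespace Pool.Agent.P.MP_e4219a_lc

open Finset

namespace MontP

theorem four_add (a : ℕ) (α β : UnitAddCircle) :
    fourier (a : ℤ) (α + β) = fourier (a : ℤ) α * fourier (a : ℤ) β := by
  rw [fourier_apply, fourier_apply, fourier_apply, smul_add, AddCircle.toCircle_add,
    Circle.coe_mul]

theorem four_zmod {p : ℕ} [NeZero p] (a : ℕ) (j : ZMod p) :
    fourier (a : ℤ) (ZMod.toAddCircle j) = ZMod.stdAddChar (j * (a : ZMod p)) := by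
  rw [fourier_apply, ← map_zsmul, ZMod.stdAddChar_apply, zsmul_eq_mul, Int.cast_natCast,
    mul_comm]
  rfl

/-- the identity of Parseval on `ZMod p` -/
theorem parseval {p : ℕ} [NeZero p] (Z : ZMod p → ℂ) :
    ∑ j : ZMod p, ‖∑ c : ZMod p, Z c * ZMod.stdAddChar (j * c)‖ ^ 2 =
      p * ∑ c : ZMod p, ‖Z c‖ ^ 2 := by
  have h1 : ∀ x : ℂ, ((‖x‖ ^ 2 : ℝ) : ℂ) = x * (starRingEnd ℂ) x := by
    intro x
    rw [Complex.mul_conj, Complex.normSq_eq_norm_sq]
  apply Complex.ofReal_injective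
  rw [Complex.ofReal_sum, Complex.ofReal_mul, Complex.ofReal_sum]
  simp only [h1]
  have h2 : ∀ j : ZMod p, (∑ c : ZMod p, Z c * ZMod.stdAddChar (j * c)) *
      (starRingEnd ℂ) (∑ c : ZMod p, Z c * ZMod.stdAddChar (j * c)) =
      ∑ c : ZMod p, ∑ c' : ZMod p,
        Z c * (starRingEnd ℂ) (Z c') * ZMod.stdAddChar (j * (c - c')) := by
    intro j
    rw [map_sum, sum_mul_sum]
    refine sum_congr rfl fun c _ => sum_congr rfl fun c' _ => ?_
    rw [map_mul (starRingEnd ℂ), ← AddChar.map_neg_eq_conj, mul_sub, sub_eq_add_neg, AddChar.map_add_eq_mul]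
    ring
  simp only [h2]
  rw [sum_comm, mul_sum]
  refine sum_congr rfl fun c _ => ?_
  rw [sum_comm]
  have h3 : ∀ c' : ZMod p, ∑ j : ZMod p,
      Z c * (starRingEnd ℂ) (Z c') * ZMod.stdAddChar (j * (c - c')) =
      if c = c' then Z c * (starRingEnd ℂ) (Z c') * p else 0 := by
    intro c'
    rw [← mul_sum, AddChar.sum_mulShift _ (ZMod.isPrimitive_stdAddChar p), ZMod.card]
    by_cases h : c = c'
    · rw [if_pos h, if_pos (sub_eq_zero.2 h)]
    · rw [if_neg h, if_neg fun h' => h (sub_eq_zero.1 h')]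
      simp
  simp only [h3]
  rw [sum_ite_eq, if_pos (mem_univ _)]
  push_cast
  ring

/-- one prime -/
theorem one_prime {p : ℕ} [NeZero p] (A O : Finset ℕ) (hlt : ∀ c ∈ O, c < p)
    (hw : O.card < p) (hav : ∀ a ∈ A, a % p ∉ O) (α : UnitAddCircle) :
    (O.card : ℝ) / (p - O.card) * ‖ex A α‖ ^ 2 ≤
      ∑ j ∈ (univ : Finset (ZMod p)).erase 0, ‖ex A (α + ZMod.toAddCircle j)‖ ^ 2 := by
  classical
  set Z : ZMod p → ℂ := fun c =>
    ∑ a ∈ A.filter (fun a : ℕ => (a : ZMod p) = c), fourier ((a : ℕ) : ℤ) α with hZ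
  have h1 : ∀ j : ZMod p, ex A (α + ZMod.toAddCircle j) =
      ∑ c : ZMod p, Z c * ZMod.stdAddChar (j * c) := by
    intro j
    rw [ex, ← sum_fiberwise A (fun a : ℕ => (a : ZMod p))]
    refine sum_congr rfl fun c _ => ?_
    rw [hZ, sum_mul]
    refine sum_congr rfl fun a ha => ?_
    rw [four_add, four_zmod, (mem_filter.1 ha).2]
  set O' : Finset (ZMod p) := O.image fun c : ℕ => (c : ZMod p) with hO'
  have hc : O'.card = O.card := by
    refine card_image_of_injOn fun a ha b hb hab => ?_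
    have := (ZMod.natCast_eq_natCast_iff' a b p).1 hab
    rwa [Nat.mod_eq_of_lt (hlt a ha), Nat.mod_eq_of_lt (hlt b hb)] at this
  have h0 : ∀ c ∈ O', Z c = 0 := by
    intro c hc
    obtain ⟨b, hb, rfl⟩ := mem_image.1 hc
    refine sum_eq_zero fun a ha => ?_
    obtain ⟨ha, hab⟩ := mem_filter.1 ha
    have := (ZMod.natCast_eq_natCast_iff' a b p).1 hab
    rw [Nat.mod_eq_of_lt (hlt b hb)] at this
    exact absurd (this ▸ hb) (hav a ha)
  have h2 : ex A α = ∑ c ∈ univ \ O', Z c := by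
    have := h1 0
    simp only [map_zero, add_zero, zero_mul, AddChar.map_zero_eq_one, mul_one] at this
    rw [this]
    exact (sum_subset sdiff_subset fun c _ hc => h0 c (by simpa using hc)).symm
  have hcard : (((univ \ O').card : ℕ) : ℝ) = p - O.card := by
    rw [card_sdiff_of_subset (subset_univ _), card_univ, ZMod.card, hc, Nat.cast_sub hw.le]
  set S : ℝ := ∑ c : ZMod p, ‖Z c‖ ^ 2 with hS
  have h3 : ‖ex A α‖ ^ 2 ≤ (p - O.card) * S := by
    rw [h2, ← hcard]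
    calc ‖∑ c ∈ univ \ O', Z c‖ ^ 2 ≤ (∑ c ∈ univ \ O', ‖Z c‖) ^ 2 :=
          pow_le_pow_left₀ (norm_nonneg _) (norm_sum_le _ _) 2
      _ ≤ ((univ \ O').card : ℕ) * ∑ c ∈ univ \ O', ‖Z c‖ ^ 2 := sq_sum_le_card_mul_sum_sq
      _ ≤ _ := mul_le_mul_of_nonneg_left
          (sum_le_sum_of_subset_of_nonneg sdiff_subset fun _ _ _ => by positivity)
          (Nat.cast_nonneg _)
  have h4 : ‖ex A α‖ ^ 2 + ∑ j ∈ (univ : Finset (ZMod p)).erase 0,
      ‖ex A (α + ZMod.toAddCircle j)‖ ^ 2 = p * S := by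
    rw [hS, ← parseval Z]
    simp only [← h1]
    rw [← add_sum_erase univ _ (mem_univ (0 : ZMod p)), map_zero, add_zero]
  have hpos : (0 : ℝ) < p - O.card := sub_pos.2 (by exact_mod_cast hw)
  have h5 : (O.card : ℝ) / (p - O.card) * ‖ex A α‖ ^ 2 ≤ O.card * S := by
    rw [div_mul_eq_mul_div, div_le_iff₀ hpos]
    calc (O.card : ℝ) * ‖ex A α‖ ^ 2 ≤ O.card * ((p - O.card) * S) :=
          mul_le_mul_of_nonneg_left h3 (Nat.cast_nonneg _)
      _ = _ := by ring
  nlinarith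

/-- the points of order `m` -/
noncomputable def ordS (m : ℕ) (hm : 0 < m) : Finset UnitAddCircle :=
  (AddCircle.finite_setOfPred_addOrderOf_eq (1 : ℝ) hm).toFinset

theorem mem_ordS {m : ℕ} (hm : 0 < m) {ρ : UnitAddCircle} :
    ρ ∈ ordS m hm ↔ addOrderOf ρ = m := by
  simp [ordS]

theorem ord_zmod {p : ℕ} [Fact p.Prime] {j : ZMod p} (hj : j ≠ 0) :
    addOrderOf (ZMod.toAddCircle j) = p := by
  rw [addOrderOf_injective _ (ZMod.toAddCircle_injective p)]
  exact addOrderOf_eq_prime (by simp) hj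

/-- points of order `p m` -/
theorem split {p m : ℕ} [Fact p.Prime] (hm : 0 < m) (hpm : 0 < p * m) (hc : p.Coprime m)
    (F : UnitAddCircle → ℝ) (hF : ∀ x, 0 ≤ F x) :
    ∑ ρ ∈ ordS m hm, ∑ j ∈ (univ : Finset (ZMod p)).erase 0, F (ρ + ZMod.toAddCircle j) ≤
      ∑ ρ ∈ ordS (p * m) hpm, F ρ := by
  classical
  rw [← sum_product' (f := fun ρ j => F (ρ + ZMod.toAddCircle j)),
    ← sum_image (g := fun x : UnitAddCircle × ZMod p => x.1 + ZMod.toAddCircle x.2) (f := F)]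
  · refine sum_le_sum_of_subset_of_nonneg (fun x hx => ?_) fun _ _ _ => hF _
    obtain ⟨⟨ρ, j⟩, hy, rfl⟩ := mem_image.1 hx
    obtain ⟨h1, h2⟩ := mem_product.1 hy
    have h3 := (mem_ordS hm).1 h1
    have h4 := ord_zmod (mem_erase.1 h2).1
    rw [mem_ordS, (AddCommute.all _ _).addOrderOf_add_eq_mul_addOrderOf_of_coprime
      (by rw [h3, h4]; exact hc.symm), h3, h4, mul_comm]
  · rintro ⟨ρ, j⟩ hx ⟨ρ', j'⟩ hx' h
    have h1 := (mem_ordS hm).1 (mem_product.1 (mem_coe.1 hx)).1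
    have h2 := (mem_ordS hm).1 (mem_product.1 (mem_coe.1 hx')).1
    simp only at h1 h2 h
    have h3 : ρ - ρ' = ZMod.toAddCircle (j' - j) := by
      rw [map_sub, sub_eq_sub_iff_add_eq_add, h, add_comm]
    have h4 : m • (ρ - ρ') = 0 := by
      rw [smul_sub, ← h1, addOrderOf_nsmul_eq_zero, h1, ← h2, addOrderOf_nsmul_eq_zero, sub_zero]
    have h5 : j' - j = 0 := by
      by_contra h5
      have h6 := addOrderOf_dvd_of_nsmul_eq_zero h4
      rw [h3, ord_zmod h5] at h6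
      exact (Fact.out : p.Prime).one_lt.ne' (Nat.Coprime.eq_one_of_dvd hc h6)
    rw [h5, map_zero] at h3
    exact Prod.ext (sub_eq_zero.1 h3) (sub_eq_zero.1 h5).symm

theorem main {d : ℕ} {A : Finset ℕ} {Ω : ℕ → Finset ℕ} (hS : Sift d A Ω) (s : Finset ℕ)
    (hs : ∀ p ∈ s, p.Prime) (hm : 0 < ∏ p ∈ s, p) (α : UnitAddCircle) :
    (∏ p ∈ s, ((Ω p).card : ℝ) / (p - (Ω p).card)) * ‖ex A α‖ ^ 2 ≤
      ∑ ρ ∈ ordS _ hm, ‖ex A (α + ρ)‖ ^ 2 := by
  induction s using Finset.induction_on with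
  | empty =>
    have : ordS _ hm = {0} := by
      ext ρ
      rw [mem_ordS, prod_empty, AddMonoid.addOrderOf_eq_one_iff, mem_singleton]
    rw [this]
    simp
  | insert p s hp ih =>
    have hpp := hs p (mem_insert_self _ _)
    have hs' : ∀ q ∈ s, q.Prime := fun q hq => hs q (mem_insert_of_mem hq)
    have hm' : 0 < ∏ q ∈ s, q := prod_pos fun q hq => (hs' q hq).pos
    have : Fact p.Prime := ⟨hpp⟩
    have hw : (Ω p).card < p := by
      rcases (Ω p).eq_empty_or_nonempty with h | h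
      · rw [h]
        exact hpp.pos
      · have h1 := hS.big p h
        have h2 := hS.card p
        omega
    have hc : p.Coprime (∏ q ∈ s, q) := Nat.Coprime.prod_right fun q hq =>
      (Nat.coprime_primes hpp (hs' q hq)).2 fun h => hp (h ▸ hq)
    have hpm : 0 < p * ∏ q ∈ s, q := Nat.mul_pos hpp.pos hm'
    have he : ordS _ hm = ordS _ hpm := by
      ext ρ
      rw [mem_ordS, mem_ordS, prod_insert hp]
    have hh : (0 : ℝ) ≤ ((Ω p).card : ℝ) / (p - (Ω p).card) :=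
      div_nonneg (Nat.cast_nonneg _) (sub_nonneg.2 (by exact_mod_cast hw.le))
    rw [he, prod_insert hp, mul_assoc]
    refine le_trans ?_ (split hm' hpm hc (fun ρ => ‖ex A (α + ρ)‖ ^ 2) fun _ => by positivity)
    refine (mul_le_mul_of_nonneg_left (ih hs' hm') hh).trans ?_
    rw [mul_sum]
    refine sum_le_sum fun ρ _ => ?_
    simp only [← add_assoc]
    exact one_prime A (Ω p) (hS.lt p) hw (hS.av p) (α + ρ)

end MontP

theorem p_mont : Z_Mont := by
  intro d A Ω s α hS hs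
  have hm : 0 < ∏ p ∈ s, p := prod_pos fun q hq => (hs q hq).pos
  rw [finsum_mem_eq_finite_toFinset_sum _
    (AddCircle.finite_setOfPred_addOrderOf_eq (1 : ℝ) hm)]
  exact MontP.main hS s hs hm α

end Pool.Agent.P.MP_e4219a_lc
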