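import Pool.Agent.P.MP_e4219a_lc.Bund

/-! Multiplication by the ring generated by a root of unity in the kernel of reduction. -/

namespace Pool.Agent.P.MP_e4219a_lc

open Polynomial

namespace MultP

variable {F A : Type} [Field F] [AddCommGroup A] {ℓ : ℕ} {ζ : F}

theorem ze_eq (h : Ze ℓ ζ) : ζ ^ 2 + ((ℓ : F) - 2) * ζ + 1 = 0 := by
  rcases h with ⟨rfl, h⟩ | ⟨rfl, h⟩
  · push_cast; linear_combination h
  · push_cast; linear_combination h

/-- reduction to linear polynomials -/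
theorem red (h : Ze ℓ ζ) (ι : Module.End ℤ A) (hι : ∀ R, ι (ι R) + (ℓ - 2) • ι R + R = 0)
    (g : ℤ[X]) : ∃ a b : ℤ, aeval ζ g = a * ζ + b ∧ (∀ R, aeval ι g R = a • ι R + b • R) ∧
      (ℓ : ℤ) ∣ g.eval 1 - (a + b) := by
  have h2 : 2 ≤ ℓ := h.el.prime.two_le
  induction g using Polynomial.induction_on with
  | C c => exact ⟨0, c, by simp, fun R => by simp, by simp⟩
  | add p q hp hq =>
    obtain ⟨a, b, e1, e2, e3⟩ := hp
    obtain ⟨a', b', e1', e2', e3'⟩ := hq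
    refine ⟨a + a', b + b', ?_, fun R => ?_, ?_⟩
    · rw [map_add, e1, e1']; push_cast; ring
    · rw [map_add, LinearMap.add_apply, e2, e2', add_smul, add_smul]; abel
    · rw [eval_add, show eval 1 p + eval 1 q - (a + a' + (b + b')) = (eval 1 p - (a + b)) +
        (eval 1 q - (a' + b')) by ring]
      exact e3.add e3'
  | monomial n c ih =>
    obtain ⟨a, b, e1, e2, e3⟩ := ih
    have e : (C c * X ^ (n + 1) : ℤ[X]) = X * (C c * X ^ n) := by ring
    refine ⟨b - (ℓ - 2) * a, -a, ?_, fun R => ?_, ?_⟩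
    · rw [e, map_mul, e1, aeval_X]
      push_cast
      linear_combination (a : F) * ze_eq h
    · rw [e, map_mul, aeval_X, Module.End.mul_apply, e2, map_add, map_smul, map_smul]
      have h3 : ι (ι R) = -(((ℓ : ℤ) - 2) • ι R) - R := by
        have h4 := hι R
        rw [← natCast_zsmul, Nat.cast_sub h2] at h4
        rw [← sub_eq_zero, ← h4]
        push_cast
        abel
      rw [h3]
      module
    · rw [e, eval_mul, eval_X, one_mul]
      generalize eval 1 (C c * X ^ n : ℤ[X]) = z at e3 ⊢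
      rw [show z - (b - (ℓ - 2) * a + -a) = z - (a + b) + ℓ * a by ring]
      exact e3.add (Dvd.intro a rfl)

/-- the root of unity is irrational -/
theorem indep [CharZero F] (h : Ze ℓ ζ) {a b : ℤ} (e : (a : F) * ζ + b = 0) : a = 0 ∧ b = 0 := by
  have h1 : ((a ^ 2 - (ℓ - 2) * a * b + b ^ 2 : ℤ) : F) = 0 := by
    push_cast
    linear_combination (a : F) ^ 2 * ze_eq h - ((a : F) * ζ - b + (ℓ - 2) * a) * e
  have h2 : a ^ 2 - (ℓ - 2) * a * b + b ^ 2 = 0 := by exact_mod_cast h1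
  rcases h.el with rfl | rfl
  · push_cast at h2
    constructor <;> nlinarith [sq_nonneg a, sq_nonneg b]
  · push_cast at h2
    constructor <;> nlinarith [sq_nonneg a, sq_nonneg b, sq_nonneg (a - b)]

/-- extraction of the power of `1 - ζ` -/
theorem extract (h : Ze ℓ ζ) (n : ℕ) : ∀ a b : ℤ, a ^ 2 - (ℓ - 2) * a * b + b ^ 2 ≤ n →
    (a : F) * ζ + b ≠ 0 → ∃ (k : ℕ) (c d : ℤ), ¬ (ℓ : ℤ) ∣ c + d ∧
      (a : F) * ζ + b = (1 - ζ) ^ k * (c * ζ + d) := by
  have pos : ∀ a b : ℤ, (a : F) * ζ + b ≠ 0 → 0 < a ^ 2 - (ℓ - 2) * a * b + b ^ 2 := by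
    intro a b e
    have h0 : a ≠ 0 ∨ b ≠ 0 := by
      by_contra h0
      push Not at h0
      exact e (by simp [h0.1, h0.2])
    rcases h.el with rfl | rfl <;> push_cast <;> rcases h0 with h0 | h0 <;>
      nlinarith [sq_nonneg a, sq_nonneg b, sq_nonneg (a - b), sq_pos_of_ne_zero h0]
  induction n with
  | zero => exact fun a b h1 e => absurd (pos a b e) (by simpa using h1)
  | succ n ih =>
    intro a b h1 e
    by_cases hd : (ℓ : ℤ) ∣ a + b
    · obtain ⟨c, hc⟩ := hd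
      obtain rfl : b = ℓ * c - a := by linarith
      have e1 : (a : F) * ζ + ((ℓ * c - a : ℤ) : F) =
          (1 - ζ) * (c * ζ + ((c * (ℓ - 1) - a : ℤ) : F)) := by
        push_cast
        linear_combination (c : F) * ze_eq h
      have e2 : (c : F) * ζ + ((c * (ℓ - 1) - a : ℤ) : F) ≠ 0 := fun e2 => e (by
        rw [e1, e2, mul_zero])
      have h2 := pos _ _ e2
      have h3 : (2 : ℤ) ≤ ℓ := by exact_mod_cast h.el.prime.two_le
      have h4 : a ^ 2 - (ℓ - 2) * a * (ℓ * c - a) + (ℓ * c - a) ^ 2 = ℓ * (c ^ 2 - (ℓ - 2) * c *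
          (c * (ℓ - 1) - a) + (c * (ℓ - 1) - a) ^ 2) := by ring
      obtain ⟨k, c', d', h5, h6⟩ := ih c (c * (ℓ - 1) - a) (by
        rw [h4] at h1
        push_cast at h1
        nlinarith) e2
      exact ⟨k + 1, c', d', h5, by rw [e1, h6]; ring⟩
    · exact ⟨0, a, b, hd, by simp⟩

variable (w : Valuation F (WithZero (Multiplicative ℤ)))

theorem w_nat (n : ℕ) : w n ≤ 1 := by
  induction n with
  | zero => simp
  | succ n ih => push_cast; exact w.map_add_le ih (by simp)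

theorem w_int (n : ℤ) : w n ≤ 1 := by
  obtain ⟨m, rfl | rfl⟩ := n.eq_nat_or_neg
  · simpa using w_nat w m
  · simpa using w_nat w m

theorem w_ze (h : Ze ℓ ζ) : w ζ = 1 := by
  have h1 : ζ ^ 12 = 1 := by
    rcases h with ⟨-, h⟩ | ⟨-, h⟩
    · linear_combination (ζ ^ 2 - 1) * (ζ ^ 8 + ζ ^ 4 + 1) * h
    · linear_combination (ζ - 1) * (ζ ^ 9 + ζ ^ 6 + ζ ^ 3 + 1) * h
  have h2 := congrArg w h1
  rw [map_pow, map_one] at h2
  exact (pow_eq_one_iff_left (by norm_num)).1 h2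

theorem w_sq (h : Ze ℓ ζ) : w (1 - ζ) ^ 2 = w ℓ := by
  rw [← map_pow, h.sq, Valuation.map_neg, map_mul, w_ze w h, mul_one]

theorem w_lt (h : Ze ℓ ζ) (hw : w ℓ < 1) : w (1 - ζ) < 1 := by
  by_contra h1
  exact absurd ((one_le_pow_of_one_le' (not_lt.1 h1) 2).trans_eq (w_sq w h)) (not_le.2 hw)

theorem w_cop (hℓ : ℓ.Prime) (hw : w ℓ < 1) {n : ℤ} (hn : ¬ (ℓ : ℤ) ∣ n) : w n = 1 := by
  obtain ⟨x, y, e⟩ := ((Nat.prime_iff_prime_int.1 hℓ).irreducible.coprime_iff_not_dvd).2 hn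
  refine le_antisymm (w_int w n) (not_lt.1 fun h1 => ?_)
  have e1 : (x : F) * ℓ + y * n = 1 := by exact_mod_cast congrArg (fun z : ℤ => (z : F)) e
  have h2 : w ((x : F) * ℓ + y * n) < 1 := by
    refine w.map_add_lt ?_ ?_ <;> rw [map_mul]
    · exact (mul_le_of_le_one_left' (w_int w x)).trans_lt hw
    · exact (mul_le_of_le_one_left' (w_int w y)).trans_lt h1
  rw [e1, map_one] at h2
  exact lt_irrefl _ h2

theorem w_lin (h : Ze ℓ ζ) (a b : ℤ) : w (a * ζ + b) ≤ 1 :=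
  w.map_add_le (by rw [map_mul, w_ze w h, mul_one]; exact w_int w a) (w_int w b)

theorem w_lin_eq (h : Ze ℓ ζ) (hw : w ℓ < 1) {a b : ℤ} (hn : ¬ (ℓ : ℤ) ∣ a + b) :
    w (a * ζ + b) = 1 := by
  have h1 := w_cop w h.el.prime hw hn
  have h2 : w (-(a * (1 - ζ))) < w ((a + b : ℤ) : F) := by
    rw [h1, Valuation.map_neg, map_mul]
    exact (mul_le_of_le_one_left' (w_int w a)).trans_lt (w_lt w h hw)
  rw [show (a : F) * ζ + b = ((a + b : ℤ) : F) + -(a * (1 - ζ)) by push_cast; ring,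
    w.map_add_eq_of_lt_left h2, h1]

/-- `S` behaves like `c` times `R` to first order -/
def Ok (E : AddSubgroup A) (t : A → F) (R S : A) (c : F) : Prop :=
  S ∈ E ∧ w c ≤ 1 ∧ w (t S - c * t R) ≤ w (t R) ^ 2

variable {w} {E : AddSubgroup A} {t : A → F} {R S S' : A} {c c' : F}

theorem Ok.le (h : Ok w E t R S c) (hR : w (t R) < 1) : w (t S) ≤ w (t R) := by
  rw [show t S = (t S - c * t R) + c * t R by ring]
  refine w.map_add_le (h.2.2.trans ?_) ?_
  · rw [sq]; exact mul_le_of_le_one_left' hR.le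
  · rw [map_mul]; exact mul_le_of_le_one_left' h.2.1

theorem Ok.add (hadd : ∀ R ∈ E, ∀ R' ∈ E, w (t (R + R') - t R - t R') ≤
    max (w (t R)) (w (t R')) ^ 2) (hR : w (t R) < 1) (h : Ok w E t R S c) (h' : Ok w E t R S' c') :
    Ok w E t R (S + S') (c + c') := by
  refine ⟨E.add_mem h.1 h'.1, w.map_add_le h.2.1 h'.2.1, ?_⟩
  rw [show t (S + S') - (c + c') * t R = (t (S + S') - t S - t S') + (t S - c * t R) +
    (t S' - c' * t R) by ring]
  refine w.map_add_le (w.map_add_le ((hadd S h.1 S' h'.1).trans ?_) h.2.2) h'.2.2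
  exact pow_le_pow_left' (max_le (h.le hR) (h'.le hR)) 2

theorem Ok.neg (hneg : ∀ R ∈ E, w (t (-R) + t R) ≤ w (t R) ^ 2) (hR : w (t R) < 1)
    (h : Ok w E t R S c) : Ok w E t R (-S) (-c) := by
  refine ⟨E.neg_mem h.1, by rw [Valuation.map_neg]; exact h.2.1, ?_⟩
  rw [show t (-S) - -c * t R = (t (-S) + t S) + -(t S - c * t R) by ring]
  refine w.map_add_le ((hneg S h.1).trans (pow_le_pow_left' (h.le hR) 2)) ?_
  rw [Valuation.map_neg]
  exact h.2.2

end MultP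

open MultP in
theorem p_mult : Z_Mult := by
  intro F A _ _ _ w ℓ ζ ι E t hζ hw hι ht0 hE hadd hlt
  have p1 : ∀ g : ℤ[X], aeval ζ g = 0 → aeval ι g = 0 := fun g hg => by
    obtain ⟨a, b, e1, e2, -⟩ := red hζ ι hι g
    obtain ⟨rfl, rfl⟩ := indep hζ (e1.symm.trans hg)
    ext R
    simpa using e2 R
  have p2 : ∀ g : ℤ[X], aeval ζ g ≠ 0 → ∃ (a : ℕ) (g₁ : ℤ[X]), ¬ (ℓ : ℤ) ∣ g₁.eval 1 ∧
      aeval ζ g = (1 - ζ) ^ a * aeval ζ g₁ := fun g hg => by
    obtain ⟨a, b, e1, -, -⟩ := red hζ ι hι g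
    obtain ⟨k, c, d, h1, h2⟩ := extract hζ (a ^ 2 - (ℓ - 2) * a * b + b ^ 2).toNat a b
      (Int.self_le_toNat _) (e1 ▸ hg)
    exact ⟨k, C c * X + C d, by simpa using h1, by rw [e1, h2]; simp⟩
  have p3 : ∀ g : ℤ[X], w (aeval ζ g) ≤ 1 ∧ (¬ (ℓ : ℤ) ∣ g.eval 1 → w (aeval ζ g) = 1) :=
    fun g => by
      obtain ⟨a, b, e1, -, e3⟩ := red hζ ι hι g
      rw [e1]
      exact ⟨w_lin w hζ a b, fun h => w_lin_eq w hζ hw fun h1 => h (by simpa using e3.add h1)⟩
  have p4 : ∀ (g : ℤ[X]) (R : A), R ∈ E → Ok w E t R (aeval ι g R) (aeval ζ g) := by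
    intro g R hR
    have h1 := hlt R hR
    have o0 : Ok w E t R 0 0 := ⟨E.zero_mem, by simp, by simp [ht0]⟩
    have o1 : Ok w E t R R 1 := ⟨hR, by simp, by simp⟩
    have on : ∀ n : ℕ, Ok w E t R (n • R) n := fun n => by
      induction n with
      | zero => simpa using o0
      | succ n ih => simpa [succ_nsmul] using ih.add hadd h1 o1
    induction g using Polynomial.induction_on with
    | C c =>
      obtain ⟨m, rfl | rfl⟩ := c.eq_nat_or_neg
      · simpa using on m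
      · simpa using (on m).neg (fun R hR => (hE R hR).2.2) h1
    | add p q hp hq => simpa using hp.add hadd h1 hq
    | monomial n c ih =>
      rw [show (C c * X ^ (n + 1) : ℤ[X]) = X * (C c * X ^ n) by ring]
      generalize (C c * X ^ n : ℤ[X]) = q at ih ⊢
      rw [map_mul, map_mul, aeval_X, aeval_X, Module.End.mul_apply]
      refine ⟨(hE _ ih.1).1, by rw [map_mul, w_ze w hζ, one_mul]; exact ih.2.1, ?_⟩
      rw [(hE _ ih.1).2.1, mul_assoc, ← mul_sub, map_mul, w_ze w hζ, one_mul]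
      exact ih.2.2
  have hπ := w_lt w hζ hw
  have p5 : ∀ R ∈ E, w (t R) < w ℓ → ∀ k : ℕ, aeval ι ((1 - X : ℤ[X]) ^ k) R ∈ E ∧
      w (t (aeval ι ((1 - X : ℤ[X]) ^ k) R)) ≤ w (1 - ζ) ^ k * w (t R) ∧
      w (t (aeval ι ((1 - X : ℤ[X]) ^ k) R) - (1 - ζ) ^ k * t R) * w ℓ ≤
        w (1 - ζ) ^ k * w (t R) ^ 2 := by
    intro R hR hlt' k
    induction k with
    | zero => simp [hR]
    | succ k ih =>
      obtain ⟨h1, h2, h3⟩ := ih
      rw [pow_succ', map_mul, Module.End.mul_apply]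
      set S := aeval ι ((1 - X : ℤ[X]) ^ k) R
      obtain ⟨h4, -, h5⟩ := p4 (1 - X) S h1
      have e : aeval ζ (1 - X : ℤ[X]) = 1 - ζ := by simp
      rw [e] at h5
      set S' := aeval ι (1 - X : ℤ[X]) S
      have h6 : w (t S' - (1 - ζ) ^ (k + 1) * t R) * w ℓ ≤ w (1 - ζ) ^ (k + 1) * w (t R) ^ 2 := by
        rw [show t S' - (1 - ζ) ^ (k + 1) * t R = (t S' - (1 - ζ) * t S) +
          (1 - ζ) * (t S - (1 - ζ) ^ k * t R) by ring, ← map_mul, add_mul]
        refine w.map_add_le ?_ ?_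
        · rw [map_mul, ← w_sq w hζ]
          calc _ ≤ (w (1 - ζ) ^ k * w (t R)) ^ 2 * w (1 - ζ) ^ 2 :=
                mul_le_mul_left (h5.trans (pow_le_pow_left' h2 2)) _
            _ = w (1 - ζ) ^ (k + 1) * (w (1 - ζ) ^ (k + 1) * w (t R) ^ 2) := by
                simp only [pow_succ, pow_zero, one_mul]; ac_rfl
            _ ≤ _ := mul_le_of_le_one_left' (pow_le_one' hπ.le _)
        · rw [map_mul, map_mul, mul_assoc, pow_succ', mul_assoc]
          exact mul_le_mul_right h3 _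
      refine ⟨h4, ?_, h6⟩
      rw [show t S' = (t S' - (1 - ζ) ^ (k + 1) * t R) + (1 - ζ) ^ (k + 1) * t R by ring]
      refine w.map_add_le ?_ (by rw [map_mul, map_pow])
      refine le_of_mul_le_mul_right (h6.trans ?_) (zero_le.trans_lt hlt')
      rw [sq, ← mul_assoc]
      exact mul_le_mul_right hlt'.le _
  refine ⟨p1, p2, p3, hπ, fun g R hR => ⟨(p4 g R hR).1, (p4 g R hR).2.2, fun hlt' => ?_⟩⟩
  by_cases hg : aeval ζ g = 0
  · simp [p1 g hg, hg, ht0]
  obtain ⟨k, g₁, h1, h2⟩ := p2 g hg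
  have h3 : aeval ι g = aeval ι (g₁ * (1 - X) ^ k) := by
    rw [← sub_eq_zero, ← map_sub]
    refine p1 _ ?_
    simp only [map_sub, map_mul, map_pow, map_one, aeval_X, h2]
    ring
  obtain ⟨h4, h5, h6⟩ := p5 R hR hlt' k
  rw [h3, map_mul, Module.End.mul_apply, h2]
  set S := aeval ι ((1 - X : ℤ[X]) ^ k) R
  have h7 := (p4 g₁ S h4).2.2
  have h8 := (p3 g₁).2 h1
  rw [show t (aeval ι g₁ S) - (1 - ζ) ^ k * aeval ζ g₁ * t R = (t (aeval ι g₁ S) -
    aeval ζ g₁ * t S) + aeval ζ g₁ * (t S - (1 - ζ) ^ k * t R) by ring, ← map_mul, add_mul,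
    map_mul w ((1 - ζ) ^ k), h8, mul_one, map_pow]
  refine w.map_add_le ?_ ?_
  · rw [map_mul]
    calc _ ≤ (w (1 - ζ) ^ k * w (t R)) ^ 2 :=
          (mul_le_of_le_one_right' hw.le).trans (h7.trans (pow_le_pow_left' h5 2))
      _ = w (1 - ζ) ^ k * (w (1 - ζ) ^ k * w (t R) ^ 2) := by
          simp only [sq]; ac_rfl
      _ ≤ _ := mul_le_of_le_one_left' (pow_le_one' hπ.le _)
  · rw [map_mul, map_mul, h8, one_mul]
    exact h6

end Pool.Agent.P.MP_e4219a_lc
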