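import Pool.Agent.P.MP_e4219a_lc.Bund

/-! Primes of degree one in one of two ray classes. -/

namespace Pool.Agent.P.MP_e4219a_lc

open NumberField IsDedekindDomain Finset
open Pool.Agent.P.MP_b8021b_nt Pool.Agent.P.MP_b8021b_nt.VE Pool.Agent.P.MP_b8021b_nt.VC
open scoped Classical ComplexConjugate

namespace PCP

variable {L : Type} [Field L] [NumberField L] {n : ℕ}

theorem up_mul {a : ℕ → ℝ} (h1 : DS.Up a 0) (h2 : DS.Up (fun q => -a q) 0) (r : ℝ) :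
    DS.Up (fun q => r * a q) 0 := by
  rcases le_total 0 r with hr | hr
  · simpa using h1.mul hr
  · simpa using h2.mul (neg_nonneg.2 hr)

theorem ds_neg (a : ℕ → ℝ) (s : ℝ) : DS.ds (fun q => -a q) s = -DS.ds a s := by
  unfold DS.ds
  rw [← tsum_neg]
  simp only [neg_mul]

theorem up_neg (h : T1) (h2 : Z_NV2) (hc : Z_NVc) (hL : Om L) (hn : 2 ≤ n)
    {ψ : Ideal (𝓞 L) →* ℂ} (hψ : RC n ψ) (ht : ¬ IsTriv n ψ) :
    DS.Up (fun q => -(lam ψ q).re) 0 := by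
  have : ∃ C : ℝ, ∀ s : ℝ, 1 < s → s ≤ 2 → -C ≤ dsum (lam ψ) s := by
    by_cases e : ∀ I, Cop n I → ψ I ^ 2 = 1
    · exact h2 L n ψ hL hn hψ ht e
    · push Not at e
      exact hc L n ψ hL hn hψ e
  obtain ⟨C, hC⟩ := this
  obtain ⟨B, hB⟩ := DS.re_bdd h.i.hl hψ.toIsChar
  refine ⟨⟨B, fun q hq => by rw [abs_neg]; exact hB q hq⟩, C, fun s s1 s2 => ?_⟩
  have := hC s s1 s2
  rw [ds_neg (fun q => (lam ψ q).re), zero_mul, zero_add]
  change -dsum (lam ψ) s ≤ C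
  linarith

theorem places (P : Ideal (𝓞 L) → Prop) (X : ℕ) : ∃ 𝒬 : Finset (Pl L),
    ∑ q ∈ (range (X + 1)).filter Nat.Prime, (((DS.idl L q).filter P).card : ℝ) ≤ 𝒬.card ∧
      ∀ v ∈ 𝒬, (Ideal.absNorm v.asIdeal).Prime ∧ Ideal.absNorm v.asIdeal ≤ X ∧ P v.asIdeal := by
  set S := ((range (X + 1)).filter Nat.Prime).biUnion fun q => (DS.idl L q).filter P with hS
  have mem : ∀ I ∈ S, (Ideal.absNorm I).Prime ∧ Ideal.absNorm I ≤ X ∧ P I := fun I hI => by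
    obtain ⟨q, hq, hI⟩ := mem_biUnion.1 hI
    obtain ⟨h1, h2⟩ := mem_filter.1 hI
    obtain ⟨h3, h4⟩ := mem_filter.1 hq
    rw [DS.mem_idl.1 h1]
    exact ⟨h4, Nat.lt_succ_iff.1 (mem_range.1 h3), h2⟩
  refine ⟨S.preimage (fun v : Pl L => v.asIdeal) fun v _ w _ e => HeightOneSpectrum.ext e, ?_,
    fun v hv => mem _ (mem_preimage.1 hv)⟩
  rw [← Nat.cast_sum, ← card_biUnion, Nat.cast_le]
  · refine card_le_card_of_surjOn (fun v : Pl L => v.asIdeal) fun I hI => ?_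
    obtain ⟨v, rfl⟩ := exists_pl (mem I hI).1
    exact ⟨v, mem_coe.2 (mem_preimage.2 hI), rfl⟩
  · intro q _ q' _ e
    refine disjoint_left.2 fun I h1 h2 => e ?_
    rw [← DS.mem_idl.1 (mem_filter.1 h1).1, DS.mem_idl.1 (mem_filter.1 h2).1]

theorem gen0 {R : Type} [CommRing R] [IsDedekindDomain R] {I : Ideal R} {m α β : R} (h0 : α ≠ 0)
    (ha : m ∣ α - 1) (hb : m ∣ β - 1) (e : I * Ideal.span {α} = ⊤ * Ideal.span {β}) :
    ∃ u : R, m ∣ u - 1 ∧ Ideal.span {u} = I := by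
  rw [Ideal.top_mul] at e
  have hβ : Ideal.span {β} ≤ Ideal.span {α} := by
    rw [← e]
    exact Ideal.mul_le_right
  obtain ⟨u, hu⟩ := Ideal.span_singleton_le_span_singleton.1 hβ
  refine ⟨u, ?_, ?_⟩
  · rw [show u - 1 = (β - 1) - (α - 1) * u by rw [hu]; ring]
    exact hb.sub (ha.mul_right u)
  · rw [hu, mul_comm α, ← Ideal.span_singleton_mul_span_singleton] at e
    have h1 : Ideal.span {α} ≠ 0 := by
      rw [Ne, Ideal.zero_eq_bot, Ideal.span_singleton_eq_bot]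
      exact h0
    exact (mul_right_cancel₀ h1 e).symm

theorem gen {I : Ideal (𝓞 L)} (h : Ray n I ⊤) :
    ∃ u : 𝓞 L, (n : 𝓞 L) ∣ u - 1 ∧ Ideal.span {u} = I := by
  obtain ⟨α, β, h0, -, ha, hb, e⟩ := h
  exact gen0 h0 ha hb e

theorem order {𝒳 : Finset (Ideal (𝓞 L) →* ℂ)} (hX : ∀ χ, χ ∈ 𝒳 ↔ RC n χ) {𝔠 : Ideal (𝓞 L)}
    (hc : Cop n 𝔠) {ℓ : ℕ} (hℓ : 2 ≤ ℓ) : ∃ e : ℕ, ¬ ℓ ∣ e ∧ ∀ ψ ∈ 𝒳, ψ 𝔠 ^ (e + 1) = 1 := by
  have : ∀ ψ : Ideal (𝓞 L) →* ℂ, ∃ m : ℕ, 0 < m ∧ (ψ ∈ 𝒳 → ψ 𝔠 ^ m = 1) := fun ψ => by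
    by_cases hψ : ψ ∈ 𝒳
    · obtain ⟨a, b, hab, e⟩ := Set.Finite.exists_lt_map_eq_of_forall_mem (f := fun k : ℕ => ψ ^ (k + 1))
        (t := (𝒳 : Set _)) (fun k => (hX _).2 (((hX _).1 hψ).pow (by omega))) 𝒳.finite_toSet
      refine ⟨b - a, by omega, fun _ => ?_⟩
      have e1 : ψ 𝔠 ^ (a + 1) = ψ 𝔠 ^ (b + 1) := by simpa using DFunLike.congr_fun e 𝔠
      refine mul_right_cancel₀ (pow_ne_zero (a + 1) (((hX _).1 hψ).ne_zero hc)) ?_
      rw [← pow_add, one_mul, e1]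
      congr 1
      omega
    · exact ⟨1, one_pos, fun h => absurd h hψ⟩
  choose m m0 hm using this
  have H0 : 0 < ℓ * ∏ ψ ∈ 𝒳, m ψ := Nat.mul_pos (by omega) (prod_pos fun ψ _ => m0 ψ)
  refine ⟨ℓ * ∏ ψ ∈ 𝒳, m ψ - 1, fun e => ?_, fun ψ hψ => ?_⟩
  · have := (Nat.dvd_sub (dvd_mul_right ℓ (∏ ψ ∈ 𝒳, m ψ)) e)
    rw [Nat.sub_sub_self H0] at this
    have := Nat.le_of_dvd one_pos this
    omega
  · obtain ⟨c, e⟩ := dvd_prod_of_mem m hψ
    rw [Nat.sub_add_cancel H0, e, mul_left_comm, pow_mul, hm ψ hψ, one_pow]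

omit [NumberField L] in
theorem cop_pow {I : Ideal (𝓞 L)} (h : Cop n I) (k : ℕ) : Cop n (I ^ k) := IsCoprime.pow_left h

end PCP

open PCP in
theorem p_pc (h : T1) (h2 : Z_NV2) (hc : Z_NVc) (hT : Z_Tau) : Z_PC := by
  intro L _ _ ℓ n 𝔠 hL hℓ hn h𝔠
  obtain ⟨𝒳, hX, hO⟩ := h.i.rep L hL n hn
  obtain ⟨e, he, hp⟩ := order hX h𝔠 hℓ
  have ht : triv L n ∈ 𝒳 := (hX _).2 (RC.triv L n)
  have h0 : (0 : ℝ) < 𝒳.card := Nat.cast_pos.2 (card_pos.2 ⟨_, ht⟩)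
  have top : ∀ ψ : Ideal (𝓞 L) →* ℂ, ψ ⊤ = 1 := fun ψ => by rw [← Ideal.one_eq_top, map_one]
  set P : ℕ → Ideal (𝓞 L) → Prop := fun k I => Ray n (𝔠 ^ k * I) ⊤ with hP
  set a : ℕ → ℕ → ℕ := fun k q => ((DS.idl L q).filter (P k)).card with ha
  have key : ∀ I : Ideal (𝓞 L), ∑ ψ ∈ 𝒳, (ψ 𝔠).re * (ψ I).re ≤
      𝒳.card * ((if P 1 I then 1 else 0) + if P e I then 1 else 0) := fun I => by
    by_cases c : Cop n I
    · have o1 := congrArg Complex.re (hO (𝔠 ^ 1 * I) ⊤ (cop_mul.2 ⟨cop_pow h𝔠 1, c⟩) cop_top)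
      have o2 := congrArg Complex.re (hO 𝔠 I h𝔠 c)
      have o3 : Ray n 𝔠 I → P e I := fun r => by
        by_contra r'
        have o4 := hO (𝔠 ^ e * I) ⊤ (cop_mul.2 ⟨cop_pow h𝔠 e, c⟩) cop_top
        rw [if_neg r', sum_congr rfl (g := fun _ => 1) fun ψ hψ => by
          rw [top, map_one, mul_one, map_mul, map_pow, ← ((hX _).1 hψ).ray r, ← pow_succ,
            hp ψ hψ]] at o4
        simp only [sum_const, nsmul_eq_mul, mul_one, Nat.cast_eq_zero] at o4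
        simp [o4] at h0
      have o5 : 2 * ∑ ψ ∈ 𝒳, (ψ 𝔠).re * (ψ I).re = (∑ ψ ∈ 𝒳, ψ (𝔠 ^ 1 * I) * conj (ψ ⊤)).re +
          (∑ ψ ∈ 𝒳, ψ 𝔠 * conj (ψ I)).re := by
        rw [Complex.re_sum, Complex.re_sum, ← sum_add_distrib, mul_sum]
        refine sum_congr rfl fun ψ _ => ?_
        simp only [top, map_one, mul_one, pow_one, map_mul, Complex.mul_re, Complex.conj_re,
          Complex.conj_im]
        ring
      rw [o1, o2] at o5
      by_cases r1 : P 1 I <;> by_cases r2 : Ray n 𝔠 I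
      · rw [if_pos r1, if_pos r2] at o5
        rw [if_pos r1, if_pos (o3 r2)]
        simp only [Complex.natCast_re] at o5
        linarith
      · rw [if_pos r1, if_neg r2] at o5
        rw [if_pos r1]
        simp only [Complex.natCast_re, Complex.zero_re] at o5
        split_ifs <;> linarith
      · rw [if_neg r1, if_pos r2] at o5
        rw [if_neg r1, if_pos (o3 r2)]
        simp only [Complex.natCast_re, Complex.zero_re] at o5
        linarith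
      · rw [if_neg r1, if_neg r2] at o5
        rw [if_neg r1]
        simp only [Complex.zero_re] at o5
        split_ifs <;> linarith
    · rw [sum_eq_zero fun ψ hψ => by rw [((hX _).1 hψ).zero I c, Complex.zero_re, mul_zero]]
      positivity
  have key2 : ∀ q : ℕ, ∑ ψ ∈ 𝒳, (ψ 𝔠).re * (lam ψ q).re ≤ 𝒳.card * ((a 1 q + a e q : ℕ) : ℝ) := by
    intro q
    simp only [DS.lam_eq, Complex.re_sum, mul_sum]
    rw [sum_comm]
    refine (sum_le_sum fun I _ => key I).trans (le_of_eq ?_)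
    rw [← mul_sum, sum_add_distrib, sum_boole, sum_boole, Nat.cast_add]
  have bd : ∀ k q : ℕ, q.Prime → a k q ≤ 2 ^ Module.finrank ℚ L := fun k q hq => by
    have := (h.i.hl L).1 q hq.one_lt.le
    rw [hq.divisors, card_pair hq.one_lt.ne,
      Set.ncard_eq_toFinset_card _ (Ideal.finite_setOfPred_absNorm_eq (S := 𝓞 L) q)] at this
    exact (card_filter_le _ _).trans this
  have up : DS.Up (fun q => ∑ ψ ∈ 𝒳, -(ψ 𝔠).re * (lam ψ q).re)
      (∑ ψ ∈ 𝒳, if ψ = triv L n then -1 else 0) := by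
    refine DS.up_sum 𝒳 fun ψ hψ => ?_
    split_ifs with e1
    · subst e1
      simpa [triv_cop h𝔠] using (h.i.up1 L hL n hn).2
    · have r := (hX _).1 hψ
      have t : ¬ IsTriv n ψ := fun t => e1 (eq_triv r.toIsChar t)
      exact up_mul (h.i.up2 L hL n ψ hn r t) (up_neg h h2 hc hL hn r t) _
  rw [sum_ite_eq' 𝒳, if_pos ht] at up
  obtain ⟨⟨B, hB⟩, C, hC⟩ := up
  obtain ⟨δ, δ0, hδ⟩ := hT (fun q => a 1 q + a e q) (2 * 2 ^ Module.finrank ℚ L) (1 / 𝒳.card)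
    (C / 𝒳.card) (by positivity) (fun q hq => by linarith [bd 1 q hq, bd e q hq]) fun s s1 s2 => by
      have c1 := hC s s1 s2
      have c2 : -DS.ds (fun q => ∑ ψ ∈ 𝒳, -(ψ 𝔠).re * (lam ψ q).re) s ≤
          𝒳.card * DS.ds (fun q => ((a 1 q + a e q : ℕ) : ℝ)) s := by
        unfold DS.ds
        rw [← tsum_neg, ← tsum_mul_left]
        refine Summable.tsum_le_tsum (fun q => ?_) (DS.summable_ds hB s1).neg
          ((DS.summable_ds (a := fun q => ((a 1 q + a e q : ℕ) : ℝ))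
            (B := ((2 * 2 ^ Module.finrank ℚ L : ℕ) : ℝ)) (fun q hq => ?_) s1).mul_left _)
        · rw [← neg_mul, ← mul_assoc]
          refine mul_le_mul_of_nonneg_right ?_ (by positivity)
          simpa only [neg_mul, sum_neg_distrib, neg_neg] using key2 q
        · rw [Nat.abs_cast, Nat.cast_le]
          linarith [bd 1 q hq, bd e q hq]
      rw [show 1 / (𝒳.card : ℝ) * Real.log (1 / (s - 1)) - C / 𝒳.card =
        (Real.log (1 / (s - 1)) - C) / 𝒳.card by ring, div_le_iff₀' h0]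
      linarith
  have fr : ∃ᶠ X : ℕ in Filter.atTop,
      δ / 2 * X ≤ (∑ q ∈ (range (X + 1)).filter Nat.Prime, (a 1 q : ℝ)) * Real.log X ∨
      δ / 2 * X ≤ (∑ q ∈ (range (X + 1)).filter Nat.Prime, (a e q : ℝ)) * Real.log X := by
    refine Filter.frequently_atTop.2 fun X₀ => ?_
    obtain ⟨X, h1, h3⟩ := hδ X₀
    refine ⟨X, h1, ?_⟩
    simp only [Nat.cast_add, sum_add_distrib, add_mul] at h3
    by_contra h4
    push Not at h4
    linarith [h4.1, h4.2]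
  have fin : ∀ k : ℕ, ¬ ℓ ∣ k → (∃ᶠ X : ℕ in Filter.atTop,
      δ / 2 * X ≤ (∑ q ∈ (range (X + 1)).filter Nat.Prime, (a k q : ℝ)) * Real.log X) →
      ∃ (e : ℕ) (δ : ℝ), ¬ ℓ ∣ e ∧ 0 < δ ∧ ∀ X₀ : ℕ, ∃ (X : ℕ) (𝒬 : Finset (Pl L)),
      X₀ ≤ X ∧ δ * X ≤ 𝒬.card * Real.log X ∧ ∀ q ∈ 𝒬, (Ideal.absNorm q.asIdeal).Prime ∧
        Ideal.absNorm q.asIdeal ≤ X ∧
        ∃ u : 𝓞 L, (n : 𝓞 L) ∣ u - 1 ∧ Ideal.span {u} = 𝔠 ^ e * q.asIdeal := fun k hk f => by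
    refine ⟨k, δ / 2, hk, by positivity, fun X₀ => ?_⟩
    obtain ⟨X, h1, h3⟩ := Filter.frequently_atTop.1 f X₀
    obtain ⟨𝒬, q1, q2⟩ := places (P k) X
    exact ⟨X, 𝒬, h1, h3.trans (mul_le_mul_of_nonneg_right q1 (Real.log_natCast_nonneg X)),
      fun q hq => ⟨(q2 q hq).1, (q2 q hq).2.1, gen (q2 q hq).2.2⟩⟩
  rcases Filter.frequently_or_distrib.1 fr with f | f
  · exact fin 1 (fun e => by have := Nat.le_of_dvd one_pos e; omega) f
  · exact fin e he f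

end Pool.Agent.P.MP_e4219a_lc
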