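import Pool.Agent.P.MP_e4219a_lc.Bund

/-! Two almost prime elements whose difference is a power. -/

namespace Pool.Agent.P.MP_e4219a_lc

open NumberField IsDedekindDomain Finset
open Pool.Agent.P.MP_b8021b_nt Pool.Agent.P.MP_b8021b_nt.VE Pool.Agent.P.MP_b8021b_nt.VC
open scoped Classical

namespace PairP

variable {L : Type} [Field L] [NumberField L]

/-- at most `d` places have a given prime norm -/
theorem card_norm (S : Finset (Pl L)) {p : ℕ} (hp : p.Prime)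
    (h : ∀ q ∈ S, Ideal.absNorm q.asIdeal = p) : S.card ≤ Module.finrank ℤ (𝓞 L) := by
  have h1 : ∏ q ∈ S, q.asIdeal ∣ Ideal.span {(p : 𝓞 L)} :=
    Finset.prod_dvd_of_coprime (fun q _ q' _ e => q.isCoprime_of_ne q' e) fun q hq =>
      Ideal.dvd_span_singleton.2 (h q hq ▸ Ideal.absNorm_mem q.asIdeal)
  have h2 := map_dvd Ideal.absNorm h1
  rw [map_prod, Finset.prod_congr rfl h, prod_const, Ideal.absNorm_span_natCast] at h2
  exact (Nat.pow_dvd_pow_iff_le_right hp.one_lt).1 h2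

/-- few places have a small prime norm -/
theorem card_small (S : Finset (Pl L)) (N : ℕ)
    (h : ∀ q ∈ S, (Ideal.absNorm q.asIdeal).Prime ∧ Ideal.absNorm q.asIdeal ≤ N) :
    S.card ≤ Module.finrank ℤ (𝓞 L) * (N + 1) := by
  have h1 := Finset.card_le_mul_card_image_of_maps_to (s := S) (t := range (N + 1))
    (f := fun q : Pl L => Ideal.absNorm q.asIdeal)
    (fun q hq => mem_range.2 (Nat.lt_succ_of_le (h q hq).2)) (Module.finrank ℤ (𝓞 L))
    fun p _ => by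
      rcases (S.filter fun q : Pl L => Ideal.absNorm q.asIdeal = p).eq_empty_or_nonempty with
        e | ⟨q, hq⟩
      · rw [e, card_empty]
        exact Nat.zero_le _
      · obtain ⟨h2, h3⟩ := mem_filter.1 hq
        exact card_norm _ (h3 ▸ (h q h2).1) fun q' hq' => (mem_filter.1 hq').2
  rwa [card_range] at h1

/-- the logarithm is small -/
theorem log_small (d : ℕ) {ε : ℝ} (hε : 0 < ε) : ∃ N₁ : ℕ, ∀ N : ℕ, N₁ ≤ N →
    (d * (N + 1) : ℝ) * Real.log N ≤ ε * (N : ℝ) ^ 2 := by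
  have h1 : (0 : ℝ) < ε / (2 * d + 1) := by positivity
  have h2 := (Real.isLittleO_log_id_atTop.def h1)
  obtain ⟨N₁, h3⟩ := Filter.eventually_atTop.1 (tendsto_natCast_atTop_atTop.eventually h2)
  refine ⟨max N₁ 1, fun N hN => ?_⟩
  have h4 := h3 N ((le_max_left _ _).trans hN)
  have h5 : (1 : ℝ) ≤ N := by exact_mod_cast (le_max_right _ _).trans hN
  have h6 : 0 ≤ Real.log N := Real.log_nonneg h5
  rw [Real.norm_of_nonneg h6, id, Real.norm_of_nonneg (by linarith), div_mul_eq_mul_div,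
    le_div_iff₀ (by positivity)] at h4
  have h7 : (0 : ℝ) ≤ d := Nat.cast_nonneg d
  have h8 : (d * (N + 1) : ℝ) ≤ N * (2 * d + 1) := by nlinarith
  calc (d * (N + 1) : ℝ) * Real.log N ≤ N * (2 * d + 1) * Real.log N :=
        mul_le_mul_of_nonneg_right h8 h6
    _ = N * (Real.log N * (2 * d + 1)) := by ring
    _ ≤ N * (ε * N) := mul_le_mul_of_nonneg_left h4 (by linarith)
    _ = _ := by ring

/-- the root of `X` -/
theorem exists_root {d M X : ℕ} (hd : 1 ≤ d) (hM : 2 ≤ M) (hX : M ^ d ≤ X) :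
    ∃ N : ℕ, M ≤ N ∧ X ≤ N ^ d ∧ N ^ d ≤ 2 ^ d * X := by
  have h0 : ∃ N : ℕ, X ≤ N ^ d := ⟨X, Nat.le_self_pow (by omega) X⟩
  have h1 := Nat.find_spec h0
  have h2 : M ≤ Nat.find h0 := by
    by_contra e
    have := Nat.pow_lt_pow_left (not_le.1 e) (by omega : d ≠ 0)
    omega
  have h3 := Nat.find_min h0 (m := Nat.find h0 - 1) (by omega)
  refine ⟨_, h2, h1, ?_⟩
  calc Nat.find h0 ^ d ≤ (2 * (Nat.find h0 - 1)) ^ d := Nat.pow_le_pow_left (by omega) d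
    _ = 2 ^ d * (Nat.find h0 - 1) ^ d := mul_pow _ _ _
    _ ≤ 2 ^ d * X := Nat.mul_le_mul_left _ (not_le.1 h3).le

/-- no small prime factors -/
theorem sieve {𝔠 : Ideal (𝓞 L)} {e p : ℕ} {q : Pl L} {u : 𝓞 L}
    (hu : Ideal.span {u} = 𝔠 ^ e * q.asIdeal) (hq : (Ideal.absNorm q.asIdeal).Prime) (hp : p.Prime)
    (hlt : p < Ideal.absNorm q.asIdeal) (hc : ¬ p ∣ Ideal.absNorm 𝔠) (φ : 𝓞 L →+* ZMod p) :
    φ u ≠ 0 := fun h0 => by
  have : Fact p.Prime := ⟨hp⟩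
  have hP : (RingHom.ker φ).IsPrime := RingHom.ker_isPrime φ
  have h1 : 𝔠 ^ e * q.asIdeal ≤ RingHom.ker φ :=
    hu ▸ (Ideal.span_singleton_le_iff_mem _).2 h0
  have key : ∀ I : Ideal (𝓞 L), I ≤ RingHom.ker φ → p ∣ Ideal.absNorm I := fun I hI => by
    have := hI (Ideal.absNorm_mem I)
    rw [RingHom.mem_ker, map_natCast] at this
    exact (ZMod.natCast_eq_zero_iff _ _).1 this
  rcases hP.mul_le.1 h1 with h2 | h2
  · exact hc (key _ (Ideal.IsPrime.le_of_pow_le h2))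
  · have := (Nat.prime_dvd_prime_iff_eq hp hq).1 (key _ h2)
    omega

end PairP

open PairP in
theorem p_pair (h : T1) (hP : Z_PC) (hB : Z_Bal) (hL : Z_Line) : Z_Pair := by
  intro L _ _ ℓ n 𝔠 hO hℓ hn hc
  obtain ⟨e, δ, he, hδ, hX⟩ := hP L ℓ n 𝔠 hO hℓ.prime.two_le hn hc
  refine ⟨e, he, fun m hm => ?_⟩
  obtain ⟨d, hd⟩ : ∃ d, d = Module.finrank ℤ (𝓞 L) := ⟨_, rfl⟩
  have hd2 : 2 ≤ d := by
    rw [hd, RingOfIntegers.rank]
    exact Nat.le_of_dvd Module.finrank_pos (h.pos L hO).1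
  let b : Module.Basis (Fin d) ℤ (𝓞 L) := Module.finBasisOfFinrankEq ℤ (𝓞 L) hd.symm
  have hc0 : 𝔠 ≠ ⊥ := Cop_ne_bot hn hc
  have hc1 : Ideal.absNorm 𝔠 ≠ 0 := fun e => hc0 (Ideal.absNorm_eq_zero_iff.1 e)
  obtain ⟨C, hC, hB⟩ := hB L d n b (by omega)
  have hdR : (0 : ℝ) < d := by exact_mod_cast (by omega : 0 < d)
  have hε : 0 < δ / (2 * d * 2 ^ d) := by positivity
  obtain ⟨N₀, hL⟩ := hL L ℓ d m (Ideal.absNorm 𝔠) (C * Ideal.absNorm 𝔠 ^ e) b _ hO hℓ hm hc1 hε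
  obtain ⟨N₁, hN₁⟩ := log_small d hε
  obtain ⟨X, 𝒬, hX0, hX1, hQ⟩ := hX ((N₀ + N₁ + Ideal.absNorm 𝔠 + 2) ^ d)
  obtain ⟨N, hN, hXN, hNX⟩ := exists_root (by omega) (by omega) hX0
  have hg : ∀ q : Pl L, ∃ u : 𝓞 L, q ∈ 𝒬 → (n : 𝓞 L) ∣ u - 1 ∧
      Ideal.span {u} = 𝔠 ^ e * q.asIdeal ∧
      ∀ i, (b.repr u i).natAbs ≤ C * Ideal.absNorm 𝔠 ^ e * N := fun q => by
    by_cases hq : q ∈ 𝒬
    · obtain ⟨-, h2, u, h3, h4⟩ := hQ q hq
      have hu : u ≠ 0 := fun e0 => by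
        rw [e0, Ideal.span_singleton_zero] at h4
        exact mul_ne_zero (pow_ne_zero _ hc0) q.ne_bot h4.symm
      obtain ⟨η, h5, h6⟩ := hB u hu
      refine ⟨η * u, fun _ => ⟨dvd_mul_sub_one h5 h3,
        (Ideal.span_singleton_mul_left_unit η.isUnit u).trans h4, fun i => ?_⟩⟩
      have h7 := h6 i
      rw [h4, map_mul Ideal.absNorm, map_pow Ideal.absNorm, ← mul_assoc] at h7
      have h8 : 1 ≤ C * Ideal.absNorm 𝔠 ^ e :=
        Nat.pos_of_ne_zero (mul_ne_zero (by omega) (pow_ne_zero _ hc1))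
      refine (Nat.pow_le_pow_iff_left (by omega : d ≠ 0)).1 (h7.trans ?_)
      rw [mul_pow _ N]
      exact Nat.mul_le_mul (Nat.le_self_pow (by omega) _) (h2.trans hXN)
    · exact ⟨0, fun h => absurd h hq⟩
  choose g hg using hg
  let 𝒬' := 𝒬.filter fun q => N < Ideal.absNorm q.asIdeal
  have hinj : Set.InjOn g 𝒬' := fun q hq q' hq' e1 => by
    have h1 := (hg q (mem_filter.1 hq).1).2.1
    rw [e1, (hg q' (mem_filter.1 hq').1).2.1] at h1
    exact HeightOneSpectrum.ext (mul_left_cancel₀ (pow_ne_zero _ hc0) h1).symm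
  have hcard : 𝒬.card ≤ 𝒬'.card + d * (N + 1) := by
    rw [← card_filter_add_card_filter_not (s := 𝒬) fun q => N < Ideal.absNorm q.asIdeal]
    refine Nat.add_le_add_left ?_ _
    rw [hd]
    exact card_small _ N fun q hq =>
      ⟨(hQ q (mem_filter.1 hq).1).1, not_lt.1 (mem_filter.1 hq).2⟩
  have hNR : (1 : ℝ) ≤ N := by exact_mod_cast (by omega : 1 ≤ N)
  have hlog : 0 ≤ Real.log N := Real.log_nonneg hNR
  have hden : δ / (2 * d * 2 ^ d) * (N : ℝ) ^ d ≤ (𝒬'.image g).card * Real.log N := by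
    rw [card_image_of_injOn hinj]
    have hX2 : 1 ≤ X := le_trans (Nat.one_le_pow _ _ (by omega)) hX0
    have h1 : Real.log X ≤ d * Real.log N := by
      rw [← Real.log_pow]
      exact Real.log_le_log (by exact_mod_cast hX2) (by exact_mod_cast hXN)
    have h2 : (N : ℝ) ^ d ≤ 2 ^ d * X := by exact_mod_cast hNX
    have h3 : (𝒬.card : ℝ) ≤ 𝒬'.card + d * (N + 1) := by exact_mod_cast hcard
    have h4 := hN₁ N (by omega)
    have h5 : (N : ℝ) ^ 2 ≤ (N : ℝ) ^ d := pow_le_pow_right₀ hNR hd2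
    have h6 : δ * X ≤ d * (𝒬.card * Real.log N) :=
      hX1.trans ((mul_le_mul_of_nonneg_left h1 (Nat.cast_nonneg _)).trans_eq (by ring))
    have h7 : 2 * (δ / (2 * d * 2 ^ d) * (N : ℝ) ^ d) ≤ 𝒬.card * Real.log N := by
      calc 2 * (δ / (2 * d * 2 ^ d) * (N : ℝ) ^ d) ≤ 2 * (δ / (2 * d * 2 ^ d) * (2 ^ d * X)) := by
            gcongr
        _ = δ * X / d := by field_simp
        _ ≤ _ := by rw [div_le_iff₀ hdR]; linarith
    have h8 := mul_le_mul_of_nonneg_right h3 hlog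
    have h9 := mul_le_mul_of_nonneg_left h5 hε.le
    nlinarith
  obtain ⟨u, hu, u', hu', w, hw, -, huw⟩ := hL N (𝒬'.image g) (by omega)
    (fun u hu => by
      obtain ⟨q, hq, rfl⟩ := mem_image.1 hu
      exact (hg q (mem_filter.1 hq).1).2.2)
    (fun u hu p hp hpN hpc φ => by
      obtain ⟨q, hq, rfl⟩ := mem_image.1 hu
      obtain ⟨h1, h2⟩ := mem_filter.1 hq
      exact sieve (hg q h1).2.1 (hQ q h1).1 hp (by omega) hpc φ) hden
  obtain ⟨q, hq, rfl⟩ := mem_image.1 hu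
  obtain ⟨q', hq', rfl⟩ := mem_image.1 hu'
  have hnot : ∀ r ∈ 𝒬', ¬ 𝔠 ≤ r.asIdeal := fun r hr e1 => by
    have h1 := Nat.le_of_dvd (Nat.pos_of_ne_zero hc1) (Ideal.absNorm_dvd_absNorm_of_le e1)
    have h2 := (mem_filter.1 hr).2
    omega
  refine ⟨g q, g q', w, q, q', hw, huw, fun e1 => ?_, hnot q hq, hnot q' hq',
    (hg q (mem_filter.1 hq).1).1, (hg q' (mem_filter.1 hq').1).1, (hg q (mem_filter.1 hq).1).2.1,
    (hg q' (mem_filter.1 hq').1).2.1⟩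
  rw [e1, left_eq_add] at huw
  exact pow_ne_zero ℓ (Nat.cast_ne_zero.2 (Nat.mul_ne_zero (by omega) (by omega))) huw

end Pool.Agent.P.MP_e4219a_lc
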