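import Pool.Agent.P.MP_e4219a_lc.Bund

/-! Orthogonality of characters of the circle and the arc around zero. -/

namespace Pool.Agent.P.MP_e4219a_lc

open Finset MeasureTheory

theorem ParP.int_fourier (n : ℤ) :
    ∫ α : UnitAddCircle, fourier n α ∂AddCircle.haarAddCircle = if n = 0 then 1 else 0 := by
  split_ifs with h
  · subst h
    simp
  · exact integral_eq_zero_of_add_right_eq_neg (μ := AddCircle.haarAddCircle)
      (fourier_add_half_inv_index h one_pos)

theorem ParP.sq_mul (A : Finset ℕ) (D : ℤ) (α : UnitAddCircle) :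
    ((‖ex A α‖ ^ 2 : ℝ) : ℂ) * fourier D α =
      ∑ a ∈ A, ∑ b ∈ A, fourier ((a : ℤ) + -(b : ℤ) + D) α := by
  rw [Complex.ofReal_pow, ← Complex.mul_conj', ex, map_sum, sum_mul_sum, sum_mul]
  refine sum_congr rfl fun a _ => ?_
  rw [sum_mul]
  refine sum_congr rfl fun b _ => ?_
  rw [fourier_add, fourier_add, fourier_neg]

theorem ParP.int_sq (A : Finset ℕ) (D : ℤ) :
    ∫ α, ((‖ex A α‖ ^ 2 : ℝ) : ℂ) * fourier D α ∂AddCircle.haarAddCircle =
      ∑ a ∈ A, ∑ b ∈ A, if (a : ℤ) + -(b : ℤ) + D = 0 then 1 else 0 := by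
  have hi : ∀ n : ℤ, Integrable (fun α : UnitAddCircle => fourier n α) AddCircle.haarAddCircle :=
    fun n => (fourier n).continuous.integrable_of_hasCompactSupport
      (HasCompactSupport.of_compactSpace _)
  simp only [ParP.sq_mul]
  rw [integral_finsetSum _ fun a _ => integrable_finsetSum _ fun b _ => hi _]
  refine sum_congr rfl fun a _ => ?_
  rw [integral_finsetSum _ fun b _ => hi _]
  exact sum_congr rfl fun b _ => ParP.int_fourier _

theorem ParP.cont (A : Finset ℕ) : Continuous fun α : UnitAddCircle => ‖ex A α‖ ^ 2 :=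
  ((continuous_finsetSum A fun a _ => (fourier (a : ℤ)).continuous).norm).pow 2

theorem ParP.low (A : Finset ℕ) (N : ℕ) (hN : 1 ≤ N) (hA : A ⊆ range N) (α : UnitAddCircle)
    (h : ‖α‖ ≤ 1 / (8 * N)) : (A.card : ℝ) / 2 ≤ ‖ex A α‖ := by
  have N0 : (0 : ℝ) < N := by exact_mod_cast hN
  obtain ⟨x, hx, rfl⟩ : ∃ x : ℝ, |x| ≤ 1 / (8 * N) ∧ (x : UnitAddCircle) = α := by
    induction α using QuotientAddGroup.induction_on with
    | H y =>
    refine ⟨y - round y, by rwa [UnitAddCircle.norm_eq] at h, ?_⟩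
    rw [AddCircle.coe_sub, sub_eq_self, AddCircle.coe_eq_zero_iff]
    exact ⟨round y, by simp⟩
  refine le_trans ?_ (Complex.re_le_norm _)
  rw [ex, Complex.re_sum, div_eq_mul_inv, ← nsmul_eq_mul]
  refine card_nsmul_le_sum _ _ _ fun a ha => ?_
  have e : fourier (a : ℤ) (x : UnitAddCircle) =
      Complex.exp (((2 * Real.pi * a * x : ℝ) : ℂ) * Complex.I) := by
    rw [fourier_coe_apply]
    congr 1
    push_cast
    ring
  rw [e, Complex.exp_ofReal_mul_I_re]
  refine le_trans ?_ Real.one_sub_sq_div_two_le_cos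
  have a0 : (0 : ℝ) ≤ a := Nat.cast_nonneg a
  have a1 : (a : ℝ) ≤ N := by exact_mod_cast (mem_range.1 (hA ha)).le
  have h1 : |2 * Real.pi * a * x| ≤ 1 := by
    rw [abs_mul, abs_of_nonneg (by positivity : 0 ≤ 2 * Real.pi * a)]
    calc 2 * Real.pi * a * |x| ≤ 2 * 4 * N * (1 / (8 * N)) := by
          gcongr
          exact Real.pi_le_four
      _ = 1 := by field_simp; norm_num
  have h2 := sq_le_sq' (abs_le.1 h1).1 (abs_le.1 h1).2
  linarith

theorem p_par : Z_Par := by
  intro A
  refine ⟨?_, fun D hD => ?_, fun N hN hA => ?_⟩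
  · have h := ParP.int_sq A 0
    simp only [fourier_zero, mul_one, add_zero, add_neg_eq_zero, Nat.cast_inj, sum_ite_eq] at h
    rw [integral_complex_ofReal, sum_ite_mem, inter_self, sum_const, nsmul_eq_mul, mul_one] at h
    rw [mass, Measure.restrict_univ]
    exact_mod_cast h
  · rw [ParP.int_sq]
    refine sum_eq_zero fun a ha => sum_eq_zero fun b hb => if_neg fun h => hD b hb a ha ?_
    omega
  · have N0 : (1 : ℝ) ≤ N := by exact_mod_cast hN
    have hs : {α : UnitAddCircle | ‖α‖ ≤ 1 / (8 * N)} = Metric.closedBall 0 (1 / (8 * N)) := by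
      ext α
      simp
    have hv : (AddCircle.haarAddCircle : Measure UnitAddCircle).real
        (Metric.closedBall 0 (1 / (8 * N))) = 1 / (4 * N) := by
      have h1 := AddCircle.volume_closedBall (T := 1) (x := 0) (1 / (8 * (N : ℝ)))
      rw [AddCircle.volume_eq_smul_haarAddCircle, ENNReal.ofReal_one, one_smul] at h1
      have h2 : 2 * (1 / (8 * (N : ℝ))) = 1 / (4 * N) := by field_simp; norm_num
      rw [Measure.real, h1, h2, min_eq_right, ENNReal.toReal_ofReal (by positivity)]
      rw [div_le_one (by positivity)]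
      linarith
    have h := setIntegral_ge_of_const_le_real (μ := AddCircle.haarAddCircle)
      (s := Metric.closedBall (0 : UnitAddCircle) (1 / (8 * N))) (f := fun α => ‖ex A α‖ ^ 2)
      (c := ((A.card : ℝ) / 2) ^ 2) Metric.isClosed_closedBall.measurableSet (measure_ne_top _ _)
      (fun α hα => pow_le_pow_left₀ (by positivity)
        (ParP.low A N hN hA α (by simpa using hα)) 2)
      ((ParP.cont A).integrable_of_hasCompactSupport
        (HasCompactSupport.of_compactSpace _)).integrableOn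
    rw [hv] at h
    rw [mass, hs]
    refine le_trans (le_of_eq ?_) h
    field_simp
    ring

end Pool.Agent.P.MP_e4219a_lc
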