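import Pool.Agent.P.MP_e4219a_lc.Bund

/-! A curve of rank one from the curve with a small Selmer group. -/

namespace Pool.Agent.P.MP_e4219a_lc

open NumberField IsDedekindDomain Polynomial Finset
open scoped Classical

namespace RKP

variable {F : Type} [Field F]

theorem al_ne {ℓ : ℕ} {ζ a₃ a₄ : F} (h : CM ℓ ζ a₃ a₄) (R : Pt a₃ a₄) : al ℓ R ≠ 0 := by
  rcases R with _ | ⟨x, y, hxy⟩
  · exact one_ne_zero
  · rcases h with ⟨rfl, -, -, h4⟩ | ⟨rfl, -, -, h3⟩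
    · simp only [al, if_true]
      split_ifs with hx
      · exact h4
      · exact hx
    · simp only [al, show ¬ (3 : ℕ) = 2 by norm_num, if_false]
      split_ifs with hy
      · exact pow_ne_zero 2 h3
      · exact hy

/-- the common part: apply the group theory -/
theorem core [CharZero F] (hI : Z_Iota) (hG : Z_Gen) {ℓ : ℕ} (hH : Z_Hom ℓ) (hK : Z_Ker ℓ)
    {ζ a₃ a₄ : F} (hℓ : El ℓ) (hc : CM ℓ ζ a₃ a₄) {x y p τ : F}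
    (hxy : y ^ 2 + a₃ * y = x ^ 3 + a₄ * x)
    (hp : ∀ h, al ℓ (.some x y h : Pt a₃ a₄) = p) (hτ : ∀ h, al ℓ (.some 0 0 h : Pt a₃ a₄) = τ)
    (hind : ∀ i j : ℕ, (∃ z, p ^ i * τ ^ j = z ^ ℓ) → ℓ ∣ i ∧ ℓ ∣ j)
    (hgen : ∀ R : Pt a₃ a₄, ∃ (i j : ℕ) (z : F), al ℓ R * p ^ i * τ ^ j = z ^ ℓ) :
    ∃ (ι : Module.End ℤ (Pt a₃ a₄)) (P T : Pt a₃ a₄), CM ℓ ζ a₃ a₄ ∧ IsIota ζ ι ∧ Rk1 ℓ ι P T := by
  obtain ⟨hns, ι, h0, hι, hrel, hfix, htor, hfx, hal⟩ := hI F ℓ ζ a₃ a₄ hc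
  have hP := (hns x y).2 hxy
  refine ⟨ι, .some x y hP, .some 0 0 h0, hc, hι, ?_⟩
  refine hG F (Pt a₃ a₄) ℓ ι (al ℓ) _ _ hℓ hrel hfix htor hfx (al_ne hc) (hH F ζ a₃ a₄ hc) hal
    (hK F ζ a₃ a₄ ι hc hι) ?_ ?_
  · rw [hp, hτ]; exact hind
  · rw [hp, hτ]; exact hgen

theorem two [CharZero F] (hI : Z_Iota) (hG : Z_Gen) (hH : Z_Hom 2) (hK : Z_Ker 2)
    {ζ u u' w a₃ a₄ : F} (hζ : ζ ^ 2 + 1 = 0) (hu : u ≠ 0) (hu' : u' ≠ 0) (huw : u = u' + w ^ 2)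
    (hind : ∀ i j : ℕ, (∃ z : F, u ^ i * u' ^ j = z ^ 2) → 2 ∣ i ∧ 2 ∣ j)
    (hgen : ∀ R : Pt (A3 2 u u') (A4 2 u u'), ∃ (i j : ℕ) (z : F),
      al 2 R * u ^ i * u' ^ j = z ^ 2) (h3 : a₃ = A3 2 u u') (h4 : a₄ = A4 2 u u') :
    ∃ (ι : Module.End ℤ (Pt a₃ a₄)) (P T : Pt a₃ a₄), CM 2 ζ a₃ a₄ ∧ IsIota ζ ι ∧ Rk1 2 ι P T := by
  subst h3 h4
  have e3 : A3 2 u u' = 0 := if_pos rfl
  have e4 : A4 2 u u' = -(u * u') := if_pos rfl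
  have hζ0 : ζ ≠ 0 := by
    rintro rfl
    simp at hζ
  have e5 : -(u * u') = u * u' * ζ ^ 2 := by linear_combination (-(u * u')) * hζ
  refine core hI hG hH hK (Or.inl rfl) (x := u) (y := u * w) (p := u) (τ := u * u' * ζ ^ 2)
    (Or.inl ⟨rfl, hζ, e3, by rw [e4]; exact neg_ne_zero.2 (mul_ne_zero hu hu')⟩) ?_ ?_ ?_ ?_ ?_
  · rw [e3, e4]
    linear_combination (-u ^ 2) * huw
  · intro h
    simp [al, hu]
  · intro h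
    simp only [al, if_true]
    rw [e4, e5]
  · rintro i j ⟨z, hz⟩
    have := hind (i + j) j ⟨z / ζ ^ j, by
      rw [div_pow, ← hz]
      field_simp
      ring⟩
    omega
  · intro R
    obtain ⟨i, j, z, hz⟩ := hgen R
    refine ⟨i + j, j, z * (u ^ j * ζ ^ j), ?_⟩
    rw [mul_pow z, ← hz]
    ring

theorem three [CharZero F] (hI : Z_Iota) (hG : Z_Gen) (hH : Z_Hom 3) (hK : Z_Ker 3)
    {ζ u u' w a₃ a₄ : F} (hζ : ζ ^ 2 + ζ + 1 = 0) (hu : u ≠ 0) (hu' : u' ≠ 0) (hw : w ≠ 0)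
    (huw : u = u' + w ^ 3)
    (hind : ∀ i j : ℕ, (∃ z : F, u ^ i * u' ^ j = z ^ 3) → 3 ∣ i ∧ 3 ∣ j)
    (hgen : ∀ R : Pt (A3 3 u u') (A4 3 u u'), ∃ (i j : ℕ) (z : F),
      al 3 R * u ^ i * u' ^ j = z ^ 3) (h3 : a₃ = A3 3 u u') (h4 : a₄ = A4 3 u u') :
    ∃ (ι : Module.End ℤ (Pt a₃ a₄)) (P T : Pt a₃ a₄), CM 3 ζ a₃ a₄ ∧ IsIota ζ ι ∧ Rk1 3 ι P T := by
  subst h3 h4
  have n32 : ¬ (3 : ℕ) = 2 := by norm_num
  have e3 : A3 3 u u' = u * u' := if_neg n32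
  have e4 : A4 3 u u' = 0 := if_neg n32
  obtain ⟨v, hv⟩ : ∃ v, w * v = -1 := ⟨-w⁻¹, by field_simp⟩
  have hw' : v ≠ 0 := by
    rintro rfl
    simp at hv
  have hy : u ^ 2 * u' * v ^ 3 ≠ 0 :=
    mul_ne_zero (mul_ne_zero (pow_ne_zero _ hu) hu') (pow_ne_zero _ hw')
  refine core hI hG hH hK (Or.inr rfl) (x := u * u' * v ^ 2) (y := u ^ 2 * u' * v ^ 3)
    (p := u ^ 2 * u' * v ^ 3) (τ := (u * u') ^ 2)
    (Or.inr ⟨rfl, hζ, e4, by rw [e3]; exact mul_ne_zero hu hu'⟩) ?_ ?_ ?_ ?_ ?_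
  · rw [e3, e4]
    linear_combination (u ^ 3 * u' ^ 2 * v ^ 6) * huw +
      u ^ 3 * u' ^ 2 * v ^ 3 * ((w * v) ^ 2 - w * v + 1) * hv
  · intro h
    simp only [al, if_neg n32, if_neg hy]
  · intro h
    simp only [al, if_neg n32, if_true]
    rw [e3]
  · rintro i j ⟨z, hz⟩
    have := hind (2 * i + 2 * j) (i + 2 * j) ⟨z / v ^ i, by
      rw [div_pow z, ← hz, eq_div_iff (pow_ne_zero _ (pow_ne_zero _ hw'))]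
      ring⟩
    omega
  · intro R
    obtain ⟨i, j, z, hz⟩ := hgen R
    refine ⟨i + 2 * j, i + j, z * (u ^ (i + 2 * j) * u' ^ (i + j) * v ^ (i + 2 * j)), ?_⟩
    rw [mul_pow z, ← hz]
    ring

end RKP

theorem p_rk (hI : Z_Iota) (h2 : Z_Hom 2) (h3 : Z_Hom 3) (k2 : Z_Ker 2) (k3 : Z_Ker 3)
    (hS : Z_Sel) (hG : Z_Gen) : Z_RK := by
  intro L _ _ ℓ ζ hOm hζ
  obtain ⟨u, u', w, hu, hu', hw, huw, hind, hgen⟩ := hS L ℓ ζ hOm hζ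
  rcases hζ with ⟨rfl, hζ⟩ | ⟨rfl, hζ⟩
  · obtain ⟨ι, P, T, h⟩ := RKP.two hI hG h2 k2 (a₃ := ((0 : 𝓞 L) : L))
      (a₄ := ((-(u * u') : 𝓞 L) : L)) hζ hu hu' huw hind hgen (by simp [A3]) (by simp [A4])
    exact ⟨0, -(u * u'), ι, P, T, h⟩
  · obtain ⟨ι, P, T, h⟩ := RKP.three hI hG h3 k3 (a₃ := ((u * u' : 𝓞 L) : L))
      (a₄ := ((0 : 𝓞 L) : L)) hζ hu hu' hw huw hind hgen (by simp [A3]) (by simp [A4])
    exact ⟨u * u', 0, ι, P, T, h⟩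

end Pool.Agent.P.MP_e4219a_lc
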