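import Pool.Agent.P.MP_e4219a_lc.Bund

/-! Residue fields. -/

namespace Pool.Agent.P.MP_e4219a_lc

open NumberField IsDedekindDomain Polynomial Finset WithZero
open scoped Classical

namespace ResP

variable {L : Type} [Field L] [NumberField L] {v : Pl L}

theorem lift (hW : Z_WA) (v : Pl L) {θ : L} (h : vl v θ ≤ 1) : ∃ a : 𝓞 L, vl v (a - θ) < 1 := by
  obtain ⟨a, ha⟩ := (hW L).1 {v} (fun _ => θ) 1 (fun w hw => by rwa [mem_singleton.1 hw])
  exact ⟨a, (vl_lt_one_iff v).2 (by simpa using ha v (mem_singleton_self v))⟩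

theorem vl_le {δ : 𝓞 L} {x : L} (hx : vl v (x - δ) < 1) : vl v x ≤ 1 := by
  rw [show x = (x - δ) + δ by ring]
  exact Valuation.map_add_le _ hx.le (vl_coe_le v δ)

theorem aniso (hW : Z_WA) {δ : 𝓞 L} {x : L} (hδ : ∀ a : 𝓞 L, a ^ 2 - a - δ ∉ v.asIdeal)
    (hx : vl v (x - δ) < 1) (θ : L) :
    1 ≤ vl v (θ ^ 2 - θ - x) ∧ 2 ∣ od v (θ ^ 2 - θ - x) := by
  rcases le_or_gt (vl v θ) 1 with h | h
  · obtain ⟨a, ha⟩ := lift hW v h
    have h1 : vl v ((a : L) ^ 2 - a - δ) = 1 := by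
      have := (vl_coe_eq v _).2 (hδ a)
      simpa using this
    have h2 : vl v (-((a - θ) * (θ + a - 1)) - (x - δ)) < 1 := by
      refine Valuation.map_sub_lt _ ?_ hx
      rw [Valuation.map_neg, map_mul]
      refine lt_of_le_of_lt (mul_le_of_le_one_right' ?_) ha
      exact Valuation.map_sub_le _ (Valuation.map_add_le _ h (vl_coe_le v a)) (by simp)
    have h3 : vl v (θ ^ 2 - θ - x) = 1 := by
      rw [show θ ^ 2 - θ - x = ((a : L) ^ 2 - a - δ) + (-((a - θ) * (θ + a - 1)) - (x - δ)) by ring,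
        Valuation.map_add_eq_of_lt_left _ (h2.trans_eq h1.symm), h1]
    exact ⟨h3.ge, by rw [od_eq_zero_of_vl v h3]; exact dvd_zero _⟩
  · have h1 : vl v θ < vl v (θ ^ 2) := by
      rw [map_pow, sq]
      exact lt_mul_of_one_lt_right (zero_lt_one.trans h) h
    have h2 : vl v (-θ - x) < vl v (θ ^ 2) := by
      refine Valuation.map_sub_lt _ (by rwa [Valuation.map_neg]) ?_
      exact (vl_le hx).trans_lt (h.trans h1)
    have h3 : vl v (θ ^ 2 - θ - x) = vl v (θ ^ 2) := by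
      rw [show θ ^ 2 - θ - x = θ ^ 2 + (-θ - x) by ring, Valuation.map_add_eq_of_lt_left _ h2]
    refine ⟨h3 ▸ (h.trans h1).le, ?_⟩
    rw [od_eq_of_vl v h3, od_pow]
    exact Dvd.intro _ rfl

theorem vl_four (v : Pl L) : vl v (4 : L) = vl v ((2 : ℕ) : L) ^ 2 := by
  rw [← map_pow]
  norm_num

theorem part1 (v : Pl L) : ∃ δ : 𝓞 L, ∀ a : 𝓞 L, a ^ 2 - a - δ ∉ v.asIdeal := by
  have : Finite (𝓞 L ⧸ v.asIdeal) := Ideal.finiteQuotientOfFreeOfNeBot _ v.ne_bot
  have : Nontrivial (𝓞 L ⧸ v.asIdeal) := Ideal.Quotient.nontrivial_iff.2 v.isPrime.ne_top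
  by_contra h
  push Not at h
  have hs : Function.Surjective fun z : 𝓞 L ⧸ v.asIdeal => z ^ 2 - z := fun z => by
    obtain ⟨δ, rfl⟩ := Ideal.Quotient.mk_surjective z
    obtain ⟨a, ha⟩ := h δ
    refine ⟨Ideal.Quotient.mk _ a, ?_⟩
    have := Ideal.Quotient.eq.2 ha
    simpa using this
  have hi := Finite.injective_iff_surjective.2 hs
  exact zero_ne_one (hi (by simp : (0 : 𝓞 L ⧸ v.asIdeal) ^ 2 - 0 = 1 ^ 2 - 1))

theorem lp_of_sq (h2 : ¬ Dv 2 v) {u : L} {a : 𝓞 L} (hu : vl v u = 1) (ha : vl v (a - u) < 1)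
    (h : IsSquare (Ideal.Quotient.mk v.asIdeal a)) : LP 2 v u := by
  obtain ⟨z, hz⟩ := h
  obtain ⟨b, rfl⟩ := Ideal.Quotient.mk_surjective z
  rw [← map_mul] at hz
  have h1 : vl v ((a : L) - b ^ 2) < 1 := by
    have := (vl_coe_lt v _).2 (Ideal.Quotient.eq.1 hz)
    simpa [sq] using this
  have h3 : vl v (u - b ^ 2) < 1 := by
    rw [show u - (b : L) ^ 2 = (a - b ^ 2) - (a - u) by ring]
    exact Valuation.map_sub_lt _ h1 ha
  have h4 : vl v ((b : L) ^ 2) = 1 := by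
    rw [show (b : L) ^ 2 = u + -(u - b ^ 2) by ring,
      Valuation.map_add_eq_of_lt_left _ (by rwa [Valuation.map_neg, hu]), hu]
  have h5 : (b : L) ^ 2 ≠ 0 := fun e => by simp [e] at h4
  refine ⟨b, ?_⟩
  rw [(vl_nat_eq v).2 h2, one_pow, div_sub_one h5, map_div₀, h4, div_one]
  exact h3

theorem unit_case (hW : Z_WA) (h2 : ¬ Dv 2 v) {u u' : L} (hu : vl v u = 1) (hu' : vl v u' = 1)
    (h : ¬ LP 2 v u) (h' : ¬ LP 2 v u') : LP 2 v (u * u') := by
  obtain ⟨a, ha⟩ := lift hW v hu.le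
  obtain ⟨a', ha'⟩ := lift hW v hu'.le
  have : Finite (𝓞 L ⧸ v.asIdeal) := Ideal.finiteQuotientOfFreeOfNeBot _ v.ne_bot
  have := v.isMaximal
  let _ : Field (𝓞 L ⧸ v.asIdeal) := Ideal.Quotient.field _
  let _ : Fintype (𝓞 L ⧸ v.asIdeal) := Fintype.ofFinite _
  have n1 : ¬ IsSquare (Ideal.Quotient.mk v.asIdeal a) := fun e => h (lp_of_sq h2 hu ha e)
  have n2 : ¬ IsSquare (Ideal.Quotient.mk v.asIdeal a') := fun e => h' (lp_of_sq h2 hu' ha' e)
  refine lp_of_sq h2 (a := a * a') (by rw [map_mul, hu, hu', one_mul]) ?_ ?_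
  · rw [show ((a * a' : 𝓞 L) : L) - u * u' = (a - u) * a' + u * (a' - u') by push_cast; ring]
    refine Valuation.map_add_lt _ ?_ (by rwa [map_mul, hu, one_mul])
    rw [map_mul]
    exact lt_of_le_of_lt (mul_le_of_le_one_right' (vl_coe_le v a')) ha
  · rw [map_mul]
    have e1 := quadraticChar_neg_one_iff_not_isSquare.2 n1
    have e2 := quadraticChar_neg_one_iff_not_isSquare.2 n2
    have h0 : Ideal.Quotient.mk v.asIdeal a * Ideal.Quotient.mk v.asIdeal a' ≠ 0 :=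
      mul_ne_zero (fun e => n1 (e ▸ IsSquare.zero)) fun e => n2 (e ▸ IsSquare.zero)
    rw [← quadraticChar_one_iff_isSquare h0, map_mul, e1, e2]
    norm_num

theorem exists_unit {y : L} (hy : y ≠ 0) (h : 2 ∣ od v y) :
    ∃ u z : L, z ≠ 0 ∧ vl v u = 1 ∧ y = u * z ^ 2 := by
  obtain ⟨π, h0, h1⟩ := exists_od_one v
  obtain ⟨m, hm⟩ := h
  have hz : (π : L) ^ m ≠ 0 := zpow_ne_zero m h0
  refine ⟨y / ((π : L) ^ m) ^ 2, (π : L) ^ m, hz, ?_, by field_simp⟩
  rw [← od_eq_zero_iff v (div_ne_zero hy (pow_ne_zero 2 hz)), od_div v hy (pow_ne_zero 2 hz),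
    od_pow, od_zpow, h1, hm]
  push_cast
  ring

end ResP

open ResP in
theorem p_res (hW : Z_WA) : Z_Res := by
  intro L _ _ v
  refine ⟨part1 v, fun δ x hδ hx => ?_, fun y y' h2 hy hy' hd hd' h h' => ?_⟩
  · have hA := aniso hW hδ hx
    have h4 : vl v (4 : L) ≠ 0 := vl_ne v (by norm_num)
    have h1 : vl v (1 + 4 * x) = 1 := by
      by_cases h2 : Dv 2 v
      · refine (vl v).map_one_add_of_lt ?_
        rw [map_mul, vl_four]
        refine lt_of_le_of_lt (mul_le_of_le_one_right' (vl_le hx)) ?_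
        exact pow_lt_one' ((vl_nat_lt v).2 h2) two_ne_zero
      · have h3 : vl v (4 : L) = 1 := by rw [vl_four, (vl_nat_eq v).2 h2, one_pow]
        refine le_antisymm (Valuation.map_add_le _ (by simp) ?_) ?_
        · rw [map_mul, h3, one_mul]
          exact vl_le hx
        · have := (hA (1 / 2)).1
          rwa [show (1 / 2 : L) ^ 2 - 1 / 2 - x = -((1 + 4 * x) / 4) by ring, Valuation.map_neg,
            map_div₀, h3, div_one] at this
    refine ⟨h1, ?_, fun c hc => ?_⟩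
    · rintro ⟨r, hr⟩
      have h5 := vl_of_near v (hr.trans_le (sq_le v 2))
      rw [map_div₀, h1, one_div, inv_eq_one] at h5
      have h6 : r ^ 2 ≠ 0 := fun e => by simp [e] at h5
      rw [div_sub_one h6, map_div₀, h5, div_one, ← vl_four] at hr
      have := (hA ((1 + r) / 2)).1
      rw [show ((1 + r) / 2 : L) ^ 2 - (1 + r) / 2 - x = -((1 + 4 * x - r ^ 2) / 4) by ring,
        Valuation.map_neg, map_div₀, one_le_div₀ (zero_lt_iff.2 h4)] at this
      exact absurd hr (not_lt.2 this)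
    · obtain ⟨c', ⟨r, s, t, rfl⟩, h0, -, e⟩ := hc.exists_od
      rw [e, Nf_two] at *
      rcases eq_or_ne s 0 with rfl | hs
      · rw [show r ^ 2 - (1 + 4 * x) * 0 ^ 2 = r ^ 2 by ring, od_pow]
        exact Dvd.intro _ rfl
      · obtain ⟨h7, h8⟩ := hA ((s - r) / (2 * s))
        have h9 : ((s - r) / (2 * s)) ^ 2 - (s - r) / (2 * s) - x ≠ 0 := fun e => by
          simp [e] at h7
        rw [show r ^ 2 - (1 + 4 * x) * s ^ 2 =
            (2 * s) ^ 2 * (((s - r) / (2 * s)) ^ 2 - (s - r) / (2 * s) - x) by field_simp; ring,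
          od_mul v (pow_ne_zero 2 (mul_ne_zero two_ne_zero hs)) h9, od_pow]
        exact (Dvd.intro _ rfl).add h8
  · obtain ⟨u, z, hz, hu, rfl⟩ := exists_unit hy hd
    obtain ⟨u', z', hz', hu', rfl⟩ := exists_unit hy' hd'
    have := (unit_case hW h2 hu hu' (fun e => h (e.mul (LP.pow_self v two_ne_zero hz)))
      fun e => h' (e.mul (LP.pow_self v two_ne_zero hz'))).mul
      (LP.pow_self v two_ne_zero (mul_ne_zero hz hz'))
    rwa [show u * u' * (z * z') ^ 2 = u * z ^ 2 * (u' * z' ^ 2) by ring] at this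

end Pool.Agent.P.MP_e4219a_lc
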