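import Pool.Agent.P.MP_e4219a_lc.Bund

/-! The number of primes of degree one. -/

namespace Pool.Agent.P.MP_e4219a_lc

open NumberField Finset Pool.Agent.P.MP_b8021b_nt.VE Pool.Agent.P.MP_b8021b_nt.VC
open scoped Classical

namespace RpP

variable (L : Type) [Field L] [NumberField L]

theorem fin_le {p : ℕ} (hp : p.Prime) :
    Finite (𝓞 L →+* ZMod p) ∧ rp L p ≤ Module.finrank ℚ L := by
  have : Fact p.Prime := ⟨hp⟩
  refine ⟨Finite.of_equiv _ (RingHom.equivIntAlgHom (𝓞 L) (ZMod p)).symm, ?_⟩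
  rw [rp, Nat.card_congr (RingHom.equivIntAlgHom (𝓞 L) (ZMod p)), ← RingOfIntegers.rank]
  exact card_algHom_le_finrank ℤ (𝓞 L) (ZMod p)

theorem card_idl {p : ℕ} (hp : p.Prime) : (DS.idl L p).card ≤ rp L p := by
  have := (fin_le L hp).1
  have := Fintype.ofFinite (𝓞 L →+* ZMod p)
  rw [rp, Nat.card_eq_fintype_card, ← card_univ]
  refine card_le_card_of_surjOn (fun f => RingHom.ker f) fun I hI => ?_
  have h1 : Nat.card (𝓞 L ⧸ I) = p := by
    rw [← Submodule.cardQuot_apply, ← Ideal.absNorm_apply]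
    exact DS.mem_idl.1 hI
  have : Finite (𝓞 L ⧸ I) := Nat.finite_of_card_ne_zero (h1 ▸ hp.ne_zero)
  have := Fintype.ofFinite (𝓞 L ⧸ I)
  let e := ZMod.ringEquivOfPrime (𝓞 L ⧸ I) hp (by rw [← Nat.card_eq_fintype_card, h1])
  refine ⟨(e.symm : _ →+* _).comp (Ideal.Quotient.mk I), by simp, ?_⟩
  ext x
  simp [RingHom.mem_ker, Ideal.Quotient.eq_zero_iff_mem]

theorem lam_le (n : ℕ) {p : ℕ} (hp : p.Prime) :
    0 ≤ (lam (triv L n) p).re ∧ (lam (triv L n) p).re ≤ rp L p := by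
  rw [DS.lam_eq, Complex.re_sum]
  have h : ∀ I, 0 ≤ (triv L n I).re ∧ (triv L n I).re ≤ 1 := fun I => by
    rw [DS.triv_apply]
    split_ifs <;> simp
  refine ⟨sum_nonneg fun I _ => (h I).1, ?_⟩
  have := sum_le_card_nsmul (DS.idl L p) _ 1 fun I _ => (h I).2
  rw [nsmul_eq_mul, mul_one] at this
  exact this.trans (by exact_mod_cast card_idl L hp)

theorem root {κ N : ℕ} (hκ : 1 ≤ κ) (hN : 4 ^ κ ≤ N) :
    ∃ z : ℕ, 3 ≤ z ∧ z ^ κ ≤ N ∧ Real.log (Real.log N) ≤ Real.log (Real.log z) + 2 * κ := by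
  have hex : ∃ y : ℕ, N < (y + 1) ^ κ :=
    ⟨N, (Nat.lt_succ_self N).trans_le (Nat.le_self_pow (by omega) _)⟩
  have h1 := Nat.find_spec hex
  set z := Nat.find hex with hz
  have h2 : 4 < z + 1 := lt_of_pow_lt_pow_left₀ κ (Nat.zero_le _) (hN.trans_lt h1)
  have h3 : z ^ κ ≤ N := by
    have := Nat.find_min hex (m := z - 1) (by omega)
    rwa [not_lt, Nat.sub_add_cancel (by omega)] at this
  refine ⟨z, by omega, h3, ?_⟩
  have h4 : N ≤ z ^ (2 * κ) := by
    rw [pow_mul]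
    exact h1.le.trans (Nat.pow_le_pow_left (by nlinarith) _)
  have hN1 : 1 < N := (Nat.one_lt_pow (by omega) (by norm_num)).trans_le hN
  have hz1 : (1 : ℝ) < z := by exact_mod_cast (by omega : 1 < z)
  have hk : (0 : ℝ) < 2 * κ := by positivity
  have h5 : Real.log N ≤ (2 * κ) * Real.log z := by
    have := Real.log_le_log (show (0 : ℝ) < N by positivity)
      (show (N : ℝ) ≤ (z : ℝ) ^ (2 * κ) by exact_mod_cast h4)
    rw [Real.log_pow] at this
    exact_mod_cast this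
  have h6 := Real.log_le_log (Real.log_pos (by exact_mod_cast hN1)) h5
  rw [Real.log_mul hk.ne' (Real.log_pos hz1).ne'] at h6
  linarith [Real.log_le_sub_one_of_pos hk]

end RpP

open RpP in
theorem p_rp (h : T1) (hM : Z_Mer) : Z_Rp := by
  intro L _ _ hL
  refine ⟨fun p hp => fin_le L hp, fun m κ hm hκ => ?_⟩
  obtain ⟨C, hC⟩ := h.i.den1 L hL 2 le_rfl
  obtain ⟨D, -, -, -, hD⟩ := hM
  set d : ℝ := ((Module.finrank ℚ L : ℕ) : ℝ) with hd
  have hd0 : 0 ≤ d := by positivity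
  refine ⟨C + 2 * κ + d * (m + 1) + d * D, 4 ^ κ, fun N hN => ?_⟩
  obtain ⟨z, hz, hzN, hlog⟩ := root hκ hN
  have hl : 1 ≤ Real.log z := by
    rw [Real.le_log_iff_exp_le (by positivity)]
    have : (3 : ℝ) ≤ z := by exact_mod_cast hz
    linarith [Real.exp_one_lt_d9]
  have hs1 : 1 < 1 + 1 / Real.log z := by
    have : 0 < 1 / Real.log z := by positivity
    linarith
  have hs2 : 1 + 1 / Real.log z ≤ 2 := by
    have : 1 / Real.log z ≤ 1 := (div_le_one (by linarith)).2 hl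
    linarith
  have h1 := (abs_le.1 (hC _ hs1 hs2)).1
  rw [add_sub_cancel_left, one_div_one_div] at h1
  set s := 1 + 1 / Real.log z with hs
  set G := (range (N + 1)).filter fun p => p.Prime ∧ ¬ p ∣ m ∧ p ^ κ ≤ N with hG
  have h2 : dsum (lam (triv L 2)) s ≤ ∑ p ∈ G, (rp L p : ℝ) / p + d * (m + 1) + d * D := by
    refine Real.tsum_le_of_sum_le
      (fun q => mul_nonneg (lam_le L 2 q.2).1 (by positivity)) fun T => ?_
    set U := T.map (Function.Embedding.subtype Nat.Prime) with hU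
    have hUp : ∀ q ∈ U, q.Prime := fun q hq => by
      obtain ⟨q', -, rfl⟩ := mem_map.1 hq
      exact q'.2
    have e : ∑ q ∈ T, (lam (triv L 2) q).re * ((q : ℕ) : ℝ) ^ (-s) =
        ∑ q ∈ U, (lam (triv L 2) q).re * (q : ℝ) ^ (-s) := by
      rw [hU, sum_map]
      rfl
    rw [e]
    have t : ∀ q ∈ U, (lam (triv L 2) q).re * (q : ℝ) ^ (-s) ≤
        (if q ∈ G then (rp L q : ℝ) / q else 0) + (if q ∈ range (m + 1) then d else 0) +
          d * (if z < q then (q : ℝ) ^ (-s) else 0) := by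
      intro q hq
      have hp := hUp q hq
      have hq1 : (1 : ℝ) ≤ q := by exact_mod_cast hp.one_lt.le
      have a1 := (lam_le L 2 hp).2
      have a2 : (rp L q : ℝ) ≤ d := by rw [hd]; exact_mod_cast (fin_le L hp).2
      have a3 : (0 : ℝ) ≤ (q : ℝ) ^ (-s) := by positivity
      have a4 : (q : ℝ) ^ (-s) ≤ (q : ℝ)⁻¹ := by
        rw [← Real.rpow_neg_one]
        exact Real.rpow_le_rpow_of_exponent_le hq1 (by linarith)
      have a5 : (q : ℝ)⁻¹ ≤ 1 := inv_le_one_of_one_le₀ hq1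
      have a6 : (0 : ℝ) ≤ rp L q := by positivity
      have a7 := mul_le_mul_of_nonneg_right a1 a3
      have b1 : 0 ≤ if q ∈ G then (rp L q : ℝ) / q else 0 := by split_ifs <;> positivity
      have b2 : 0 ≤ if q ∈ range (m + 1) then d else 0 := by split_ifs <;> positivity
      have b3 : 0 ≤ d * (if z < q then (q : ℝ) ^ (-s) else 0) := by split_ifs <;> positivity
      by_cases c1 : z < q
      · rw [if_pos c1]
        linarith [mul_le_mul_of_nonneg_right a2 a3]
      by_cases c2 : q ∣ m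
      · rw [if_pos (mem_range.2 (Nat.lt_succ_of_le (Nat.le_of_dvd (Nat.pos_of_ne_zero hm) c2)))]
        nlinarith [mul_le_mul_of_nonneg_left (a4.trans a5) a6]
      · have c3 : q ^ κ ≤ N := (Nat.pow_le_pow_left (not_lt.1 c1) κ).trans hzN
        have c4 : q ∈ G := mem_filter.2
          ⟨mem_range.2 (Nat.lt_succ_of_le ((Nat.le_self_pow (by omega) q).trans c3)), hp, c2, c3⟩
        rw [if_pos c4, div_eq_mul_inv]
        linarith [mul_le_mul_of_nonneg_left a4 a6]
    refine (sum_le_sum t).trans ?_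
    rw [sum_add_distrib, sum_add_distrib, ← mul_sum, ← sum_filter, ← sum_filter, ← sum_filter]
    refine add_le_add (add_le_add ?_ ?_) (mul_le_mul_of_nonneg_left ?_ hd0)
    · exact sum_le_sum_of_subset_of_nonneg (fun q hq => (mem_filter.1 hq).2) fun q _ _ => by
        positivity
    · refine (sum_le_sum_of_subset_of_nonneg (t := range (m + 1))
        (fun q hq => (mem_filter.1 hq).2) fun q _ _ => hd0).trans ?_
      simp [mul_comm]
    · exact hD z _ hz fun q hq => ⟨hUp q (mem_filter.1 hq).1, (mem_filter.1 hq).2⟩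
  linarith

end Pool.Agent.P.MP_e4219a_lc
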