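import Pool.Agent.P.MP_e4219a_lc.Bund

/-! Differences that are powers in a dense sifted set. -/

namespace Pool.Agent.P.MP_e4219a_lc

open Finset MeasureTheory Filter

namespace SarP

theorem mass_mono (A : Finset ℕ) {S T : Set UnitAddCircle} (h : S ⊆ T) : mass A S ≤ mass A T := by
  have hc : Continuous fun α : UnitAddCircle => ‖ex A α‖ ^ 2 := by
    unfold ex
    fun_prop
  exact setIntegral_mono_set
    (hc.integrable_of_hasCompactSupport (HasCompactSupport.of_compactSpace _)).integrableOn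
    (ae_of_all _ fun _ => sq_nonneg _) h.eventuallyLE

theorem wt_le {d : ℕ} {A : Finset ℕ} {Ω : ℕ → Finset ℕ} (hS : Sift d A Ω) (N Q : ℕ) :
    wt d N 0 Ω ≤ wt d N Q Ω + d * ∑ p ∈ (range (Q + 1)).filter Nat.Prime, (1 : ℝ) / p := by
  unfold wt
  rw [← sum_filter_add_sum_filter_not (sP d N 0) fun p => Q < p, mul_sum]
  refine add_le_add (sum_le_sum_of_subset_of_nonneg (fun p hp => ?_) fun _ _ _ => by positivity)
    ((sum_le_sum fun p _ => ?_).trans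
      (sum_le_sum_of_subset_of_nonneg (fun p hp => ?_) fun _ _ _ => by positivity))
  · simp only [sP, mem_filter] at hp ⊢
    exact ⟨hp.1.1, hp.1.2.1, hp.2, hp.1.2.2.2⟩
  · rw [mul_one_div]
    exact div_le_div_of_nonneg_right (by exact_mod_cast hS.card p) (by positivity)
  · simp only [sP, mem_filter, mem_range] at hp ⊢
    exact ⟨by omega, hp.1.2.1⟩

theorem wt_self (d N : ℕ) (Ω : ℕ → Finset ℕ) : wt d N N Ω = 0 := by
  refine sum_eq_zero fun p hp => ?_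
  simp only [sP, mem_filter, mem_range] at hp
  omega

theorem exp_wt {d : ℕ} {A : Finset ℕ} {Ω : ℕ → Finset ℕ} (hS : Sift d A Ω) {c : ℝ}
    (hM : ∀ x : ℕ, 2 ≤ x →
      ∑ p ∈ (range (x + 1)).filter Nat.Prime, (1 : ℝ) / p ≤ Real.log (Real.log x) + c)
    (N : ℕ) {Q : ℕ} (hQ : 2 ≤ Q) {L : ℝ} (hL : Real.log Q ≤ L) :
    Real.exp (-wt d N Q Ω) ≤ Real.exp (-wt d N 0 Ω) * (Real.exp c * L) ^ d := by
  have h0 : 0 < Real.log Q := Real.log_pos (by exact_mod_cast hQ)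
  have h1 := wt_le hS N Q
  have h2 := mul_le_mul_of_nonneg_left (hM Q hQ) (Nat.cast_nonneg d)
  calc Real.exp (-wt d N Q Ω)
      ≤ Real.exp (-wt d N 0 Ω + d * (c + Real.log (Real.log Q))) :=
        Real.exp_le_exp.2 (by linarith)
    _ = Real.exp (-wt d N 0 Ω) * (Real.exp c * Real.log Q) ^ d := by
        rw [Real.exp_add, Real.exp_nat_mul, Real.exp_add, Real.exp_log h0]
    _ ≤ _ := by gcongr

theorem maj_le {d NB : ℕ} (hB : ∀ (N Q : ℕ) (A : Finset ℕ) (Ω : ℕ → Finset ℕ)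
      (𝔐 : Set UnitAddCircle), NB ≤ N → Sift d A Ω → MeasurableSet 𝔐 →
      (∀ α ∈ 𝔐, ∀ α' ∈ 𝔐, ∃ D : ℕ, 1 ≤ D ∧ (∀ p : ℕ, p.Prime → p ∣ D → p ≤ Q) ∧
        ‖D • (α - α')‖ * √N < 1) → mass A 𝔐 ≤ 2 * A.card * Real.exp (-wt d N Q Ω))
    {N Q k W ℓ : ℕ} {y : ℝ} {A : Finset ℕ} {Ω : ℕ → Finset ℕ} (hN : NB ≤ N) (hS : Sift d A Ω)
    (hW : 1 ≤ W) (hk : 2 ^ k ≤ Q) (hp : ∀ p : ℕ, p.Prime → p ∣ W → p ≤ Q)
    (hy : 2 * (2 ^ k) ^ 2 * √N < y) :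
    mass A {α | ∃ q : ℕ, 1 ≤ q ∧ q ≤ 2 ^ k ∧ ‖(q * W ^ ℓ) • α‖ * y ≤ 2 ^ k} ≤
      2 * A.card * Real.exp (-wt d N Q Ω) := by
  have hy0 : 0 < y := lt_of_le_of_lt (by positivity) hy
  refine hB N Q A Ω _ hN hS ?_ ?_
  · rw [Set.ofPred_exists]
    exact MeasurableSet.iUnion fun q => (MeasurableSet.const _).inter
      ((MeasurableSet.const _).inter
        (isClosed_le (f := fun α : UnitAddCircle => ‖(q * W ^ ℓ) • α‖ * y) (by fun_prop)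
          continuous_const).measurableSet)
  · rintro α ⟨q, q1, q2, q3⟩ α' ⟨r, r1, r2, r3⟩
    refine ⟨q * r * W ^ ℓ, Nat.succ_le_of_lt (by positivity), fun p pp hd => ?_, ?_⟩
    · rcases (pp.dvd_mul.1 hd) with h | h
      · rcases pp.dvd_mul.1 h with h | h
        · exact (Nat.le_of_dvd q1 h).trans (q2.trans hk)
        · exact (Nat.le_of_dvd r1 h).trans (r2.trans hk)
      · exact hp p pp (pp.dvd_of_dvd_pow h)
    · have e : (q * r * W ^ ℓ) • (α - α') =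
          r • ((q * W ^ ℓ) • α) - q • ((r * W ^ ℓ) • α') := by
        rw [smul_sub, smul_smul, smul_smul]
        congr 2 <;> ring
      have q2' : (q : ℝ) ≤ 2 ^ k := by exact_mod_cast q2
      have r2' : (r : ℝ) ≤ 2 ^ k := by exact_mod_cast r2
      have h1 : ‖(q * r * W ^ ℓ) • (α - α')‖ ≤
          2 ^ k * ‖(q * W ^ ℓ) • α‖ + 2 ^ k * ‖(r * W ^ ℓ) • α'‖ := by
        rw [e]
        refine (norm_sub_le _ _).trans (add_le_add (norm_nsmul_le.trans ?_)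
          (norm_nsmul_le.trans ?_)) <;> gcongr
      have h2 : ‖(q * r * W ^ ℓ) • (α - α')‖ * y ≤ 2 * (2 ^ k) ^ 2 := by
        have t : (0 : ℝ) < 2 ^ k := by positivity
        nlinarith [mul_le_mul_of_nonneg_right h1 hy0.le, mul_le_mul_of_nonneg_left q3 t.le,
          mul_le_mul_of_nonneg_left r3 t.le]
      have h3 := mul_le_mul_of_nonneg_right h2 (Real.sqrt_nonneg N)
      refine lt_of_mul_lt_mul_right ?_ hy0.le
      nlinarith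

theorem exY {ℓ : ℕ} (hℓ : El ℓ) {τ : ℝ} (h0 : 0 < τ) (h1 : τ ≤ 1 / 8) :
    ∃ Y : ℕ, 1 ≤ Y ∧ (Y : ℝ) ^ ℓ * τ ≤ 1 / 8 ∧ 1 / 64 ≤ (Y : ℝ) ^ ℓ * τ := by
  have l1 : 1 ≤ ℓ := by rcases hℓ with h | h <;> omega
  have l3 : ℓ ≤ 3 := by rcases hℓ with h | h <;> omega
  have hex : ∃ Y : ℕ, 1 / 8 < (Y : ℝ) ^ ℓ * τ := by
    obtain ⟨Y, hY⟩ := exists_nat_gt (1 / 8 / τ + 1)
    have h2 : 0 < 1 / 8 / τ := by positivity
    refine ⟨Y, ?_⟩
    rw [← div_lt_iff₀ h0]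
    have : (Y : ℝ) ≤ Y ^ ℓ := le_self_pow₀ (by linarith) (by omega)
    linarith
  classical
  have a1 := Nat.find_spec hex
  have a2 : ∀ Y < Nat.find hex, (Y : ℝ) ^ ℓ * τ ≤ 1 / 8 := fun Y h => not_lt.1 (Nat.find_min hex h)
  generalize Nat.find hex = Z at a1 a2
  obtain _ | _ | Y := Z
  · rw [Nat.cast_zero, zero_pow (by omega)] at a1
    linarith
  · simp only [zero_add, Nat.cast_one, one_pow] at a1
    linarith
  · refine ⟨Y + 1, by omega, a2 _ (by omega), ?_⟩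
    have b1 : ((Y + 1 + 1 : ℕ) : ℝ) ^ ℓ ≤ (2 * ((Y + 1 : ℕ) : ℝ)) ^ ℓ := by
      gcongr
      push_cast
      linarith [Nat.cast_nonneg (α := ℝ) Y]
    have b2 : (2 : ℝ) ^ ℓ ≤ 2 ^ 3 := pow_le_pow_right₀ (by norm_num) l3
    have b3 : (0 : ℝ) ≤ ((Y + 1 : ℕ) : ℝ) ^ ℓ * τ := by positivity
    rw [mul_pow] at b1
    nlinarith [mul_le_mul_of_nonneg_right b1 h0.le]

theorem tail (κ : ℝ) (d : ℕ) : ∃ i₀ : ℕ, 1 ≤ i₀ ∧
    ∀ i₁, ∑ i ∈ Ioc i₀ i₁, 2 / 2 ^ i * (κ * (i : ℝ) ^ d) ≤ 1 / 200 := by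
  have h : Summable fun i : ℕ => 2 / 2 ^ i * (κ * (i : ℝ) ^ d) := by
    refine ((summable_pow_mul_geometric_of_norm_lt_one (R := ℝ) d (r := 1 / 2)
      (by norm_num)).mul_left (2 * κ)).congr fun i => ?_
    rw [one_div, inv_pow]
    ring
  obtain ⟨s, hs⟩ := summable_iff_vanishing_norm.1 h (1 / 200) (by norm_num)
  refine ⟨s.sup id + 1, by omega, fun i₁ => ((le_abs_self _).trans (hs _ ?_).le)⟩
  refine disjoint_left.2 fun i hi hi' => ?_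
  have : i ≤ s.sup id := le_sup (f := id) hi'
  have := (mem_Ioc.1 hi).1
  omega

theorem big (κ : ℝ) (d i₀ : ℕ) : ∃ i₂ : ℕ, i₀ ≤ i₂ ∧ ∀ i, i₂ ≤ i → κ * (i : ℝ) ^ d ≤ 2 ^ i := by
  have h := (tendsto_pow_const_div_const_pow_of_one_lt d (r := 2) (by norm_num)).const_mul κ
  rw [mul_zero] at h
  obtain ⟨a, ha⟩ := eventually_atTop.1 (h.eventually (gt_mem_nhds one_pos))
  refine ⟨max a i₀, le_max_right _ _, fun i hi => ?_⟩
  have := ha i ((le_max_left _ _).trans hi)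
  rw [← mul_div_assoc, div_lt_one (by positivity)] at this
  exact this.le

theorem cut {X c i₂ N : ℕ} (hX : 1 ≤ X) (hc : 1 ≤ c) (h : X * 2 ^ (c * i₂) < N) :
    ∃ i₁, i₂ ≤ i₁ ∧ X * 2 ^ (c * i₁) < N ∧ N ≤ X * 2 ^ (c * (i₁ + 1)) := by
  by_contra hn
  have : ∀ i, i₂ ≤ i → X * 2 ^ (c * i) < N := fun i hi => by
    induction i, hi using Nat.le_induction with
    | base => exact h
    | succ i hi ih => exact not_le.1 fun h' => hn ⟨i, hi, ih, h'⟩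
  have h1 := this (i₂ + N) (by omega)
  have h2 : N < 2 ^ N := Nat.lt_two_pow_self
  have h3 : 2 ^ N ≤ 2 ^ (c * (i₂ + N)) := Nat.pow_le_pow_right (by norm_num) (by nlinarith)
  nlinarith

theorem log_two_pow (k : ℕ) : Real.log (2 ^ k) ≤ k := by
  rw [Real.log_pow]
  have := Real.log_two_lt_d9
  nlinarith [Nat.cast_nonneg (α := ℝ) k]

theorem log_mul_le {X : ℕ} (hX : 1 ≤ X) (k : ℕ) : Real.log ((X * 2 ^ k : ℕ) : ℝ) ≤ X + k := by
  have h0 : (0 : ℝ) < X := by exact_mod_cast hX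
  push_cast
  rw [Real.log_mul h0.ne' (by positivity)]
  linarith [log_two_pow k, Real.log_le_sub_one_of_pos h0]

theorem grow {x : ℕ → ℝ} {μ : ℝ} {J : ℕ} (hμ : 0 ≤ μ) (h0 : μ / 16 ≤ x 0)
    (h : ∀ j < J, 3 / 2 * x j ≤ x (j + 1) + μ / 100) :
    ∀ j ≤ J, μ / 50 + (3 / 2) ^ j * (μ / 25) ≤ x j := by
  intro j hj
  induction j with
  | zero => linarith
  | succ j ih =>
    have := ih (by omega)
    have := h j (by omega)
    rw [pow_succ]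
    linarith

theorem lev {Λ T N y : ℝ} (h1 : 1 ≤ Λ) (h2 : 1 ≤ T) (h3 : 4 * Λ ^ 2 * T ^ 4 < N)
    (h4 : N ≤ Λ * y) : 2 * T ^ 2 * √N < y ∧ T ^ 3 ≤ y := by
  have hN : 0 < N := lt_of_le_of_lt (by positivity) h3
  have a1 : 2 * Λ * T ^ 2 < √N := Real.lt_sqrt_of_sq_lt (by linarith)
  have a2 := Real.mul_self_sqrt hN.le
  have a3 := Real.sqrt_pos.2 hN
  have a4 : 2 * T ^ 2 * √N < y := by
    refine lt_of_mul_lt_mul_left ?_ (zero_le_one.trans h1)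
    nlinarith [mul_lt_mul_of_pos_right a1 a3]
  refine ⟨a4, le_trans ?_ a4.le⟩
  have a5 : T ≤ 2 * √N := by nlinarith [mul_le_mul h1 h2 zero_le_one (zero_le_one.trans h1)]
  nlinarith [mul_le_mul_of_nonneg_left a5 (sq_nonneg T)]

end SarP

open SarP in
theorem p_sar (hM : Z_Mer) (hP : Z_Par) (hB : Z_MB) (hW : Z_W) (hC : Z_Core) : Z_Sar := by
  intro ℓ d m δ hℓ hm hδ
  obtain ⟨c, -, -, hM, -⟩ := hM
  obtain ⟨NB, hB⟩ := hB d
  obtain ⟨C, hC1, hW⟩ := hW ℓ hℓ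
  have l1 : 1 ≤ ℓ := by rcases hℓ with h | h <;> omega
  have l3 : ℓ ≤ 3 := by rcases hℓ with h | h <;> omega
  obtain ⟨κ, hκ⟩ : ∃ κ : ℝ, κ = 2 / δ * (Real.exp c * (m + C)) ^ d := ⟨_, rfl⟩
  obtain ⟨i₀, hi₀, ht⟩ := tail κ d
  obtain ⟨J, hJ⟩ :=
    pow_unbounded_of_one_lt (25 * (κ * (i₀ : ℝ) ^ d)) (show (1 : ℝ) < 3 / 2 by norm_num)
  obtain ⟨F, hF⟩ : ∃ F, F = (2 ^ (C * i₀)).factorial := ⟨_, rfl⟩
  have F1 : 1 ≤ F := hF ▸ Nat.factorial_pos _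
  obtain ⟨B, hBd⟩ : ∃ B : ℕ, B = 64 * F ^ ℓ * 2 ^ (C * i₀) := ⟨_, rfl⟩
  have B1 : 1 ≤ B := hBd ▸ Nat.succ_le_of_lt (by positivity)
  obtain ⟨Λ, hΛ⟩ : ∃ Λ : ℕ, Λ = 8 * m ^ ℓ * B ^ J := ⟨_, rfl⟩
  have Λ1 : 1 ≤ Λ := hΛ ▸ Nat.succ_le_of_lt (by positivity)
  obtain ⟨i₂, h02, hbig⟩ :=
    big (200 / δ * (Real.exp c * ((4 * Λ ^ 2 : ℕ) + 8 * C)) ^ d) d i₀
  refine ⟨max NB (4 * Λ ^ 2 * 2 ^ (4 * C * i₂) + 1), fun N A Ω hN hA hS hd => ?_⟩
  by_contra hno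
  push Not at hno
  have hNB : NB ≤ N := (le_max_left _ _).trans hN
  obtain ⟨i₁, h21, hlt, hge⟩ := cut (X := 4 * Λ ^ 2) (c := 4 * C) (i₂ := i₂) (N := N)
    (Nat.succ_le_of_lt (by positivity)) (by omega) ((le_max_right _ _).trans hN)
  have hΛN : 4 * Λ ^ 2 ≤ N := (Nat.le_mul_of_pos_right _ (by positivity)).trans hlt.le
  have N2 : 2 ≤ N := by nlinarith
  have N0 : (0 : ℝ) < N := by positivity
  have n0 : (0 : ℝ) < A.card :=
    (mul_pos_iff_of_pos_right (Real.exp_pos _)).1 ((mul_pos hδ N0).trans_le hd)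
  obtain ⟨μ, hμ⟩ : ∃ μ : ℝ, μ = (A.card : ℝ) ^ 2 / N := ⟨_, rfl⟩
  have μ0 : 0 < μ := hμ ▸ by positivity
  have hn : A.card * Real.exp (-wt d N 0 Ω) ≤ μ / δ := by
    rw [hμ, Real.exp_neg, ← div_eq_mul_inv, div_div, div_le_div_iff₀ (Real.exp_pos _) (by positivity)]
    nlinarith [mul_le_mul_of_nonneg_left hd n0.le]
  -- the scales
  have hY : ∀ j ≤ J, ∃ Y : ℕ, 1 ≤ Y ∧ (Y : ℝ) ^ ℓ * ((m : ℝ) ^ ℓ * B ^ j / (8 * N)) ≤ 1 / 8 ∧
      1 / 64 ≤ (Y : ℝ) ^ ℓ * ((m : ℝ) ^ ℓ * B ^ j / (8 * N)) ∧ ∀ i ≤ i₁,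
      2 * (2 ^ (C * i)) ^ 2 * √N < (Y : ℝ) ^ ℓ ∧ (2 : ℝ) ^ (C * i) ≤ Y := by
    intro j hj
    have a1 : 8 * m ^ ℓ * B ^ j ≤ Λ := hΛ ▸ Nat.mul_le_mul_left _ (Nat.pow_le_pow_right B1 hj)
    have a1' : 8 * (m : ℝ) ^ ℓ * B ^ j ≤ Λ := by exact_mod_cast a1
    have a2 : (Λ : ℝ) ≤ N := by exact_mod_cast (show Λ ≤ N by nlinarith)
    have a3 : (0 : ℝ) < (m : ℝ) ^ ℓ * B ^ j := by positivity
    obtain ⟨Y, y1, y2, y3⟩ := exY hℓ (τ := (m : ℝ) ^ ℓ * B ^ j / (8 * N)) (by positivity) (by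
      rw [div_le_div_iff₀ (by positivity) (by norm_num)]
      linarith)
    refine ⟨Y, y1, y2, y3, fun i hi => ?_⟩
    have b1 : (N : ℝ) ≤ Λ * (Y : ℝ) ^ ℓ := by
      rw [← mul_div_assoc, div_le_div_iff₀ (by norm_num) (by positivity)] at y3
      nlinarith [mul_le_mul_of_nonneg_right a1' (show (0 : ℝ) ≤ (Y : ℝ) ^ ℓ by positivity)]
    have b2 : 4 * Λ ^ 2 * (2 ^ (C * i)) ^ 4 < N := by
      refine lt_of_le_of_lt (Nat.mul_le_mul_left _ ?_) hlt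
      rw [← pow_mul]
      exact Nat.pow_le_pow_right (by norm_num) (by nlinarith)
    have b3 : (1 : ℝ) ≤ 2 ^ (C * i) := one_le_pow₀ (by norm_num)
    obtain ⟨c1, c2⟩ := lev (Λ := Λ) (N := N) (by exact_mod_cast Λ1) b3 (by exact_mod_cast b2) b1
    exact ⟨c1, le_of_pow_le_pow_left₀ (n := ℓ) (by omega) (by positivity)
      ((pow_le_pow_right₀ b3 l3).trans c2)⟩
  -- the mass of the major arcs
  have hK : ∀ (j i : ℕ) (y : ℝ), i₀ ≤ i → 2 * (2 ^ (C * i)) ^ 2 * √N < y →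
      mass A {α | ∃ q : ℕ, 1 ≤ q ∧ q ≤ 2 ^ (C * i) ∧
        ‖(q * (m * F ^ j) ^ ℓ) • α‖ * y ≤ 2 ^ (C * i)} ≤ μ * (κ * (i : ℝ) ^ d) := by
    intro j i y hi hy
    have a1 : 2 ^ (C * i) ≤ m * 2 ^ (C * i) := Nat.le_mul_of_pos_left _ hm
    have a2 : 2 ≤ m * 2 ^ (C * i) :=
      (Nat.le_self_pow (show C * i ≠ 0 from Nat.mul_ne_zero (by omega) (by omega)) 2).trans a1
    have i1 : (1 : ℝ) ≤ i := by exact_mod_cast hi₀.trans hi
    have a3 := exp_wt hS hM N a2 (L := (m + C) * i) ((log_mul_le hm _).trans (by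
      push_cast
      nlinarith [Nat.cast_nonneg (α := ℝ) m]))
    refine (maj_le hB hNB hS (Nat.succ_le_of_lt (by positivity)) a1 (fun p pp hp => ?_) hy).trans ?_
    · rcases pp.dvd_mul.1 hp with h | h
      · exact (Nat.le_of_dvd hm h).trans (Nat.le_mul_of_pos_right _ (by positivity))
      · exact (pp.dvd_factorial.1 (hF ▸ pp.dvd_of_dvd_pow h)).trans
          ((Nat.pow_le_pow_right (by norm_num) (Nat.mul_le_mul_left _ hi)).trans a1)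
    · calc 2 * A.card * Real.exp (-wt d N (m * 2 ^ (C * i)) Ω)
          ≤ 2 * A.card * (Real.exp (-wt d N 0 Ω) * (Real.exp c * ((m + C) * i)) ^ d) := by gcongr
        _ = 2 * (A.card * Real.exp (-wt d N 0 Ω)) * (Real.exp c * ((m + C) * i)) ^ d := by ring
        _ ≤ 2 * (μ / δ) * (Real.exp c * ((m + C) * i)) ^ d := by gcongr
        _ = _ := by rw [hκ, ← mul_assoc (Real.exp c), mul_pow _ (i : ℝ)]; ring
  have hlast : (A.card : ℝ) / 2 ^ i₁ ≤ μ / 200 := by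
    have i1 : (1 : ℝ) ≤ i₁ := by exact_mod_cast hi₀.trans (h02.trans h21)
    have a3 := exp_wt hS hM N N2 (L := ((4 * Λ ^ 2 : ℕ) + 8 * C) * i₁)
      ((Real.log_le_log N0 (by exact_mod_cast hge)).trans
        ((log_mul_le (X := 4 * Λ ^ 2) (Nat.succ_le_of_lt (by positivity)) (4 * C * (i₁ + 1))).trans
        (by
          generalize 4 * Λ ^ 2 = X
          push_cast
          nlinarith [Nat.cast_nonneg (α := ℝ) X, Nat.cast_nonneg (α := ℝ) C])))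
    rw [wt_self, neg_zero, Real.exp_zero, ← mul_assoc (Real.exp c), mul_pow _ (i₁ : ℝ)] at a3
    have a4 := hbig i₁ h21
    generalize (Real.exp c * (((4 * Λ ^ 2 : ℕ) : ℝ) + 8 * C)) ^ d = G at a3 a4
    have a5 : 0 ≤ G * (i₁ : ℝ) ^ d := by
      by_contra h
      nlinarith [Real.exp_pos (-wt d N 0 Ω)]
    rw [div_le_iff₀ (by positivity)]
    calc (A.card : ℝ) ≤ A.card * (Real.exp (-wt d N 0 Ω) * (G * (i₁ : ℝ) ^ d)) :=
          le_mul_of_one_le_right n0.le a3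
      _ = A.card * Real.exp (-wt d N 0 Ω) * (G * (i₁ : ℝ) ^ d) := by ring
      _ ≤ μ / δ * (G * (i₁ : ℝ) ^ d) := by gcongr
      _ = μ / 200 * (200 / δ * G * (i₁ : ℝ) ^ d) := by ring
      _ ≤ _ := by gcongr
  have hgrow := grow (J := J) (x := fun j => mass A {α | ‖(m * F ^ j) ^ ℓ • α‖ ≤
      (m : ℝ) ^ ℓ * B ^ j / (8 * N)}) μ0.le ?_ ?_ J le_rfl
  · obtain ⟨Y, -, y2, -, y4⟩ := hY J le_rfl
    have a1 : mass A {α | ‖(m * F ^ J) ^ ℓ • α‖ ≤ (m : ℝ) ^ ℓ * B ^ J / (8 * N)} ≤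
        μ * (κ * (i₀ : ℝ) ^ d) := by
      refine le_trans (mass_mono A fun α hα => ?_) (hK J i₀ _ le_rfl (y4 i₀ (h02.trans h21)).1)
      refine ⟨1, le_rfl, Nat.one_le_two_pow, ?_⟩
      have b1 : (1 : ℝ) ≤ 2 ^ (C * i₀) := one_le_pow₀ (by norm_num)
      have b2 := mul_le_mul_of_nonneg_right hα (show (0 : ℝ) ≤ (Y : ℝ) ^ ℓ by positivity)
      rw [one_mul]
      linarith
    nlinarith [mul_lt_mul_of_pos_left hJ μ0]
  · refine le_trans (le_of_eq ?_) (((hP A).2.2 N (by omega) hA).trans (mass_mono A fun α hα => ?_))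
    · rw [hμ]
      ring
    · have b1 : ‖α‖ ≤ 1 / (8 * N) := hα
      change ‖(m * F ^ 0) ^ ℓ • α‖ ≤ (m : ℝ) ^ ℓ * B ^ 0 / (8 * N)
      rw [pow_zero, pow_zero, mul_one, mul_one, div_eq_mul_one_div]
      refine norm_nsmul_le.trans ?_
      push_cast
      gcongr
  · intro j hj
    obtain ⟨Y, y1, y2, y3, y4⟩ := hY j hj.le
    have τ0 : 0 ≤ (m : ℝ) ^ ℓ * B ^ j / (8 * N) := by positivity
    have e : (m : ℝ) ^ ℓ * B ^ (j + 1) / (8 * N) = (m : ℝ) ^ ℓ * B ^ j / (8 * N) * B := by ring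
    have eB : (B : ℝ) = 64 * F ^ ℓ * 2 ^ (C * i₀) := by rw [hBd]; push_cast; rfl
    have b1 : (1 : ℝ) ≤ 2 ^ (C * i₀) := one_le_pow₀ (by norm_num)
    have b2 : (0 : ℝ) < (F : ℝ) ^ ℓ := by positivity
    have a1 := hC ℓ C (m * F ^ j) Y i₀ i₁ _ ((m : ℝ) ^ ℓ * B ^ (j + 1) / (8 * N)) A
      (fun i => μ * (κ * (i : ℝ) ^ d)) l1 (Nat.succ_le_of_lt (by positivity)) y1 hi₀
      (h02.trans h21) τ0 y2 (by
        rw [e, ← hF]
        refine mul_le_mul_of_nonneg_left ?_ τ0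
        rw [eB]
        nlinarith) (by
        rw [e, ← hF]
        nlinarith [mul_le_mul_of_nonneg_left y3 (Nat.cast_nonneg (α := ℝ) B)])
      (fun i h1 h2 γ hγ => ?_) (fun i h1 h2 => hK j i _ h1.le (y4 i h2).1)
      (fun a ha a' ha' w hw => by
        rw [mul_assoc]
        exact hno a ha a' ha' _ (Nat.succ_le_of_lt (by positivity)))
    · rw [← hF, mul_assoc m, ← pow_succ] at a1
      have a2 : ∑ i ∈ Ioc i₀ i₁, 2 / 2 ^ i * (μ * (κ * (i : ℝ) ^ d)) ≤ μ / 200 := by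
        have := mul_le_mul_of_nonneg_left (ht i₁) μ0.le
        rw [mul_sum] at this
        refine le_trans (le_of_eq (sum_congr rfl fun i _ => by ring)) (this.trans (by linarith))
      linarith
    · have t0 : (0 : ℝ) < 2 ^ (C * i) := by positivity
      have e1 : ((1 : ℝ) / 2 ^ i) ^ C = 1 / 2 ^ (C * i) := by
        rw [div_pow, one_pow, ← pow_mul, mul_comm]
      obtain ⟨q, q1, q2, q3⟩ := hW Y (1 / 2 ^ i) γ (by positivity)
        (one_div_le_one_div_of_le (by norm_num) (le_self_pow₀ (by norm_num) (by omega)))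
        (by rw [e1, one_div_mul_eq_div, one_le_div t0]; exact (y4 i h2).2)
        (by rwa [one_div_mul_eq_div])
      rw [e1, mul_one_div, div_le_one t0] at q2
      rw [e1, one_div_mul_eq_div, ← mul_div_assoc, div_le_one t0] at q3
      exact ⟨q, q1, by exact_mod_cast q2, q3⟩

end Pool.Agent.P.MP_e4219a_lc
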