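import Pool.Agent.P.MP_e4219a_lc.Bund

/-! A curve with a small Selmer group. -/

namespace Pool.Agent.P.MP_e4219a_lc

open NumberField Finset
open Pool.Agent.P.MP_b8021b_nt Pool.Agent.P.MP_b8021b_nt.VE Pool.Agent.P.MP_b8021b_nt.VC
open scoped Classical

namespace SelP

theorem al_ne {F : Type} [Field F] {ℓ : ℕ} {u u' : F} (hu : u ≠ 0) (hu' : u' ≠ 0)
    (R : Pt (A3 ℓ u u') (A4 ℓ u u')) : al ℓ R ≠ 0 := by
  rcases R with _ | ⟨x, y, h⟩
  · exact one_ne_zero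
  · simp only [al, A3, A4]
    split_ifs with h1 h2 h3
    · exact neg_ne_zero.2 (mul_ne_zero hu hu')
    · exact h2
    · exact pow_ne_zero 2 (mul_ne_zero hu hu')
    · exact h3

theorem ex_add {ℓ : ℕ} (h : ℓ ≠ 0) (a : ℤ) : ∃ i : ℕ, (ℓ : ℤ) ∣ a + i := by
  have h0 : (ℓ : ℤ) ≠ 0 := Nat.cast_ne_zero.2 h
  refine ⟨(-a % ℓ).toNat, ?_⟩
  rw [Int.toNat_of_nonneg (Int.emod_nonneg _ h0), Int.emod_def]
  exact ⟨-(-a / ℓ), by ring⟩

variable {L : Type} [Field L] [NumberField L]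

theorem near3 {ℓ n : ℕ} {v : Pl L} {u : 𝓞 L} (hn : n ≠ 0) (hℓ : ℓ ∣ n) (hv : Dv n v)
    (h : ((n ^ 4 : ℕ) : 𝓞 L) ∣ u - 1) : vl v ((u : L) - 1) < vl v ℓ ^ 3 := by
  have h1 := One.near v (One.coe h) ((dv_pow v (by norm_num)).2 hv)
  have h2 : vl v n ≤ vl v ℓ := by
    obtain ⟨c, rfl⟩ := hℓ
    rw [Nat.cast_mul, map_mul]
    exact mul_le_of_le_one_right' (vl_nat_le v c)
  have h3 := vl_pos v (Nat.cast_ne_zero.2 hn : (n : L) ≠ 0)
  rw [Nat.cast_pow, map_pow] at h1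
  exact h1.trans_lt ((pow_lt_pow_right_of_lt_one₀ h3 ((vl_nat_lt v).2 hv) (by norm_num)).trans_le
    (pow_le_pow_left' h2 3))

theorem od_span {u : 𝓞 L} {𝔠 : Ideal (𝓞 L)} {e : ℕ} {q : Pl L} (h𝔠 : 𝔠 ≠ ⊥)
    (h : Ideal.span {u} = 𝔠 ^ e * q.asIdeal) :
    (u : L) ≠ 0 ∧ ∀ v, od v (u : L) = e * cnt v 𝔠 + cnt v q.asIdeal := by
  have h0 : u ≠ 0 := fun e' => mul_ne_zero (pow_ne_zero e h𝔠) q.ne_bot (by
    rw [← h, e', Ideal.span_singleton_eq_bot.2 rfl]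
    rfl)
  refine ⟨by simpa using h0, fun v => ?_⟩
  rw [od_coe v h0, h, cnt_mul v (pow_ne_zero e h𝔠) q.ne_bot, cnt_pow v h𝔠]
  push_cast
  rfl

theorem cnt_prod {t : ℕ} (π : Fin t → Pl L) (v : Pl L) (s : Finset (Fin t)) :
    cnt v (∏ j ∈ s, (π j).asIdeal) = ∑ j ∈ s, cnt v (π j).asIdeal := by
  induction s using Finset.induction_on with
  | empty => simpa using (cnt_eq_zero v).2 fun h => v.isPrime.ne_top (top_le_iff.1 h)
  | insert j s hj ih =>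
    rw [prod_insert hj, sum_insert hj, cnt_mul v (π j).ne_bot
      (prod_ne_zero_iff.2 fun i _ => (π i).ne_bot), ih]

end SelP

open SelP in
theorem p_sel (h : T2) (hC : Z_C) (hP : Z_Pair) (hV : Z_Val) (hW : Z_ValW) (hI : Z_Iso)
    (hM : Z_Max) : Z_Sel := by
  intro L _ _ ℓ ζ hL hζ
  have hℓ := hζ.el
  have hp := hℓ.prime
  have h6 : ℓ ∣ 6 := by rcases hℓ with rfl | rfl <;> norm_num
  obtain ⟨Y, hY⟩ := (h.es L).2 6 ℓ (by norm_num) hp.ne_zero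
  obtain ⟨t, y, hy, hind, hspan⟩ := hM L ℓ (fun y => y ≠ 0 ∧ (∀ v, ¬ Dv 6 v → (ℓ : ℤ) ∣ od v y) ∧
    ∀ v, Dv 6 v → Wv ℓ v y) Y hp (fun y h => h.1) fun y h => hY y h.1 h.2.1
  obtain ⟨π, hπ⟩ := hC L ℓ 6 t y hL hℓ (by norm_num) (fun i => (hy i).1) hind
  have hinj : ∀ i j, π i = π j → i = j := fun i j e => by
    by_contra hne
    exact (((hπ i).2 i).1 (e ▸ ((hπ j).2 i).2 hne)) rfl
  set 𝔠 : Ideal (𝓞 L) := ∏ j, (π j).asIdeal with h𝔠
  have c0 : 𝔠 ≠ ⊥ := prod_ne_zero_iff.2 fun i _ => (π i).ne_bot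
  have c1 : Cop (6 ^ 4) 𝔠 := (cop_pow_nat (by norm_num)).2
    (IsCoprime.prod_left fun i _ => (cop_prime_iff _).2 (hπ i).1)
  have c2 : ∀ j, cnt (π j) 𝔠 = 1 := fun j => by
    rw [h𝔠, cnt_prod, sum_eq_single j (fun i _ hi => cnt_ne _ fun e => hi (hinj _ _ e).symm)
      (by simp), cnt_self]
  have c3 : ∀ v, (∀ j, v ≠ π j) → cnt v 𝔠 = 0 := fun v hv => by
    rw [h𝔠, cnt_prod]
    exact sum_eq_zero fun i _ => cnt_ne _ (hv i)
  have c4 : ∀ j, 𝔠 ≤ (π j).asIdeal := fun j => by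
    by_contra e
    simpa [c2 j] using (cnt_eq_zero (π j)).2 e
  obtain ⟨e, he, hP⟩ := hP L ℓ (6 ^ 4) 𝔠 hL hℓ (by norm_num) c1
  have m0 : Ideal.absNorm 𝔠 ≠ 0 := by rwa [Ne, Ideal.absNorm_eq_zero_iff]
  obtain ⟨u, u', w, q, q', hw, hu, hq, hcq, hcq', h1, h1', hs, hs'⟩ :=
    hP (Ideal.absNorm 𝔠 ^ (e + 1)) (Nat.one_le_iff_ne_zero.2 (pow_ne_zero _ m0))
  obtain ⟨u0, ou⟩ := od_span c0 hs
  obtain ⟨u0', ou'⟩ := od_span c0 hs'
  set m : ℕ := Ideal.absNorm 𝔠 ^ (e + 1) * w with hm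
  have m1 : (m : L) ≠ 0 := Nat.cast_ne_zero.2 (mul_ne_zero (pow_ne_zero _ m0) (by omega))
  have hu' : (u : L) = u' + (m : L) ^ ℓ := by
    have := congrArg (fun z : 𝓞 L => (z : L)) hu
    simpa using this
  have a1 : od q (u : L) = 1 := by rw [ou, (cnt_eq_zero q).2 hcq, cnt_self]; simp
  have a2 : od q' (u : L) = 0 := by rw [ou, (cnt_eq_zero q').2 hcq', cnt_ne q' hq.symm]; simp
  have a3 : od q (u' : L) = 0 := by rw [ou', (cnt_eq_zero q).2 hcq, cnt_ne q hq]; simp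
  have a4 : od q' (u' : L) = 1 := by rw [ou', (cnt_eq_zero q').2 hcq', cnt_self]; simp
  have a5 : ∀ j, od (π j) (u : L) = e := fun j => by
    rw [ou, c2, cnt_ne (π j) (w := q) fun e' => hcq (e' ▸ c4 j)]; simp
  have a6 : ∀ j, vl (π j) ((u' : L) / u - 1) < 1 := fun j => by
    have e1 : (u' : L) / u - 1 = -((m : L) ^ ℓ / u) := by field_simp; linear_combination -hu'
    have e2 : 0 < od (π j) (Ideal.absNorm 𝔠 : L) :=
      (od_pos_iff _ (Nat.cast_ne_zero.2 m0)).2 ((vl_nat_lt _).2 (c4 j (Ideal.absNorm_mem 𝔠)))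
    have e3 : 0 ≤ od (π j) (w : L) :=
      (od_nonneg_iff _ (Nat.cast_ne_zero.2 (by omega))).2 (vl_nat_le _ w)
    have e4 : (e + 1 : ℤ) ≤ od (π j) (m : L) := by
      rw [hm, Nat.cast_mul, Nat.cast_pow, od_mul _ (pow_ne_zero _ (Nat.cast_ne_zero.2 m0))
        (Nat.cast_ne_zero.2 (by omega)), od_pow]
      push_cast
      nlinarith
    rw [e1, Valuation.map_neg, ← od_pos_iff _ (div_ne_zero (pow_ne_zero _ m1) u0),
      od_div _ (pow_ne_zero _ m1) u0, od_pow, a5]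
    have : (1 : ℤ) ≤ ℓ := by exact_mod_cast hp.one_lt.le
    nlinarith
  refine ⟨u, u', m, u0, u0', m1, hu', fun i j ⟨z, hz⟩ => ?_, fun R => ?_⟩
  · have b1 := congrArg (od q) hz
    have b2 := congrArg (od q') hz
    rw [od_mul _ (pow_ne_zero _ u0) (pow_ne_zero _ u0'), od_pow, od_pow, od_pow] at b1 b2
    rw [a1, a3] at b1
    rw [a2, a4] at b2
    exact ⟨Int.natCast_dvd_natCast.1 ⟨od q z, by linarith⟩,
      Int.natCast_dvd_natCast.1 ⟨od q' z, by linarith⟩⟩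
  have α0 := al_ne u0 u0' R
  obtain ⟨i, hi⟩ := ex_add hp.ne_zero (od q (al ℓ R))
  obtain ⟨j, hj⟩ := ex_add hp.ne_zero (od q' (al ℓ R))
  refine ⟨i, j, ?_⟩
  set z := al ℓ R * (u : L) ^ i * (u' : L) ^ j with hz
  have z0 : z ≠ 0 := mul_ne_zero (mul_ne_zero α0 (pow_ne_zero _ u0)) (pow_ne_zero _ u0')
  have oz : ∀ v, od v z = od v (al ℓ R) + i * od v (u : L) + j * od v (u' : L) := fun v => by
    rw [hz, od_mul _ (mul_ne_zero α0 (pow_ne_zero _ u0)) (pow_ne_zero _ u0'),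
      od_mul _ α0 (pow_ne_zero _ u0), od_pow, od_pow]
  have b1 : ∀ v, (∀ k, v ≠ π k) → (ℓ : ℤ) ∣ od v z := fun v hv => by
    rw [oz]
    by_cases e1 : v = q
    · rw [e1, a1, a3]; simpa using hi
    by_cases e2 : v = q'
    · rw [e2, a2, a4]; simpa using hj
    have f1 : od v (u : L) = 0 := by rw [ou, c3 v hv, cnt_ne v e1]; simp
    have f2 : od v (u' : L) = 0 := by rw [ou', c3 v hv, cnt_ne v e2]; simp
    rw [f1, f2]
    simpa using (hV L ℓ ζ u u' v hζ u0 u0' R).1 f1 f2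
  have b2 : ∀ v, Dv 6 v → Wv ℓ v z := fun v hv =>
    hW L ℓ ζ u u' v hζ (near3 (by norm_num) h6 hv h1) (near3 (by norm_num) h6 hv h1') R i j
  have b3 : ∀ k, LP ℓ (π k) z := fun k => by
    have n1 : ¬ Dv ℓ (π k) := fun e => (hπ k).1 (e.of_dvd h6)
    obtain ⟨k₀, hk⟩ := (hV L ℓ ζ u u' (π k) hζ u0 u0' R).2 n1
      (by rw [a5]; exact fun e' => he (Int.natCast_dvd_natCast.1 e')) (a6 k)
    have f1 : LP ℓ (π k) (z / (u : L) ^ (k₀ + i + j)) := by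
      have := hk.mul ((LP.of_near_one n1 (a6 k)).pow hp.ne_zero j)
      convert this using 1
      rw [hz, div_pow, pow_add, pow_add]
      field_simp
    have f2 : (ℓ : ℤ) ∣ od (π k) z := by
      refine h.wr L ℓ 6 (y k) z (π k) hL hℓ (by norm_num) h6 (hy k).1 z0 (hπ k).1 (hy k).2.1
        (fun e => ((hπ k).2 k).1 e rfl) fun v hv => ?_
      by_cases e1 : Dv 6 v
      · exact Or.inl (hI L ℓ ζ _ _ v hζ ((hy k).2.2 v e1) (b2 v e1))
      by_cases e2 : ∀ k', v ≠ π k'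
      · exact Or.inr ⟨fun e => e1 (e.of_dvd h6), (hy k).2.1 v e1, b1 v e2⟩
      · obtain ⟨k', rfl⟩ : ∃ k', v = π k' := by simpa using e2
        exact Or.inl (LN.of_left h.hen hℓ z0 (((hπ k').2 k).2 fun e => hv (e ▸ rfl)))
    have f3 := f1.dvd
    rw [od_div _ z0 (pow_ne_zero _ u0), od_pow, a5] at f3
    have f4 : ℓ ∣ (k₀ + i + j) * e := by
      have := (Int.dvd_sub f2 f3)
      rw [sub_sub_cancel] at this
      exact_mod_cast this
    obtain ⟨c, hc⟩ := (hp.dvd_mul.1 f4).resolve_right he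
    have := f1.mul (LP.pow_self (π k) hp.ne_zero (pow_ne_zero c u0))
    rwa [← pow_mul, mul_comm c, ← hc, div_mul_cancel₀ _ (pow_ne_zero _ u0)] at this
  obtain ⟨c, z', hz'⟩ := hspan z ⟨z0, fun v hv => by
    by_cases e2 : ∀ k', v ≠ π k'
    · exact b1 v e2
    · obtain ⟨k', rfl⟩ : ∃ k', v = π k' := by simpa using e2
      exact (b3 k').dvd, b2⟩
  have p0 : ∀ s : Finset (Fin t), ∏ i ∈ s, y i ^ c i ≠ 0 := fun s =>
    prod_ne_zero_iff.2 fun i _ => pow_ne_zero _ (hy i).1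
  have z1 : z' ≠ 0 := fun e => mul_ne_zero z0 (p0 _) (by rw [hz', e, zero_pow hp.ne_zero])
  have b4 : ∀ k, ℓ ∣ c k := fun k => by
    by_contra e
    refine ((hπ k).2 k).1 (LP.of_pow hp e ?_) rfl
    have f1 := (LP.pow_self (π k) hp.ne_zero z1).div ((b3 k).mul (LP.prod hp.ne_zero (univ.erase k)
      fun i hi => (((hπ k).2 i).2 (ne_of_mem_erase hi)).pow hp.ne_zero (c i)))
    rwa [← hz', ← prod_erase_mul _ _ (mem_univ k), ← mul_assoc,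
      mul_div_cancel_left₀ _ (mul_ne_zero z0 (p0 _))] at f1
  choose d hd using b4
  refine ⟨z' / ∏ i, y i ^ d i, ?_⟩
  rw [div_pow, ← hz', ← prod_pow, eq_div_iff (prod_ne_zero_iff.2 fun i _ =>
    pow_ne_zero _ (pow_ne_zero _ (hy i).1))]
  congr 1
  exact prod_congr rfl fun i _ => by rw [hd, ← pow_mul, mul_comm]

end Pool.Agent.P.MP_e4219a_lc
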