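import Pool.Agent.P.MP_e4219a_lc.Bund

/-! The local parameters of the points close to the origin form a Diophantine set. -/

namespace Pool.Agent.P.MP_e4219a_lc

open scoped Classical

theorem p_td (hI : Z_Iota) (hB : Z_BFix) : Z_TD := by
  intro L _ _ ℓ ζ a₃ a₄ hω hC
  have hn := (hI L ℓ ζ a₃ a₄ hC).1
  have hl : ℓ ≠ 0 := hC.ze.el.prime.ne_zero
  have h2 : Dio fun z : Option (Option Unit) → L => z none ≠ 0 ∧
      z none ^ 2 + a₃ * z none = z (some none) ^ 3 + a₄ * z (some none) ∧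
      z (some (some ())) * z none = -z (some none) ∧ ∀ v : Pl L, Dv ℓ v →
        vl v 1 < vl v (z (some none)) ∧ vl v (z (some (some ()))) ≤ vl v ((ℓ : L) ^ 2) :=
    (Dio.ne (PolyF.var _) (PolyF.const 0)).and <| (Dio.eq
      (((PolyF.var _).pow 2).add ((PolyF.const _).mul (PolyF.var _)))
      (((PolyF.var _).pow 3).add ((PolyF.const _).mul (PolyF.var _)))).and <|
      (Dio.eq ((PolyF.var _).mul (PolyF.var _)) (PolyF.var _).neg).and <|
      Dio.all_finite (finite_dv L hl) fun v _ =>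
        (Dio.vl_lt (hB L v hω) (PolyF.const 1) (PolyF.var _)).and
          (Dio.vl_le (hB L v hω) (PolyF.var _) (PolyF.const _))
  have h1 : Dio fun z : Unit → L => ∃ x y : L, y ≠ 0 ∧ y ^ 2 + a₃ * y = x ^ 3 + a₄ * x ∧
      z () * y = -x ∧ ∀ v : Pl L, Dv ℓ v → vl v 1 < vl v x ∧ vl v (z ()) ≤ vl v ((ℓ : L) ^ 2) :=
    Dio.ex1 (U := fun (z : Unit → L) (x : L) => ∃ y : L, y ≠ 0 ∧
      y ^ 2 + a₃ * y = x ^ 3 + a₄ * x ∧ z () * y = -x ∧ ∀ v : Pl L, Dv ℓ v →
        vl v 1 < vl v x ∧ vl v (z ()) ≤ vl v ((ℓ : L) ^ 2))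
      (Dio.ex1 (U := fun (z : Option Unit → L) (y : L) => y ≠ 0 ∧
        y ^ 2 + a₃ * y = z none ^ 3 + a₄ * z none ∧ z (some ()) * y = -z none ∧
        ∀ v : Pl L, Dv ℓ v → vl v 1 < vl v (z none) ∧
          vl v (z (some ())) ≤ vl v ((ℓ : L) ^ 2)) h2)
  refine ((Dio.eq (PolyF.var ()) (PolyF.const 0)).or h1).congr fun z => ⟨?_, ?_⟩
  · rintro ⟨R, hR, ht⟩
    cases R with
    | zero => exact Or.inl ht.symm
    | some x y h =>
      have ht' : -x / y = z () := ht
      rcases eq_or_ne y 0 with rfl | hy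
      · exact Or.inl (by rw [← ht', div_zero])
      refine Or.inr ⟨x, y, hy, (hn x y).1 h, by rw [← ht', div_mul_cancel₀ _ hy], fun v hv => ?_⟩
      rw [map_one, map_pow, ← ht]
      exact hR v hv
  · rintro (h | ⟨x, y, hy, he, ht, hv⟩)
    · exact ⟨.zero, fun v _ => ⟨trivial, by simp [tt]⟩, h.symm⟩
    · have e : tt (.some x y ((hn x y).2 he) : Pt a₃ a₄) = z () := by
        change -x / y = z ()
        rw [← ht, mul_div_cancel_right₀ _ hy]
      refine ⟨.some x y ((hn x y).2 he), fun v h => ?_, e⟩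
      have h3 := hv v h
      rw [map_one, map_pow] at h3
      rw [e]
      exact h3

end Pool.Agent.P.MP_e4219a_lc
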