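import Pool.Agent.P.MP_e4219a_lc.Bund

/-! Local behaviour of the descent map away from the prime. -/

namespace Pool.Agent.P.MP_e4219a_lc

open NumberField IsDedekindDomain Polynomial Finset WithZero
open scoped Classical

namespace ValP

variable {L : Type} [Field L] [NumberField L] {v : Pl L} {ℓ : ℕ}

theorem ne_of_unit {w : L} (h : vl v w = 1) : w ≠ 0 := by
  rintro rfl
  simp at h

theorem dv_of {x r n : L} (hr : r ≠ 0) (hn : vl v n = 1) (e : x = r ^ ℓ * n) :
    (ℓ : ℤ) ∣ od v x := by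
  rw [e, od_mul v (pow_ne_zero _ hr) (ne_of_unit hn), od_pow, od_eq_zero_of_vl v hn, add_zero]
  exact dvd_mul_right _ _

theorem lp_of {x r n : L} (hv : ¬ Dv ℓ v) (hr : r ≠ 0) (hn : vl v (n - 1) < 1)
    (e : x = r ^ ℓ * n) : LP ℓ v x :=
  ⟨r, by rwa [e, mul_div_cancel_left₀ _ (pow_ne_zero _ hr), (vl_nat_eq v).2 hv, one_pow]⟩

theorem nr_add {n s : L} (hn : vl v (n - 1) < 1) (hs : vl v s < 1) : vl v (n + s - 1) < 1 := by
  rw [show n + s - 1 = (n - 1) + s by ring]
  exact Valuation.map_add_lt _ hn hs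

theorem nr_sub {n s : L} (hn : vl v (n - 1) < 1) (hs : vl v s < 1) : vl v (n - s - 1) < 1 := by
  rw [sub_eq_add_neg n]
  exact nr_add hn (by rwa [Valuation.map_neg])

theorem nr_one : vl v ((1 : L) - 1) < 1 := by simp

theorem unit_add {a s : L} (ha : vl v a = 1) (hs : vl v s < 1) : vl v (s + a) = 1 := by
  rw [← ha]
  exact Valuation.map_add_eq_of_lt_right _ (by rwa [ha])

theorem small_sq {s : L} (hs : vl v s < 1) : vl v (s ^ 2) < 1 := by
  rw [map_pow]
  exact pow_lt_one' hs two_ne_zero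

theorem small_div {a x : L} (ha : vl v a = 1) (hx : 1 < vl v x) : vl v (a / x) < 1 := by
  rw [map_div₀, ha, one_div]
  exact inv_lt_one_of_one_lt₀ hx

theorem big_sq {s : L} (hs : 1 < vl v s) : 1 < vl v (s ^ 2) := by
  rw [map_pow]
  exact one_lt_pow' hs two_ne_zero

theorem unit_inv {a : L} (ha : vl v a = 1) : vl v a⁻¹ = 1 := by rw [map_inv₀, ha, inv_one]

theorem two_a {x y a : L} (ha : vl v a = 1) (hx : x ≠ 0) (e : y ^ 2 = x ^ 3 - a * x) :
    ((2 : ℕ) : ℤ) ∣ od v x := by
  rcases lt_trichotomy (vl v x) 1 with h | h | h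
  · have hw : vl v (x ^ 2 + -a) = 1 := unit_add (by rwa [Valuation.map_neg]) (small_sq h)
    have hw0 := ne_of_unit hw
    have e1 : y ^ 2 = x * (x ^ 2 + -a) := by rw [e]; ring
    have hy : y ≠ 0 := by
      rintro rfl
      exact mul_ne_zero hx hw0 (by rw [← e1]; ring)
    exact dv_of hy (unit_inv hw) (by rw [e1, mul_inv_cancel_right₀ hw0])
  · rw [od_eq_zero_of_vl v h]
    exact dvd_zero _
  · have hw : vl v (1 - a / x ^ 2) = 1 := vl_of_near v (nr_sub nr_one (small_div ha (big_sq h)))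
    have hw0 := ne_of_unit hw
    have e1 : (y / x) ^ 2 = x * (1 - a / x ^ 2) := by
      rw [div_pow, e]
      field_simp
    have hy : y / x ≠ 0 := fun h0 => mul_ne_zero hx hw0 (by rw [← e1, h0]; ring)
    exact dv_of hy (unit_inv hw) (by rw [e1, mul_inv_cancel_right₀ hw0])

theorem three_a {x y a : L} (ha : vl v a = 1) (hy : y ≠ 0) (e : y ^ 2 + a * y = x ^ 3) :
    ((3 : ℕ) : ℤ) ∣ od v y := by
  rcases lt_trichotomy (vl v y) 1 with h | h | h
  · have hw : vl v (y + a) = 1 := unit_add ha h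
    have hw0 := ne_of_unit hw
    have e1 : x ^ 3 = y * (y + a) := by rw [← e]; ring
    have hx : x ≠ 0 := by
      rintro rfl
      exact mul_ne_zero hy hw0 (by rw [← e1]; ring)
    exact dv_of hx (unit_inv hw) (by rw [e1, mul_inv_cancel_right₀ hw0])
  · rw [od_eq_zero_of_vl v h]
    exact dvd_zero _
  · have hw : vl v (1 + a / y) = 1 := vl_of_near v (nr_add nr_one (small_div ha h))
    have hw0 := ne_of_unit hw
    have e1 : x ^ 3 = y ^ 2 * (1 + a / y) := by
      rw [← e]
      field_simp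
    have hx : x ≠ 0 := by
      rintro rfl
      exact mul_ne_zero (pow_ne_zero 2 hy) hw0 (by rw [← e1]; ring)
    refine dv_of (div_ne_zero hy hx) hw ?_
    rw [div_pow, e1]
    generalize 1 + a / y = w at hw0
    field_simp

/-- an element whose square is close to one is a local square -/
theorem lp_sq {ζ X : L} (hv : ¬ Dv 2 v) (hζ : ζ ^ 2 + 1 = 0) (h : vl v (X ^ 2 - 1) < 1) :
    LP 2 v X := by
  by_cases h1 : vl v (X - 1) < 1
  · exact LP.of_near_one hv h1
  · have h2 : vl v (-X - 1) < 1 := by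
      by_contra h2
      rw [show X ^ 2 - 1 = -((X - 1) * (-X - 1)) by ring, Valuation.map_neg, map_mul] at h
      exact absurd h (not_lt.2 (one_le_mul (not_lt.1 h1) (not_lt.1 h2)))
    have h0 : ζ ≠ 0 := by
      rintro rfl
      simp at hζ
    exact lp_of hv h0 h2 (by linear_combination X * hζ)

theorem two_b {ζ u ε X y : L} (hv : ¬ Dv 2 v) (hζ : ζ ^ 2 + 1 = 0) (hu : u ≠ 0)
    (hd : ¬ ((2 : ℕ) : ℤ) ∣ od v u) (hε : vl v (ε - 1) < 1) (hX : X ≠ 0)
    (e : y ^ 2 = u ^ 3 * (X * (X ^ 2 - ε))) : ∃ j : ℕ, LP 2 v (u * X / u ^ j) := by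
  have hζ0 : ζ ≠ 0 := by
    rintro rfl
    simp at hζ
  have hε1 := vl_of_near v hε
  rcases lt_trichotomy (vl v X) 1 with h | h | h
  · have hw := nr_sub hε (small_sq h)
    have hw0 := ne_of_unit (vl_of_near v hw)
    have e1 : (ζ * y / u) ^ 2 = u * X * (ε - X ^ 2) := by
      rw [div_pow, mul_pow, e, show ζ ^ 2 = -1 by linear_combination hζ]
      field_simp
      ring
    have hy : ζ * y / u ≠ 0 := fun h0 =>
      mul_ne_zero (mul_ne_zero hu hX) hw0 (by rw [← e1, h0]; ring)
    exact ⟨0, lp_of hv hy (near_inv v le_rfl hw)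
      (by rw [e1, mul_inv_cancel_right₀ hw0, pow_zero, div_one])⟩
  · refine ⟨1, ?_⟩
    rw [pow_one, mul_div_cancel_left₀ _ hu]
    refine lp_sq hv hζ ?_
    have h1 : vl v (X ^ 2 - ε) ≤ 1 :=
      Valuation.map_sub_le _ (by rw [map_pow, h, one_pow]) hε1.le
    rcases h1.lt_or_eq with h1 | h1
    · rw [show X ^ 2 - 1 = ε + (X ^ 2 - ε) - 1 by ring]
      exact nr_add hε h1
    · have h2 : vl v (X * (X ^ 2 - ε)) = 1 := by rw [map_mul, h, h1, one_mul]
      have h3 := ne_of_unit h2
      have e1 : (y / u) ^ 2 = u * (X * (X ^ 2 - ε)) := by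
        rw [div_pow, e]
        field_simp
      have hy : y / u ≠ 0 := fun h0 => mul_ne_zero hu h3 (by rw [← e1, h0]; ring)
      exact absurd (dv_of hy (unit_inv h2) (by rw [e1, mul_inv_cancel_right₀ h3])) hd
  · have hw := nr_sub nr_one (small_div hε1 (big_sq h))
    have hw0 := ne_of_unit (vl_of_near v hw)
    have e1 : (y / (u * X)) ^ 2 = u * X * (1 - ε / X ^ 2) := by
      rw [div_pow, e]
      field_simp
    have hy : y / (u * X) ≠ 0 := fun h0 =>
      mul_ne_zero (mul_ne_zero hu hX) hw0 (by rw [← e1, h0]; ring)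
    exact ⟨0, lp_of hv hy (near_inv v le_rfl hw)
      (by rw [e1, mul_inv_cancel_right₀ hw0, pow_zero, div_one])⟩

theorem three_b {u ε Y x : L} (hv : ¬ Dv 3 v) (hu : u ≠ 0)
    (hd : ¬ ((3 : ℕ) : ℤ) ∣ od v u) (hε : vl v (ε - 1) < 1) (hY : Y ≠ 0)
    (e : x ^ 3 = u ^ 4 * (ε ^ 2 * (Y * (Y + 1)))) : ∃ j : ℕ, LP 3 v (u ^ 2 * ε * Y / u ^ j) := by
  have hε1 := vl_of_near v hε
  have hε0 := ne_of_unit hε1
  rcases lt_trichotomy (vl v Y) 1 with h | h | h
  · have hw := near_mul v le_rfl hε (nr_add nr_one h)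
    have hw0 := ne_of_unit (vl_of_near v hw)
    have e1 : (x / u) ^ 3 = u ^ 2 * ε * Y / u ^ 1 * (ε * (1 + Y)) := by
      rw [div_pow, e]
      field_simp
      ring
    have hx : x / u ≠ 0 := fun h0 =>
      mul_ne_zero (div_ne_zero (mul_ne_zero (mul_ne_zero (pow_ne_zero 2 hu) hε0) hY)
        (pow_ne_zero 1 hu)) hw0 (by rw [← e1, h0]; ring)
    exact ⟨1, lp_of hv hx (near_inv v le_rfl hw) (by rw [e1, mul_inv_cancel_right₀ hw0])⟩
  · have h1 : vl v (Y + 1) ≤ 1 := Valuation.map_add_le _ h.le (by simp)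
    rcases h1.lt_or_eq with h1 | h1
    · have h2 : vl v (-Y - 1) < 1 := by
        rwa [show -Y - 1 = -(Y + 1) by ring, Valuation.map_neg]
      refine ⟨2, lp_of (r := -1) hv (by simp) (near_mul v le_rfl hε h2) ?_⟩
      field_simp
    · have h2 : vl v (ε ^ 2 * (Y * (Y + 1))) = 1 := by
        rw [map_mul, map_mul, map_pow, h, h1, hε1]
        simp
      have h3 := ne_of_unit h2
      have e1 : (x / u) ^ 3 = u * (ε ^ 2 * (Y * (Y + 1))) := by
        rw [div_pow, e]
        field_simp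
      have hx : x / u ≠ 0 := fun h0 => mul_ne_zero hu h3 (by rw [← e1, h0]; ring)
      exact absurd (dv_of hx (unit_inv h2) (by rw [e1, mul_inv_cancel_right₀ h3])) hd
  · have hw := nr_add nr_one (small_div (map_one (vl v)) h)
    have hw0 := ne_of_unit (vl_of_near v hw)
    have hy : u ^ 2 * ε * Y ≠ 0 := mul_ne_zero (mul_ne_zero (pow_ne_zero 2 hu) hε0) hY
    have e1 : x ^ 3 = (u ^ 2 * ε * Y) ^ 2 * (1 + 1 / Y) := by
      rw [e]
      field_simp
    have hx : x ≠ 0 := by
      rintro rfl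
      exact mul_ne_zero (pow_ne_zero 2 hy) hw0 (by rw [← e1]; ring)
    refine ⟨0, lp_of hv (div_ne_zero hy hx) hw ?_⟩
    rw [div_pow, e1, pow_zero, div_one]
    generalize u ^ 2 * ε * Y = z at hy
    generalize 1 + 1 / Y = w at hw0
    field_simp

end ValP

open ValP in
theorem p_val (_h : T1) (_hI : Z_Iota) : Z_Val := by
  intro L _ _ ℓ ζ u u' v hζ hu hu' R
  have hℓ := hζ.el.prime.ne_zero
  have hun : od v u = 0 → od v u' = 0 → vl v (u * u') = 1 := fun h h' => by
    rw [map_mul, (od_eq_zero_iff v hu).1 h, (od_eq_zero_iff v hu').1 h', one_mul]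
  cases R with
  | zero =>
    refine ⟨fun _ _ => ?_, fun _ _ _ => ⟨0, ?_⟩⟩
    · simp [al, od_one]
    · simpa [al] using LP.one v hℓ
  | some x y hn =>
    have e := ((Wc (A3 ℓ u u') (A4 ℓ u u')).equation_iff x y).1 hn.1
    rcases hζ with ⟨rfl, hζ⟩ | ⟨rfl, hζ⟩
    · have hζ0 : ζ ≠ 0 := by
        rintro rfl
        simp at hζ
      simp only [Wc, A3, A4, if_true] at e
      simp only [al, A4, if_true]
      by_cases hx : x = 0
      · simp only [hx, if_true]
        refine ⟨fun h h' => ?_, fun hv _ hε => ⟨0, lp_of hv (mul_ne_zero hζ0 hu) hε ?_⟩⟩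
        · rw [od_neg, od_eq_zero_of_vl v (hun h h')]
          exact dvd_zero _
        · rw [mul_pow, show ζ ^ 2 = -1 by linear_combination hζ]
          field_simp
      · simp only [hx, if_false]
        refine ⟨fun h h' => two_a (y := y) (hun h h') hx (by linear_combination e),
          fun hv hd hε => ?_⟩
        have := two_b (X := x / u) (y := y) hv hζ hu hd hε (div_ne_zero hx hu) (by
          field_simp
          linear_combination e)
        rwa [mul_div_cancel₀ _ hu] at this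
    · have h32 : ¬ (3 : ℕ) = 2 := by norm_num
      simp only [Wc, A3, A4, if_neg h32] at e
      simp only [al, A3, if_neg h32]
      by_cases hy : y = 0
      · simp only [hy, if_true]
        refine ⟨fun h h' => ?_, fun hv _ hε => ⟨1, lp_of hv hu (near_mul v le_rfl hε hε) ?_⟩⟩
        · rw [od_pow, od_eq_zero_of_vl v (hun h h'), mul_zero]
          exact dvd_zero _
        · field_simp
      · simp only [hy, if_false]
        refine ⟨fun h h' => three_a (x := x) (hun h h') hy (by linear_combination e),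
          fun hv hd hε => ?_⟩
        have := three_b (Y := y / (u * u')) (x := x) hv hu hd hε
          (div_ne_zero hy (mul_ne_zero hu hu')) (by
            field_simp
            linear_combination -e)
        rwa [show u ^ 2 * (u' / u) * (y / (u * u')) = y by field_simp] at this

end Pool.Agent.P.MP_e4219a_lc
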