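import Pool.Agent.P.MP_e4219a_lc.Bund

/-! The descent map at a place where the curve is close to the base curve. -/

namespace Pool.Agent.P.MP_e4219a_lc

open NumberField IsDedekindDomain

namespace ValWP

theorem root (hH : Z_Hen) {L : Type} [Field L] [NumberField L] {ℓ : ℕ} (hℓ : El ℓ) (v : Pl L)
    {u : L} (hu : vl v (u - 1) < vl v ℓ ^ 3) :
    ∃ a : v.adicCompletion L, a ≠ 0 ∧ algebraMap L _ u = (a ^ ℓ) ^ ℓ := by
  have h := (hH L ℓ v hℓ).1
  have e : ∀ x : L, Valued.v (algebraMap L (v.adicCompletion L) x) = vl v x := fun x =>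
    HeightOneSpectrum.valuedAdicCompletion_eq_valuation' v x
  have l1 : vl v ℓ ≤ 1 := vl_nat_le v ℓ
  have l0 : 0 < vl v ℓ := vl_pos v (Nat.cast_ne_zero.2 hℓ.prime.ne_zero)
  have el : Valued.v (ℓ : v.adicCompletion L) = vl v ℓ := by
    rw [← e, map_natCast (algebraMap L (v.adicCompletion L))]
  have eu : Valued.v (algebraMap L (v.adicCompletion L) u - 1) = vl v (u - 1) := by
    rw [← e, map_sub (algebraMap L (v.adicCompletion L)),
      map_one (algebraMap L (v.adicCompletion L))]
  rw [el] at h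
  have u0 : u ≠ 0 := by
    rintro rfl
    rw [zero_sub, Valuation.map_neg, map_one] at hu
    exact hu.not_ge (pow_le_one₀ l0.le l1)
  obtain ⟨r, hr, hr'⟩ := h (algebraMap L _ u)
    (eu ▸ hu.trans_le (pow_le_pow_of_le_one l0.le l1 (by norm_num)))
  rw [eu] at hr'
  obtain ⟨a, ha, -⟩ := h r
    (lt_of_mul_lt_mul_right (by rw [← pow_succ]; exact hr'.trans_lt hu) l0.le)
  refine ⟨a, fun z => u0 ?_, by rw [ha, hr]⟩
  have p := hℓ.prime.ne_zero
  rw [z, zero_pow p] at ha
  rw [← ha, zero_pow p] at hr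
  exact (map_eq_zero _).1 hr.symm

end ValWP

theorem p_valw (h : T1) (hI : Z_Iota) : Z_ValW := by
  have _ := hI
  intro L _ _ ℓ ζ u u' v hζ hu hu' R i j
  obtain ⟨a, a0, ha⟩ := ValWP.root h.hen hζ.el v hu
  obtain ⟨b, b0, hb⟩ := ValWP.root h.hen hζ.el v hu'
  have z0 := (hζ.map (algebraMap L (v.adicCompletion L))).ne_zero
  rcases R with _ | ⟨x, y, hxy⟩
  · refine ⟨0, 0, (a ^ ℓ) ^ i * (b ^ ℓ) ^ j, by positivity, .inl ?_⟩
    simp only [al, map_mul, map_pow, map_one, ha, hb]
    ring
  have hE := congrArg (algebraMap L (v.adicCompletion L))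
    ((WeierstrassCurve.Affine.equation_iff _ _).1 hxy.1)
  rcases hζ with ⟨rfl, hζ⟩ | ⟨rfl, hζ⟩
  · have hz := congrArg (algebraMap L (v.adicCompletion L)) hζ
    simp only [Wc, A3, A4, if_true, map_add, map_mul, map_pow, map_zero, map_neg, map_one, ha,
      hb] at hE hz
    by_cases hx : x = 0
    · refine ⟨0, 0, algebraMap L _ ζ * (a * b) ^ 2 * ((a ^ 2) ^ i * (b ^ 2) ^ j), by positivity,
        .inl ?_⟩
      simp only [al, hx, A4, if_true, map_mul, map_pow, map_neg, ha, hb]
      linear_combination -(a * b) ^ 4 * ((a ^ 2) ^ i * (b ^ 2) ^ j) ^ 2 * hz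
    · have x0 := (map_ne_zero (algebraMap L (v.adicCompletion L))).2 hx
      refine ⟨algebraMap L _ x / (a * b) ^ 2, algebraMap L _ y / (a * b) ^ 3,
        a * b * ((a ^ 2) ^ i * (b ^ 2) ^ j), by positivity, .inr (.inl ⟨rfl, ?_, by positivity, ?_⟩)⟩
      · field_simp
        linear_combination hE
      · simp only [al, hx, if_true, if_false, map_mul, map_pow, ha, hb]
        field_simp
        ring
  · have n : ¬ (3 = 2) := by norm_num
    simp only [Wc, A3, A4, n, if_false, map_add, map_mul, map_pow, map_zero, ha, hb] at hE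
    by_cases hy : y = 0
    · refine ⟨0, 0, (a * b) ^ 6 * ((a ^ 3) ^ i * (b ^ 3) ^ j), by positivity, .inl ?_⟩
      simp only [al, hy, A3, n, if_true, if_false, map_mul, map_pow, ha, hb]
      ring
    · have y0 := (map_ne_zero (algebraMap L (v.adicCompletion L))).2 hy
      refine ⟨algebraMap L _ x / (a * b) ^ 6, algebraMap L _ y / (a * b) ^ 9,
        (a * b) ^ 3 * ((a ^ 3) ^ i * (b ^ 3) ^ j), by positivity,
        .inr (.inr ⟨rfl, ?_, by positivity, ?_⟩)⟩
      · field_simp
        linear_combination hE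
      · simp only [al, hy, n, if_false, map_mul, map_pow, ha, hb]
        field_simp
        ring

end Pool.Agent.P.MP_e4219a_lc
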