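import Pool.Agent.P.MP_e4219a_lc.Bund
import Pool.Agent.P.MP_a14ce1_nt.Nil.Vin2

/-! Many small multiples of a point of the circle. -/

namespace Pool.Agent.P.MP_e4219a_lc

open Finset

theorem VinP.norm_smul (h : ℕ) (x : ℝ) :
    ‖h • (x : UnitAddCircle)‖ = |(h : ℝ) * x - round ((h : ℝ) * x)| := by
  rw [← AddCircle.coe_nsmul, UnitAddCircle.norm_eq, nsmul_eq_mul]

theorem p_vin : Z_Vin := by
  obtain ⟨C, hC⟩ := Pool.Agent.P.MP_a14ce1_nt.Nil.vin_top 0
  refine ⟨C + 1, by omega, fun Y σ ε γ h0 h1 hε h2 h3 h4 => ?_⟩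
  induction γ using QuotientAddGroup.induction_on with
  | H x =>
  have hA : 2 ≤ σ⁻¹ := by
    rw [le_inv_comm₀ (by norm_num) h0]
    linarith
  have hp : 0 < σ ^ C := pow_pos h0 C
  have hle : σ ^ (C + 1) ≤ σ ^ C := by
    rw [pow_succ]
    nlinarith
  have hY : (0 : ℝ) ≤ Y := Nat.cast_nonneg Y
  have hmul : σ⁻¹ ^ C * σ ^ C = 1 := by
    rw [← mul_pow, inv_mul_cancel₀ h0.ne', one_pow]
  have hip : 0 < σ⁻¹ ^ C := pow_pos (inv_pos.2 h0) C
  set S := (Icc 1 Y).filter fun h : ℕ => ‖h • (x : UnitAddCircle)‖ ≤ ε with hS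
  obtain ⟨q, q0, q1, a, q2⟩ := hC σ⁻¹ ε Y (S.image fun h : ℕ => (h : ℤ))
    (Polynomial.C x * Polynomial.X) ((Polynomial.natDegree_C_mul_le x _).trans Polynomial.natDegree_X_le) hA
    (by
      have : 1 ≤ σ ^ C * Y := h3.trans (mul_le_mul_of_nonneg_right hle hY)
      calc σ⁻¹ ^ C = σ⁻¹ ^ C * 1 := (mul_one _).symm
        _ ≤ σ⁻¹ ^ C * (σ ^ C * Y) := mul_le_mul_of_nonneg_left this hip.le
        _ = Y := by rw [← mul_assoc, hmul, one_mul])
    (by
      calc ε * σ⁻¹ ^ C ≤ σ ^ C * σ⁻¹ ^ C := mul_le_mul_of_nonneg_right (h2.trans hle) hip.le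
        _ = 1 := by rw [mul_comm, hmul])
    (by
      intro k hk
      obtain ⟨h, hh, rfl⟩ := mem_image.1 hk
      have := (mem_Icc.1 (mem_filter.1 hh).1).2
      rw [Int.cast_natCast, abs_of_nonneg (Nat.cast_nonneg h)]
      exact_mod_cast this)
    (by
      rw [card_image_of_injective _ Nat.cast_injective, le_inv_mul_iff₀ h0]
      exact h4)
    (by
      intro k hk
      obtain ⟨h, hh, rfl⟩ := mem_image.1 hk
      refine ⟨round ((h : ℝ) * x), ?_⟩
      have := (mem_filter.1 hh).2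
      rw [VinP.norm_smul] at this
      rwa [Polynomial.eval_mul, Polynomial.eval_C, Polynomial.eval_X, Int.cast_natCast,
        mul_comm x])
  refine ⟨q, q0, ?_, ?_⟩
  · calc (q : ℝ) * σ ^ (C + 1) ≤ σ⁻¹ ^ C * σ ^ C :=
          mul_le_mul q1 hle (pow_pos h0 _).le hip.le
      _ = 1 := hmul
  · rw [zero_add, pow_one, Polynomial.coeff_C_mul, Polynomial.coeff_X_one, mul_one] at q2
    have h5 : ‖q • (x : UnitAddCircle)‖ ≤ |(q : ℝ) * x - a| := by
      rw [VinP.norm_smul]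
      exact round_le _ a
    calc ‖q • (x : UnitAddCircle)‖ * (σ ^ (C + 1) * Y) ≤ |(q : ℝ) * x - a| * (σ ^ C * Y) :=
          mul_le_mul h5 (mul_le_mul_of_nonneg_right hle hY) (by positivity) (abs_nonneg _)
      _ = σ ^ C * (|(q : ℝ) * x - a| * Y) := by ring
      _ ≤ σ ^ C * (σ⁻¹ ^ C * ε) := mul_le_mul_of_nonneg_left q2 hp.le
      _ = ε := by rw [← mul_assoc, mul_comm (σ ^ C), hmul, one_mul]

end Pool.Agent.P.MP_e4219a_lc
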