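import Pool.Agent.P.MP_e4219a_lc.Bund

/-! Large Weyl sums of degree two and three. -/

namespace Pool.Agent.P.MP_e4219a_lc

open Finset
open scoped Classical

namespace WP

theorem refl_sum (G : ℕ → ℂ) (Y : ℕ) : ∑ h ∈ Icc 1 Y, G (Y + 1 - h) = ∑ w ∈ Icc 1 Y, G w := by
  refine sum_nbij' (fun h => Y + 1 - h) (fun h => Y + 1 - h) ?_ ?_ ?_ ?_ fun _ _ => rfl
  all_goals
    intro a ha
    simp only [mem_Icc] at ha ⊢
    omega

/-- the differencing identity -/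
theorem sq_eq (f : ℕ → ℂ) (hf : ∀ w, ‖f w‖ = 1) (Y : ℕ) :
    ‖∑ w ∈ Icc 1 Y, f w‖ ^ 2 = Y + 2 *
      (∑ h ∈ Icc 1 Y, ∑ w ∈ Icc 1 (Y - h), f (w + h) * (starRingEnd ℂ) (f w)).re := by
  induction Y with
  | zero => simp
  | succ Y ih =>
    have e1 : ∑ h ∈ Icc 1 (Y + 1), ∑ w ∈ Icc 1 (Y + 1 - h), f (w + h) * (starRingEnd ℂ) (f w) =
        ∑ h ∈ Icc 1 Y, ∑ w ∈ Icc 1 (Y - h), f (w + h) * (starRingEnd ℂ) (f w) +
          f (Y + 1) * (starRingEnd ℂ) (∑ w ∈ Icc 1 Y, f w) := by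
      rw [sum_Icc_succ_top (by omega), Nat.sub_self,
        show Icc 1 0 = (∅ : Finset ℕ) from rfl, sum_empty, add_zero,
        map_sum, ← refl_sum (fun w => (starRingEnd ℂ) (f w)), mul_sum, ← sum_add_distrib]
      refine sum_congr rfl fun h hh => ?_
      rw [mem_Icc] at hh
      rw [show Y + 1 - h = Y - h + 1 by omega, sum_Icc_succ_top (by omega),
        show Y - h + 1 + h = Y + 1 by omega]
    rw [e1, sum_Icc_succ_top (by omega), Complex.add_re, mul_add, ← add_assoc]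
    have e2 := hf (Y + 1)
    generalize ∑ w ∈ Icc 1 Y, f w = S at ih ⊢
    generalize f (Y + 1) = z at e2 ⊢
    have e3 : z.re ^ 2 + z.im ^ 2 = 1 := by
      have := Complex.sq_norm z
      rw [e2, Complex.normSq_apply] at this
      linarith
    rw [Complex.sq_norm, Complex.normSq_apply] at ih ⊢
    simp only [Complex.add_re, Complex.add_im, Complex.mul_re, Complex.conj_re, Complex.conj_im]
    push_cast
    linarith

theorem four_smul (n k : ℕ) (γ : UnitAddCircle) :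
    fourier (n : ℤ) (k • γ) = fourier ((n * k : ℕ) : ℤ) γ := by
  simp only [fourier_apply]
  rw [← natCast_zsmul, smul_smul, Nat.cast_mul]

theorem norm_four (n : ℤ) (γ : UnitAddCircle) : ‖fourier n γ‖ = 1 := by
  rw [fourier_apply]
  exact Circle.norm_coe _

/-- the differenced sum -/
noncomputable def TT (γ : UnitAddCircle) (Y h : ℕ) : ℂ :=
  ∑ w ∈ Icc 1 (Y - h), fourier ((w ^ 2 : ℕ) : ℤ) ((3 * h) • γ) * fourier (w : ℤ) ((3 * h ^ 2) • γ)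

theorem cube_le (γ : UnitAddCircle) (Y : ℕ) :
    ‖∑ w ∈ Icc 1 Y, fourier ((w ^ 3 : ℕ) : ℤ) γ‖ ^ 2 ≤ Y + 2 * ∑ h ∈ Icc 1 Y, ‖TT γ Y h‖ := by
  rw [sq_eq (fun w => fourier ((w ^ 3 : ℕ) : ℤ) γ) (fun w => norm_four _ _)]
  gcongr
  refine (Complex.re_le_norm _).trans ((norm_sum_le _ _).trans (le_of_eq ?_))
  refine sum_congr rfl fun h _ => ?_
  have e : ∑ w ∈ Icc 1 (Y - h), fourier (((w + h) ^ 3 : ℕ) : ℤ) γ *
      (starRingEnd ℂ) (fourier ((w ^ 3 : ℕ) : ℤ) γ) = fourier ((h ^ 3 : ℕ) : ℤ) γ * TT γ Y h := by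
    rw [TT, mul_sum]
    refine sum_congr rfl fun w _ => ?_
    rw [four_smul, four_smul, ← fourier_neg, ← fourier_add, ← fourier_add, ← fourier_add]
    congr 2
    push_cast
    ring
  rw [e, norm_mul, norm_four, one_mul]

theorem TT_le (γ : UnitAddCircle) (Y h : ℕ) : ‖TT γ Y h‖ ≤ Y := by
  refine (norm_sum_le _ _).trans ?_
  simp only [norm_mul, norm_four, mul_one, sum_const, Nat.card_Icc, nsmul_eq_mul]
  exact_mod_cast (by omega : Y - h + 1 - 1 ≤ Y)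

/-- many differenced sums are large -/
theorem many (γ : UnitAddCircle) (Y : ℕ) (η : ℝ) (h0 : 0 < η) (h1 : η ≤ 1 / 2)
    (hY : 2 ≤ η ^ 2 * Y) (hS : η * Y ≤ ‖∑ w ∈ Icc 1 Y, fourier ((w ^ 3 : ℕ) : ℤ) γ‖) :
    η ^ 5 * Y ≤ ((Icc 1 Y).filter fun h => η ^ 5 * Y ≤ ‖TT γ Y h‖).card := by
  have hY0 : (0 : ℝ) < Y := by
    by_contra h
    have : (Y : ℝ) = 0 := le_antisymm (not_lt.1 h) (Nat.cast_nonneg _)
    rw [this] at hY
    norm_num at hY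
  have e1 : (η * Y) ^ 2 ≤ Y + 2 * ∑ h ∈ Icc 1 Y, ‖TT γ Y h‖ :=
    (pow_le_pow_left₀ (by positivity) hS 2).trans (cube_le γ Y)
  set H := (Icc 1 Y).filter fun h => η ^ 5 * Y ≤ ‖TT γ Y h‖
  have e2 : ∑ h ∈ Icc 1 Y, ‖TT γ Y h‖ ≤ H.card * Y + Y * (η ^ 5 * Y) := by
    rw [← sum_filter_add_sum_filter_not (Icc 1 Y) fun h => η ^ 5 * Y ≤ ‖TT γ Y h‖]
    refine add_le_add ?_ ?_
    · refine (sum_le_card_nsmul _ _ _ fun h _ => TT_le γ Y h).trans_eq ?_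
      rw [nsmul_eq_mul]
    · refine (sum_le_card_nsmul _ _ (η ^ 5 * Y) fun h hh => (not_le.1 (mem_filter.1 hh).2).le).trans ?_
      rw [nsmul_eq_mul]
      gcongr
      exact_mod_cast (card_filter_le _ _).trans (by simp)
  have e3 : η ^ 3 ≤ 1 / 8 := (pow_le_pow_left₀ h0.le h1 3).trans_eq (by norm_num)
  have e4 : η ^ 5 * Y ≤ η ^ 2 * Y / 8 := by
    calc η ^ 5 * Y = η ^ 3 * (η ^ 2 * Y) := by ring
      _ ≤ 1 / 8 * (η ^ 2 * Y) := by gcongr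
      _ = _ := by ring
  have e5 : η ^ 2 * Y * Y ≤ (1 + 2 * H.card + 2 * (η ^ 5 * Y)) * Y := by nlinarith
  have e6 := le_of_mul_le_mul_right e5 hY0
  linarith

end WP

open WP in
theorem p_w (hV : Z_Vin) (h2 : Z_W2) : Z_W := by
  obtain ⟨CV, hCV, hV⟩ := hV
  obtain ⟨C2, hC2, h2⟩ := h2
  rintro ℓ (rfl | rfl)
  · refine ⟨C2, hC2, fun Y η γ h0 h1 hY hS => h2 Y Y η γ 0 h0 h1 le_rfl hY ?_⟩
    simpa using hS
  refine ⟨5 * (C2 + (C2 + 1) * CV) + 2, by omega, fun Y η γ h0 h1 hY hS => ?_⟩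
  have hη1 : η ≤ 1 := by linarith
  have hY0 : (0 : ℝ) ≤ Y := Nat.cast_nonneg _
  have hle : ∀ k, k ≤ 5 * (C2 + (C2 + 1) * CV) + 2 → 1 ≤ η ^ k * Y := fun k hk =>
    hY.trans (mul_le_mul_of_nonneg_right (pow_le_pow_of_le_one h0.le hη1 hk) hY0)
  have hY1 : (1 : ℝ) ≤ Y := by simpa using hle 0 (by omega)
  have hY2 : 2 ≤ η ^ 2 * Y := by
    have := hle 3 (by omega)
    have e : η ^ 3 * Y ≤ 1 / 2 * (η ^ 2 * Y) := by
      calc η ^ 3 * Y = η * (η ^ 2 * Y) := by ring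
        _ ≤ _ := by gcongr
    linarith
  have hH := many γ Y η h0 h1 hY2 hS
  set H := (Icc 1 Y).filter fun h => η ^ 5 * Y ≤ ‖TT γ Y h‖
  set θ := η ^ 5 with hθ
  have hθ0 : 0 < θ := by positivity
  have hθ1 : θ ≤ 1 / 2 := (pow_le_of_le_one h0.le hη1 (by norm_num)).trans h1
  have hθle : ∀ k, k ≤ C2 + (C2 + 1) * CV → 1 ≤ θ ^ k * Y := fun k hk => by
    rw [hθ, ← pow_mul]
    exact hle _ (by omega)
  have hq : ∀ h ∈ H, ∃ q : ℕ, 1 ≤ q ∧ q * θ ^ C2 ≤ 1 ∧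
      ‖q • ((3 * h) • γ)‖ * (θ ^ C2 * (Y : ℝ) ^ 2) ≤ 1 := fun h hh =>
    h2 Y (Y - h) θ _ _ hθ0 hθ1 (by omega) (hθle _ (by omega)) (mem_filter.1 hh).2
  choose! qf hqf using hq
  have hP : 0 < θ ^ C2 := by positivity
  have hP1 : θ ^ C2 ≤ 1 := pow_le_one₀ hθ0.le (by linarith)
  set Q := ⌊1 / θ ^ C2⌋₊
  have hQ : (Q : ℝ) * θ ^ C2 ≤ 1 := by
    rw [← le_div_iff₀ hP]
    exact Nat.floor_le (by positivity)
  have hQ1 : 1 ≤ Q := Nat.le_floor (by rw [le_div_iff₀ hP]; simpa using hP1)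
  obtain ⟨q, hqQ, hq⟩ : ∃ q ∈ Icc 1 Q, θ ^ (C2 + 1) * Y ≤ (H.filter fun h => qf h = q).card := by
    by_contra hc
    push Not at hc
    have e1 : (H.card : ℝ) = ∑ q ∈ Icc 1 Q, ((H.filter fun h => qf h = q).card : ℝ) := by
      rw [card_eq_sum_card_fiberwise (f := qf) (t := Icc 1 Q)]
      · push_cast
        rfl
      · intro h hh
        have := hqf h hh
        exact mem_coe.2 (mem_Icc.2 ⟨this.1, Nat.le_floor (by rw [le_div_iff₀ hP]; exact this.2.1)⟩)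
    have e2 := sum_lt_sum_of_nonempty (s := Icc 1 Q) ⟨1, mem_Icc.2 ⟨le_rfl, hQ1⟩⟩ hc
    rw [← e1, sum_const, Nat.card_Icc, nsmul_eq_mul, Nat.add_sub_cancel] at e2
    have e3 : (Q : ℝ) * (θ ^ (C2 + 1) * Y) ≤ θ * Y := by
      calc (Q : ℝ) * (θ ^ (C2 + 1) * Y) = Q * θ ^ C2 * (θ * Y) := by ring
        _ ≤ 1 * (θ * Y) := by gcongr
        _ = _ := one_mul _
    linarith
  rw [mem_Icc] at hqQ
  have hqθ : (q : ℝ) * θ ^ C2 ≤ 1 :=
    le_trans (by gcongr; exact_mod_cast hqQ.2) hQ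
  have hD : 0 < θ ^ C2 * (Y : ℝ) ^ 2 := by positivity
  obtain ⟨q', a1, a2, a3⟩ := hV Y (θ ^ (C2 + 1)) (1 / (θ ^ C2 * (Y : ℝ) ^ 2)) ((3 * q) • γ)
    (by positivity) ((pow_le_of_le_one hθ0.le (by linarith) (by omega)).trans hθ1) (by positivity)
    (by
      rw [div_le_iff₀ hD, ← pow_mul]
      calc (1 : ℝ) ≤ θ ^ (C2 + (C2 + 1) * CV) * Y * 1 := by simpa using hθle _ le_rfl
        _ ≤ θ ^ (C2 + (C2 + 1) * CV) * Y * Y := by gcongr
        _ = _ := by ring)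
    (by rw [← pow_mul]; exact hθle _ (by omega))
    (by
      refine hq.trans (Nat.cast_le.2 (card_le_card fun h hh => ?_))
      obtain ⟨h3, h4⟩ := mem_filter.1 hh
      refine mem_filter.2 ⟨(mem_filter.1 h3).1, ?_⟩
      have := (hqf h h3).2.2
      rw [h4, smul_smul] at this
      rw [le_div_iff₀ hD, smul_smul, show h * (3 * q) = q * (3 * h) by ring]
      exact this)
  rw [← pow_mul] at a2 a3
  rw [smul_smul, le_div_iff₀ hD] at a3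
  have e : η ^ (5 * (C2 + (C2 + 1) * CV) + 2) = θ ^ C2 * θ ^ ((C2 + 1) * CV) * η ^ 2 := by
    rw [hθ, ← pow_add, ← pow_mul, ← pow_add]
  have hη2 : η ^ 2 ≤ 1 / 4 := (pow_le_pow_left₀ h0.le h1 2).trans_eq (by norm_num)
  refine ⟨q' * (3 * q), Nat.mul_pos a1 (by omega), ?_, ?_⟩
  · rw [e]
    push_cast
    calc (q' : ℝ) * (3 * q) * (θ ^ C2 * θ ^ ((C2 + 1) * CV) * η ^ 2)
        = 3 * (q' * θ ^ ((C2 + 1) * CV) * (q * θ ^ C2 * η ^ 2)) := by ring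
      _ ≤ 3 * (1 * (1 * (1 / 4))) := by gcongr
      _ ≤ 1 := by norm_num
  · rw [e]
    calc _ = ‖(q' * (3 * q)) • γ‖ * (θ ^ ((C2 + 1) * CV) * Y) * (θ ^ C2 * (Y : ℝ) ^ 2) * η ^ 2 := by
          ring
      _ ≤ 1 * (1 / 4) := by gcongr
      _ ≤ 1 := by norm_num

end Pool.Agent.P.MP_e4219a_lc
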