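import Pool.Agent.P.MP_e4219a_lc.Bund

/-! Approximation at finitely many places of a number field. -/

namespace Pool.Agent.P.MP_e4219a_lc

open NumberField IsDedekindDomain Polynomial Finset WithZero
open Pool.Agent.P.MP_b8021b_nt Pool.Agent.P.MP_b8021b_nt.VE Pool.Agent.P.MP_b8021b_nt.VC
open scoped Classical

namespace WAP

variable {L : Type} [Field L] [NumberField L]

/-- approximation by an integer at one place -/
theorem near_one (v : Pl L) {x : L} (hx : vl v x ≤ 1) (k : ℤ) :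
    ∃ a : 𝓞 L, vl v (a - x) ≤ exp k := by
  obtain ⟨a, ha⟩ := v.exists_valuation_sub_lt_of_integer hx (Units.mk0 (exp k) exp_ne_zero)
  exact ⟨a, ha.le⟩

/-- approximation by an integer at finitely many places -/
theorem crt (V : Finset (Pl L)) (x : Pl L → L) (k : Pl L → ℕ) (hx : ∀ v ∈ V, vl v (x v) ≤ 1) :
    ∃ y : 𝓞 L, ∀ v ∈ V, vl v (y - x v) ≤ exp (-(k v : ℤ)) := by
  choose a ha using fun v : V => near_one v.1 (hx v.1 v.2) (-(k v.1 : ℤ))
  obtain ⟨y, hy⟩ := IsDedekindDomain.exists_forall_sub_mem_ideal (s := V)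
    (fun v => v.asIdeal) k (fun v _ => v.prime)
    (fun v _ w _ h e => h (HeightOneSpectrum.ext e)) a
  refine ⟨y, fun v hv => ?_⟩
  have h1 := (vl_coe_le_exp v _ _).2 (hy v hv)
  rw [show (y : L) - x v = ((y - a ⟨v, hv⟩ : 𝓞 L) : L) + (a ⟨v, hv⟩ - x v) by push_cast; ring]
  exact Valuation.map_add_le _ h1 (ha ⟨v, hv⟩)

/-- weak approximation -/
theorem weak (V : Finset (Pl L)) (x : Pl L → L) (k : Pl L → ℤ) :
    ∃ y : L, ∀ v ∈ V, vl v (y - x v) ≤ exp (-k v) := by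
  obtain ⟨⟨d, hd⟩, h⟩ := IsLocalization.exist_integer_multiples (nonZeroDivisors (𝓞 L)) V x
  have h0 : (d : L) ≠ 0 := by simpa using nonZeroDivisors.ne_zero hd
  obtain ⟨y, hy⟩ := crt V (fun v => d * x v) (fun v => (k v + od v d).toNat) fun v hv => by
    obtain ⟨c, hc⟩ := h v hv
    rw [Algebra.smul_def] at hc
    exact (congrArg (vl v) hc).symm.le.trans (vl_coe_le v c)
  refine ⟨y / d, fun v hv => ?_⟩
  rw [show (y : L) / d - x v = (y - d * x v) / d by field_simp, map_div₀,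
    div_le_iff₀ (vl_pos v h0), vl_eq v h0, ← exp_add]
  refine (hy v hv).trans (exp_le_exp.2 ?_)
  omega

/-- the norm of an ideal that no prime above `n` contains is prime to `n` -/
theorem cop_norm {I : Ideal (𝓞 L)} {n : ℕ} (h : ∀ v : Pl L, Dv n v → ¬ I ≤ v.asIdeal) :
    (Ideal.absNorm I).Coprime n := by
  refine Nat.Coprime.symm (Nat.coprime_of_dvd fun p hp h1 h2 => ?_)
  obtain ⟨P, hP, e, hI⟩ := Ideal.exists_isMaximal_dvd_of_dvd_absNorm' hp I h2
  have h3 : (p : 𝓞 L) ∈ P := by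
    have : (p : ℤ) ∈ P.under ℤ := e ▸ Ideal.mem_span_singleton_self _
    simpa using Ideal.mem_comap.1 this
  have h4 : P ≠ ⊥ := fun e => by
    rw [e, Ideal.mem_bot] at h3
    exact Nat.cast_ne_zero.2 hp.ne_zero h3
  exact h ⟨P, hP.isPrime, h4⟩ (Dv.of_dvd h3 h1) (Ideal.dvd_iff_le.1 hI)

/-- a denominator that is prime to `n` -/
theorem den (n : ℕ) (x : L) (hx : ∀ v, Dv n v → vl v x ≤ 1) :
    ∃ (D : ℕ) (a : 𝓞 L), D ≠ 0 ∧ D.Coprime n ∧ D * x = a := by
  let I : Ideal (𝓞 L) :=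
    { carrier := {d | ∃ c : 𝓞 L, x * d = c}
      add_mem' := by
        rintro a b ⟨c, hc⟩ ⟨d, hd⟩
        exact ⟨c + d, by push_cast; rw [mul_add, hc, hd]⟩
      zero_mem' := ⟨0, by simp⟩
      smul_mem' := by
        rintro a b ⟨c, hc⟩
        exact ⟨a * c, by rw [smul_eq_mul]; push_cast; linear_combination (a : L) * hc⟩ }
  have h0 : I ≠ ⊥ := by
    obtain ⟨⟨a, d, hd⟩, e⟩ := IsLocalization.surj (nonZeroDivisors (𝓞 L)) x
    exact (Submodule.ne_bot_iff _).2 ⟨d, ⟨a, e⟩, nonZeroDivisors.ne_zero hd⟩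
  obtain ⟨a, ha⟩ : ∃ c : 𝓞 L, x * ((Ideal.absNorm I : 𝓞 L) : L) = c := Ideal.absNorm_mem I
  refine ⟨Ideal.absNorm I, a, mt Ideal.absNorm_eq_zero_iff.1 h0, cop_norm fun v hv h => ?_,
    by rw [← ha, mul_comm]; simp⟩
  obtain ⟨c, d, e⟩ := v.exists_primeCompl_mul_eq_of_integer x (hx v hv)
  exact d.2 (h ⟨c, e⟩)

/-- coprimality from the places -/
theorem cop_el {n : ℕ} (hn : n ≠ 0) {a : 𝓞 L} (h : ∀ v : Pl L, Dv n v → a ∉ v.asIdeal) :
    IsCoprime a n := by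
  rw [← Ideal.isCoprime_span_singleton_iff, Ideal.isCoprime_iff_sup_eq]
  by_contra e
  obtain ⟨P, hP, h1⟩ := Ideal.exists_le_maximal _ e
  have h2 : (n : 𝓞 L) ∈ P := h1 (Ideal.mem_sup_right (Ideal.mem_span_singleton_self _))
  have h3 : P ≠ ⊥ := fun e => by
    rw [e, Ideal.mem_bot] at h2
    exact Nat.cast_ne_zero.2 hn h2
  exact h ⟨P, hP.isPrime, h3⟩ h2 (h1 (Ideal.mem_sup_left (Ideal.mem_span_singleton_self _)))

/-- congruence to one from the places -/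
theorem one_of_near {n : ℕ} (hn : n ≠ 0) {x : L} (h : ∀ v, Dv n v → vl v (x - 1) ≤ vl v n) :
    One n x := by
  obtain ⟨D, a, -, h1, h2⟩ := den n x fun v hv =>
    (vl_of_near v ((h v hv).trans_lt ((vl_nat_lt v).2 hv))).le
  obtain ⟨r, s, e⟩ := (Nat.isCoprime_iff_coprime.2 h1).map (Int.castRingHom (𝓞 L))
  simp only [map_natCast] at e
  have h3 : (n : 𝓞 L) ∣ r * D - 1 := ⟨-s, by linear_combination e⟩
  have e' : (r : L) * D + s * n = 1 := by exact_mod_cast congrArg (fun z : 𝓞 L => (z : L)) e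
  refine ⟨r * a, r * D, dvd_of_vl hn fun v hv => ?_, h3, by push_cast; linear_combination (r : L) * h2⟩
  rw [show ((r * a - 1 : 𝓞 L) : L) = (x - 1) * ((r * D : 𝓞 L) : L) + n * ((-s : 𝓞 L) : L) by
    push_cast; linear_combination e' - (r : L) * h2]
  refine Valuation.map_add_le _ ?_ ?_
  · rw [map_mul]
    exact (mul_le_of_le_one_right' (vl_coe_le v _)).trans (h v hv)
  · rw [map_mul]
    exact mul_le_of_le_one_right' (vl_coe_le v _)

/-- prescribed orders -/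
theorem orders (V : Finset (Pl L)) (e : Pl L → ℤ) (n : ℕ) (hn : n ≠ 0) (hV : ∀ v ∈ V, ¬ Dv n v) :
    ∃ z : L, z ≠ 0 ∧ One n z ∧ ∀ v ∈ V, od v z = e v := by
  rcases V.eq_empty_or_nonempty with rfl | ⟨v₀, hv₀⟩
  · exact ⟨1, one_ne_zero, One.one n, by simp⟩
  choose π h0 h1 using fun v : Pl L => exists_od_one v
  obtain ⟨z, hz⟩ := weak (V ∪ (finite_dv L hn).toFinset)
    (fun v => if Dv n v then 1 else (π v : L) ^ e v) fun v => if Dv n v then od v n else e v + 1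
  have h2 : ∀ v ∈ V, z ≠ 0 ∧ od v z = e v := fun v hv => by
    have h3 := hz v (mem_union_left _ hv)
    rw [if_neg (hV v hv), if_neg (hV v hv)] at h3
    have h4 : (π v : L) ^ e v ≠ 0 := zpow_ne_zero _ (h0 v)
    have h5 : od v ((π v : L) ^ e v) = e v := by rw [od_zpow, h1, mul_one]
    have h6 : vl v (z / (π v : L) ^ e v - 1) < 1 := by
      rw [div_sub_one h4, map_div₀, div_lt_one₀ (vl_pos v h4), vl_eq v h4, h5]
      exact h3.trans_lt (exp_lt_exp.2 (by omega))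
    exact ⟨(od_of_near v h6).1, (od_of_near v h6).2.2.trans h5⟩
  refine ⟨z, (h2 v₀ hv₀).1, one_of_near hn fun v hv => ?_, fun v hv => (h2 v hv).2⟩
  have h3 := hz v (mem_union_right _ ((finite_dv L hn).mem_toFinset.2 hv))
  rwa [if_pos hv, if_pos hv, ← vl_eq v (Nat.cast_ne_zero.2 hn)] at h3

/-- finitely many residue classes -/
theorem reps (v : Pl L) (k : ℕ) :
    ∃ Φ : Finset L, ∀ x : L, vl v x ≤ 1 → ∃ f ∈ Φ, vl v (x - f) ≤ exp (-(k : ℤ)) := by
  have : Finite (𝓞 L ⧸ v.asIdeal ^ k) :=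
    Ideal.finiteQuotientOfFreeOfNeBot _ (pow_ne_zero k v.ne_bot)
  have := Fintype.ofFinite (𝓞 L ⧸ v.asIdeal ^ k)
  choose g hg using Ideal.Quotient.mk_surjective (I := v.asIdeal ^ k)
  refine ⟨univ.image fun q => (g q : L), fun x hx => ?_⟩
  obtain ⟨a, ha⟩ := near_one v hx (-(k : ℤ))
  refine ⟨_, mem_image_of_mem _ (mem_univ (Ideal.Quotient.mk _ a)), ?_⟩
  have h1 := (vl_coe_le_exp v _ _).2 (Ideal.Quotient.eq.1 (hg (Ideal.Quotient.mk _ a)).symm)
  rw [show x - (g (Ideal.Quotient.mk _ a) : L) =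
    ((a - g (Ideal.Quotient.mk _ a) : 𝓞 L) : L) - (a - x) by push_cast; ring]
  exact Valuation.map_sub_le _ h1 ha

/-- a fraction with numerator and denominator prime to `n` -/
theorem frac (n : ℕ) (x : L) (hn : n ≠ 0) (hx : ∀ v, Dv n v → vl v x = 1) :
    ∃ α β : 𝓞 L, IsCoprime α n ∧ IsCoprime β n ∧ x * β = α := by
  obtain ⟨D, a, -, h1, h2⟩ := den n x fun v hv => (hx v hv).le
  refine ⟨a, D, cop_el hn fun v hv => (vl_coe_eq v a).1 ?_,
    cop_el hn fun v hv => not_dv_of_coprime v h1.symm hv, by rw [← h2, mul_comm]; simp⟩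
  rw [← h2, map_mul, hx v hv, (vl_nat_eq v).2 (not_dv_of_coprime v h1.symm hv), mul_one]

/-- a modulus for the support -/
theorem supp (m : ℕ) (x : L) (hx : ∀ v, Dv m v → vl v x = 1) :
    ∃ n : ℕ, n ≠ 0 ∧ n.Coprime m ∧ ∀ v, ¬ Dv n v → od v x = 0 := by
  rcases eq_or_ne x 0 with rfl | h0
  · exact ⟨1, one_ne_zero, Nat.coprime_one_left m, fun v _ => od_zero v⟩
  obtain ⟨D, a, a0, a1, a2⟩ := den m x fun v hv => (hx v hv).le
  obtain ⟨E, b, b0, b1, b2⟩ := den m x⁻¹ fun v hv => by rw [map_inv₀, hx v hv, inv_one]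
  refine ⟨D * E, mul_ne_zero a0 b0, Nat.Coprime.mul_left a1 b1, fun v hv => ?_⟩
  rw [dv_mul, not_or] at hv
  have h1 := vl_coe_le v a
  have h2 := vl_coe_le v b
  rw [← a2, map_mul, (vl_nat_eq v).2 hv.1, one_mul, ← od_nonneg_iff v h0] at h1
  rw [← b2, map_mul, (vl_nat_eq v).2 hv.2, one_mul, ← od_nonneg_iff v (inv_ne_zero h0),
    od_inv] at h2
  omega

/-- an element with a single pole -/
theorem pole (v₀ : Pl L) : ∃ ρ : L, 1 < vl v₀ ρ ∧ ∀ v, v ≠ v₀ → vl v ρ ≤ 1 := by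
  have hI : v₀.asIdeal ∈ nonZeroDivisors (Ideal (𝓞 L)) :=
    mem_nonZeroDivisors_of_ne_zero v₀.ne_bot
  have hk : 0 < Fintype.card (ClassGroup (𝓞 L)) := Fintype.card_pos
  obtain ⟨π, hπ⟩ : (v₀.asIdeal ^ Fintype.card (ClassGroup (𝓞 L))).IsPrincipal := by
    rw [← ClassGroup.mk0_eq_one_iff (pow_mem hI _), ← SubmonoidClass.mk_pow _ hI, map_pow,
      pow_card_eq_one]
  rw [Ideal.submodule_span_eq] at hπ
  have h0 : (π : L) ≠ 0 := by
    have : π ≠ 0 := fun e => pow_ne_zero _ v₀.ne_bot (hπ.trans (by simp [e]))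
    simpa using this
  refine ⟨(π : L)⁻¹, ?_, fun v hv => ?_⟩
  · rw [map_inv₀, one_lt_inv₀ (vl_pos v₀ h0), vl_coe_lt]
    exact Ideal.pow_le_self hk.ne' (hπ.ge (Ideal.mem_span_singleton_self _))
  · rw [map_inv₀, (vl_coe_eq v π).2 fun h => hv ?_, inv_one]
    have h1 := v.isPrime.le_of_pow_le (hπ.le.trans ((Ideal.span_singleton_le_iff_mem _).2 h))
    exact HeightOneSpectrum.ext (v₀.isMaximal.eq_of_le v.isPrime.ne_top h1).symm

end WAP

theorem p_wa : Z_WA := fun _ _ _ =>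
  ⟨fun V x k h => WAP.crt V x (fun _ => k) h, fun V x k => WAP.weak V x fun _ => k, WAP.orders,
    WAP.reps, fun n x _ h => (WAP.den n x h).imp fun _ h => h.imp fun _ h => h.2, WAP.frac,
    fun m x _ h => WAP.supp m x h, WAP.pole⟩

end Pool.Agent.P.MP_e4219a_lc
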