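import Pool.Agent.P.MP_e4219a_lc.Bund

/-! Restriction of scalars for Diophantine sets. -/

namespace Pool.Agent.P.MP_e4219a_lc

open MvPolynomial
open scoped Classical

namespace WeilP

variable {K L ι : Type} [Field K] [Field L] [Algebra K L]

/-- all linear coordinates of `g` are polynomial functions -/
def Co (g : (ι → K) → L) : Prop := ∀ φ : L →ₗ[K] K, PolyF fun x => φ (g x)

theorem Co.const (c : L) : Co fun _ : ι → K => c := fun _ => PolyF.const _

theorem Co.add {f g : (ι → K) → L} (hf : Co f) (hg : Co g) : Co fun x => f x + g x := fun φ => by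
  simpa only [map_add] using (hf φ).add (hg φ)

theorem Co.smul {f : (ι → K) → K} (hf : PolyF f) (c : L) : Co fun x => f x • c := fun φ => by
  simpa only [map_smul, smul_eq_mul] using hf.mul (PolyF.const (φ c))

theorem Co.sum {α : Type} (s : Finset α) {F : α → (ι → K) → L} (h : ∀ a, Co (F a)) :
    Co fun x => ∑ a ∈ s, F a x := fun φ => by
  simpa only [map_sum] using PolyF.sum s fun a _ => h a φ

theorem Co.mul [FiniteDimensional K L] {f g : (ι → K) → L} (hf : Co f) (hg : Co g) :
    Co fun x => f x * g x := fun φ => by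
  let b := Module.finBasis K L
  have e : ∀ x, φ (f x * g x) =
      ∑ i, b.coord i (f x) * (φ ∘ₗ LinearMap.mulLeft K (b i)) (g x) := fun x => by
    conv_lhs => rw [← b.sum_repr (f x), Finset.sum_mul, map_sum]
    refine Finset.sum_congr rfl fun i _ => ?_
    rw [smul_mul_assoc, map_smul, smul_eq_mul]
    rfl
  simp only [e]
  exact PolyF.sum _ fun i _ => (hf _).mul (hg _)

theorem Co.eval [FiniteDimensional K L] {κ : Type} (p : MvPolynomial κ L) {G : (ι → K) → κ → L}
    (hG : ∀ k, Co fun x => G x k) : Co fun x => eval (G x) p := by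
  induction p using MvPolynomial.induction_on with
  | C c => simpa only [eval_C] using Co.const c
  | add p q hp hq => simpa only [map_add] using hp.add hq
  | mul_X p k hp => simpa only [map_mul, eval_X] using hp.mul (hG k)

end WeilP

open WeilP in
theorem p_weil : Z_Weil := by
  intro K L _ _ _ _ S ⟨n, m, F, hF⟩
  let b := Module.finBasis K L
  let G : (Unit ⊕ Fin n × Fin (Module.finrank K L) → K) → Unit ⊕ Fin n → L := fun z =>
    Sum.elim (fun _ => algebraMap K L (z (.inl ()))) fun k => ∑ i, z (.inr (k, i)) • b i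
  have hG : ∀ o, Co fun z => G z o := fun o => by
    cases o with
    | inl u =>
      simpa only [G, Sum.elim_inl, Algebra.algebraMap_eq_smul_one] using
        Co.smul (PolyF.var (Sum.inl ())) (1 : L)
    | inr k => exact Co.sum Finset.univ fun i => Co.smul (PolyF.var (Sum.inr (k, i))) (b i)
  refine Dio.intro (κ := Fin n × Fin (Module.finrank K L))
    (μ := Fin m × Fin (Module.finrank K L))
    (fun j z => b.coord j.2 (eval (G z) (F j.1))) (fun j => Co.eval _ hG _) fun x => ?_
  refine (hF fun _ => algebraMap K L (x ())).trans ⟨fun ⟨y, hy⟩ => ?_, fun ⟨y, hy⟩ => ?_⟩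
  · refine ⟨fun q => b.repr (y q.1) q.2, fun j => ?_⟩
    have e : G (Sum.elim x fun q => b.repr (y q.1) q.2) =
        Sum.elim (fun _ => algebraMap K L (x ())) y := by
      funext o
      cases o with
      | inl u => rfl
      | inr k => exact b.sum_repr (y k)
    rw [e, hy, map_zero]
  · exact ⟨fun k => ∑ i, y (k, i) • b i, fun j => b.forall_coord_eq_zero_iff.1 fun i => hy (j, i)⟩

end Pool.Agent.P.MP_e4219a_lc
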