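import Pool.Agent.P.MP_e4219a_lc.Bund

/-! The last steps: from the curve of rank one to the complement of the integers. -/

namespace Pool.Agent.P.MP_e4219a_lc

open NumberField

theorem rat_iff {L : Type} [Field L] [CharZero L] {i ω x : L} (hi : i ^ 2 + 1 = 0)
    (hω : ω ^ 2 + ω + 1 = 0) :
    (∃ q : ℚ, x = q) ↔ (∃ a b : ℚ, x = a + b * i) ∧ ∃ a b : ℚ, x = a + b * ω := by
  refine ⟨fun ⟨q, h⟩ => ⟨⟨q, 0, by simpa using h⟩, q, 0, by simpa using h⟩, ?_⟩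
  rintro ⟨⟨a, b, h1⟩, c, d, h2⟩
  suffices hb : b = 0 from ⟨a, by simpa [hb] using h1⟩
  obtain ⟨e, he⟩ : ∃ e : ℚ, e = c - a - d / 2 := ⟨_, rfl⟩
  have h3 : (b : L) * i = e + d / 2 * (2 * ω + 1) := by
    rw [he]
    push_cast
    linear_combination h2 - h1
  have h4 : ((b ^ 2 + e ^ 2 - 3 * (d / 2) ^ 2 : ℚ) : L) = -(e * d : ℚ) * (2 * ω + 1) := by
    push_cast
    linear_combination (b : L) ^ 2 * hi - (b * i + (e + d / 2 * (2 * ω + 1))) * h3 - (d : L) ^ 2 * hω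
  have h5 : (b ^ 2 + e ^ 2 - 3 * (d / 2) ^ 2) ^ 2 = -3 * (e * d) ^ 2 := by
    apply (Rat.cast_injective (α := L))
    rw [Rat.cast_pow, h4]
    push_cast
    linear_combination 4 * ((e : L) * d) ^ 2 * hω
  have h6 : e * d = 0 := by nlinarith [sq_nonneg (b ^ 2 + e ^ 2 - 3 * (d / 2) ^ 2), sq_nonneg (e * d)]
  rw [h6] at h5
  have h7 : b ^ 2 + e ^ 2 - 3 * (d / 2) ^ 2 = 0 := pow_eq_zero_iff two_ne_zero |>.1 (by simpa using h5)
  rcases eq_or_ne d 0 with hd | hd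
  · rw [hd] at h7
    nlinarith [sq_nonneg b, sq_nonneg e]
  · have h8 : e = 0 := (mul_eq_zero.1 h6).resolve_right hd
    have h9 : IsSquare ((3 : ℕ) : ℚ) := ⟨2 * b / d, by
      rw [h8] at h7
      field_simp
      push_cast
      linear_combination -4 * h7⟩
    exact absurd (Rat.isSquare_natCast_iff.1 h9) Nat.prime_three.prime.not_isSquare

theorem exists_ext (K : Type) [Field K] [NumberField K] : ∃ (L : Type) (_ : Field L)
    (_ : NumberField L) (_ : Algebra K L) (i ω : L), i ^ 2 + 1 = 0 ∧ ω ^ 2 + ω + 1 = 0 := by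
  let L := CyclotomicField 12 K
  have : NumberField L := IsCyclotomicExtension.numberField {12} K L
  have h := IsCyclotomicExtension.zeta_spec 12 K L
  set ζ := IsCyclotomicExtension.zeta 12 K L
  have h1 : ζ ^ 12 = 1 := h.pow_eq_one
  have h2 : ζ ^ 6 - 1 ≠ 0 := sub_ne_zero.2 (h.pow_ne_one_of_pos_of_lt (by norm_num) (by norm_num))
  have h3 : ζ ^ 4 - 1 ≠ 0 := sub_ne_zero.2 (h.pow_ne_one_of_pos_of_lt (by norm_num) (by norm_num))
  exact ⟨L, inferInstance, this, inferInstance, ζ ^ 3, ζ ^ 4,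
    mul_left_cancel₀ h2 (by linear_combination h1), mul_left_cancel₀ h3 (by linear_combination h1)⟩

theorem dio_rat (hK : Z_RK) (hR : Z_Rat) (hT : Z_TD) (hC : Z_Cert) (L : Type) [Field L]
    [NumberField L] {i ω : L} (hi : i ^ 2 + 1 = 0) (hω : ω ^ 2 + ω + 1 = 0) :
    Dio1 fun x : L => ¬ ∃ q : ℚ, x = q := by
  have key : ∀ (ℓ : ℕ) (ζ : L), Ze ℓ ζ → Dio1 fun x : L => ¬ ∃ a b : ℚ, x = a + b * ζ :=
    fun ℓ ζ hζ => by
      obtain ⟨a₃, a₄, ι, P, T, h1, h2, h3⟩ := hK L ℓ ζ ⟨ω, hω⟩ hζ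
      exact hC L ℓ ζ _ ⟨ω, hω⟩ hζ (hR L ℓ ζ a₃ a₄ ι P T h1 h2 h3) (hT L ℓ ζ _ _ ⟨ω, hω⟩ h1)
  exact (Dio.or (key 2 i (Or.inl ⟨rfl, hi⟩)) (key 3 ω (Or.inr ⟨rfl, hω⟩))).congr fun x =>
    (not_congr (rat_iff hi hω)).trans not_and_or

theorem int_iff {L : Type} [Field L] [CharZero L] {x : L} :
    (∃ z : ℤ, x = z) ↔ (∃ q : ℚ, x = q) ∧ IsIntegral ℤ x := by
  refine ⟨fun ⟨z, h⟩ => ⟨⟨z, by simpa using h⟩, h ▸ isIntegral_algebraMap⟩, ?_⟩
  rintro ⟨⟨q, rfl⟩, h⟩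
  obtain ⟨z, hz⟩ := IsIntegrallyClosed.isIntegral_iff.1
    ((isIntegral_algebraMap_iff (algebraMap ℚ L).injective).1 h)
  exact ⟨z, by simp [← hz]⟩

theorem top_int (hK : Z_RK) (hR : Z_Rat) (hT : Z_TD) (hC : Z_Cert) (hB : Z_BUni) (hW : Z_Weil)
    (hE : Z_Elim) (K : Type) [Field K] [NumberField K] :
    ∃ (n : ℕ) (P : MvPolynomial (Option (Fin n)) ℤ), ∀ a : K, (∃ z : ℤ, a = z) ↔
      ∀ y : Fin n → K, MvPolynomial.aeval (fun o => Option.elim o a y) P ≠ 0 := by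
  obtain ⟨L, _, _, _, i, ω, hi, hω⟩ := exists_ext K
  have : FiniteDimensional K L := Module.Finite.of_restrictScalars_finite ℚ K L
  have h1 : Dio1 fun x : L => ¬ ∃ z : ℤ, x = z :=
    (Dio.or (dio_rat hK hR hT hC L hi hω) (hB L ⟨ω, hω⟩)).congr fun x =>
      (not_congr int_iff).trans not_and_or
  have h2 : ∀ {M : Type} [Field M] (f : K →+* M) (a : K), (∃ z : ℤ, f a = z) ↔ ∃ z : ℤ, a = z :=
    fun f a => exists_congr fun z => by rw [← map_intCast f, f.injective.eq_iff]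
  obtain ⟨n, P, h⟩ := hE K (fun a => ¬ ∃ z : ℤ, a = z)
    (Dio.congr (hW K L _ h1) fun x => not_congr (h2 _ _).symm) fun σ a => not_congr (h2 σ a)
  exact ⟨n, P, fun a => by rw [← not_iff_not, h a]; simp⟩

theorem top_rat (hK : Z_RK) (hR : Z_Rat) (hT : Z_TD) (hC : Z_Cert) (hW : Z_Weil)
    (hE : Z_Elim) (K : Type) [Field K] [NumberField K] :
    ∃ (n : ℕ) (P : MvPolynomial (Option (Fin n)) ℤ), ∀ a : K, (∃ q : ℚ, a = q) ↔
      ∀ y : Fin n → K, MvPolynomial.aeval (fun o => Option.elim o a y) P ≠ 0 := by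
  obtain ⟨L, _, _, _, i, ω, hi, hω⟩ := exists_ext K
  have : FiniteDimensional K L := Module.Finite.of_restrictScalars_finite ℚ K L
  have h2 : ∀ {M : Type} [Field M] [CharZero M] (f : K →+* M) (a : K),
      (∃ q : ℚ, f a = q) ↔ ∃ q : ℚ, a = q :=
    fun f a => exists_congr fun z => by rw [← map_ratCast f, f.injective.eq_iff]
  obtain ⟨n, P, h⟩ := hE K (fun a => ¬ ∃ q : ℚ, a = q)
    (Dio.congr (hW K L _ (dio_rat hK hR hT hC L hi hω)) fun x => not_congr (h2 _ _).symm)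
    fun σ a => not_congr (h2 σ a)
  exact ⟨n, P, fun a => by rw [← not_iff_not, h a]; simp⟩

end Pool.Agent.P.MP_e4219a_lc
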