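import Pool.Agent.P.MP_e4219a_lc.IF
import Pool.Agent.P.MP_e4219a_lc.Top
import Pool.Agent.P.MP_e4219a_lc.PPos
import Pool.Agent.P.MP_e4219a_lc.PHen
import Pool.Agent.P.MP_e4219a_lc.PWA
import Pool.Agent.P.MP_e4219a_lc.PEx
import Pool.Agent.P.MP_e4219a_lc.PRes
import Pool.Agent.P.MP_e4219a_lc.PExt
import Pool.Agent.P.MP_e4219a_lc.PKum
import Pool.Agent.P.MP_e4219a_lc.PKI
import Pool.Agent.P.MP_e4219a_lc.PKP
import Pool.Agent.P.MP_e4219a_lc.PU1w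
import Pool.Agent.P.MP_e4219a_lc.PFI
import Pool.Agent.P.MP_e4219a_lc.PAR1
import Pool.Agent.P.MP_e4219a_lc.PAR2
import Pool.Agent.P.MP_e4219a_lc.PWR
import Pool.Agent.P.MP_e4219a_lc.PC1
import Pool.Agent.P.MP_e4219a_lc.PC
import Pool.Agent.P.MP_e4219a_lc.PES
import Pool.Agent.P.MP_e4219a_lc.PES2
import Pool.Agent.P.MP_e4219a_lc.PX2
import Pool.Agent.P.MP_e4219a_lc.PChi
import Pool.Agent.P.MP_e4219a_lc.PNV2
import Pool.Agent.P.MP_e4219a_lc.PNVc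
import Pool.Agent.P.MP_e4219a_lc.PTau
import Pool.Agent.P.MP_e4219a_lc.PPC
import Pool.Agent.P.MP_e4219a_lc.PIdx
import Pool.Agent.P.MP_e4219a_lc.PBEx
import Pool.Agent.P.MP_e4219a_lc.PHN2
import Pool.Agent.P.MP_e4219a_lc.PMer
import Pool.Agent.P.MP_e4219a_lc.PMont
import Pool.Agent.P.MP_e4219a_lc.PHlow
import Pool.Agent.P.MP_e4219a_lc.PPar
import Pool.Agent.P.MP_e4219a_lc.PMB
import Pool.Agent.P.MP_e4219a_lc.PVin
import Pool.Agent.P.MP_e4219a_lc.PW2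
import Pool.Agent.P.MP_e4219a_lc.PW
import Pool.Agent.P.MP_e4219a_lc.PCore
import Pool.Agent.P.MP_e4219a_lc.PSar
import Pool.Agent.P.MP_e4219a_lc.PInd
import Pool.Agent.P.MP_e4219a_lc.PRp
import Pool.Agent.P.MP_e4219a_lc.PBal
import Pool.Agent.P.MP_e4219a_lc.PLine
import Pool.Agent.P.MP_e4219a_lc.PPair
import Pool.Agent.P.MP_e4219a_lc.PIota
import Pool.Agent.P.MP_e4219a_lc.PHom2
import Pool.Agent.P.MP_e4219a_lc.PHom3
import Pool.Agent.P.MP_e4219a_lc.PKer2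
import Pool.Agent.P.MP_e4219a_lc.PKer3
import Pool.Agent.P.MP_e4219a_lc.PVal
import Pool.Agent.P.MP_e4219a_lc.PValW
import Pool.Agent.P.MP_e4219a_lc.PIso
import Pool.Agent.P.MP_e4219a_lc.PMax
import Pool.Agent.P.MP_e4219a_lc.PSel
import Pool.Agent.P.MP_e4219a_lc.PGen
import Pool.Agent.P.MP_e4219a_lc.PRK
import Pool.Agent.P.MP_e4219a_lc.PFG
import Pool.Agent.P.MP_e4219a_lc.PMult
import Pool.Agent.P.MP_e4219a_lc.PFin
import Pool.Agent.P.MP_e4219a_lc.PRat2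
import Pool.Agent.P.MP_e4219a_lc.PBFix
import Pool.Agent.P.MP_e4219a_lc.PTD
import Pool.Agent.P.MP_e4219a_lc.PCert
import Pool.Agent.P.MP_e4219a_lc.PCond
import Pool.Agent.P.MP_e4219a_lc.PBUni
import Pool.Agent.P.MP_e4219a_lc.PWeil
import Pool.Agent.P.MP_e4219a_lc.PElim

/-! Assembly. -/

namespace Pool.Agent.P.MP_e4219a_lc

theorem t_1 : T1 := ⟨p_iface, p_pos, p_hen, p_wa, p_ex, p_res p_wa, p_ext, p_kum, p_ki⟩

theorem t_kp : Z_KP := p_kp t_1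

theorem t_fi : Z_FI := p_fi t_1 (p_u1w t_1)

theorem t_ar : Z_AR := p_ar (p_ar1 t_1) (p_ar2 t_1 t_kp)

theorem t_2 : T2 := ⟨t_1, t_kp, t_fi, t_ar, p_wr t_1 t_kp t_fi t_ar, p_c1 t_1 t_kp, p_es t_1⟩

theorem t_pc : Z_PC :=
  p_pc t_1 (p_nv2 t_2 (p_es2 t_1) (p_x2 t_1) (p_chi t_2)) (p_nvc t_1) p_tau

theorem t_mb : Z_MB := p_mb p_mer p_mont p_hlow p_par

theorem t_sar : Z_Sar := p_sar p_mer p_par t_mb (p_w p_vin (p_w2 p_vin)) (p_core p_par)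

theorem t_pair : Z_Pair :=
  p_pair t_1 t_pc p_bal (p_line p_mer p_par t_mb t_sar p_ind (p_rp t_1 p_mer))

theorem t_sel : Z_Sel :=
  p_sel t_2 (p_c t_2) t_pair (p_val t_1 p_iota) (p_valw t_1 p_iota) (p_iso t_1) p_max

theorem t_rk : Z_RK :=
  p_rk p_iota (p_hom2 p_iota) (p_hom3 p_iota) (p_ker2 p_iota) (p_ker3 p_iota) t_sel p_gen

theorem t_rat : Z_Rat := p_rat2 p_fg p_mult (p_fin t_1 p_iota p_fg)

theorem t_cond : Z_Cond := p_cond t_1 (p_hn2 t_2)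

theorem t_bfix : Z_BFix := p_bfix t_1 t_cond

theorem t_buni : Z_BUni := p_buni t_2 (p_bex t_2 (p_idx t_1)) t_cond t_bfix

theorem t_td : Z_TD := p_td p_iota t_bfix

theorem t_cert : Z_Cert := p_cert t_1 t_bfix

end Pool.Agent.P.MP_e4219a_lc
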