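import Pool.Agent.P.MP_e4219a_lc.Basic

/-! Closure properties of polynomial functions and Diophantine predicates. -/

namespace Pool.Agent.P.MP_e4219a_lc

open MvPolynomial
open scoped Classical

section Ring

variable {K ι κ : Type} [CommRing K] {f g : (ι → K) → K} {S T : (ι → K) → Prop}

theorem PolyF.const (c : K) : PolyF fun _ : ι → K => c := ⟨C c, by simp⟩

theorem PolyF.var (i : ι) : PolyF fun x : ι → K => x i := ⟨X i, by simp⟩

theorem PolyF.add (hf : PolyF f) (hg : PolyF g) : PolyF fun x => f x + g x := by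
  obtain ⟨p, hp⟩ := hf
  obtain ⟨q, hq⟩ := hg
  exact ⟨p + q, by simp [hp, hq]⟩

theorem PolyF.sub (hf : PolyF f) (hg : PolyF g) : PolyF fun x => f x - g x := by
  obtain ⟨p, hp⟩ := hf
  obtain ⟨q, hq⟩ := hg
  exact ⟨p - q, by simp [hp, hq]⟩

theorem PolyF.mul (hf : PolyF f) (hg : PolyF g) : PolyF fun x => f x * g x := by
  obtain ⟨p, hp⟩ := hf
  obtain ⟨q, hq⟩ := hg
  exact ⟨p * q, by simp [hp, hq]⟩

theorem PolyF.neg (hf : PolyF f) : PolyF fun x => -f x := by
  obtain ⟨p, hp⟩ := hf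
  exact ⟨-p, by simp [hp]⟩

theorem PolyF.pow (hf : PolyF f) (n : ℕ) : PolyF fun x => f x ^ n := by
  obtain ⟨p, hp⟩ := hf
  exact ⟨p ^ n, by simp [hp]⟩

theorem PolyF.sum {α : Type} (s : Finset α) {F : α → (ι → K) → K} (h : ∀ a ∈ s, PolyF (F a)) :
    PolyF fun x => ∑ a ∈ s, F a x := by
  induction s using Finset.induction_on with
  | empty => simpa using PolyF.const 0
  | insert a s ha ih =>
    simp only [Finset.sum_insert ha]
    exact (h a (Finset.mem_insert_self _ _)).add (ih fun b hb => h b (Finset.mem_insert_of_mem hb))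

theorem PolyF.prod {α : Type} (s : Finset α) {F : α → (ι → K) → K} (h : ∀ a ∈ s, PolyF (F a)) :
    PolyF fun x => ∏ a ∈ s, F a x := by
  induction s using Finset.induction_on with
  | empty => simpa using PolyF.const 1
  | insert a s ha ih =>
    simp only [Finset.prod_insert ha]
    exact (h a (Finset.mem_insert_self _ _)).mul (ih fun b hb => h b (Finset.mem_insert_of_mem hb))

theorem PolyF.eval (p : MvPolynomial ι K) : PolyF fun x => eval x p := ⟨p, fun _ => rfl⟩

theorem PolyF.comp {F : (κ → K) → K} (hF : PolyF F) {G : (ι → K) → κ → K}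
    (hG : ∀ k, PolyF fun x => G x k) : PolyF fun x => F (G x) := by
  obtain ⟨p, hp⟩ := hF
  choose q hq using hG
  refine ⟨bind₁ q p, fun x => ?_⟩
  have e : (fun k => MvPolynomial.eval x (q k)) = G x := funext fun k => hq k x
  change _ = F (G x)
  rw [← hp, ← e]
  exact aeval_bind₁ x q p

theorem Dio.congr (h : Dio S) (e : ∀ x, T x ↔ S x) : Dio T := by
  obtain ⟨n, m, F, hF⟩ := h
  exact ⟨n, m, F, fun x => (e x).trans (hF x)⟩

/-- introduction rule with arbitrary finite index types -/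
theorem Dio.intro {μ : Type} [Fintype κ] [Fintype μ] (F : μ → (ι ⊕ κ → K) → K)
    (hF : ∀ j, PolyF (F j)) (h : ∀ x, S x ↔ ∃ y : κ → K, ∀ j, F j (Sum.elim x y) = 0) : Dio S := by
  have e := Fintype.equivFin κ
  have e' := Fintype.equivFin μ
  have h1 : ∀ j : Fin (Fintype.card μ), PolyF fun z : ι ⊕ Fin (Fintype.card κ) → K =>
      F (e'.symm j) fun o => z (o.map id e) := fun j => (hF _).comp fun _ => PolyF.var _
  choose q hq using h1
  refine ⟨_, _, q, fun x => (h x).trans ⟨fun ⟨y, hy⟩ => ⟨y ∘ e.symm, fun j => ?_⟩,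
    fun ⟨y, hy⟩ => ⟨y ∘ e, fun j => ?_⟩⟩⟩
  · rw [hq, ← hy (e'.symm j)]
    beta_reduce
    congr 1
    funext o
    cases o <;> simp
  · have := hy (e' j)
    rw [hq, e'.symm_apply_apply] at this
    rw [← this]
    beta_reduce
    congr 1
    funext o
    cases o <;> simp

theorem Dio.eq (hf : PolyF f) (hg : PolyF g) : Dio fun x => f x = g x :=
  Dio.intro (κ := Empty) (μ := Unit) (fun _ z => f (fun i => z (.inl i)) - g fun i => z (.inl i))
    (fun _ => (hf.comp fun _ => PolyF.var _).sub (hg.comp fun _ => PolyF.var _))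
    fun x => by simp [sub_eq_zero]

theorem Dio.true : Dio fun _ : ι → K => True :=
  (Dio.eq (PolyF.const (0 : K)) (PolyF.const 0)).congr fun _ => by simp

theorem Dio.comp {U : (κ → K) → Prop} (h : Dio U) {G : (ι → K) → κ → K}
    (hG : ∀ k, PolyF fun x => G x k) : Dio fun x => U (G x) := by
  obtain ⟨n, m, F, hF⟩ := h
  refine Dio.intro (κ := Fin n) (fun j z => eval (Sum.elim (G fun i => z (.inl i))
    fun k => z (.inr k)) (F j)) (fun j => (PolyF.eval _).comp fun o => ?_) fun x => hF _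
  cases o with
  | inl k => exact (hG k).comp fun _ => PolyF.var _
  | inr k => exact PolyF.var _

theorem Dio1.mem {U : K → Prop} (h : Dio1 U) (hf : PolyF f) : Dio fun x => U (f x) :=
  Dio.comp h (G := fun x _ => f x) fun _ => hf

theorem Dio.and (hS : Dio S) (hT : Dio T) : Dio fun x => S x ∧ T x := by
  obtain ⟨n, m, F, hF⟩ := hS
  obtain ⟨n', m', G, hG⟩ := hT
  refine Dio.intro (κ := Fin n ⊕ Fin n') (μ := Fin m ⊕ Fin m') (Sum.elim
    (fun j z => eval (fun o => z (o.map id .inl)) (F j))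
    fun j z => eval (fun o => z (o.map id .inr)) (G j)) (fun j => ?_) fun x => ?_
  · cases j <;> exact (PolyF.eval _).comp fun _ => PolyF.var _
  · have e1 : ∀ y : Fin n ⊕ Fin n' → K, (fun o : ι ⊕ Fin n => Sum.elim x y (o.map id .inl)) =
        Sum.elim x fun k => y (.inl k) := fun y => funext fun o => by cases o <;> rfl
    have e2 : ∀ y : Fin n ⊕ Fin n' → K, (fun o : ι ⊕ Fin n' => Sum.elim x y (o.map id .inr)) =
        Sum.elim x fun k => y (.inr k) := fun y => funext fun o => by cases o <;> rfl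
    simp only [Sum.forall, Sum.elim_inl, Sum.elim_inr, e1, e2, hF, hG]
    exact ⟨fun ⟨⟨y, hy⟩, y', hy'⟩ => ⟨Sum.elim y y', hy, hy'⟩, fun ⟨y, hy, hy'⟩ => ⟨⟨_, hy⟩, _, hy'⟩⟩

/-- existential quantifier over finitely many variables -/
theorem Dio.exF [Fintype κ] {U : (ι → K) → (κ → K) → Prop}
    (h : Dio fun z : ι ⊕ κ → K => U (fun i => z (.inl i)) fun k => z (.inr k)) :
    Dio fun x => ∃ y, U x y := by
  obtain ⟨n, m, F, hF⟩ := h
  refine Dio.intro (κ := κ ⊕ Fin n) (fun j z => eval (fun o => z (Equiv.sumAssoc _ _ _ o)) (F j))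
    (fun j => (PolyF.eval _).comp fun _ => PolyF.var _) fun x => ?_
  have e : ∀ y : κ ⊕ Fin n → K, (fun o => Sum.elim x y (Equiv.sumAssoc ι κ (Fin n) o)) =
      Sum.elim (Sum.elim x fun k => y (.inl k)) fun k => y (.inr k) := fun y => funext fun o => by
    rcases o with (o | o) | o <;> rfl
  simp only [e]
  exact ⟨fun ⟨y, hy⟩ => ((hF (Sum.elim x y)).1 hy).elim fun y' hy' => ⟨Sum.elim y y', hy'⟩,
    fun ⟨y, hy⟩ => ⟨fun k => y (.inl k), (hF (Sum.elim x fun k => y (.inl k))).2 ⟨_, hy⟩⟩⟩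

/-- existential quantifier over one variable, which becomes the variable `none` -/
theorem Dio.ex1 {U : (ι → K) → K → Prop}
    (h : Dio fun z : Option ι → K => U (fun i => z (some i)) (z none)) :
    Dio fun x => ∃ y, U x y := by
  have h1 : Dio fun z : ι ⊕ Unit → K => U (fun i => z (.inl i)) (z (.inr ())) :=
    h.comp (G := fun (z : ι ⊕ Unit → K) o => z (o.elim (Sum.inr ()) Sum.inl)) fun _ => PolyF.var _
  exact (Dio.exF (U := fun x y => U x (y ())) h1).congr fun x =>
    ⟨fun ⟨y, hy⟩ => ⟨fun _ => y, hy⟩, fun ⟨y, hy⟩ => ⟨_, hy⟩⟩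

theorem Dio.all_finset {α : Type} (s : Finset α) {U : α → (ι → K) → Prop}
    (h : ∀ a ∈ s, Dio (U a)) : Dio fun x => ∀ a ∈ s, U a x := by
  induction s using Finset.induction_on with
  | empty => exact Dio.true.congr fun _ => by simp
  | insert a s ha ih =>
    exact ((h a (Finset.mem_insert_self _ _)).and
      (ih fun b hb => h b (Finset.mem_insert_of_mem hb))).congr fun _ => by simp

theorem Dio.all {α : Type} [Fintype α] {U : α → (ι → K) → Prop} (h : ∀ a, Dio (U a)) :
    Dio fun x => ∀ a, U a x :=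
  (Dio.all_finset Finset.univ fun a _ => h a).congr fun _ => by simp

theorem Dio.all_finite {α : Type} {P : α → Prop} (hP : {a | P a}.Finite) {U : α → (ι → K) → Prop}
    (h : ∀ a, P a → Dio (U a)) : Dio fun x => ∀ a, P a → U a x :=
  (Dio.all_finset hP.toFinset fun a ha => h a (by simpa using ha)).congr fun _ => by simp

end Ring

section Field

variable {K ι : Type} [Field K] {f g : (ι → K) → K} {S T : (ι → K) → Prop}

theorem Dio.false : Dio fun _ : ι → K => False :=
  (Dio.eq (PolyF.const (0 : K)) (PolyF.const 1)).congr fun _ => by simp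

theorem Dio.or (hS : Dio S) (hT : Dio T) : Dio fun x => S x ∨ T x := by
  obtain ⟨n, m, F, hF⟩ := hS
  obtain ⟨n', m', G, hG⟩ := hT
  refine Dio.intro (κ := Fin n ⊕ Fin n') (μ := Fin m × Fin m')
    (fun j z => eval (fun o => z (o.map id .inl)) (F j.1) * eval (fun o => z (o.map id .inr)) (G j.2))
    (fun j => ((PolyF.eval _).comp fun _ => PolyF.var _).mul
      ((PolyF.eval _).comp fun _ => PolyF.var _)) fun x => ?_
  have e1 : ∀ y : Fin n ⊕ Fin n' → K, (fun o : ι ⊕ Fin n => Sum.elim x y (o.map id .inl)) =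
      Sum.elim x fun k => y (.inl k) := fun y => funext fun o => by cases o <;> rfl
  have e2 : ∀ y : Fin n ⊕ Fin n' → K, (fun o : ι ⊕ Fin n' => Sum.elim x y (o.map id .inr)) =
      Sum.elim x fun k => y (.inr k) := fun y => funext fun o => by cases o <;> rfl
  simp only [Prod.forall, e1, e2, hF, hG, mul_eq_zero]
  constructor
  · rintro (⟨y, hy⟩ | ⟨y, hy⟩)
    · exact ⟨Sum.elim y 0, fun a _ => Or.inl (hy a)⟩
    · exact ⟨Sum.elim 0 y, fun _ b => Or.inr (hy b)⟩
  · rintro ⟨y, hy⟩
    by_cases h : ∀ a, eval (Sum.elim x fun k => y (.inl k)) (F a) = 0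
    · exact Or.inl ⟨_, h⟩
    · obtain ⟨a, ha⟩ := not_forall.1 h
      exact Or.inr ⟨_, fun b => (hy a b).resolve_left ha⟩

theorem Dio.ne (hf : PolyF f) (hg : PolyF g) : Dio fun x => f x ≠ g x := by
  have h : Dio fun x => ∃ y, y * (f x - g x) = 1 :=
    Dio.ex1 (Dio.eq ((PolyF.var _).mul ((hf.comp fun _ => PolyF.var _).sub
      (hg.comp fun _ => PolyF.var _))) (PolyF.const 1))
  refine h.congr fun x => ⟨fun e => ⟨_, inv_mul_cancel₀ (sub_ne_zero.2 e)⟩, fun ⟨y, hy⟩ e => ?_⟩
  simp [e] at hy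

theorem Dio.ex_finset {α : Type} (s : Finset α) {U : α → (ι → K) → Prop}
    (h : ∀ a ∈ s, Dio (U a)) : Dio fun x => ∃ a ∈ s, U a x := by
  induction s using Finset.induction_on with
  | empty => exact Dio.false.congr fun _ => by simp
  | insert a s ha ih =>
    exact ((h a (Finset.mem_insert_self _ _)).or
      (ih fun b hb => h b (Finset.mem_insert_of_mem hb))).congr fun _ => by simp

theorem Dio.ex {α : Type} [Fintype α] {U : α → (ι → K) → Prop} (h : ∀ a, Dio (U a)) :
    Dio fun x => ∃ a, U a x :=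
  (Dio.ex_finset Finset.univ fun a _ => h a).congr fun _ => by simp

theorem Dio.ex_finite {α : Type} {P : α → Prop} (hP : {a | P a}.Finite) {U : α → (ι → K) → Prop}
    (h : ∀ a, P a → Dio (U a)) : Dio fun x => ∃ a, P a ∧ U a x :=
  (Dio.ex_finset hP.toFinset fun a ha => h a (by simpa using ha)).congr fun _ => by simp

end Field

section Val

variable {L ι : Type} [Field L] [NumberField L] {f g : (ι → L) → L} {v : Pl L}

theorem Dio.vl_le (hv : Dio1 fun x : L => vl v x ≤ 1) (hf : PolyF f) (hg : PolyF g) :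
    Dio fun x => vl v (f x) ≤ vl v (g x) := by
  have h : Dio fun x => ∃ y, vl v y ≤ 1 ∧ f x = y * g x :=
    Dio.ex1 ((hv.mem (PolyF.var none)).and (Dio.eq (hf.comp fun _ => PolyF.var _)
      ((PolyF.var _).mul (hg.comp fun _ => PolyF.var _))))
  refine h.congr fun x => ⟨fun e => ?_, fun ⟨y, hy, e⟩ => ?_⟩
  · rcases eq_or_ne (g x) 0 with h0 | h0
    · rw [h0, map_zero, le_zero_iff, map_eq_zero] at e
      exact ⟨0, by simp, by simp [e]⟩
    · exact ⟨f x / g x, by rw [map_div₀]; exact div_le_one_of_le₀ e zero_le,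
        (div_mul_cancel₀ _ h0).symm⟩
  · rw [e, map_mul]
    exact mul_le_of_le_one_left' hy

theorem Dio.vl_eq (hv : Dio1 fun x : L => vl v x ≤ 1) (hf : PolyF f) (hg : PolyF g) :
    Dio fun x => vl v (f x) = vl v (g x) :=
  ((Dio.vl_le hv hf hg).and (Dio.vl_le hv hg hf)).congr fun _ => le_antisymm_iff

theorem Dio.vl_lt (hv : Dio1 fun x : L => vl v x ≤ 1) (hf : PolyF f) (hg : PolyF g) :
    Dio fun x => vl v (f x) < vl v (g x) := by
  obtain ⟨π, h0, h1⟩ := exists_od_one v
  refine ((Dio.ne hg (PolyF.const 0)).and (Dio.vl_le hv hf ((PolyF.const (π : L)).mul hg))).congr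
    fun x => ?_
  rcases eq_or_ne (g x) 0 with e | e
  · simp [e]
  rcases eq_or_ne (f x) 0 with e' | e'
  · simpa [e', e] using vl_pos v e
  rw [vl_lt_iff v e' e, vl_le_iff v e' (mul_ne_zero h0 e), od_mul v h0 e, h1]
  exact ⟨fun h => ⟨e, by omega⟩, fun h => by omega⟩

end Val

end Pool.Agent.P.MP_e4219a_lc
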