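import Pool.Agent.P.MP_e4219a_lc.Defs

/-! Interface statements: local lemmas and class field theory. Each is proved in its own file. -/

namespace Pool.Agent.P.MP_e4219a_lc

open NumberField IsDedekindDomain Polynomial Finset
open Pool.Agent.P.MP_b8021b_nt Pool.Agent.P.MP_b8021b_nt.VE Pool.Agent.P.MP_b8021b_nt.VC
open scoped Classical ComplexConjugate

/-! ### results of the library on ray class characters -/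

/-- the facts taken from the library, for fields that contain a cube root of unity -/
structure IFace : Prop where
  hl : VE.S_Lam
  ep : VC.S_EP
  kd : VC.S_KD
  tame : VC.S_Tame
  ng : VC.S_NG
  rep : ∀ (L : Type) [Field L] [NumberField L], Om L → ∀ n : ℕ, 2 ≤ n →
    ∃ 𝒳 : Finset (Ideal (𝓞 L) →* ℂ), (∀ χ, χ ∈ 𝒳 ↔ RC n χ) ∧ ∀ 𝔟 𝔟', Cop n 𝔟 → Cop n 𝔟' →
      ∑ ψ ∈ 𝒳, ψ 𝔟 * conj (ψ 𝔟') = if Ray n 𝔟 𝔟' then (𝒳.card : ℂ) else 0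
  den1 : ∀ (L : Type) [Field L] [NumberField L], Om L → ∀ n : ℕ, 2 ≤ n → ∃ C : ℝ, ∀ s : ℝ,
    1 < s → s ≤ 2 → |dsum (lam (triv L n)) s - Real.log (1 / (s - 1))| ≤ C
  den2 : ∀ (L : Type) [Field L] [NumberField L], Om L → ∀ (n : ℕ) (χ : Ideal (𝓞 L) →* ℂ), 2 ≤ n →
    RC n χ → ¬ IsTriv n χ → ∃ C : ℝ, ∀ s : ℝ, 1 < s → s ≤ 2 → dsum (lam χ) s ≤ C
  up1 : ∀ (L : Type) [Field L] [NumberField L], Om L → ∀ n : ℕ, 2 ≤ n →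
    DS.Up (fun q => (lam (triv L n) q).re) 1 ∧ DS.Up (fun q => -(lam (triv L n) q).re) (-1)
  up2 : ∀ (L : Type) [Field L] [NumberField L], Om L → ∀ (n : ℕ) (χ : Ideal (𝓞 L) →* ℂ), 2 ≤ n →
    RC n χ → ¬ IsTriv n χ → DS.Up (fun q => (lam χ q).re) 0
  ps : ∀ (L : Type) [Field L] [NumberField L], Om L → ∀ (n : ℕ) (χ : Ideal (𝓞 L) →* ℂ), 2 ≤ n →
    RC n χ → ¬ IsTriv n χ → ∃ C η : ℝ, 0 < η ∧ ∀ X : ℕ,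
      ‖∑ j ∈ Finset.Icc 1 X, lam χ j‖ ≤ C * (X : ℝ) ^ (1 - η)
  tr : ∀ (L : Type) [Field L] [NumberField L], Om L → ∀ (n m : ℕ) (χ : Ideal (𝓞 L) →* ℂ), 2 ≤ n →
    m ≠ 0 → RC n χ → (∀ I : Ideal (𝓞 L), (Ideal.absNorm I).Prime → ¬ Ideal.absNorm I ∣ m →
      χ I = 1) → IsTriv n χ
  sec : ∀ (E E' : Type) [Field E] [NumberField E] [Field E'] [NumberField E'] [Algebra E E'],
    Om E → ∀ (n : ℕ) (𝒴 : Finset (Ideal (𝓞 E) →* ℂ)), 2 ≤ n →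
    (∀ ξ ∈ 𝒴, RC n ξ ∧ IsTriv n (nrm E' ξ)) → 𝒴.card ≤ Module.finrank E E'
  bc : ∀ (E : Type) [Field E] [NumberField E], Om E → ∀ (n : ℕ) (χ : Ideal (𝓞 E) →* ℂ), 2 ≤ n →
    RC n χ → RC n (cj χ) ∧ (∀ χ', RC n χ' → RC n (χ * χ')) ∧
      (∀ n' : ℕ, n' ≠ 0 → n ∣ n' → RC n' (χ * triv E n')) ∧
      ∀ (E' : Type) [Field E'] [NumberField E'] [Algebra E E'], RC n (nrm E' χ)
  hnp : ∀ (E E' : Type) [Field E] [NumberField E] [Field E'] [NumberField E'] [Algebra E E']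
    [IsGalois E E'], Om E → ∀ (n : ℕ) (α β : 𝓞 E) (A B : Ideal (𝓞 E')),
    (Module.finrank E E').Prime → 2 ≤ n →
    (∀ 𝔓 : Ideal (𝓞 E'), 𝔓.IsMaximal → RamP E 𝔓 →
      (n : 𝓞 E') ∈ 𝔓 ∧ ((Module.finrank E E' : ℕ) : 𝓞 E') ∉ 𝔓) →
    (n : 𝓞 E) ∣ α - 1 → (n : 𝓞 E) ∣ β - 1 → A ≠ ⊥ → B ≠ ⊥ →
    Ideal.relNorm (𝓞 E) A * Ideal.span {α} = Ideal.relNorm (𝓞 E) B * Ideal.span {β} →
    ∃ δ : E', Algebra.norm E δ * α = β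

/-! ### local lemmas -/

/-- totally complex fields -/
def Z_Pos : Prop :=
  ∀ (E : Type) [Field E] [NumberField E], Om E → 2 ∣ Module.finrank ℚ E ∧
    NumberField.Units.rank E + 1 = Module.finrank ℚ E / 2 ∧
    (∀ a : 𝓞 E, (Ideal.absNorm (Ideal.span {a}) : ℤ) = Algebra.norm ℤ a) ∧
    (∀ (N : ℕ) (a : 𝓞 E), (N : 𝓞 E) ∣ a - 1 → Ideal.absNorm (Ideal.span {a}) ≡ 1 [MOD N]) ∧
    ∀ (N : ℕ) (ζ : E) (I : Ideal (𝓞 E)), 2 ≤ N → IsPrimitiveRoot ζ N → Cop N I →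
      Ideal.absNorm I ≡ 1 [MOD N]

/-- roots and norms in the completion -/
def Z_Hen : Prop :=
  ∀ (L : Type) [Field L] [NumberField L] (ℓ : ℕ) (v : Pl L), El ℓ →
    (∀ x : v.adicCompletion L, Valued.v (x - 1) < Valued.v (ℓ : v.adicCompletion L) ^ 2 →
      ∃ r : v.adicCompletion L, r ^ ℓ = x ∧
        Valued.v (r - 1) * Valued.v (ℓ : v.adicCompletion L) ≤ Valued.v (x - 1)) ∧
    (∀ y : L, LP ℓ v y ↔ y ≠ 0 ∧ ∃ r : v.adicCompletion L, algebraMap L _ y = r ^ ℓ) ∧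
    ∀ b c : L, c ≠ 0 →
      NV ℓ (algebraMap L (v.adicCompletion L) b) (algebraMap L (v.adicCompletion L) c) → LN ℓ v b c

/-- approximation -/
def Z_WA : Prop :=
  ∀ (L : Type) [Field L] [NumberField L],
    (∀ (V : Finset (Pl L)) (x : Pl L → L) (k : ℕ), (∀ v ∈ V, vl v (x v) ≤ 1) →
      ∃ y : 𝓞 L, ∀ v ∈ V, vl v (y - x v) ≤ WithZero.exp (-(k : ℤ))) ∧
    (∀ (V : Finset (Pl L)) (x : Pl L → L) (k : ℕ),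
      ∃ y : L, ∀ v ∈ V, vl v (y - x v) ≤ WithZero.exp (-(k : ℤ))) ∧
    (∀ (V : Finset (Pl L)) (e : Pl L → ℤ) (n : ℕ), n ≠ 0 → (∀ v ∈ V, ¬ Dv n v) →
      ∃ z : L, z ≠ 0 ∧ One n z ∧ ∀ v ∈ V, od v z = e v) ∧
    (∀ (v : Pl L) (k : ℕ), ∃ Φ : Finset L, ∀ x : L, vl v x ≤ 1 →
      ∃ f ∈ Φ, vl v (x - f) ≤ WithZero.exp (-(k : ℤ))) ∧
    (∀ (n : ℕ) (x : L), n ≠ 0 → (∀ v, Dv n v → vl v x ≤ 1) →
      ∃ (D : ℕ) (a : 𝓞 L), D.Coprime n ∧ D * x = a) ∧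
    (∀ (n : ℕ) (x : L), n ≠ 0 → (∀ v, Dv n v → vl v x = 1) →
      ∃ α β : 𝓞 L, IsCoprime α n ∧ IsCoprime β n ∧ x * β = α) ∧
    (∀ (m : ℕ) (x : L), m ≠ 0 → (∀ v, Dv m v → vl v x = 1) →
      ∃ n : ℕ, n ≠ 0 ∧ n.Coprime m ∧ ∀ v, ¬ Dv n v → od v x = 0) ∧
    ∀ v₀ : Pl L, ∃ ρ : L, 1 < vl v₀ ρ ∧ ∀ v, v ≠ v₀ → vl v ρ ≤ 1

/-- places in an extension -/
def Z_Ex : Prop :=
  ∀ (L M : Type) [Field L] [NumberField L] [Field M] [NumberField M] [Algebra L M],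
    (∀ w : Pl M, ∃ (v : Pl L) (e : ℕ), 1 ≤ e ∧ Und v w.asIdeal ∧
      ∀ x : L, vl w (algebraMap L M x) = vl v x ^ e) ∧
    (∀ v : Pl L, ∃ w : Pl M, Und v w.asIdeal) ∧
    (∀ (v : Pl L) (w : Pl M), Und v w.asIdeal → ∃ f : ℕ, 1 ≤ f ∧
      Ideal.relNorm (𝓞 L) w.asIdeal = v.asIdeal ^ f ∧
      Ideal.absNorm w.asIdeal = Ideal.absNorm v.asIdeal ^ f ∧
      (f = 1 → ∀ y : 𝓞 M, ∃ a : 𝓞 L, y - algebraMap (𝓞 L) (𝓞 M) a ∈ w.asIdeal)) ∧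
    (∀ (ℓ : ℕ) (v : Pl L) (w : Pl M) (x : L), Und v w.asIdeal → LP ℓ v x →
      LP ℓ w (algebraMap L M x)) ∧
    ∀ a : 𝓞 M, ∃ a' : 𝓞 L, (a' : L) = Algebra.norm L (a : M) ∧
      Ideal.relNorm (𝓞 L) (Ideal.span {a}) = Ideal.span {a'}

/-- residue fields -/
def Z_Res : Prop :=
  ∀ (L : Type) [Field L] [NumberField L] (v : Pl L),
    (∃ δ : 𝓞 L, ∀ a : 𝓞 L, a ^ 2 - a - δ ∉ v.asIdeal) ∧
    (∀ (δ : 𝓞 L) (x : L), (∀ a : 𝓞 L, a ^ 2 - a - δ ∉ v.asIdeal) → vl v (x - δ) < 1 →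
      vl v (1 + 4 * x) = 1 ∧ ¬ LP 2 v (1 + 4 * x) ∧ ∀ c, LN 2 v (1 + 4 * x) c → 2 ∣ od v c) ∧
    ∀ y y' : L, ¬ Dv 2 v → y ≠ 0 → y' ≠ 0 → 2 ∣ od v y → 2 ∣ od v y' → ¬ LP 2 v y → ¬ LP 2 v y' →
      LP 2 v (y * y')

/-- extension of a character to the elements of the field -/
def Z_Ext : Prop :=
  ∀ (L : Type) [Field L] [NumberField L] (n : ℕ) (χ : Ideal (𝓞 L) →* ℂ), 2 ≤ n → IsChar n χ →
    ∃ χt : L →*₀ ℂ, (∀ α : 𝓞 L, IsCoprime α n → χt α = χ (Ideal.span {α})) ∧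
      (∀ x : L, x ≠ 0 → (∀ v, ¬ Dv n v → χ v.asIdeal ^ od v x = 1) → χt x = 1) ∧
      ∀ (x : L) (v₀ : Pl L), x ≠ 0 → ¬ Dv n v₀ →
        (∀ v, v ≠ v₀ → ¬ Dv n v → χ v.asIdeal ^ od v x = 1) → χt x = χ v₀.asIdeal ^ od v₀ x

/-! ### Kummer extensions -/

/-- existence and norm form -/
def Z_Kum : Prop :=
  ∀ (L : Type) [Field L] [NumberField L] (ℓ : ℕ) (b : L), Om L → El ℓ → (¬ ∃ z : L, b = z ^ ℓ) →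
    ∃ (M : Type) (_ : Field M) (_ : NumberField M) (_ : Algebra L M) (_ : IsGalois L M) (β : M),
      Kum ℓ b β ∧ ∀ c : L, NV ℓ b c ↔ ∃ δ : M, Algebra.norm L δ = c

/-- ramification and splitting -/
def Z_KP : Prop :=
  ∀ (L M : Type) [Field L] [NumberField L] [Field M] [NumberField M] [Algebra L M] [IsGalois L M]
    (ℓ : ℕ) (b : L) (β : M), Om L → El ℓ → Kum ℓ b β → ∀ v : Pl L,
    (∀ 𝔓 : Ideal (𝓞 M), 𝔓.IsMaximal → RamP L 𝔓 → Und v 𝔓 →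
      (Dv ℓ v ∨ ¬ (ℓ : ℤ) ∣ od v b) ∧ ¬ (ℓ = 2 ∧ Dv 2 v ∧ vl v (b - 1) ≤ vl v 4)) ∧
    (¬ Dv ℓ v → LP ℓ v b → (∃ w : Pl M, Ideal.relNorm (𝓞 L) w.asIdeal = v.asIdeal) ∧
      ((Ideal.absNorm v.asIdeal).Prime →
        (Over M (Ideal.absNorm v.asIdeal) v.asIdeal).ncard = ℓ)) ∧
    (¬ Dv ℓ v → (ℓ : ℤ) ∣ od v b → ¬ LP ℓ v b →
      (∀ A : Ideal (𝓞 M), A ≠ ⊥ → ℓ ∣ cnt v (Ideal.relNorm (𝓞 L) A)) ∧
      Over M (Ideal.absNorm v.asIdeal) v.asIdeal = ∅)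

/-- a power that appears in a Kummer extension -/
def Z_KI : Prop :=
  ∀ (L M : Type) [Field L] [Field M] [CharZero L] [Algebra L M] (ℓ : ℕ) (b y : L) (β : M), Om L →
    El ℓ → b ≠ 0 → β ^ ℓ = algebraMap L M b → IntermediateField.adjoin L {β} = ⊤ →
    (∃ z : M, algebraMap L M y = z ^ ℓ) → ∃ (j : ℕ) (z : L), y * b ^ j = z ^ ℓ

/-! ### the first inequality and reciprocity -/

/-- not every unit is a norm at a ramified prime -/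
def Z_U1w : Prop :=
  ∀ (F K : Type) [Field F] [NumberField F] [Field K] [NumberField K] [Algebra F K] [IsGalois F K]
    (n : ℕ) (S : Finset (Ideal (𝓞 K))) (U : Subgroup Fˣ), El (Module.finrank F K) → n ≠ 0 →
    (∀ 𝔓 ∈ S, 𝔓.IsMaximal ∧ RamP F 𝔓 ∧ (n : 𝓞 K) ∈ 𝔓) →
    (∀ γ : Fˣ, γ ∈ U ↔ ∃ a b : 𝓞 F, IsCoprime a n ∧ IsCoprime b n ∧ (γ : F) * b = a) →
    ∃ (j : ℕ) (U₁ : Subgroup Fˣ), 1 ≤ j ∧ U₁ ≤ U ∧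
      Module.finrank F K ^ S.card ≤ U₁.relIndex U ∧
      ∀ γ ∈ U, (∀ v : Pl F, (∃ 𝔓 ∈ S, Und v 𝔓) → ∃ δ : K,
        vl v (γ / Algebra.norm F δ - 1) ≤ WithZero.exp (-(j : ℤ))) → γ ∈ U₁

/-- the first inequality -/
def Z_FI : Prop :=
  ∀ (L M : Type) [Field L] [NumberField L] [Field M] [NumberField M] [Algebra L M] [IsGalois L M]
    (n : ℕ), Om L → El (Module.finrank L M) → 2 ≤ n →
    (∀ 𝔓 : Ideal (𝓞 M), 𝔓.IsMaximal → RamP L 𝔓 → (n : 𝓞 M) ∈ 𝔓) →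
    ∃ (j : ℕ) (χ : Ideal (𝓞 L) →* ℂ), 1 ≤ j ∧ RC (n ^ j) χ ∧ ¬ IsTriv (n ^ j) χ ∧
      IsTriv (n ^ j) (nrm M χ) ∧ ∀ α β : 𝓞 L, IsCoprime α n → IsCoprime β n →
        (∀ (v : Pl L) (𝔓 : Ideal (𝓞 M)), 𝔓.IsMaximal → RamP L 𝔓 → Und v 𝔓 → ∃ δ : M,
          vl v (α / β / Algebra.norm L δ - 1) ≤ WithZero.exp (-(j : ℤ))) →
        χ (Ideal.span {α}) = χ (Ideal.span {β})

/-- the crossing with a cyclotomic extension -/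
def Z_AR1 : Prop :=
  ∀ (L M : Type) [Field L] [NumberField L] [Field M] [NumberField M] [Algebra L M] [IsGalois L M]
    (ℓ N : ℕ) (b : L) (β : M) (χ : Ideal (𝓞 L) →* ℂ) (v : Pl L), Om L → El ℓ → Kum ℓ b β →
    2 ≤ N → RC N χ → IsTriv N (nrm M χ) → ¬ Dv N v → ¬ Dv ℓ v → (ℓ : ℤ) ∣ od v b → ¬ LP ℓ v b →
    χ v.asIdeal = 1 →
    ∃ (E : Type) (_ : Field E) (_ : NumberField E) (_ : Algebra L E) (N' : ℕ), N' ≠ 0 ∧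
      (¬ ∃ z : E, algebraMap L E b = z ^ ℓ) ∧ IsTriv N' (nrm E χ)

/-- a character that kills the norms from two independent fields -/
def Z_AR2 : Prop :=
  ∀ (L M E : Type) [Field L] [NumberField L] [Field M] [NumberField M] [Algebra L M] [IsGalois L M]
    [Field E] [NumberField E] [Algebra L E] (ℓ N N' : ℕ) (b : L) (β : M)
    (χ : Ideal (𝓞 L) →* ℂ), Om L → El ℓ → Kum ℓ b β → 2 ≤ N → N' ≠ 0 → RC N χ →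
    IsTriv N (nrm M χ) → (¬ ∃ z : E, algebraMap L E b = z ^ ℓ) → IsTriv N' (nrm E χ) → IsTriv N χ

/-- the character is nontrivial at the inert primes -/
def Z_AR : Prop :=
  ∀ (L M : Type) [Field L] [NumberField L] [Field M] [NumberField M] [Algebra L M] [IsGalois L M]
    (ℓ N : ℕ) (b : L) (β : M) (χ : Ideal (𝓞 L) →* ℂ) (v : Pl L), Om L → El ℓ → Kum ℓ b β →
    2 ≤ N → RC N χ → ¬ IsTriv N χ → IsTriv N (nrm M χ) → ¬ Dv N v → ¬ Dv ℓ v → (ℓ : ℤ) ∣ od v b →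
    ¬ LP ℓ v b → χ v.asIdeal ≠ 1

theorem p_ar (h1 : Z_AR1) (h2 : Z_AR2) : Z_AR := by
  intro L M _ _ _ _ _ _ ℓ N b β χ v hL hℓ hK hN hχ hn hM a1 a2 a3 a4 h
  obtain ⟨E, _, _, _, N', b1, b2, b3⟩ := h1 L M ℓ N b β χ v hL hℓ hK hN hχ hM a1 a2 a3 a4 h
  exact hn (h2 L M E ℓ N N' b β χ hL hℓ hK hN b1 hχ hM b2 b3)

/-- the norm residue symbol is not nontrivial at exactly one place -/
def Z_WR : Prop :=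
  ∀ (L : Type) [Field L] [NumberField L] (ℓ n : ℕ) (b c : L) (v₀ : Pl L), Om L → El ℓ → 2 ≤ n →
    ℓ ∣ n → b ≠ 0 → c ≠ 0 → ¬ Dv n v₀ → (∀ v, ¬ Dv n v → (ℓ : ℤ) ∣ od v b) → ¬ LP ℓ v₀ b →
    (∀ v, v ≠ v₀ → LN ℓ v b c ∨ (¬ Dv ℓ v ∧ (ℓ : ℤ) ∣ od v b ∧ (ℓ : ℤ) ∣ od v c)) →
    (ℓ : ℤ) ∣ od v₀ c

/-- an inert prime of degree one -/
def Z_C1 : Prop :=
  ∀ (E : Type) [Field E] [NumberField E] (ℓ m : ℕ) (y : E), Om E → El ℓ → m ≠ 0 →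
    (¬ ∃ z : E, y = z ^ ℓ) → ∃ v : Pl E, (Ideal.absNorm v.asIdeal).Prime ∧ ¬ Dv m v ∧ ¬ LP ℓ v y

/-- primes with prescribed splitting -/
def Z_C : Prop :=
  ∀ (L : Type) [Field L] [NumberField L] (ℓ m t : ℕ) (y : Fin t → L), Om L → El ℓ → m ≠ 0 →
    (∀ i, y i ≠ 0) → (∀ c : Fin t → ℕ, (∃ z : L, ∏ i, y i ^ c i = z ^ ℓ) → ∀ i, ℓ ∣ c i) →
    ∃ π : Fin t → Pl L, ∀ j, ¬ Dv m (π j) ∧ ∀ i, LP ℓ (π j) (y i) ↔ i ≠ j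

/-- generators of the class group; finiteness of the classes that are unramified outside `n` -/
def Z_ES : Prop :=
  ∀ (L : Type) [Field L] [NumberField L],
    (∀ m : ℕ, m ≠ 0 → ∃ n : ℕ, n ≠ 0 ∧ m ∣ n ∧ Gen L n) ∧
    ∀ n ℓ : ℕ, n ≠ 0 → ℓ ≠ 0 → ∃ Y : Finset L, ∀ y : L, y ≠ 0 →
      (∀ v, ¬ Dv n v → (ℓ : ℤ) ∣ od v y) → ∃ y₀ ∈ Y, ∃ z : L, y = y₀ * z ^ ℓ

/-- many independent units outside `n` -/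
def Z_ES2 : Prop :=
  ∀ (L : Type) [Field L] [NumberField L] (n : ℕ), Om L → n ≠ 0 → ∃ Y : Finset L,
    Y.card = 2 ^ (nPl L n + Module.finrank ℚ L / 2) ∧
    (∀ y ∈ Y, y ≠ 0 ∧ ∀ v, ¬ Dv n v → od v y = 0) ∧
    ∀ y ∈ Y, ∀ y' ∈ Y, (∃ z : L, y * y' = z ^ 2) → y = y'

/-- upper bound for the number of quadratic characters -/
def Z_X2 : Prop :=
  ∀ (L : Type) [Field L] [NumberField L] (N : ℕ) (𝒴 : Finset (Ideal (𝓞 L) →* ℂ)) (Y : Finset L),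
    2 ≤ N → 2 ∣ N → Gen L N → (∀ χ ∈ 𝒴, RC N χ ∧ ∀ I, Cop N I → χ I ^ 2 = 1) →
    (∀ y ∈ Y, y ≠ 0 ∧ ∀ v, ¬ Dv N v → od v y = 0) →
    (∀ y ∈ Y, ∀ y' ∈ Y, (∃ z : L, z ≠ 0 ∧ One N (y * y' * z ^ 2)) → y = y') →
    𝒴.card * Y.card ≤ 2 ^ (2 * nPl L N + Module.finrank ℚ L)

/-- the quadratic residue symbol is a ray class character -/
def Z_Chi : Prop :=
  ∀ (L : Type) [Field L] [NumberField L] (n : ℕ) (y : L), Om L → 2 ≤ n → 2 ∣ n → y ≠ 0 →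
    (∀ v, ¬ Dv n v → 2 ∣ od v y) → ∃ (j : ℕ) (χ : Ideal (𝓞 L) →* ℂ), 1 ≤ j ∧ RC (n ^ j) χ ∧
      (∀ v, ¬ Dv n v → χ v.asIdeal = if LP 2 v y then 1 else -1) ∧
      ((¬ ∃ z : L, y = z ^ 2) → ∃ C : ℝ, ∀ s : ℝ, 1 < s → s ≤ 2 → -C ≤ dsum (lam χ) s)

/-- nonvanishing for real characters -/
def Z_NV2 : Prop :=
  ∀ (L : Type) [Field L] [NumberField L] (n : ℕ) (χ : Ideal (𝓞 L) →* ℂ), Om L → 2 ≤ n → RC n χ →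
    ¬ IsTriv n χ → (∀ I, Cop n I → χ I ^ 2 = 1) →
    ∃ C : ℝ, ∀ s : ℝ, 1 < s → s ≤ 2 → -C ≤ dsum (lam χ) s

/-- nonvanishing for complex characters -/
def Z_NVc : Prop :=
  ∀ (L : Type) [Field L] [NumberField L] (n : ℕ) (χ : Ideal (𝓞 L) →* ℂ), Om L → 2 ≤ n → RC n χ →
    (∃ I, Cop n I ∧ χ I ^ 2 ≠ 1) → ∃ C : ℝ, ∀ s : ℝ, 1 < s → s ≤ 2 → -C ≤ dsum (lam χ) s

/-- from a Dirichlet series to a counting function -/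
def Z_Tau : Prop :=
  ∀ (a : ℕ → ℕ) (d : ℕ) (κ C : ℝ), 0 < κ → (∀ q, q.Prime → a q ≤ d) →
    (∀ s : ℝ, 1 < s → s ≤ 2 → κ * Real.log (1 / (s - 1)) - C ≤ DS.ds (fun q => a q) s) →
    ∃ δ : ℝ, 0 < δ ∧ ∀ X₀ : ℕ, ∃ X : ℕ, X₀ ≤ X ∧
      δ * X ≤ (∑ q ∈ (range (X + 1)).filter Nat.Prime, (a q : ℝ)) * Real.log X

/-- primes in a ray class -/
def Z_PC : Prop :=
  ∀ (L : Type) [Field L] [NumberField L] (ℓ n : ℕ) (𝔠 : Ideal (𝓞 L)), Om L → 2 ≤ ℓ → 2 ≤ n →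
    Cop n 𝔠 → ∃ (e : ℕ) (δ : ℝ), ¬ ℓ ∣ e ∧ 0 < δ ∧ ∀ X₀ : ℕ, ∃ (X : ℕ) (𝒬 : Finset (Pl L)),
      X₀ ≤ X ∧ δ * X ≤ 𝒬.card * Real.log X ∧ ∀ q ∈ 𝒬, (Ideal.absNorm q.asIdeal).Prime ∧
        Ideal.absNorm q.asIdeal ≤ X ∧
        ∃ u : 𝓞 L, (n : 𝓞 L) ∣ u - 1 ∧ Ideal.span {u} = 𝔠 ^ e * q.asIdeal

/-- the kernel of the character of a quadratic extension -/
def Z_Idx : Prop :=
  ∀ (L M : Type) [Field L] [NumberField L] [Field M] [NumberField M] [Algebra L M] (N : ℕ)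
    (χ : Ideal (𝓞 L) →* ℂ) (𝔞 : Ideal (𝓞 L)), Om L → Module.finrank L M = 2 → 2 ≤ N → RC N χ →
    ¬ IsTriv N χ → IsTriv N (nrm M χ) → Cop N 𝔞 → χ 𝔞 = 1 →
    ∃ A : Ideal (𝓞 M), Cop N A ∧ Ray N 𝔞 (Ideal.relNorm (𝓞 L) A)

/-- a norm residue symbol that is nontrivial at two given places only -/
def Z_BEx : Prop :=
  ∀ (L : Type) [Field L] [NumberField L] (n : ℕ) (b : L) (p q : Pl L), Om L → 2 ≤ n → 2 ∣ n →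
    b ≠ 0 → (∀ v, ¬ Dv n v → od v b = 0) → p ≠ q → ¬ Dv n p → ¬ Dv n q → ¬ LP 2 p b → ¬ LP 2 q b →
    ∃ c : L, c ≠ 0 ∧ One n c ∧ od p c = 1 ∧ od q c = 1 ∧
      ∀ v, v ≠ p → v ≠ q → 2 ∣ od v c ∨ (¬ Dv 2 v ∧ LP 2 v b)

/-- the Hasse norm theorem for a quadratic extension that is unramified at two -/
def Z_HN2 : Prop :=
  ∀ (F : Type) [Field F] [NumberField F] (n : ℕ) (δ : 𝓞 F) (c : F), Om F → 2 ≤ n →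
    (∀ w : Pl F, 1 + 4 * δ ∈ w.asIdeal → Dv n w) → (1 + 4 * δ : F) ≠ 0 → c ≠ 0 → One n c →
    (∀ w : Pl F, 2 ∣ od w c ∨ (¬ Dv 2 w ∧ LP 2 w (1 + 4 * δ : F))) → NV 2 (1 + 4 * δ : F) c

end Pool.Agent.P.MP_e4219a_lc
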