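import Pool.Agent.P.MP_e4219a_lc.Defs

/-! Interface statements: differences in sifted sets. Each is proved in its own file. -/

namespace Pool.Agent.P.MP_e4219a_lc

open NumberField IsDedekindDomain Finset
open Pool.Agent.P.MP_b8021b_nt Pool.Agent.P.MP_b8021b_nt.VE Pool.Agent.P.MP_b8021b_nt.VC
open scoped Classical

/-- estimates of Mertens type -/
def Z_Mer : Prop :=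
  ∃ C : ℝ, 1 ≤ C ∧
    (∀ x : ℕ, 1 ≤ x → ∑ p ∈ (range (x + 1)).filter Nat.Prime, Real.log p / p ≤ Real.log x + C) ∧
    (∀ x : ℕ, 2 ≤ x →
      ∑ p ∈ (range (x + 1)).filter Nat.Prime, (1 : ℝ) / p ≤ Real.log (Real.log x) + C) ∧
    ∀ (z : ℕ) (T : Finset ℕ), 3 ≤ z → (∀ p ∈ T, p.Prime ∧ z < p) →
      ∑ p ∈ T, (p : ℝ) ^ (-(1 + 1 / Real.log z)) ≤ C

/-- the inequality of Montgomery -/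
def Z_Mont : Prop :=
  ∀ (d : ℕ) (A : Finset ℕ) (Ω : ℕ → Finset ℕ) (s : Finset ℕ) (α : UnitAddCircle), Sift d A Ω →
    (∀ p ∈ s, p.Prime) →
    (∏ p ∈ s, ((Ω p).card : ℝ) / (p - (Ω p).card)) * ‖ex A α‖ ^ 2 ≤
      ∑ᶠ ρ ∈ {ρ : UnitAddCircle | addOrderOf ρ = ∏ p ∈ s, p}, ‖ex A (α + ρ)‖ ^ 2

/-- lower bound for the sieve sum -/
def Z_Hlow : Prop :=
  ∀ (s : Finset ℕ) (h : ℕ → ℝ) (R : ℝ), (∀ p ∈ s, 1 ≤ p ∧ 0 ≤ h p) → 1 < R →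
    ∑ p ∈ s, h p / (1 + h p) * Real.log p ≤ Real.log R / 2 →
    (∏ p ∈ s, (1 + h p)) / 2 ≤
      ∑ t ∈ s.powerset.filter fun t => ((∏ p ∈ t, p : ℕ) : ℝ) ≤ R, ∏ p ∈ t, h p

/-- orthogonality and the arc around zero -/
def Z_Par : Prop :=
  ∀ A : Finset ℕ, mass A Set.univ = A.card ∧
    (∀ D : ℕ, (∀ a ∈ A, ∀ a' ∈ A, a ≠ a' + D) →
      ∫ α, ((‖ex A α‖ ^ 2 : ℝ) : ℂ) * fourier (D : ℤ) α ∂AddCircle.haarAddCircle = 0) ∧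
    ∀ N : ℕ, 1 ≤ N → A ⊆ range N →
      (A.card : ℝ) ^ 2 / (16 * N) ≤ mass A {α | ‖α‖ ≤ 1 / (8 * N)}

/-- the mass on a set of frequencies with smooth denominators -/
def Z_MB : Prop :=
  ∀ d : ℕ, ∃ N₀ : ℕ, ∀ (N Q : ℕ) (A : Finset ℕ) (Ω : ℕ → Finset ℕ) (𝔐 : Set UnitAddCircle),
    N₀ ≤ N → Sift d A Ω → MeasurableSet 𝔐 →
    (∀ α ∈ 𝔐, ∀ α' ∈ 𝔐, ∃ D : ℕ, 1 ≤ D ∧ (∀ p : ℕ, p.Prime → p ∣ D → p ≤ Q) ∧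
      ‖D • (α - α')‖ * √N < 1) →
    mass A 𝔐 ≤ 2 * A.card * Real.exp (-wt d N Q Ω)

/-- many small multiples -/
def Z_Vin : Prop :=
  ∃ C : ℕ, 1 ≤ C ∧ ∀ (Y : ℕ) (σ ε : ℝ) (γ : UnitAddCircle), 0 < σ → σ ≤ 1 / 2 → 0 ≤ ε →
    ε ≤ σ ^ C → 1 ≤ σ ^ C * Y → σ * Y ≤ ((Icc 1 Y).filter fun h : ℕ => ‖h • γ‖ ≤ ε).card →
    ∃ q : ℕ, 1 ≤ q ∧ q * σ ^ C ≤ 1 ∧ ‖q • γ‖ * (σ ^ C * Y) ≤ ε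

/-- large quadratic Weyl sums -/
def Z_W2 : Prop :=
  ∃ C : ℕ, 1 ≤ C ∧ ∀ (Y Y' : ℕ) (η : ℝ) (α β : UnitAddCircle), 0 < η → η ≤ 1 / 2 → Y' ≤ Y →
    1 ≤ η ^ C * Y →
    η * Y ≤ ‖∑ w ∈ Icc 1 Y', fourier ((w ^ 2 : ℕ) : ℤ) α * fourier (w : ℤ) β‖ →
    ∃ q : ℕ, 1 ≤ q ∧ q * η ^ C ≤ 1 ∧ ‖q • α‖ * (η ^ C * (Y : ℝ) ^ 2) ≤ 1

/-- large Weyl sums -/
def Z_W : Prop :=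
  ∀ ℓ : ℕ, El ℓ → ∃ C : ℕ, 1 ≤ C ∧ ∀ (Y : ℕ) (η : ℝ) (γ : UnitAddCircle), 0 < η → η ≤ 1 / 2 →
    1 ≤ η ^ C * Y → η * Y ≤ ‖∑ w ∈ Icc 1 Y, fourier ((w ^ ℓ : ℕ) : ℤ) γ‖ →
    ∃ q : ℕ, 1 ≤ q ∧ q * η ^ C ≤ 1 ∧ ‖q • γ‖ * (η ^ C * (Y : ℝ) ^ ℓ) ≤ 1

/-- one step of the argument: a lower bound for the mass between two cores -/
def Z_Core : Prop :=
  ∀ (ℓ C W Y i₀ i₁ : ℕ) (τ τ' : ℝ) (A : Finset ℕ) (K : ℕ → ℝ), 1 ≤ ℓ → 1 ≤ W → 1 ≤ Y → 1 ≤ i₀ →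
    i₀ ≤ i₁ → 0 ≤ τ → (Y : ℝ) ^ ℓ * τ ≤ 1 / 8 → τ * ((2 ^ (C * i₀)).factorial : ℝ) ^ ℓ ≤ τ' →
    ((2 ^ (C * i₀)).factorial : ℝ) ^ ℓ * 2 ^ (C * i₀) ≤ τ' * (Y : ℝ) ^ ℓ →
    (∀ i, i₀ ≤ i → i ≤ i₁ → ∀ γ : UnitAddCircle,
      (Y : ℝ) / 2 ^ i ≤ ‖∑ w ∈ Icc 1 Y, fourier ((w ^ ℓ : ℕ) : ℤ) γ‖ →
      ∃ q : ℕ, 1 ≤ q ∧ q ≤ 2 ^ (C * i) ∧ ‖q • γ‖ * (Y : ℝ) ^ ℓ ≤ 2 ^ (C * i)) →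
    (∀ i, i₀ < i → i ≤ i₁ → mass A {α | ∃ q : ℕ, 1 ≤ q ∧ q ≤ 2 ^ (C * i) ∧
      ‖(q * W ^ ℓ) • α‖ * (Y : ℝ) ^ ℓ ≤ 2 ^ (C * i)} ≤ K i) →
    (∀ a ∈ A, ∀ a' ∈ A, ∀ w, 1 ≤ w → a ≠ a' + (W * w) ^ ℓ) →
    3 / 2 * mass A {α | ‖W ^ ℓ • α‖ ≤ τ} ≤
      mass A {α | ‖(W * (2 ^ (C * i₀)).factorial) ^ ℓ • α‖ ≤ τ'} +
        ∑ i ∈ Ioc i₀ i₁, 2 / 2 ^ i * K i + A.card / 2 ^ i₁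

/-- differences in a sifted set -/
def Z_Sar : Prop :=
  ∀ (ℓ d m : ℕ) (δ : ℝ), El ℓ → 1 ≤ m → 0 < δ → ∃ N₀ : ℕ, ∀ (N : ℕ) (A : Finset ℕ)
    (Ω : ℕ → Finset ℕ), N₀ ≤ N → A ⊆ range N → Sift d A Ω →
    δ * N ≤ A.card * Real.exp (wt d N 0 Ω) →
    ∃ a ∈ A, ∃ a' ∈ A, ∃ w : ℕ, 1 ≤ w ∧ a = a' + (m * w) ^ ℓ

/-- most lines meet few hyperplanes -/
def Z_Ind : Prop :=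
  ∀ (d K : ℕ) (c ε : ℝ), 0 ≤ c → 0 < ε → ∃ (T : ℝ) (N₀ : ℕ), ∀ N B₀ : ℕ, N₀ ≤ N → N ≤ B₀ →
    ∃ B : ℕ, B₀ ≤ B ∧ B ≤ 2 * B₀ ∧ ∀ (Λ : ∀ p : ℕ, Finset (Fin d → ZMod p))
      (X : (Fin d → ℤ) → ℝ), (∀ p, (Λ p).card ≤ K ∧ ∀ l ∈ Λ p, l ≠ 0) →
      (∀ θ, X θ ≤ Real.log N ∧ X θ ≤ c * Real.exp (c * bad Λ N θ)) →
      ∑ θ ∈ (cube d B).filter fun θ => T < bad Λ N θ, X θ ≤ ε * (2 * B : ℝ) ^ d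

/-- primes of degree one -/
def Z_Rp : Prop :=
  ∀ (L : Type) [Field L] [NumberField L], Om L →
    (∀ p : ℕ, p.Prime → Finite (𝓞 L →+* ZMod p) ∧ rp L p ≤ Module.finrank ℚ L) ∧
    ∀ m κ : ℕ, m ≠ 0 → 1 ≤ κ → ∃ (C : ℝ) (N₀ : ℕ), ∀ N : ℕ, N₀ ≤ N →
      Real.log (Real.log N) - C ≤
        ∑ p ∈ (range (N + 1)).filter fun p => p.Prime ∧ ¬ p ∣ m ∧ p ^ κ ≤ N, (rp L p : ℝ) / p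

/-- balanced generators -/
def Z_Bal : Prop :=
  ∀ (L : Type) [Field L] [NumberField L] (d n : ℕ) (b : Module.Basis (Fin d) ℤ (𝓞 L)), n ≠ 0 →
    ∃ C : ℕ, 1 ≤ C ∧ ∀ u : 𝓞 L, u ≠ 0 → ∃ η : (𝓞 L)ˣ, (n : 𝓞 L) ∣ (η : 𝓞 L) - 1 ∧
      ∀ i, (b.repr (η * u) i).natAbs ^ d ≤ C * Ideal.absNorm (Ideal.span {u})

/-- differences in a dense set of elements without small prime factors -/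
def Z_Line : Prop :=
  ∀ (L : Type) [Field L] [NumberField L] (ℓ d m m₀ C : ℕ) (b : Module.Basis (Fin d) ℤ (𝓞 L))
    (δ : ℝ), Om L → El ℓ → 1 ≤ m → m₀ ≠ 0 → 0 < δ → ∃ N₀ : ℕ, ∀ (N : ℕ) (𝒢 : Finset (𝓞 L)),
    N₀ ≤ N → (∀ u ∈ 𝒢, ∀ i, (b.repr u i).natAbs ≤ C * N) →
    (∀ u ∈ 𝒢, ∀ p : ℕ, p.Prime → p ≤ N → ¬ p ∣ m₀ → ∀ φ : 𝓞 L →+* ZMod p, φ u ≠ 0) →
    δ * (N : ℝ) ^ d ≤ 𝒢.card * Real.log N →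
    ∃ u ∈ 𝒢, ∃ u' ∈ 𝒢, ∃ w : ℕ, 1 ≤ w ∧ (m * w) ^ ℓ < N ∧ u = u' + ((m * w : ℕ) : 𝓞 L) ^ ℓ

/-- two almost prime elements whose difference is a power -/
def Z_Pair : Prop :=
  ∀ (L : Type) [Field L] [NumberField L] (ℓ n : ℕ) (𝔠 : Ideal (𝓞 L)), Om L → El ℓ → 2 ≤ n →
    Cop n 𝔠 → ∃ e : ℕ, ¬ ℓ ∣ e ∧ ∀ m : ℕ, 1 ≤ m → ∃ (u u' : 𝓞 L) (w : ℕ) (q q' : Pl L),
      1 ≤ w ∧ u = u' + ((m * w : ℕ) : 𝓞 L) ^ ℓ ∧ q ≠ q' ∧ ¬ 𝔠 ≤ q.asIdeal ∧ ¬ 𝔠 ≤ q'.asIdeal ∧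
      (n : 𝓞 L) ∣ u - 1 ∧ (n : 𝓞 L) ∣ u' - 1 ∧ Ideal.span {u} = 𝔠 ^ e * q.asIdeal ∧
      Ideal.span {u'} = 𝔠 ^ e * q'.asIdeal

end Pool.Agent.P.MP_e4219a_lc
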