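import Pool.Agent.P.MP_e4219a_lc.Defs

/-! Interface statements: descent, the formal group, Diophantine sets. Each is proved in its own
file. -/

namespace Pool.Agent.P.MP_e4219a_lc

open NumberField IsDedekindDomain Polynomial Finset
open scoped Classical

/-! ### descent -/

/-- the automorphism -/
def Z_Iota : Prop :=
  ∀ (F : Type) [Field F] [CharZero F] (ℓ : ℕ) (ζ a₃ a₄ : F), CM ℓ ζ a₃ a₄ →
    (∀ x y, (Wc a₃ a₄).Nonsingular x y ↔ y ^ 2 + a₃ * y = x ^ 3 + a₄ * x) ∧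
    ∃ (ι : Module.End ℤ (Pt a₃ a₄)) (h : (Wc a₃ a₄).Nonsingular 0 0), IsIota ζ ι ∧
      (∀ R, ι (ι R) + (ℓ - 2) • ι R + R = 0) ∧ ι (.some 0 0 h) = .some 0 0 h ∧
      ℓ • (.some 0 0 h : Pt a₃ a₄) = 0 ∧
      (∀ R, ι R = R → ∃ j : ℕ, R = j • (.some 0 0 h : Pt a₃ a₄)) ∧
      ∀ R, ∃ z : F, al ℓ (ι R) = al ℓ R * z ^ ℓ

/-- the descent map is a homomorphism modulo powers -/
def Z_Hom (ℓ : ℕ) : Prop :=
  ∀ (F : Type) [Field F] [CharZero F] (ζ a₃ a₄ : F), CM ℓ ζ a₃ a₄ →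
    ∀ R R' : Pt a₃ a₄, ∃ z : F, al ℓ R * al ℓ R' = al ℓ (R + R') * z ^ ℓ

/-- the kernel of the descent map -/
def Z_Ker (ℓ : ℕ) : Prop :=
  ∀ (F : Type) [Field F] [CharZero F] (ζ a₃ a₄ : F) (ι : Module.End ℤ (Pt a₃ a₄)), CM ℓ ζ a₃ a₄ →
    IsIota ζ ι → ∀ (R : Pt a₃ a₄) (z : F), al ℓ R = z ^ ℓ → ∃ Q, R = Q - ι Q

/-- local behaviour of the descent map away from `ℓ` -/
def Z_Val : Prop :=
  ∀ (L : Type) [Field L] [NumberField L] (ℓ : ℕ) (ζ u u' : L) (v : Pl L), Ze ℓ ζ → u ≠ 0 → u' ≠ 0 →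
    ∀ R : Pt (A3 ℓ u u') (A4 ℓ u u'),
    (od v u = 0 → od v u' = 0 → (ℓ : ℤ) ∣ od v (al ℓ R)) ∧
    (¬ Dv ℓ v → ¬ (ℓ : ℤ) ∣ od v u → vl v (u' / u - 1) < 1 → ∃ j : ℕ, LP ℓ v (al ℓ R / u ^ j))

/-- local behaviour of the descent map where the curve is close to the base curve -/
def Z_ValW : Prop :=
  ∀ (L : Type) [Field L] [NumberField L] (ℓ : ℕ) (ζ u u' : L) (v : Pl L), Ze ℓ ζ →
    vl v (u - 1) < vl v ℓ ^ 3 → vl v (u' - 1) < vl v ℓ ^ 3 →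
    ∀ (R : Pt (A3 ℓ u u') (A4 ℓ u u')) (i j : ℕ), Wv ℓ v (al ℓ R * u ^ i * u' ^ j)

/-- the local image is isotropic -/
def Z_Iso : Prop :=
  ∀ (L : Type) [Field L] [NumberField L] (ℓ : ℕ) (ζ b c : L) (v : Pl L), Ze ℓ ζ →
    Wv ℓ v b → Wv ℓ v c → LN ℓ v b c

/-- a maximal independent family -/
def Z_Max : Prop :=
  ∀ (F : Type) [Field F] (ℓ : ℕ) (𝒮 : F → Prop) (Y : Finset F), ℓ.Prime → (∀ y, 𝒮 y → y ≠ 0) →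
    (∀ y, 𝒮 y → ∃ y₀ ∈ Y, ∃ z, y = y₀ * z ^ ℓ) →
    ∃ (t : ℕ) (y : Fin t → F), (∀ i, 𝒮 (y i)) ∧
      (∀ c : Fin t → ℕ, (∃ z, ∏ i, y i ^ c i = z ^ ℓ) → ∀ i, ℓ ∣ c i) ∧
      ∀ x, 𝒮 x → ∃ (c : Fin t → ℕ) (z : F), x * ∏ i, y i ^ c i = z ^ ℓ

/-- a curve with a small Selmer group -/
def Z_Sel : Prop :=
  ∀ (L : Type) [Field L] [NumberField L] (ℓ : ℕ) (ζ : L), Om L → Ze ℓ ζ →
    ∃ (u u' : 𝓞 L) (w : L), (u : L) ≠ 0 ∧ (u' : L) ≠ 0 ∧ w ≠ 0 ∧ (u : L) = u' + w ^ ℓ ∧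
      (∀ i j : ℕ, (∃ z : L, (u : L) ^ i * (u' : L) ^ j = z ^ ℓ) → ℓ ∣ i ∧ ℓ ∣ j) ∧
      ∀ R : Pt (A3 ℓ (u : L) u') (A4 ℓ (u : L) u'), ∃ (i j : ℕ) (z : L),
        al ℓ R * (u : L) ^ i * (u' : L) ^ j = z ^ ℓ

/-- the group theory of the descent -/
def Z_Gen : Prop :=
  ∀ (F A : Type) [Field F] [AddCommGroup A] (ℓ : ℕ) (ι : Module.End ℤ A) (α : A → F) (P T : A),
    El ℓ → (∀ R, ι (ι R) + (ℓ - 2) • ι R + R = 0) → ι T = T → ℓ • T = 0 →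
    (∀ R, ι R = R → ∃ j : ℕ, R = j • T) → (∀ R, α R ≠ 0) →
    (∀ R R', ∃ z, α R * α R' = α (R + R') * z ^ ℓ) → (∀ R, ∃ z, α (ι R) = α R * z ^ ℓ) →
    (∀ R z, α R = z ^ ℓ → ∃ Q, R = Q - ι Q) →
    (∀ i j : ℕ, (∃ z, α P ^ i * α T ^ j = z ^ ℓ) → ℓ ∣ i ∧ ℓ ∣ j) →
    (∀ R, ∃ (i j : ℕ) (z : F), α R * α P ^ i * α T ^ j = z ^ ℓ) → Rk1 ℓ ι P T

/-- a curve of rank one -/
def Z_RK : Prop :=
  ∀ (L : Type) [Field L] [NumberField L] (ℓ : ℕ) (ζ : L), Om L → Ze ℓ ζ →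
    ∃ (a₃ a₄ : 𝓞 L) (ι : Module.End ℤ (Pt (a₃ : L) a₄)) (P T : Pt (a₃ : L) a₄),
      CM ℓ ζ (a₃ : L) a₄ ∧ IsIota ζ ι ∧ Rk1 ℓ ι P T

/-! ### the formal group -/

/-- addition in the kernel of reduction -/
def Z_FG : Prop :=
  ∀ (F : Type) [Field F] [CharZero F] (w : Valuation F (WithZero (Multiplicative ℤ))) (a₃ a₄ : F),
    w a₃ ≤ 1 →
    w a₄ ≤ 1 → (∀ R : Pt a₃ a₄, E1 w R → w (tt R) < 1 ∧ (tt R = 0 → R = 0) ∧ E1 w (-R) ∧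
      w (tt (-R) + tt R) ≤ w (tt R) ^ 2) ∧
    ∀ R R' : Pt a₃ a₄, E1 w R → E1 w R' → E1 w (R + R') ∧
      w (tt (R + R') - tt R - tt R') ≤ max (w (tt R)) (w (tt R')) ^ 2

/-- multiplication in the kernel of reduction -/
def Z_Mult : Prop :=
  ∀ (F A : Type) [Field F] [CharZero F] [AddCommGroup A]
    (w : Valuation F (WithZero (Multiplicative ℤ))) (ℓ : ℕ) (ζ : F) (ι : Module.End ℤ A)
    (E : AddSubgroup A) (t : A → F), Ze ℓ ζ → w ℓ < 1 → (∀ R, ι (ι R) + (ℓ - 2) • ι R + R = 0) →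
    t 0 = 0 → (∀ R ∈ E, ι R ∈ E ∧ t (ι R) = ζ * t R ∧ w (t (-R) + t R) ≤ w (t R) ^ 2) →
    (∀ R ∈ E, ∀ R' ∈ E, w (t (R + R') - t R - t R') ≤ max (w (t R)) (w (t R')) ^ 2) →
    (∀ R ∈ E, w (t R) < 1) →
    (∀ g : ℤ[X], aeval ζ g = 0 → aeval ι g = 0) ∧
    (∀ g : ℤ[X], aeval ζ g ≠ 0 → ∃ (a : ℕ) (g₁ : ℤ[X]), ¬ (ℓ : ℤ) ∣ g₁.eval 1 ∧
      aeval ζ g = (1 - ζ) ^ a * aeval ζ g₁) ∧
    (∀ g : ℤ[X], w (aeval ζ g) ≤ 1 ∧ (¬ (ℓ : ℤ) ∣ g.eval 1 → w (aeval ζ g) = 1)) ∧ w (1 - ζ) < 1 ∧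
    ∀ (g : ℤ[X]) (R : A), R ∈ E → aeval ι g R ∈ E ∧
      w (t (aeval ι g R) - aeval ζ g * t R) ≤ w (t R) ^ 2 ∧ (w (t R) < w ℓ →
        w (t (aeval ι g R) - aeval ζ g * t R) * w ℓ ≤ w (aeval ζ g) * w (t R) ^ 2)

/-- a fixed multiple of every point is close to the origin -/
def Z_Fin : Prop :=
  ∀ (L : Type) [Field L] [NumberField L] (ℓ : ℕ) (ζ : L) (a₃ a₄ : 𝓞 L), CM ℓ ζ (a₃ : L) a₄ →
    ∃ N : ℕ, 1 ≤ N ∧ ∀ R : Pt (a₃ : L) a₄, Deep ℓ (N • R)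

/-- ratios of local parameters -/
def Z_Rat : Prop :=
  ∀ (L : Type) [Field L] [NumberField L] (ℓ : ℕ) (ζ : L) (a₃ a₄ : 𝓞 L)
    (ι : Module.End ℤ (Pt (a₃ : L) a₄)) (P T : Pt (a₃ : L) a₄), CM ℓ ζ (a₃ : L) a₄ → IsIota ζ ι →
    Rk1 ℓ ι P T → RatSet ℓ ζ fun t => ∃ R : Pt (a₃ : L) a₄, Deep ℓ R ∧ tt R = t

/-! ### Diophantine sets -/

/-- the valuation rings are Diophantine -/
def Z_BFix : Prop :=
  ∀ (L : Type) [Field L] [NumberField L] (v : Pl L), Om L → Dio1 fun x : L => vl v x ≤ 1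

/-- the local parameters of the points close to the origin -/
def Z_TD : Prop :=
  ∀ (L : Type) [Field L] [NumberField L] (ℓ : ℕ) (ζ a₃ a₄ : L), Om L → CM ℓ ζ a₃ a₄ →
    Dio1 fun t => ∃ R : Pt a₃ a₄, Deep ℓ R ∧ tt R = t

/-- the complement of a cyclotomic subfield -/
def Z_Cert : Prop :=
  ∀ (L : Type) [Field L] [NumberField L] (ℓ : ℕ) (ζ : L) (𝒯 : L → Prop), Om L → Ze ℓ ζ →
    RatSet ℓ ζ 𝒯 → Dio1 𝒯 → Dio1 fun x : L => ¬ ∃ a b : ℚ, x = a + b * ζ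

/-- the norm condition, soundness and completeness -/
def Z_Cond : Prop :=
  ∀ (L : Type) [Field L] [NumberField L],
    (∀ (b c g : L) (v : Pl L), c ≠ 0 → Cond b c g → LP 2 v g → LN 2 v b c) ∧
    (Om L → ∀ (n : ℕ) (δ : 𝓞 L) (c g : L), 2 ≤ n → (∀ v : Pl L, 1 + 4 * δ ∈ v.asIdeal → Dv n v) →
      (1 + 4 * δ : L) ≠ 0 → c ≠ 0 → One n c → (∃ v : Pl L, Odd (od v g)) →
      (∀ v : Pl L, 2 ∣ od v c ∨ (¬ Dv 2 v ∧ LP 2 v (1 + 4 * δ : L)) ∨ Odd (od v g)) →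
      Cond (1 + 4 * δ : L) c g)

/-- the complement of the ring of integers -/
def Z_BUni : Prop :=
  ∀ (L : Type) [Field L] [NumberField L], Om L → Dio1 fun x : L => ¬ IsIntegral ℤ x

/-- restriction of scalars -/
def Z_Weil : Prop :=
  ∀ (K L : Type) [Field K] [Field L] [Algebra K L] [FiniteDimensional K L] (S : L → Prop),
    Dio1 S → Dio1 fun a : K => S (algebraMap K L a)

/-- elimination of the parameters -/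
def Z_Elim : Prop :=
  ∀ (K : Type) [Field K] [NumberField K] (S : K → Prop), Dio1 S →
    (∀ (σ : K →+* K) (a : K), S (σ a) ↔ S a) →
    ∃ (n : ℕ) (P : MvPolynomial (Option (Fin n)) ℤ), ∀ a : K,
      S a ↔ ∃ y : Fin n → K, MvPolynomial.aeval (fun o => Option.elim o a y) P = 0

end Pool.Agent.P.MP_e4219a_lc
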