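import Pool.Agent.P.MP_b8021b_nt.VC.PDescS
import Pool.Agent.P.MP_b8021b_nt.VC.BasicN
import Pool.Agent.P.MP_b8021b_nt.VC.DS1

/-!
Definitions for the theorem that the complement of the integers is Diophantine in every number
field. See h91_e4219a.md in the team store for the mathematics.
-/

namespace Pool.Agent.P.MP_e4219a_lc

open NumberField IsDedekindDomain Polynomial Finset
open Pool.Agent.P.MP_b8021b_nt Pool.Agent.P.MP_b8021b_nt.VE Pool.Agent.P.MP_b8021b_nt.VC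
open scoped Classical

noncomputable section

/-! ### local notions -/

/-- the finite places -/
abbrev Pl (L : Type) [Field L] := HeightOneSpectrum (𝓞 L)

/-- the field contains a primitive cube root of unity -/
def Om (F : Type) [Field F] : Prop := ∃ ω : F, ω ^ 2 + ω + 1 = 0

/-- the two primes that are used -/
def El (ℓ : ℕ) : Prop := ℓ = 2 ∨ ℓ = 3

/-- `ζ` is a primitive fourth root of unity (`ℓ = 2`) or a primitive cube root of unity (`ℓ = 3`) -/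
def Ze {F : Type} [Field F] (ℓ : ℕ) (ζ : F) : Prop :=
  (ℓ = 2 ∧ ζ ^ 2 + 1 = 0) ∨ (ℓ = 3 ∧ ζ ^ 2 + ζ + 1 = 0)

/-- the norm form of the Kummer algebra of `b` -/
def Nf {F : Type} [CommRing F] (ℓ : ℕ) (b r s t : F) : F :=
  if ℓ = 2 then r ^ 2 - b * s ^ 2 else r ^ 3 + b * s ^ 3 + b ^ 2 * t ^ 3 - 3 * b * r * s * t

/-- `c` is a value of the norm form -/
def NV {F : Type} [CommRing F] (ℓ : ℕ) (b c : F) : Prop := ∃ r s t : F, c = Nf ℓ b r s t

section Loc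

variable {L : Type} [Field L] [NumberField L]

/-- the multiplicative valuation -/
abbrev vl (v : Pl L) : Valuation L (WithZero (Multiplicative ℤ)) := v.valuation L

/-- the additive valuation (zero at zero) -/
def od (v : Pl L) (x : L) : ℤ := -WithZero.log (vl v x)

/-- the place lies over a divisor of `n` -/
abbrev Dv (n : ℕ) (v : Pl L) : Prop := (n : 𝓞 L) ∈ v.asIdeal

/-- `x` is an `ℓ`-th power in the completion -/
def LP (ℓ : ℕ) (v : Pl L) (x : L) : Prop := ∃ r : L, vl v (x / r ^ ℓ - 1) < vl v ℓ ^ 2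

/-- `c` is a norm from the Kummer algebra of `b` over the completion -/
def LN (ℓ : ℕ) (v : Pl L) (b c : L) : Prop :=
  ∀ k : ℕ, ∃ r s t : L, vl v (c / Nf ℓ b r s t - 1) ≤ WithZero.exp (-(k : ℤ))

/-- `x` is congruent to one modulo `n` -/
def One (n : ℕ) (x : L) : Prop :=
  ∃ α β : 𝓞 L, (n : 𝓞 L) ∣ α - 1 ∧ (n : 𝓞 L) ∣ β - 1 ∧ x * β = α

/-- the places over the divisors of `n` generate the class group -/
def Gen (L : Type) [Field L] [NumberField L] (n : ℕ) : Prop :=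
  ∀ v₀ : Pl L, ¬ Dv n v₀ → ∃ x : L, x ≠ 0 ∧ od v₀ x = 1 ∧ ∀ v, v ≠ v₀ → ¬ Dv n v → od v x = 0

/-- the number of places over the divisors of `n` -/
def nPl (L : Type) [Field L] [NumberField L] (n : ℕ) : ℕ := Set.ncard {v : Pl L | Dv n v}

/-- the exponent of a place in an ideal -/
def cnt (v : Pl L) (I : Ideal (𝓞 L)) : ℕ := multiplicity v.asIdeal I

/-- a ray class character of finite order -/
structure RC (n : ℕ) (χ : Ideal (𝓞 L) →* ℂ) : Prop extends IsChar n χ where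
  prin : ∀ α : 𝓞 L, (n : 𝓞 L) ∣ α - 1 → χ (Ideal.span {α}) = 1

/-- the place `v` lies under the ideal `𝔓` -/
def Und {M : Type} [Field M] [Algebra L M] (v : Pl L) (𝔓 : Ideal (𝓞 M)) : Prop :=
  v.asIdeal = 𝔓.comap (algebraMap (𝓞 L) (𝓞 M))

/-- `M` is obtained from `L` by adjoining an `ℓ`-th root `β` of `b` -/
structure Kum (ℓ : ℕ) (b : L) {M : Type} [Field M] [Algebra L M] (β : M) : Prop where
  fin : Module.finrank L M = ℓ
  pow : β ^ ℓ = algebraMap L M b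
  np : ¬ ∃ z : L, b = z ^ ℓ

/-- the local image of the descent map of the curve `y ^ 2 = x ^ 3 - x` or `y ^ 2 + y = x ^ 3` -/
def Wv (ℓ : ℕ) (v : Pl L) (c : L) : Prop :=
  ∃ X Y r : v.adicCompletion L, r ≠ 0 ∧ (algebraMap L _ c = r ^ ℓ ∨
    (ℓ = 2 ∧ Y ^ 2 = X ^ 3 - X ∧ X ≠ 0 ∧ algebraMap L _ c = X * r ^ 2) ∨
    (ℓ = 3 ∧ Y ^ 2 + Y = X ^ 3 ∧ Y ≠ 0 ∧ algebraMap L _ c = Y * r ^ 3))

end Loc

/-- the norm condition over the algebra of the square root of `g` -/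
def Cond {F : Type} [CommRing F] (b c g : F) : Prop :=
  ∃ r₀ r₁ s₀ s₁ : F, c = r₀ ^ 2 + g * r₁ ^ 2 - b * (s₀ ^ 2 + g * s₁ ^ 2) ∧ r₀ * r₁ = b * s₀ * s₁

/-! ### Diophantine sets -/

/-- polynomial functions -/
def PolyF {K ι : Type} [CommRing K] (f : (ι → K) → K) : Prop :=
  ∃ p : MvPolynomial ι K, ∀ x, MvPolynomial.eval x p = f x

/-- Diophantine predicates, with parameters -/
def Dio {K ι : Type} [CommRing K] (S : (ι → K) → Prop) : Prop :=
  ∃ (n m : ℕ) (f : Fin m → MvPolynomial (ι ⊕ Fin n) K), ∀ x, S x ↔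
    ∃ y : Fin n → K, ∀ j, MvPolynomial.eval (Sum.elim x y) (f j) = 0

/-- Diophantine predicates in one variable -/
def Dio1 {K : Type} [CommRing K] (S : K → Prop) : Prop := Dio fun x : Unit → K => S (x ())

/-! ### sieve and exponential sums -/

/-- the exponential sum of a set -/
def ex (A : Finset ℕ) (α : UnitAddCircle) : ℂ := ∑ a ∈ A, fourier (a : ℤ) α

/-- the mass of the exponential sum on a set of frequencies -/
def mass (A : Finset ℕ) (𝔐 : Set UnitAddCircle) : ℝ :=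
  ∫ α in 𝔐, ‖ex A α‖ ^ 2 ∂AddCircle.haarAddCircle

/-- `A` avoids the residue classes `Ω p` modulo `p` -/
structure Sift (d : ℕ) (A : Finset ℕ) (Ω : ℕ → Finset ℕ) : Prop where
  lt : ∀ p, ∀ c ∈ Ω p, c < p
  card : ∀ p, (Ω p).card ≤ d
  big : ∀ p, (Ω p).Nonempty → 2 * d < p
  av : ∀ p, ∀ a ∈ A, a % p ∉ Ω p

/-- the sifting primes above `Q` -/
def sP (d N Q : ℕ) : Finset ℕ :=
  (range (N + 1)).filter fun p => p.Prime ∧ Q < p ∧ p ^ (20 * d + 20) ≤ N

/-- the logarithm of the saving in the sieve -/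
def wt (d N Q : ℕ) (Ω : ℕ → Finset ℕ) : ℝ := ∑ p ∈ sP d N Q, ((Ω p).card : ℝ) / p

/-- a cube of integer points -/
def cube (d B : ℕ) : Finset (Fin d → ℤ) := Fintype.piFinset fun _ => Ico (-(B : ℤ)) B

/-- the sum of the reciprocals of the primes `p ≤ N` at which `θ` lies on one of the
hyperplanes `Λ p` -/
def bad {d : ℕ} (Λ : ∀ p : ℕ, Finset (Fin d → ZMod p)) (N : ℕ) (θ : Fin d → ℤ) : ℝ :=
  ∑ p ∈ (range (N + 1)).filter fun p => p.Prime ∧ ∃ l ∈ Λ p, ∑ i, l i * (θ i : ZMod p) = 0,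
    (1 : ℝ) / p

/-- the number of primes of degree one over `p` -/
def rp (L : Type) [Field L] (p : ℕ) : ℕ := Nat.card (𝓞 L →+* ZMod p)

/-! ### elliptic curves -/

section Curve

variable {F : Type} [Field F]

/-- the curve `y ^ 2 + a₃ y = x ^ 3 + a₄ x` -/
def Wc (a₃ a₄ : F) : WeierstrassCurve.Affine F := ⟨0, 0, a₃, a₄, 0⟩

/-- its points -/
abbrev Pt (a₃ a₄ : F) : Type := (Wc a₃ a₄).Point

/-- the two families with complex multiplication -/
def CM (ℓ : ℕ) (ζ a₃ a₄ : F) : Prop :=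
  (ℓ = 2 ∧ ζ ^ 2 + 1 = 0 ∧ a₃ = 0 ∧ a₄ ≠ 0) ∨ (ℓ = 3 ∧ ζ ^ 2 + ζ + 1 = 0 ∧ a₄ = 0 ∧ a₃ ≠ 0)

/-- `ι` is the automorphism `(x, y) ↦ (x / ζ ^ 2, y / ζ ^ 3)` -/
def IsIota (ζ : F) {a₃ a₄ : F} (ι : Module.End ℤ (Pt a₃ a₄)) : Prop :=
  ∀ x y h, ∃ h', ι (.some x y h) = .some (x / ζ ^ 2) (y / ζ ^ 3) h'

/-- the descent map -/
def al (ℓ : ℕ) {a₃ a₄ : F} : Pt a₃ a₄ → F
  | .zero => 1
  | .some x y _ => if ℓ = 2 then (if x = 0 then a₄ else x) else (if y = 0 then a₃ ^ 2 else y)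

/-- the local parameter at the origin -/
def tt {a₃ a₄ : F} : Pt a₃ a₄ → F
  | .zero => 0
  | .some x y _ => -x / y

/-- the kernel of reduction -/
def E1 (w : Valuation F (WithZero (Multiplicative ℤ))) {a₃ a₄ : F} : Pt a₃ a₄ → Prop
  | .zero => True
  | .some x _ _ => 1 < w x

/-- the coefficient `a₃` attached to the pair `u`, `u'` -/
def A3 (ℓ : ℕ) (u u' : F) : F := if ℓ = 2 then 0 else u * u'

/-- the coefficient `a₄` attached to the pair `u`, `u'` -/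
def A4 (ℓ : ℕ) (u u' : F) : F := if ℓ = 2 then -(u * u') else 0

/-- an abelian group of rank one over the ring generated by a root of unity -/
structure Rk1 (ℓ : ℕ) {A : Type} [AddCommGroup A] (ι : Module.End ℤ A) (P T : A) : Prop where
  rel : ∀ R, ι (ι R) + (ℓ - 2) • ι R + R = 0
  fix : ι T = T
  tor : ℓ • T = 0
  inf : ∀ N : ℕ, 1 ≤ N → N • P ≠ 0
  gen : ∀ R, ∃ (c₁ c₂ : ℤ) (Q : A), R = c₁ • T + c₂ • P + (Q - ι Q)

end Curve

section Rat

variable {L : Type} [Field L] [NumberField L]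

/-- the point is close to the origin at all places over `ℓ` -/
def Deep (ℓ : ℕ) {a₃ a₄ : L} (R : Pt a₃ a₄) : Prop :=
  ∀ v : Pl L, Dv ℓ v → E1 (vl v) R ∧ vl v (tt R) ≤ vl v ℓ ^ 2

/-- the ratios of the elements of `𝒯` approximate the field generated by `ζ` -/
structure RatSet (ℓ : ℕ) (ζ : L) (𝒯 : L → Prop) : Prop where
  near : ∀ t t', 𝒯 t → 𝒯 t' → t ≠ 0 → ∃ a b : ℚ, ∀ v : Pl L, Dv ℓ v →
    vl v (t' - (a + b * ζ) * t) * vl v ℓ ≤ vl v t' * max (vl v t) (vl v t')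
  dense : ∀ (ι : Type) [Fintype ι] (a b : ι → ℚ) (k : ℕ), ∃ (t : L) (t' : ι → L), 𝒯 t ∧ t ≠ 0 ∧
    (∀ i, 𝒯 (t' i)) ∧ ∀ v : Pl L, Dv ℓ v → vl v t ≤ vl v ℓ ^ k ∧
      ∀ i, vl v (t' i - (a i + b i * ζ) * t) ≤ vl v (a i + b i * ζ) * vl v t * vl v ℓ ^ k

end Rat

end

end Pool.Agent.P.MP_e4219a_lc
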