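import Pool.Agent.P.MP_e4219a_lc.Bund

/-! The kernel of the descent map for the curve `y ^ 2 = x ^ 3 + a x`. -/

namespace Pool.Agent.P.MP_e4219a_lc

open WeierstrassCurve WeierstrassCurve.Affine
open scoped Classical

namespace Ker2P

variable {F : Type} [Field F] [CharZero F]

omit [CharZero F] in
theorem some_eq {W : WeierstrassCurve.Affine F} {x y x' y' : F} {h : W.Nonsingular x y}
    {h' : W.Nonsingular x' y'} (hx : x = x') (hy : y = y') :
    (Point.some x y h : W.Point) = Point.some x' y' h' := by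
  subst hx hy
  rfl

/-- the point with `x = r ^ 2`, `y = r s` on the curve with `a = s ^ 2 - r ^ 4` -/
theorem main {ζ a : F} (ι : Module.End ℤ (Pt 0 a)) (hζ : ζ ^ 2 + 1 = 0) (ha : a ≠ 0)
    (hN : ∀ x y, (Wc 0 a).Nonsingular x y ↔ y ^ 2 + 0 * y = x ^ 3 + a * x) (hι : IsIota ζ ι)
    {x y r s : F} (h : (Wc 0 a).Nonsingular x y) (hx : x = r ^ 2) (hy : y = r * s)
    (hd : a = s ^ 2 - r ^ 4) : ∃ Q : Pt 0 a, Point.some x y h = Q - ι Q := by
  have hζ0 : ζ ≠ 0 := by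
    rintro rfl
    simp at hζ
  have hζ2 : ζ ^ 2 = -1 := by linear_combination hζ
  have hζ3 : ζ ^ 3 = -ζ := by linear_combination ζ * hζ
  obtain ⟨X, hX⟩ : ∃ X, X = -ζ * (r ^ 2 + s) := ⟨_, rfl⟩
  have hq : X ^ 2 + a = -2 * ζ * r ^ 2 * X := by
    rw [hX, hd]
    linear_combination ((r ^ 2 + s) ^ 2 - 2 * r ^ 2 * (r ^ 2 + s)) * hζ
  have hX0 : X ≠ 0 := by
    rintro rfl
    exact ha (by linear_combination hq)
  have hQ : (Wc 0 a).Nonsingular X (X * r * (1 - ζ)) := by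
    rw [hN]
    linear_combination (X ^ 2 * r ^ 2) * hζ - X * hq
  obtain ⟨h', e⟩ := hι _ _ hQ
  have e1 : X / ζ ^ 2 = -X := by rw [hζ2, div_neg, div_one]
  have e2 : X * r * (1 - ζ) / ζ ^ 3 = X * r * (1 + ζ) := by
    rw [div_eq_iff (pow_ne_zero 3 hζ0), hζ3]
    linear_combination (X * r) * hζ
  have hne : X ≠ X / ζ ^ 2 := by
    rw [e1]
    intro e3
    exact hX0 (by linear_combination e3 / 2)
  refine ⟨Point.some _ _ hQ, ?_⟩
  rw [e, sub_eq_add_neg, Point.neg_some, Point.add_of_X_ne hne]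
  have hsl : (Wc 0 a).slope X (X / ζ ^ 2) (X * r * (1 - ζ))
      ((Wc 0 a).negY (X / ζ ^ 2) (X * r * (1 - ζ) / ζ ^ 3)) = r := by
    rw [slope_of_X_ne hne, div_eq_iff (sub_ne_zero.2 hne), e1, e2]
    simp only [negY, Wc]
    ring
  have hA : (Wc 0 a).addX X (X / ζ ^ 2) r = r ^ 2 := by
    rw [e1]
    simp only [addX, Wc]
    ring
  refine some_eq ?_ ?_
  · rw [hsl, hA, hx]
  · rw [hsl, addY, negAddY, hA, hy]
    simp only [negY, Wc]
    rw [hX]
    linear_combination (r * (r ^ 2 + s)) * hζ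

end Ker2P

theorem p_ker2 (hI : Z_Iota) : Z_Ker 2 := by
  intro F _ _ ζ a₃ a₄ ι hCM hι R z hz
  obtain ⟨hN, -⟩ := hI F 2 ζ a₃ a₄ hCM
  rcases hCM with ⟨-, hζ, rfl, ha⟩ | ⟨h2, -⟩
  swap
  · exact absurd h2 (by norm_num)
  rcases R with _ | ⟨x, y, h⟩
  · exact ⟨0, by rw [map_zero, sub_zero]; rfl⟩
  have hE := (hN x y).1 h
  simp only [al, if_true] at hz
  by_cases hx : x = 0
  · rw [if_pos hx] at hz
    have hy : y = 0 := by
      rw [hx] at hE
      exact pow_eq_zero_iff (n := 2) (by norm_num) |>.1 (by linear_combination hE)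
    exact Ker2P.main ι hζ ha hN hι h (r := 0) (s := z) (by rw [hx]; norm_num)
      (by rw [hy, zero_mul]) (by rw [hz]; norm_num)
  · rw [if_neg hx] at hz
    have hz0 : z ≠ 0 := by
      rintro rfl
      exact hx (by simpa using hz)
    refine Ker2P.main ι hζ ha hN hι h (r := z) (s := y / z) hz (by field_simp) ?_
    rw [hz] at hE
    field_simp
    linear_combination -hE

end Pool.Agent.P.MP_e4219a_lc
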