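import Pool.Agent.P.MP_e4219a_lc.Bund

/-! Ratios of local parameters of points that are close to the origin. -/

namespace Pool.Agent.P.MP_e4219a_lc

open NumberField Polynomial
open scoped Classical

namespace RatP

section Abs

variable {F A : Type} [Field F] [AddCommGroup A] {ℓ : ℕ} {ζ : F}
  {w : Valuation F (WithZero (Multiplicative ℤ))} {μ : WithZero (Multiplicative ℤ)} {x y z : F}

/-- relative closeness -/
def Cl (w : Valuation F (WithZero (Multiplicative ℤ))) (ℓ : ℕ) (μ : WithZero (Multiplicative ℤ))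
    (x y : F) : Prop := w (x - y) * w ℓ ≤ w x * μ

theorem Cl.eq (hμ : μ < w ℓ) (h : Cl w ℓ μ x y) : w y = w x := by
  have h0 : 0 < w ℓ := zero_le.trans_lt hμ
  rcases eq_or_ne (w x) 0 with e | e
  · rw [Cl, e, zero_mul, nonpos_iff_eq_zero, mul_eq_zero, or_iff_left h0.ne', w.zero_iff,
      sub_eq_zero] at h
    rw [h]
  · have h1 : w (x - y) < w x :=
      lt_of_mul_lt_mul_right (h.trans_lt (mul_lt_mul_of_pos_left hμ (zero_lt_iff.2 e))) zero_le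
    rw [w.map_sub_swap] at h1
    exact w.map_eq_of_sub_lt h1

theorem Cl.symm (hμ : μ < w ℓ) (h : Cl w ℓ μ x y) : Cl w ℓ μ y x := by
  rw [Cl, w.map_sub_swap, h.eq hμ]
  exact h

theorem Cl.trans (hμ : μ < w ℓ) (h : Cl w ℓ μ x y) (h' : Cl w ℓ μ y z) : Cl w ℓ μ x z := by
  rw [Cl, h.eq hμ] at h'
  rw [Cl, ← sub_add_sub_cancel x y z]
  rcases le_max_iff.1 (w.map_add (x - y) (y - z)) with e | e
  · exact (mul_le_mul_left e _).trans h
  · exact (mul_le_mul_left e _).trans h'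

theorem Cl.mul (c : F) (h : Cl w ℓ μ x y) : Cl w ℓ μ (c * x) (c * y) := by
  rw [Cl, ← mul_sub, map_mul, map_mul, mul_assoc, mul_assoc]
  exact mul_le_mul_right h _

/-- the facts about one place -/
structure Loc (w : Valuation F (WithZero (Multiplicative ℤ))) (ℓ : ℕ) (ζ : F) (ι : Module.End ℤ A)
    (t : A → F) (E : A → Prop) : Prop where
  lt : w ℓ < 1
  pos : 0 < w ℓ
  add : ∀ R R', E R → E R' → w (t (R + R') - t R - t R') ≤ max (w (t R)) (w (t R')) ^ 2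
  mul : ∀ (g : ℤ[X]) R, E R → E (aeval ι g R) ∧ (w (t R) < w ℓ →
    w (t (aeval ι g R) - aeval ζ g * t R) * w ℓ ≤ w (aeval ζ g) * w (t R) ^ 2)
  le : ∀ g : ℤ[X], w (aeval ζ g) ≤ 1 ∧ (¬ (ℓ : ℤ) ∣ g.eval 1 → w (aeval ζ g) = 1)
  sq : w (1 - ζ) ^ 2 = w ℓ

variable {ι : Module.End ℤ A} {t : A → F} {E : A → Prop} {R R' : A}

theorem Loc.sq_lt (h : Loc w ℓ ζ ι t E) : w ℓ ^ 2 < w ℓ := by
  rw [pow_two]
  exact mul_lt_of_lt_one_right h.pos h.lt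

theorem Loc.cl (h : Loc w ℓ ζ ι t E) (hμ : μ < w ℓ) (hR : E R) (h1 : w (t R) ≤ μ) (g : ℤ[X]) :
    Cl w ℓ μ (aeval ζ g * t R) (t (aeval ι g R)) := by
  rw [Cl, w.map_sub_swap]
  refine ((h.mul g R hR).2 (h1.trans_lt hμ)).trans ?_
  rw [map_mul, pow_two, ← mul_assoc]
  exact mul_le_mul_right h1 _

theorem Loc.val (h : Loc w ℓ ζ ι t E) (hR : E R ∧ w (t R) ≤ w ℓ ^ 2) (g : ℤ[X]) :
    w (t (aeval ι g R)) = w (aeval ζ g) * w (t R) :=
  ((h.cl h.sq_lt hR.1 hR.2 g).eq h.sq_lt).trans (map_mul _ _ _)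

theorem Loc.val_le (h : Loc w ℓ ζ ι t E) (hR : E R ∧ w (t R) ≤ w ℓ ^ 2) (g : ℤ[X]) :
    w (t (aeval ι g R)) ≤ w (t R) :=
  (h.val hR g).trans_le (mul_le_of_le_one_left' (h.le g).1)

theorem Loc.deep (h : Loc w ℓ ζ ι t E) (hR : E R ∧ w (t R) ≤ w ℓ ^ 2) (g : ℤ[X]) :
    E (aeval ι g R) ∧ w (t (aeval ι g R)) ≤ w ℓ ^ 2 :=
  ⟨(h.mul g R hR.1).1, (h.val_le hR g).trans hR.2⟩

/-- a very small remainder does not matter -/
theorem Loc.rem (h : Loc w ℓ ζ ι t E) {S Q : A} {k : ℕ} (hS : E S) (h1 : w (t S) ≤ μ)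
    (hμ : μ ≤ 1) (hQ : E Q ∧ w (t Q) ≤ w ℓ ^ 2) (hk : w ℓ ^ k ≤ w (t S) ^ 2) :
    Cl w ℓ μ (t S) (t (S + aeval ι (-(1 - X) ^ (2 * k) : ℤ[X]) Q)) := by
  have a1 : w (t (aeval ι (-(1 - X) ^ (2 * k) : ℤ[X]) Q)) ≤ w (t S) ^ 2 := by
    rw [h.val hQ, map_neg, map_pow, map_sub, map_one, aeval_X, w.map_neg, map_pow, pow_mul, h.sq]
    exact (mul_le_of_le_one_right' (hQ.2.trans (pow_le_one' h.lt.le 2))).trans hk
  have a2 : w (t S) ^ 2 ≤ w (t S) := by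
    rw [pow_two]
    exact mul_le_of_le_one_right' (h1.trans hμ)
  have a3 := h.add S _ hS (h.deep hQ (-(1 - X) ^ (2 * k))).1
  rw [max_eq_left (a1.trans a2)] at a3
  have a4 := w.map_add_le a3 a1
  rw [sub_add_cancel, w.map_sub_swap] at a4
  refine (mul_le_of_le_one_right' h.lt.le).trans (a4.trans ?_)
  rw [pow_two]
  exact mul_le_mul_right h1 _

/-- the comparison of two multiples of one point -/
theorem Loc.near (h : Loc w ℓ ζ ι t E) {P Q Q' : A} {n k : ℕ} {g g' : ℤ[X]}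
    (hR : E R ∧ w (t R) ≤ w ℓ ^ 2) (hR' : E R' ∧ w (t R') ≤ w ℓ ^ 2)
    (hP : E P ∧ w (t P) ≤ w ℓ ^ 2) (hQ : E Q ∧ w (t Q) ≤ w ℓ ^ 2) (hQ' : E Q' ∧ w (t Q') ≤ w ℓ ^ 2)
    (hk : w ℓ ^ k ≤ w (n * t R) ^ 2) (hk' : w ℓ ^ k ≤ w (n * t R') ^ 2)
    (e : aeval ι g P = aeval ι (n : ℤ[X]) R + aeval ι (-(1 - X) ^ (2 * k) : ℤ[X]) Q)
    (e' : aeval ι g' P = aeval ι (n : ℤ[X]) R' + aeval ι (-(1 - X) ^ (2 * k) : ℤ[X]) Q')
    (hg : w (aeval ζ g) = 1 ∨ w (aeval ζ g') = 1) :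
    Cl w ℓ (max (w (t R)) (w (t R'))) (aeval ζ g * (n * t R')) (aeval ζ g' * (n * t R)) := by
  have hμ := (max_le hR.2 hR'.2).trans_lt h.sq_lt
  have key : ∀ {S T : A} {f : ℤ[X]}, E S ∧ w (t S) ≤ w ℓ ^ 2 → E T ∧ w (t T) ≤ w ℓ ^ 2 →
      w (t S) ≤ max (w (t R)) (w (t R')) → w ℓ ^ k ≤ w (n * t S) ^ 2 →
      aeval ι f P = aeval ι (n : ℤ[X]) S + aeval ι (-(1 - X) ^ (2 * k) : ℤ[X]) T →
      Cl w ℓ (max (w (t R)) (w (t R'))) (n * t S) (t (aeval ι f P)) ∧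
        w (t (aeval ι f P)) ≤ max (w (t R)) (w (t R')) := fun {S T f} hS hT h1 h2 h3 => by
    have b1 := h.cl hμ hS.1 h1 (n : ℤ[X])
    rw [map_natCast (aeval ζ)] at b1
    have b2 := (h.val_le hS (n : ℤ[X])).trans h1
    have b3 := h.rem (h.deep hS (n : ℤ[X])).1 b2 (hμ.trans h.lt).le hT (by rwa [b1.eq hμ])
    rw [← h3] at b3
    exact ⟨b1.trans hμ b3, (b3.eq hμ).trans_le b2⟩
  obtain ⟨c1, c2⟩ := key hR hQ (le_max_left _ _) hk e
  obtain ⟨d1, d2⟩ := key hR' hQ' (le_max_right _ _) hk' e'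
  have h1 : w (t P) ≤ max (w (t R)) (w (t R')) := by
    rcases hg with hg | hg
    · rwa [h.val hP, hg, one_mul] at c2
    · rwa [h.val hP, hg, one_mul] at d2
  have c3 := (c1.trans hμ ((h.cl hμ hP.1 h1 g).symm hμ)).mul (aeval ζ g')
  have d3 := (d1.trans hμ ((h.cl hμ hP.1 h1 g').symm hμ)).mul (aeval ζ g)
  rw [mul_left_comm (aeval ζ g) (aeval ζ g')] at d3
  exact d3.trans hμ (c3.symm hμ)

/-- descent to any depth -/
theorem depth {P T : A} (h : Rk1 ℓ ι P T) (N a : ℕ) (R : A) : ∃ (g : ℤ[X]) (Q : A),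
    aeval ι g (N • ℓ • P) = N • ℓ • R + aeval ι (-(1 - X) ^ a : ℤ[X]) (N • ℓ • Q) := by
  induction a generalizing R with
  | zero => exact ⟨0, R, by simp⟩
  | succ a ih =>
    obtain ⟨c₁, c₂, Q, rfl⟩ := h.gen R
    obtain ⟨g, Q', e⟩ := ih Q
    refine ⟨C c₂ + (1 - X) * g, Q', ?_⟩
    have e1 : N • ℓ • c₁ • T = 0 := by rw [smul_comm ℓ, h.tor, smul_zero, smul_zero]
    rw [map_add, map_mul, LinearMap.add_apply, Module.End.mul_apply, e, pow_succ', ← mul_neg,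
      map_mul, Module.End.mul_apply, map_add, smul_add, smul_add, smul_add, smul_add, e1, zero_add,
      add_assoc]
    simp [smul_sub]

theorem lin (h : Ze ℓ ζ) (g : ℤ[X]) : ∃ a b : ℤ, aeval ζ g = a + b * ζ := by
  induction g using Polynomial.induction_on with
  | C c => exact ⟨c, 0, by simp⟩
  | add p q hp hq =>
    obtain ⟨a, b, e⟩ := hp
    obtain ⟨c, d, e'⟩ := hq
    exact ⟨a + c, b + d, by rw [map_add, e, e']; push_cast; ring⟩
  | monomial n c ih =>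
    obtain ⟨a, b, e⟩ := ih
    refine ⟨-b, a - (ℓ - 2) * b, ?_⟩
    rw [pow_succ, ← mul_assoc, map_mul, e, aeval_X]
    push_cast
    linear_combination (b : F) * h.sq

theorem ratio [CharZero F] (h : Ze ℓ ζ) {g : ℤ[X]} (hg : aeval ζ g ≠ 0) (g' : ℤ[X]) :
    ∃ a b : ℚ, aeval ζ g' = (a + b * ζ) * aeval ζ g := by
  obtain ⟨a, b, e⟩ := lin h g
  obtain ⟨c, d, e'⟩ := lin h (g' * (C (a - (ℓ - 2) * b) - C b * X))
  have h1 : (a ^ 2 - (ℓ - 2) * a * b + b ^ 2 : ℤ) ≠ 0 := fun h0 => hg (by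
    have : a = 0 ∧ b = 0 := by
      rcases h.el with rfl | rfl <;> push_cast at h0 <;> constructor <;>
        refine pow_eq_zero_iff two_ne_zero |>.1 (le_antisymm ?_ (sq_nonneg _)) <;>
        nlinarith [sq_nonneg (a - b), sq_nonneg a, sq_nonneg b]
    rw [e, this.1, this.2]
    simp)
  have h2 : ((a ^ 2 - (ℓ - 2) * a * b + b ^ 2 : ℤ) : F) ≠ 0 := Int.cast_ne_zero.2 h1
  refine ⟨c / (a ^ 2 - (ℓ - 2) * a * b + b ^ 2 : ℤ), d / (a ^ 2 - (ℓ - 2) * a * b + b ^ 2 : ℤ), ?_⟩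
  rw [Rat.cast_div, Rat.cast_div, Rat.cast_intCast, Rat.cast_intCast, Rat.cast_intCast,
    div_mul_eq_mul_div, ← add_div, ← e', div_mul_eq_mul_div, eq_div_iff h2, e]
  simp only [map_mul, map_sub, aeval_X, eq_intCast, map_intCast]
  push_cast
  linear_combination (aeval ζ g' * (b : F) ^ 2) * h.sq

end Abs

variable {L : Type} [Field L] [NumberField L] {ℓ : ℕ} {ζ : L}

theorem exists_pow {x : L} (hx : x ≠ 0) (ℓ : ℕ) :
    ∃ k : ℕ, ∀ j, k ≤ j → ∀ v : Pl L, Dv ℓ v → vl v ℓ ^ j ≤ vl v x := by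
  obtain ⟨M, hM⟩ := ((finite_od x).image fun v => od v x).bddAbove
  refine ⟨M.toNat, fun j hj v hv => ?_⟩
  refine (pow_le_pow_left' ((vl_lt_one_iff v).1 ((vl_nat_lt v).2 hv)) j).trans ?_
  rw [vl_eq v hx, ← WithZero.exp_nsmul, WithZero.exp_le_exp]
  have h1 : od v x ≤ M.toNat := by
    by_cases h : od v x = 0
    · omega
    · exact (hM ⟨v, h, rfl⟩).trans (Int.self_le_toNat M)
  simp only [smul_neg, nsmul_eq_mul, mul_one]
  omega

theorem vl_ze (h : Ze ℓ ζ) (v : Pl L) : vl v ζ = 1 := by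
  have h1 : ζ ^ 12 = 1 := by
    rcases h with ⟨-, h⟩ | ⟨-, h⟩
    · linear_combination (ζ ^ 10 - ζ ^ 8 + ζ ^ 6 - ζ ^ 4 + ζ ^ 2 - 1) * h
    · linear_combination ((ζ - 1) * (ζ ^ 9 + ζ ^ 6 + ζ ^ 3 + 1)) * h
  have h2 := congrArg (vl v) h1
  rw [map_pow, map_one] at h2
  exact (pow_eq_one_iff_of_nonneg zero_le (by norm_num)).1 h2

theorem loc (hF : Z_FG) (hM : Z_Mult) {a₃ a₄ : 𝓞 L} {ι : Module.End ℤ (Pt (a₃ : L) a₄)}
    (hz : Ze ℓ ζ) (hι : IsIota ζ ι) (hr : ∀ R, ι (ι R) + (ℓ - 2) • ι R + R = 0) {v : Pl L}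
    (hv : Dv ℓ v) : Loc (vl v) ℓ ζ ι tt (E1 (vl v)) ∧
      (∀ g : ℤ[X], aeval ζ g = 0 → aeval ι g = 0) ∧
      (∀ g : ℤ[X], aeval ζ g ≠ 0 → ∃ (a : ℕ) (g₁ : ℤ[X]), ¬ (ℓ : ℤ) ∣ g₁.eval 1 ∧
        aeval ζ g = (1 - ζ) ^ a * aeval ζ g₁) ∧
      ∀ R : Pt (a₃ : L) a₄, E1 (vl v) R → tt R = 0 → R = 0 := by
  obtain ⟨f1, f2⟩ := hF L (vl v) a₃ a₄ (vl_coe_le v a₃) (vl_coe_le v a₄)
  let E : AddSubgroup (Pt (a₃ : L) a₄) :=
    { carrier := {R | E1 (vl v) R}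
      zero_mem' := trivial
      add_mem' := fun h h' => (f2 _ _ h h').1
      neg_mem' := fun h => (f1 _ h).2.2.1 }
  have h0 := hz.ne_zero
  have h1 : ∀ R ∈ E, ι R ∈ E ∧ tt (ι R) = ζ * tt R := by
    rintro (_ | ⟨x, y, h⟩) hR
    · have e : ι .zero = .zero := map_zero ι
      rw [e]
      exact ⟨trivial, by simp [tt]⟩
    · obtain ⟨h', e⟩ := hι x y h
      rw [e]
      refine ⟨?_, ?_⟩
      · change 1 < vl v (x / ζ ^ 2)
        rw [map_div₀, map_pow, vl_ze hz, one_pow, div_one]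
        exact hR
      · simp only [tt]
        field_simp
  obtain ⟨m1, m2, m3, -, m5⟩ := hM L _ (vl v) ℓ ζ ι E tt hz ((vl_nat_lt v).2 hv) hr rfl
    (fun R hR => ⟨(h1 R hR).1, (h1 R hR).2, (f1 R hR).2.2.2⟩) (fun R hR R' hR' => (f2 _ _ hR hR').2)
    fun R hR => (f1 R hR).1
  refine ⟨⟨(vl_nat_lt v).2 hv, vl_pos v (Nat.cast_ne_zero.2 hz.el.prime.ne_zero),
    fun R R' hR hR' => (f2 _ _ hR hR').2, fun g R hR => ⟨(m5 g R hR).1, (m5 g R hR).2.2⟩, m3, ?_⟩,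
    m1, m2, fun R hR => (f1 R hR).2.1⟩
  rw [← map_pow, hz.sq, Valuation.map_neg, map_mul, vl_ze hz, mul_one]

end RatP

open RatP in
theorem p_rat (_h : T1) (_hI : Z_Iota) (hF : Z_FG) (hM : Z_Mult) (hN : Z_Fin) : Z_Rat := by
  intro L _ _ ℓ ζ a₃ a₄ ι P T hC hι hR
  have hz := hC.ze
  have hp := hz.el.prime
  obtain ⟨N, N1, N2⟩ := hN L ℓ ζ a₃ a₄ hC
  obtain ⟨v₀, hv₀⟩ := exists_dv L hp.two_le
  have H := fun v (hv : Dv ℓ v) => (loc hF hM hz hι hR.rel hv).1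
  obtain ⟨-, m1, m2, m3⟩ := loc hF hM hz hι hR.rel hv₀
  have nat : ∀ (n : ℕ) R, aeval ι (n : ℤ[X]) R = n • R := fun n R => by simp
  have dp : ∀ (g : ℤ[X]) R, Deep ℓ R → Deep ℓ (aeval ι g R) := fun g R h v hv =>
    (H v hv).deep (h v hv) g
  constructor
  · rintro _ _ ⟨R, hd, rfl⟩ ⟨R', hd', rfl⟩ ht
    by_cases ht' : tt R' = 0
    · exact ⟨0, 0, fun v _ => by simp [ht']⟩
    have hn : ((N * ℓ : ℕ) : L) ≠ 0 := Nat.cast_ne_zero.2 (mul_ne_zero (by omega) hp.ne_zero)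
    obtain ⟨k, hk⟩ := exists_pow (pow_ne_zero 2 (mul_ne_zero hn ht)) ℓ
    obtain ⟨k', hk'⟩ := exists_pow (pow_ne_zero 2 (mul_ne_zero hn ht')) ℓ
    obtain ⟨g, Q, e⟩ := depth hR N (2 * max k k') R
    obtain ⟨g', Q', e'⟩ := depth hR N (2 * max k k') R'
    rw [← mul_smul N ℓ R, ← nat (N * ℓ) R] at e
    rw [← mul_smul N ℓ R', ← nat (N * ℓ) R'] at e'
    have K := fun v hv => (hk _ (le_max_left k k') v hv).trans_eq (map_pow _ _ _)
    have K' := fun v hv => (hk' _ (le_max_right k k') v hv).trans_eq (map_pow _ _ _)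
    have ne : ∀ {S U : Pt (a₃ : L) a₄} {f : ℤ[X]}, Deep ℓ S → tt S ≠ 0 →
        vl v₀ ℓ ^ max k k' ≤ vl v₀ ((N * ℓ : ℕ) * tt S) ^ 2 →
        aeval ι f (N • ℓ • P) = aeval ι ((N * ℓ : ℕ) : ℤ[X]) S +
          aeval ι (-(1 - X) ^ (2 * max k k') : ℤ[X]) (N • ℓ • U) → aeval ζ f ≠ 0 :=
      fun {S U f} h1 h2 h3 h4 h5 => by
        have h0 := H v₀ hv₀
        have b0 := h0.val (h1 v₀ hv₀) ((N * ℓ : ℕ) : ℤ[X])
        rw [map_natCast (aeval ζ), ← map_mul] at b0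
        have b1 := h0.deep (h1 v₀ hv₀) ((N * ℓ : ℕ) : ℤ[X])
        have b2 := (h0.rem b1.1 b1.2 (pow_le_one' h0.lt.le 2) (N2 (ℓ • U) v₀ hv₀)
          (by rwa [b0])).eq h0.sq_lt
        rw [← h4, m1 f h5, b0] at b2
        exact vl_ne v₀ (mul_ne_zero hn h2) (b2.symm.trans (by simp [tt]))
    obtain ⟨a, g₁, a1, a2⟩ := m2 g (ne hd ht (K v₀ hv₀) e)
    obtain ⟨a', g₁', a1', a2'⟩ := m2 g' (ne hd' ht' (K' v₀ hv₀) e')
    have fac : ∀ {f f₁ : ℤ[X]} {c m : ℕ}, m ≤ c → aeval ζ f = (1 - ζ) ^ c * aeval ζ f₁ →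
        ∀ S, aeval ι f S = aeval ι ((1 - X) ^ (c - m) * f₁) (aeval ι ((1 - X) ^ m : ℤ[X]) S) :=
      fun {f f₁ c m} h1 h2 S => by
        have h3 := m1 (f - (1 - X) ^ (c - m) * f₁ * (1 - X) ^ m) (by
          rw [mul_right_comm, ← pow_add, Nat.sub_add_cancel h1]
          simp [h2])
        rw [map_sub, sub_eq_zero] at h3
        rw [h3, map_mul, Module.End.mul_apply]
    rw [fac (min_le_left a a') a2] at e
    rw [fac (min_le_right a a') a2'] at e'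
    have h0 : aeval ζ ((1 - X) ^ (a - min a a') * g₁ : ℤ[X]) ≠ 0 := fun h => by
      refine ne hd ht (K v₀ hv₀) (f := (1 - X) ^ (a - min a a') * g₁ * (1 - X) ^ min a a') (U := Q)
        (by rwa [map_mul, Module.End.mul_apply]) ?_
      rw [map_mul, h, zero_mul]
    obtain ⟨c, d, hc⟩ := ratio hz h0 ((1 - X) ^ (a' - min a a') * g₁')
    refine ⟨c, d, fun v hv => ?_⟩
    have h1 := (H v hv).near (hd v hv) (hd' v hv) (dp _ _ (N2 _) v hv) (N2 _ v hv) (N2 _ v hv)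
      (K v hv) (K' v hv) e e' (by
        rcases le_total a a' with h | h
        · left
          rw [min_eq_left h, Nat.sub_self, pow_zero, one_mul]
          exact ((H v hv).le _).2 a1
        · right
          rw [min_eq_right h, Nat.sub_self, pow_zero, one_mul]
          exact ((H v hv).le _).2 a1')
    have h2 := h1.mul (aeval ζ ((1 - X) ^ (a - min a a') * g₁ : ℤ[X]) * (N * ℓ : ℕ))⁻¹
    rw [hc, ← mul_assoc (aeval ζ _), inv_mul_cancel_left₀ (mul_ne_zero h0 hn),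
      show ∀ x y z u : L, x * y * (z * u) = y * z * (x * u) from fun _ _ _ _ => by ring,
      inv_mul_cancel_left₀ (mul_ne_zero h0 hn)] at h2
    exact h2
  · intro I _ a b k
    obtain ⟨D, D1, D2⟩ : ∃ D : ℕ, 1 ≤ D ∧
        ∀ i, ∃ g : ℤ[X], aeval ζ g = (a i + b i * ζ) * D := by
      refine ⟨∏ i, (a i).den * (b i).den, Finset.prod_pos fun i _ =>
        mul_pos (a i).den_pos (b i).den_pos, fun i => ?_⟩
      obtain ⟨c, hc⟩ := Finset.dvd_prod_of_mem (fun i => (a i).den * (b i).den)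
        (Finset.mem_univ i)
      refine ⟨C ((a i).num * (b i).den * c) + C ((b i).num * (a i).den * c) * X, ?_⟩
      have e1 : ((a i).num : L) = a i * (a i).den := by exact_mod_cast (a i).mul_den_eq_num.symm
      have e2 : ((b i).num : L) = b i * (b i).den := by exact_mod_cast (b i).mul_den_eq_num.symm
      rw [hc]
      simp only [map_add, map_mul, aeval_X, eq_intCast, map_intCast, map_natCast, e1, e2]
      push_cast
      ring
    choose g hg using D2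
    have d1 : Deep ℓ (aeval ι ((ℓ ^ k : ℕ) : ℤ[X]) (N • ℓ • P)) := dp _ _ (N2 _)
    refine ⟨_, fun i => tt (aeval ι (g i) _), ⟨_, dp (D : ℤ[X]) _ d1, rfl⟩, fun e => ?_,
      fun i => ⟨_, dp (g i) _ d1, rfl⟩, fun v hv => ?_⟩
    · have h1 := m3 _ (dp (D : ℤ[X]) _ d1 v₀ hv₀).1 e
      rw [nat, nat, smul_smul, smul_smul, smul_smul] at h1
      exact hR.inf _ (mul_pos (mul_pos (mul_pos D1 (pow_pos hp.pos k)) N1) hp.pos) h1
    · have h0 := H v hv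
      have h1 := h0.val (N2 (ℓ • P) v hv) ((ℓ ^ k : ℕ) : ℤ[X])
      rw [map_natCast (aeval ζ), Nat.cast_pow (α := L), map_pow (vl v)] at h1
      have h2 := h1.trans_le (mul_le_mul_right (N2 (ℓ • P) v hv).2 _)
      have hμ := (d1 v hv).2.trans_lt h0.sq_lt
      refine ⟨(h0.val_le (d1 v hv) _).trans
        (h2.trans (mul_le_of_le_one_right' (pow_le_one' h0.lt.le 2))), fun i => ?_⟩
      have c1 := (h0.cl hμ (d1 v hv).1 le_rfl (D : ℤ[X])).mul (a i + b i * ζ)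
      have c2 := h0.cl hμ (d1 v hv).1 le_rfl (g i)
      rw [map_natCast (aeval ζ), ← mul_assoc, ← hg] at c1
      have c3 := (c1.symm hμ).trans hμ c2
      rw [Cl, Valuation.map_sub_swap, map_mul] at c3
      refine le_of_mul_le_mul_right (c3.trans ?_) h0.pos
      rw [mul_assoc _ (vl v ℓ ^ k)]
      exact mul_le_mul_right (h2.trans (mul_le_mul_right h0.sq_lt.le _)) _

end Pool.Agent.P.MP_e4219a_lc
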