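import Pool.Agent.P.MP_e4219a_lc.Bund

/-! Ratios of local parameters. -/

namespace Pool.Agent.P.MP_e4219a_lc

open NumberField Polynomial
open scoped Classical

namespace Rat2P

section QZ

variable {L : Type} [Field L] [CharZero L] {ℓ : ℕ} {ζ x y : L}

/-- the rational span of `1` and `ζ` -/
def QZ (ζ x : L) : Prop := ∃ a b : ℚ, x = a + b * ζ

omit [CharZero L] in
theorem ze_rel (h : Ze ℓ ζ) : ∃ e : ℚ, (e = 0 ∨ e = 1) ∧ ζ ^ 2 + e * ζ + 1 = 0 := by
  rcases h with ⟨-, h⟩ | ⟨-, h⟩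
  · exact ⟨0, Or.inl rfl, by simpa using h⟩
  · exact ⟨1, Or.inr rfl, by simpa using h⟩

theorem QZ.mul (h : Ze ℓ ζ) (hx : QZ ζ x) (hy : QZ ζ y) : QZ ζ (x * y) := by
  obtain ⟨e, -, he⟩ := ze_rel h
  obtain ⟨a, b, rfl⟩ := hx
  obtain ⟨c, d, rfl⟩ := hy
  exact ⟨a * c - b * d, a * d + b * c - e * b * d, by push_cast; linear_combination (b * d : L) * he⟩

theorem QZ.inv (h : Ze ℓ ζ) (hx : QZ ζ x) : QZ ζ x⁻¹ := by
  obtain ⟨e, he', he⟩ := ze_rel h
  rcases eq_or_ne x 0 with rfl | h0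
  · simpa using hx
  obtain ⟨c, d, rfl⟩ := hx
  have h1 : c ^ 2 - e * c * d + d ^ 2 ≠ 0 := fun h1 => h0 (by
    have hc : c = 0 := by rcases he' with rfl | rfl <;> nlinarith [sq_nonneg (c - d), sq_nonneg (c - 2 * d)]
    have hd : d = 0 := by rw [hc] at h1; nlinarith
    simp [hc, hd])
  have h2 : ((c ^ 2 - e * c * d + d ^ 2 : ℚ) : L) ≠ 0 := by exact_mod_cast h1
  refine ⟨(c - e * d) / (c ^ 2 - e * c * d + d ^ 2), -d / (c ^ 2 - e * c * d + d ^ 2), ?_⟩
  rw [Rat.cast_div, Rat.cast_div, div_mul_eq_mul_div, ← add_div, eq_div_iff h2,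
    inv_mul_eq_iff_eq_mul₀ h0]
  push_cast
  linear_combination (d : L) ^ 2 * he

theorem QZ.poly (h : Ze ℓ ζ) (g : ℤ[X]) : QZ ζ (aeval ζ g) := by
  induction g using Polynomial.induction_on with
  | C a => exact ⟨a, 0, by simp⟩
  | add p q hp hq =>
    obtain ⟨a, b, hp⟩ := hp
    obtain ⟨c, d, hq⟩ := hq
    exact ⟨a + c, b + d, by rw [map_add, hp, hq]; push_cast; ring⟩
  | monomial n a ih =>
    rw [pow_succ, ← mul_assoc, map_mul, aeval_X]
    exact ih.mul h ⟨0, 1, by simp⟩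

end QZ

section Rel

variable {F : Type} [Field F] {w : Valuation F (WithZero (Multiplicative ℤ))}
  {l M : WithZero (Multiplicative ℤ)} {x y z : F}

/-- relative closeness -/
def Rel (w : Valuation F (WithZero (Multiplicative ℤ))) (l M : WithZero (Multiplicative ℤ))
    (x y : F) : Prop := w (x - y) * l ≤ w x * M

theorem Rel.eq (hM : M < l) (h : Rel w l M x y) : w y = w x := by
  have hl : 0 < l := zero_le.trans_lt hM
  rcases eq_or_ne (w x) 0 with h0 | h0
  · rw [Rel, h0, zero_mul, le_zero_iff, mul_eq_zero] at h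
    have h1 := h.resolve_right hl.ne'
    rw [h0, show y = x - (x - y) by ring, ← le_zero_iff]
    exact Valuation.map_sub_le _ h0.le h1.le
  · have h1 : w (x - y) < w x :=
      lt_of_mul_lt_mul_right' (h.trans_lt (mul_lt_mul_of_pos_left hM (zero_lt_iff.2 h0)))
    rw [show y = x - (x - y) by ring]
    exact Valuation.map_sub_eq_of_lt_left _ h1

theorem Rel.symm (hM : M < l) (h : Rel w l M x y) : Rel w l M y x := by
  rw [Rel, h.eq hM, Valuation.map_sub_swap]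
  exact h

theorem Rel.trans (hM : M < l) (h : Rel w l M x y) (h' : Rel w l M y z) : Rel w l M x z := by
  rw [Rel, h.eq hM] at h'
  rw [Rel, show x - z = x - y + (y - z) by ring]
  rcases le_max_iff.1 (w.map_add (x - y) (y - z)) with e | e
  · exact (mul_le_mul_left e l).trans h
  · exact (mul_le_mul_left e l).trans h'

theorem Rel.mul (c : F) (h : Rel w l M x y) : Rel w l M (c * x) (c * y) := by
  rw [Rel, ← mul_sub, map_mul, map_mul, mul_assoc, mul_assoc]
  exact mul_le_mul_right h _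

end Rel

end Rat2P

open Rat2P in
theorem p_rat2 (hF : Z_FG) (hM : Z_Mult) (hN : Z_Fin) : Z_Rat := by
  intro L _ _ ℓ ζ a₃ a₄ ι P T hC hι hR
  have hζ := hC.ze
  have hp := hζ.el.prime
  have l0 : (ℓ : L) ≠ 0 := Nat.cast_ne_zero.2 hp.ne_zero
  obtain ⟨v₀, hv₀⟩ := exists_dv L hp.two_le
  obtain ⟨N, hN1, hN⟩ := hN L ℓ ζ a₃ a₄ hC
  have hz : ∀ v : Pl L, vl v ζ = 1 := fun v => by
    have : ζ ^ 12 = 1 := by
      rcases hζ with ⟨-, h⟩ | ⟨-, h⟩
      · linear_combination (ζ ^ 10 - ζ ^ 8 + ζ ^ 6 - ζ ^ 4 + ζ ^ 2 - 1) * h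
      · linear_combination (ζ - 1) * (ζ ^ 9 + ζ ^ 6 + ζ ^ 3 + 1) * h
    have h1 := congrArg (vl v) this
    rw [map_pow, map_one] at h1
    exact (pow_eq_one_iff_of_nonneg zero_le (by norm_num)).1 h1
  have fg := fun v : Pl L => hF L (vl v) (a₃ : L) a₄ (vl_coe_le v _) (vl_coe_le v _)
  have mu := fun (v : Pl L) (hv : Dv ℓ v) => hM L (Pt (a₃ : L) a₄) (vl v) ℓ ζ ι
    { carrier := {R | E1 (vl v) R}
      zero_mem' := trivial
      add_mem' := fun a b => ((fg v).2 _ _ a b).1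
      neg_mem' := fun a => ((fg v).1 _ a).2.2.1 } tt hζ ((vl_nat_lt v).2 hv) hR.rel rfl
    (fun R h => by
      have h4 := ((fg v).1 _ h).2.2.2
      rcases R with _ | ⟨x, y, h'⟩
      · refine ⟨?_, ?_, h4⟩
        · change E1 _ (ι 0)
          rw [map_zero]
          trivial
        · change tt (ι 0) = ζ * 0
          rw [map_zero, mul_zero]
          rfl
      · obtain ⟨h'', e⟩ := hι x y h'
        refine ⟨?_, ?_, h4⟩
        · change E1 _ (ι _)
          rw [e]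
          change 1 < vl v (x / ζ ^ 2)
          rw [map_div₀, map_pow, hz, one_pow, div_one]
          exact h
        · rw [e]
          change -(x / ζ ^ 2) / (y / ζ ^ 3) = ζ * (-x / y)
          have := hζ.ne_zero
          rcases eq_or_ne y 0 with rfl | hy
          · simp
          · field_simp)
    (fun R a R' b => ((fg v).2 _ _ a b).2) fun R a => ((fg v).1 _ a).1
  have ll : ∀ v : Pl L, Dv ℓ v → vl v ℓ ^ 2 < vl v ℓ := fun v hv => by
    simpa using pow_lt_pow_right_of_lt_one₀ (vl_pos v l0) ((vl_nat_lt v).2 hv) one_lt_two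
  have rel : ∀ (g : ℤ[X]) (R : Pt (a₃ : L) a₄), Deep ℓ R → ∀ v : Pl L, Dv ℓ v → ∀ M, vl v (tt R) ≤ M →
      Rel (vl v) (vl v ℓ) M (aeval ζ g * tt R) (tt (aeval ι g R)) := fun g R h v hv M hM => by
    have := ((mu v hv).2.2.2.2 g R (h v hv).1).2.2 ((h v hv).2.trans_lt (ll v hv))
    rw [Rat2P.Rel, Valuation.map_sub_swap, map_mul, mul_assoc]
    exact this.trans (mul_le_mul_right (by rw [sq]; exact mul_le_mul_right hM _) _)
  have val : ∀ (g : ℤ[X]) (R : Pt (a₃ : L) a₄), Deep ℓ R → ∀ v : Pl L, Dv ℓ v →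
      vl v (tt (aeval ι g R)) = vl v (aeval ζ g) * vl v (tt R) := fun g R h v hv => by
    rw [(rel g R h v hv _ le_rfl).eq ((h v hv).2.trans_lt (ll v hv)), map_mul]
  have dp : ∀ (g : ℤ[X]) (R : Pt (a₃ : L) a₄), Deep ℓ R → Deep ℓ (aeval ι g R) := fun g R h v hv =>
    ⟨((mu v hv).2.2.2.2 g R (h v hv).1).1, by
      rw [val g R h v hv]
      exact (mul_le_of_le_one_left' ((mu v hv).2.2.1 g).1).trans (h v hv).2⟩
  have cst : ∀ (m : ℕ) (R : Pt (a₃ : L) a₄), aeval ι (m : ℤ[X]) R = m • R := fun m R => by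
    rw [map_natCast, Module.End.natCast_apply]
  have dN : ∀ R : Pt (a₃ : L) a₄, Deep ℓ ((N * ℓ) • R) := fun R => by rw [mul_smul]; exact hN _
  have str : ∀ (a : ℕ) (R : Pt (a₃ : L) a₄), ∃ (g : ℤ[X]) (Q : Pt (a₃ : L) a₄), aeval ι g ((N * ℓ) • P) =
      (N * ℓ) • R + aeval ι (-(1 - X : ℤ[X]) ^ a) ((N * ℓ) • Q) := fun a R => by
    induction a with
    | zero => exact ⟨0, R, by simp⟩
    | succ a ih =>
      obtain ⟨g, Q, ih⟩ := ih
      obtain ⟨c₁, c₂, Q', e⟩ := hR.gen Q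
      have e1 : (N * ℓ) • Q = aeval ι (C c₂) ((N * ℓ) • P) + aeval ι (1 - X : ℤ[X]) ((N * ℓ) • Q') := by
        rw [e, smul_add, smul_add, smul_comm _ c₁, mul_smul N ℓ T, hR.tor, smul_zero, smul_zero,
          zero_add, smul_comm _ c₂, map_nsmul (aeval ι (1 - X : ℤ[X]))]
        simp [smul_comm (N * ℓ) c₂]
      refine ⟨g + (1 - X) ^ a * C c₂, Q', ?_⟩
      rw [map_add, LinearMap.add_apply, ih, e1, pow_succ, ← neg_mul, map_mul, map_mul,
        Module.End.mul_apply, Module.End.mul_apply, map_add, map_neg, LinearMap.neg_apply,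
        LinearMap.neg_apply]
      abel
  have m0 : ((N * ℓ : ℕ) : L) ≠ 0 := Nat.cast_ne_zero.2 (mul_ne_zero (by omega) hp.ne_zero)
  have appr : ∀ R : Pt (a₃ : L) a₄, Deep ℓ R → tt R ≠ 0 → ∃ (a : ℕ) (g : ℤ[X]), (∀ v : Pl L, Dv ℓ v → vl v (aeval ζ g) = 1) ∧
      ∀ v : Pl L, Dv ℓ v → ∀ M, vl v (tt R) ≤ M → M < vl v ℓ → Rel (vl v) (vl v ℓ) M ((N * ℓ : ℕ) * tt R)
        (tt (aeval ι (g * (1 - X) ^ a) ((N * ℓ) • P))) := fun R h h0 => by
    have h1 : ∀ v : Pl L, Dv ℓ v → ∀ᶠ a in Filter.atTop,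
        vl v (1 - ζ) ^ a ≤ vl v ((N * ℓ : ℕ) * tt R) ^ 2 := fun v hv => by
      obtain ⟨k, hk⟩ := exists_pow_lt₀ (mu v hv).2.2.2.1
        (Units.mk0 _ (pow_ne_zero 2 (vl_ne v (mul_ne_zero m0 h0))))
      exact (Filter.eventually_ge_atTop k).mono fun a ha =>
        (pow_le_pow_right_of_le_one' (mu v hv).2.2.2.1.le ha).trans hk.le
    obtain ⟨a, ha⟩ := ((finite_dv L hp.ne_zero).eventually_all.2 h1).exists
    obtain ⟨g, Q, e⟩ := str a R
    have h2 : ∀ v : Pl L, Dv ℓ v → ∀ M, vl v (tt R) ≤ M → M < vl v ℓ →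
        Rel (vl v) (vl v ℓ) M ((N * ℓ : ℕ) * tt R) (tt (aeval ι g ((N * ℓ) • P))) :=
      fun v hv M hM hM' => by
        have r1 := rel (N * ℓ : ℕ) R h v hv M hM
        rw [cst, map_natCast (aeval ζ)] at r1
        refine r1.trans hM' ?_
        have r2 := r1.eq hM'
        have r3 : vl v (tt ((N * ℓ) • R)) ≤ M := by
          rw [r2, map_mul]
          exact (mul_le_of_le_one_left' (vl_nat_le v _)).trans hM
        have r4 : vl v (tt (aeval ι (-(1 - X : ℤ[X]) ^ a) ((N * ℓ) • Q))) ≤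
            vl v (tt ((N * ℓ) • R)) ^ 2 := by
          rw [val _ _ (dN Q) v hv, r2]
          refine (mul_le_of_le_one_right' ((dN Q v hv).2.trans (sq_le v ℓ))).trans ?_
          simpa using ha v hv
        have r5 : vl v (tt ((N * ℓ) • R)) ^ 2 ≤ vl v (tt ((N * ℓ) • R)) := by
          rw [sq]
          exact mul_le_of_le_one_right' ((dN R v hv).2.trans (sq_le v ℓ))
        have r6 := ((fg v).2 _ _ (dN R v hv).1 (dp (-(1 - X) ^ a) _ (dN Q) v hv).1).2
        rw [← e, max_eq_left (r4.trans r5)] at r6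
        have r7 := Valuation.map_add_le _ r6 r4
        rw [sub_add_cancel] at r7
        rw [Rat2P.Rel, Valuation.map_sub_swap]
        refine (mul_le_of_le_one_right' (vl_nat_le v ℓ)).trans (r7.trans ?_)
        rw [sq]
        exact mul_le_mul_right r3 _
    have h3 : aeval ζ g ≠ 0 := fun e' => by
      have := (h2 v₀ hv₀ _ le_rfl ((h v₀ hv₀).2.trans_lt (ll v₀ hv₀))).eq
        ((h v₀ hv₀).2.trans_lt (ll v₀ hv₀))
      rw [val _ _ (dN P) v₀ hv₀, e', map_zero, zero_mul] at this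
      exact vl_ne v₀ (mul_ne_zero m0 h0) this.symm
    obtain ⟨b, g₁, h4, h5⟩ := (mu v₀ hv₀).2.1 g h3
    have h6 := (mu v₀ hv₀).1 (g₁ * (1 - X) ^ b - g) (by rw [map_sub, h5]; simp [mul_comm])
    rw [map_sub, sub_eq_zero] at h6
    exact ⟨b, g₁, fun v hv => ((mu v hv).2.2.1 g₁).2 h4, by rw [h6]; exact h2⟩
  constructor
  · rintro _ _ ⟨R, h, rfl⟩ ⟨R', h', rfl⟩ h0
    rcases eq_or_ne (tt R') 0 with h0' | h0'
    · exact ⟨0, 0, fun v _ => by simp [h0']⟩
    obtain ⟨a, g, u, r⟩ := appr R h h0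
    obtain ⟨a', g', u', r'⟩ := appr R' h' h0'
    set P₁ := aeval ι ((1 - X : ℤ[X]) ^ min a a') ((N * ℓ) • P)
    have d1 : Deep ℓ P₁ := dp _ _ (dN P)
    have e : ∀ (g : ℤ[X]) (c : ℕ), min a a' ≤ c → aeval ι (g * (1 - X) ^ c) ((N * ℓ) • P) =
        aeval ι (g * (1 - X) ^ (c - min a a')) P₁ := fun g c hc => by
      rw [← Module.End.mul_apply, ← map_mul, mul_assoc, ← pow_add, Nat.sub_add_cancel hc]
    rw [e g a (min_le_left _ _)] at r
    rw [e g' a' (min_le_right _ _)] at r'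
    set f := g * (1 - X) ^ (a - min a a') with hf
    set f' := g' * (1 - X) ^ (a' - min a a') with hf'
    have f0 : aeval ζ f ≠ 0 := fun e' => by
      have := (r v₀ hv₀ _ le_rfl ((h v₀ hv₀).2.trans_lt (ll v₀ hv₀))).eq
        ((h v₀ hv₀).2.trans_lt (ll v₀ hv₀))
      rw [val _ _ d1 v₀ hv₀, e', map_zero, zero_mul] at this
      exact vl_ne v₀ (mul_ne_zero m0 h0) this.symm
    obtain ⟨x, y, hxy⟩ := (QZ.poly hζ f').mul hζ ((QZ.poly hζ f).inv hζ)
    refine ⟨x, y, fun v hv => ?_⟩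
    have hM : max (vl v (tt R)) (vl v (tt R')) < vl v ℓ :=
      (max_le (h v hv).2 (h' v hv).2).trans_lt (ll v hv)
    have s := r v hv _ (le_max_left _ _) hM
    have s' := r' v hv _ (le_max_right _ _) hM
    have b : vl v (tt P₁) ≤ max (vl v (tt R)) (vl v (tt R')) := by
      rcases le_total a a' with c | c
      · have := s.eq hM
        rw [val _ _ d1 v hv, hf, min_eq_left c, Nat.sub_self, pow_zero, mul_one, u v hv, one_mul,
          map_mul] at this
        exact this.le.trans ((mul_le_of_le_one_left' (vl_nat_le v _)).trans (le_max_left _ _))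
      · have := s'.eq hM
        rw [val _ _ d1 v hv, hf', min_eq_right c, Nat.sub_self, pow_zero, mul_one, u' v hv, one_mul,
          map_mul] at this
        exact this.le.trans ((mul_le_of_le_one_left' (vl_nat_le v _)).trans (le_max_right _ _))
    have s1 := (s.trans hM ((rel f P₁ d1 v hv _ b).symm hM)).mul (aeval ζ f' * (aeval ζ f)⁻¹)
    have s2 := s'.trans hM ((rel f' P₁ d1 v hv _ b).symm hM)
    rw [← mul_assoc _ (aeval ζ f), inv_mul_cancel_right₀ f0] at s1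
    have s3 := (s2.trans hM (s1.symm hM)).mul ((N * ℓ : ℕ) : L)⁻¹
    rwa [inv_mul_cancel_left₀ m0, mul_left_comm (_ * _), inv_mul_cancel_left₀ m0, hxy] at s3
  · intro κ _ a b k
    obtain ⟨D, D0, hD⟩ : ∃ D : ℕ, D ≠ 0 ∧ ∀ i, ∃ g : ℤ[X], aeval ζ g = (a i + b i * ζ) * D := by
      refine ⟨∏ i, (a i).den * (b i).den, Finset.prod_ne_zero_iff.2 fun i _ =>
        mul_ne_zero (a i).den_ne_zero (b i).den_ne_zero, fun i => ?_⟩
      obtain ⟨c, hc⟩ := Finset.dvd_prod_of_mem (fun i => (a i).den * (b i).den) (Finset.mem_univ i)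
      refine ⟨(C ((a i).num * (b i).den) + C ((b i).num * (a i).den) * X) * (c : ℤ[X]), ?_⟩
      have e1 : ((a i).num : L) = a i * (a i).den := by exact_mod_cast (Rat.mul_den_eq_num _).symm
      have e2 : ((b i).num : L) = b i * (b i).den := by exact_mod_cast (Rat.mul_den_eq_num _).symm
      rw [hc]
      simp only [map_mul, map_add, aeval_X, map_natCast, eq_intCast, e1, e2, Nat.cast_mul,
        map_intCast]
      ring
    choose g hg using hD
    set P₁ := aeval ι ((ℓ ^ k : ℕ) : ℤ[X]) ((N * ℓ) • P) with hP₁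
    have d1 : Deep ℓ P₁ := dp _ _ (dN P)
    refine ⟨tt (aeval ι (D : ℤ[X]) P₁), fun i => tt (aeval ι (g i) P₁), ⟨_, dp _ _ d1, rfl⟩,
      fun e => ?_, fun i => ⟨_, dp _ _ d1, rfl⟩, fun v hv => ?_⟩
    · have := ((fg v₀).1 _ (dp D _ d1 v₀ hv₀).1).2.1 e
      rw [cst, hP₁, cst, ← mul_smul, ← mul_smul] at this
      exact hR.inf _ (Nat.one_le_iff_ne_zero.2 (mul_ne_zero (mul_ne_zero D0
        (pow_ne_zero _ hp.ne_zero)) (mul_ne_zero (by omega) hp.ne_zero))) this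
    have b1 : vl v (tt P₁) ≤ vl v ℓ ^ k * vl v ℓ ^ 2 := by
      rw [val _ _ (dN P) v hv, map_natCast (aeval ζ), Nat.cast_pow, map_pow]
      exact mul_le_mul_right (dN P v hv).2 _
    have hM : vl v ℓ ^ k * vl v ℓ ^ 2 < vl v ℓ :=
      (mul_le_of_le_one_left' (pow_le_one' (vl_nat_le v ℓ) k)).trans_lt (ll v hv)
    refine ⟨?_, fun i => ?_⟩
    · rw [val _ _ d1 v hv]
      exact (mul_le_of_le_one_left' ((mu v hv).2.2.1 _).1).trans
        (b1.trans (mul_le_of_le_one_right' (sq_le v ℓ)))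
    have s1 := ((rel D P₁ d1 v hv _ b1).symm hM).mul (a i + b i * ζ)
    have s2 := rel (g i) P₁ d1 v hv _ b1
    rw [map_natCast (aeval ζ), ← mul_assoc, ← hg] at s1
    have s3 := s1.trans hM s2
    rw [Rat2P.Rel, Valuation.map_sub_swap, map_mul, sq, ← mul_assoc, ← mul_assoc] at s3
    exact (le_of_mul_le_mul_right s3 (vl_pos v l0)).trans
      (mul_le_of_le_one_right' (vl_nat_le v ℓ))

end Pool.Agent.P.MP_e4219a_lc
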