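import Pool.Agent.P.MP_e4219a_lc.Bund

/-! Large quadratic Weyl sums. -/

namespace Pool.Agent.P.MP_e4219a_lc

open Finset
open scoped Classical ComplexConjugate

namespace W2P

/-- the additive character of the circle -/
noncomputable def ch (x : UnitAddCircle) : ℂ := AddCircle.toCircle x

theorem ch_add (x y : UnitAddCircle) : ch (x + y) = ch x * ch y := by
  simp [ch, AddCircle.toCircle_add]

theorem ch_zero : ch 0 = 1 := by simp [ch]

theorem norm_ch (x : UnitAddCircle) : ‖ch x‖ = 1 := Circle.norm_coe _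

theorem ch_mul_conj (x : UnitAddCircle) : ch x * conj (ch x) = 1 := by
  rw [Complex.mul_conj, Complex.normSq_eq_norm_sq, norm_ch]; simp

theorem ch_nsmul (n : ℕ) (x : UnitAddCircle) : ch (n • x) = ch x ^ n := by
  induction n with
  | zero => simp [ch_zero]
  | succ n ih => rw [succ_nsmul, ch_add, ih, pow_succ]

theorem fourier_nat (n : ℕ) (x : UnitAddCircle) : fourier (n : ℤ) x = ch (n • x) := by
  rw [fourier_apply, natCast_zsmul]; rfl

theorem le_norm_ch (x : UnitAddCircle) : 4 * ‖x‖ ≤ ‖ch x - 1‖ := by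
  obtain ⟨t, rfl⟩ := QuotientAddGroup.mk_surjective x
  set u : ℝ := t - round t with hu
  have h1 : ((u : ℝ) : UnitAddCircle) = (t : UnitAddCircle) := by
    rw [hu, AddCircle.coe_sub]
    have : (((round t : ℤ) : ℝ) : UnitAddCircle) = 0 := by
      rw [AddCircle.coe_eq_zero_iff]; exact ⟨round t, by simp⟩
    rw [this, sub_zero]
  have h2 : |u| ≤ 1 / 2 := abs_sub_round t
  have h3 : ‖(t : UnitAddCircle)‖ = |u| := UnitAddCircle.norm_eq
  change 4 * ‖(t : UnitAddCircle)‖ ≤ ‖ch (t : UnitAddCircle) - 1‖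
  rw [h3, ← h1]
  have h4 : ch ((u : ℝ) : UnitAddCircle) = Complex.exp (Complex.I * ((2 * Real.pi * u : ℝ) : ℂ)) := by
    rw [ch, AddCircle.toCircle_apply_mk, Circle.coe_exp]
    congr 1
    push_cast
    ring
  rw [h4, Complex.norm_exp_I_mul_ofReal_sub_one]
  have h5 : 2 * Real.pi * u / 2 = Real.pi * u := by ring
  rw [h5, Real.norm_eq_abs, abs_mul, abs_two]
  have hpi := Real.pi_pos
  have h6 : |Real.pi * u| ≤ Real.pi / 2 := by
    rw [abs_mul, abs_of_pos hpi]; nlinarith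
  have h7 := Real.mul_abs_le_abs_sin h6
  rw [abs_mul, abs_of_pos hpi] at h7
  have h8 : 2 / Real.pi * (Real.pi * |u|) = 2 * |u| := by field_simp
  rw [h8] at h7
  linarith

theorem geom_le (x : UnitAddCircle) (m : ℕ) :
    ‖∑ w ∈ range m, ch (w • x)‖ * (2 * ‖x‖) ≤ 1 := by
  have h1 : (∑ w ∈ range m, ch (w • x)) * (ch x - 1) = ch x ^ m - 1 := by
    simp only [ch_nsmul]; exact geom_sum_mul _ _
  have h2 : ‖ch x ^ m - 1‖ ≤ 2 := by
    refine (norm_sub_le _ _).trans ?_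
    rw [norm_pow, norm_ch, one_pow, norm_one]; norm_num
  rw [← h1, norm_mul] at h2
  have h3 := le_norm_ch x
  have h4 := norm_nonneg (∑ w ∈ range m, ch (w • x))
  nlinarith

theorem geom_le' (x : UnitAddCircle) (m : ℕ) : ‖∑ w ∈ range m, ch (w • x)‖ ≤ m := by
  refine (norm_sum_le _ _).trans ?_
  simp [norm_ch]

theorem sq_le_re (z : ℕ → ℂ) (n : ℕ) :
    ‖∑ a ∈ range n, z a‖ ^ 2 ≤
      2 * (∑ a ∈ range n, z a * conj (∑ b ∈ range (a + 1), z b)).re := by
  induction n with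
  | zero => simp
  | succ n ih =>
    rw [sum_range_succ, sum_range_succ (fun a => z a * conj (∑ b ∈ range (a + 1), z b)),
      sum_range_succ z n, Complex.add_re]
    generalize (∑ a ∈ range n, z a * conj (∑ b ∈ range (a + 1), z b)).re = U at ih ⊢
    generalize ∑ a ∈ range n, z a = S at ih ⊢
    rw [← Complex.normSq_eq_norm_sq] at ih ⊢
    simp only [Complex.normSq_apply, Complex.add_re, Complex.add_im, Complex.mul_re,
      Complex.conj_re, Complex.conj_im] at ih ⊢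
    nlinarith [sq_nonneg (z n).re, sq_nonneg (z n).im]

theorem differ (z : ℕ → ℂ) (n : ℕ) :
    ‖∑ a ∈ range n, z a‖ ^ 2 ≤
      2 * ∑ h ∈ range n, ‖∑ w ∈ range (n - h), z (w + h) * conj (z w)‖ := by
  refine (sq_le_re z n).trans ?_
  have h1 : ∑ a ∈ range n, z a * conj (∑ b ∈ range (a + 1), z b) =
      ∑ h ∈ range n, ∑ w ∈ range (n - h), z (w + h) * conj (z w) := by
    rw [← sum_range_diag_flip n (fun h w => z (w + h) * conj (z w))]
    refine sum_congr rfl fun a _ => ?_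
    rw [map_sum, mul_sum, ← sum_range_reflect]
    refine sum_congr rfl fun k hk => ?_
    have hk' : k ≤ a := Nat.lt_succ_iff.1 (mem_range.1 hk)
    rw [Nat.sub_add_cancel hk']
    simp
  rw [h1]
  refine mul_le_mul_of_nonneg_left ((Complex.re_le_norm _).trans (norm_sum_le _ _)) (by norm_num)

theorem weyl (α β : UnitAddCircle) (n : ℕ) :
    ‖∑ w ∈ Icc 1 n, fourier ((w ^ 2 : ℕ) : ℤ) α * fourier (w : ℤ) β‖ ^ 2 ≤
      2 * ∑ h ∈ range n, ‖∑ w ∈ range (n - h), ch (w • h • 2 • α)‖ := by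
  set z : ℕ → ℂ := fun a => ch (((a + 1) ^ 2) • α + (a + 1) • β) with hz
  have h1 : ∑ w ∈ Icc 1 n, fourier ((w ^ 2 : ℕ) : ℤ) α * fourier (w : ℤ) β =
      ∑ a ∈ range n, z a := by
    rw [← Ico_add_one_right_eq_Icc, sum_Ico_eq_sum_range, Nat.add_sub_cancel]
    refine sum_congr rfl fun a _ => ?_
    rw [fourier_nat, fourier_nat, ← ch_add, add_comm 1 a]
  rw [h1]
  refine (differ z n).trans (le_of_eq ?_)
  congr 1
  refine sum_congr rfl fun h _ => ?_
  have h2 : ∀ w, z (w + h) * conj (z w) =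
      ch ((h ^ 2 + 2 * h) • α + h • β) * ch (w • h • 2 • α) := by
    intro w
    have h3 : z (w + h) = ch ((h ^ 2 + 2 * h) • α + h • β) * ch (w • h • 2 • α) * z w := by
      simp only [hz]
      rw [← ch_add, ← ch_add]
      congr 1
      have e1 : (w + h + 1) ^ 2 = (h ^ 2 + 2 * h) + w * (h * 2) + (w + 1) ^ 2 := by ring
      have e2 : w + h + 1 = h + (w + 1) := by ring
      rw [e1, e2, add_nsmul, add_nsmul, add_nsmul β h, smul_smul, smul_smul, mul_assoc]
      abel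
    rw [h3, mul_assoc]
    simp only [hz]
    rw [ch_mul_conj, mul_one]
  simp only [h2]
  rw [← mul_sum, norm_mul, norm_ch, one_mul]

theorem count (γ : UnitAddCircle) (Y n : ℕ) (hn : n ≤ Y) (ε : ℝ) (hε : 0 < ε) :
    ∑ h ∈ range n, ‖∑ w ∈ range (n - h), ch (w • h • γ)‖ ≤
      Y + Y * (((Icc 1 Y).filter fun h : ℕ => ‖h • γ‖ ≤ ε).card : ℝ) + Y * (1 / (2 * ε)) := by
  have hY : ∀ h, ‖∑ w ∈ range (n - h), ch (w • h • γ)‖ ≤ Y := fun h =>
    (geom_le' _ _).trans (by exact_mod_cast (Nat.sub_le n h).trans hn)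
  have hsub : range n ⊆ insert 0 (Icc 1 Y) := by
    intro h hh
    have := mem_range.1 hh
    rw [mem_insert, mem_Icc]; omega
  have h0 : (0 : ℝ) ≤ 1 / (2 * ε) := by positivity
  calc ∑ h ∈ range n, ‖∑ w ∈ range (n - h), ch (w • h • γ)‖
      ≤ ∑ h ∈ insert 0 (Icc 1 Y), ‖∑ w ∈ range (n - h), ch (w • h • γ)‖ :=
        sum_le_sum_of_subset_of_nonneg hsub fun _ _ _ => norm_nonneg _
    _ = ‖∑ w ∈ range (n - 0), ch (w • 0 • γ)‖ +
          ∑ h ∈ Icc 1 Y, ‖∑ w ∈ range (n - h), ch (w • h • γ)‖ := sum_insert (by simp)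
    _ ≤ Y + ∑ h ∈ Icc 1 Y, ((if ‖h • γ‖ ≤ ε then (Y : ℝ) else 0) + 1 / (2 * ε)) := by
        refine add_le_add (hY 0) (sum_le_sum fun h _ => ?_)
        split_ifs with hh
        · linarith [hY h]
        · rw [zero_add, le_div_iff₀ (by positivity)]
          refine le_trans ?_ (geom_le (h • γ) (n - h))
          exact mul_le_mul_of_nonneg_left (by linarith [not_le.1 hh]) (norm_nonneg _)
    _ = _ := by
        rw [sum_add_distrib, ← sum_filter, sum_const, sum_const, Nat.card_Icc,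
          Nat.add_sub_cancel, nsmul_eq_mul, nsmul_eq_mul]
        ring

end W2P

open W2P in
theorem p_w2 (hV : Z_Vin) : Z_W2 := by
  obtain ⟨C, hC, hV⟩ := hV
  refine ⟨4 * C + 5, by omega, fun Y Y' η α β hη hη2 hY hC' hS => ?_⟩
  have hη1 : η ≤ 1 := by linarith
  have hpow : ∀ {a b : ℕ}, a ≤ b → η ^ b ≤ η ^ a := fun h => pow_le_pow_of_le_one hη.le hη1 h
  have hY0 : (0 : ℝ) < Y := by
    rcases Nat.eq_zero_or_pos Y with h | h
    · rw [h] at hC'; norm_num at hC'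
    · exact_mod_cast h
  have h4 : 0 < η ^ 4 := by positivity
  have hsq : η ^ 2 ≤ 1 / 4 := by nlinarith
  have h42 : η ^ 4 ≤ η ^ 2 / 4 := by nlinarith [sq_nonneg η]
  have h5 : η ^ 5 ≤ 1 / 2 := (hpow (a := 1) (by norm_num)).trans (by simpa using hη2)
  have h9 : 1 ≤ η ^ 6 * Y :=
    hC'.trans (mul_le_mul_of_nonneg_right (hpow (by omega)) hY0.le)
  have h8 : 8 ≤ η ^ 2 * Y := by
    have e : η ^ 6 * Y = η ^ 4 * (η ^ 2 * Y) := by ring
    have h16 : η ^ 4 ≤ 1 / 16 := by linarith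
    have : 0 ≤ η ^ 2 * Y := by positivity
    nlinarith
  set ε : ℝ := 1 / (η ^ 4 * Y) with hε
  have hε0 : 0 < ε := by positivity
  have hσ : (η ^ 4) ^ C = η ^ (4 * C) := by rw [← pow_mul]
  have hA : 1 ≤ η ^ (4 * C) * (η ^ 4 * Y) := by
    rw [← mul_assoc, ← pow_add]
    exact hC'.trans (mul_le_mul_of_nonneg_right (hpow (by omega)) hY0.le)
  set G : ℝ := (((Icc 1 Y).filter fun h : ℕ => ‖h • (2 • α)‖ ≤ ε).card : ℝ) with hG
  have hcount : η ^ 4 * Y ≤ G := by
    have h1 := weyl α β Y'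
    have h2 := count (2 • α) Y Y' hY ε hε0
    have h3 : (η * Y) ^ 2 ≤ 2 * (Y + Y * G + Y * (1 / (2 * ε))) :=
      (pow_le_pow_left₀ (by positivity) hS 2).trans (h1.trans (by linarith))
    have h6 : 1 / (2 * ε) = η ^ 4 * Y / 2 := by rw [hε]; field_simp
    rw [h6] at h3
    have h7 : η ^ 2 * Y ≤ 2 + 2 * G + η ^ 4 * Y := by
      refine le_of_mul_le_mul_left ?_ hY0
      nlinarith
    have h10 : η ^ 4 * Y ≤ η ^ 2 / 4 * Y := mul_le_mul_of_nonneg_right h42 hY0.le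
    nlinarith
  obtain ⟨q, hq, hq1, hq2⟩ := hV Y (η ^ 4) ε (2 • α) h4 (by linarith) hε0.le
    (by rw [hσ, hε, div_le_iff₀ (by positivity)]; exact hA)
    (by
      rw [hσ]
      exact hC'.trans (mul_le_mul_of_nonneg_right (hpow (by omega)) hY0.le)) hcount
  rw [hσ] at hq1 hq2
  refine ⟨q * 2, by omega, ?_, ?_⟩
  · have e : ((q * 2 : ℕ) : ℝ) * η ^ (4 * C + 5) = q * η ^ (4 * C) * (2 * η ^ 5) := by
      push_cast; ring
    rw [e]
    exact mul_le_one₀ hq1 (by positivity) (by linarith)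
  · have e : ‖(q * 2) • α‖ * (η ^ (4 * C + 5) * (Y : ℝ) ^ 2) =
        ‖q • 2 • α‖ * (η ^ (4 * C) * Y) * (η ^ 5 * Y) := by
      rw [mul_smul]; ring
    rw [e]
    refine (mul_le_mul_of_nonneg_right hq2 (by positivity)).trans ?_
    have e2 : ε * (η ^ 5 * Y) = η := by rw [hε]; field_simp
    rw [e2]; exact hη1

end Pool.Agent.P.MP_e4219a_lc
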